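import Pool.Agent.Lib.MP_823829_an.H98.AreaS

/-! The area formula under the agreed name. -/

namespace Pool.Agent.Lib.MP_823829_an.LA

theorem areaS : AreaS := areaS98

end Pool.Agent.Lib.MP_823829_an.LA
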