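import Mathlib

/-! Local analytic geometry: definitions. -/

namespace Pool.Agent.Lib.MP_823829_an.LA

open Set Filter Topology Metric

section
variable {E : Type} [NormedAddCommGroup E] [NormedSpace ℂ E]

/-- Near `p` the set `Y` is the common zero set of finitely many holomorphic functions. -/
def AnAt (Y : Set E) (p : E) : Prop :=
  ∃ (V : Set E) (r : ℕ) (f : E → Fin r → ℂ), IsOpen V ∧ p ∈ V ∧ DifferentiableOn ℂ f V ∧
    ∀ x ∈ V, (x ∈ Y ↔ f x = 0)

/-- `Y` is analytic near every point of `U` (no inclusion `Y ⊆ U` is asked). -/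
def AnOn (Y U : Set E) : Prop := ∀ p ∈ U, AnAt Y p

/-- `S` is covered by countably many holomorphic images of open subsets of `ℂ^k`. -/
def Thin (k : ℕ) (S : Set E) : Prop :=
  ∃ (B : ℕ → Set (Fin k → ℂ)) (φ : ℕ → (Fin k → ℂ) → E), (∀ j, IsOpen (B j)) ∧
    (∀ j, DifferentiableOn ℂ (φ j) (B j)) ∧ S ⊆ ⋃ j, φ j '' B j

/-- `h` does not vanish identically near any point of `U`. -/
def NZ (h : E → ℂ) (U : Set E) : Prop := ∀ x ∈ U, ∃ᶠ y in 𝓝 x, h y ≠ 0

/-- injective holomorphic immersion of the open set `B` -/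
structure Imm {G : Type} [NormedAddCommGroup G] [NormedSpace ℂ G] (φ : G → E) (B : Set G) :
    Prop where
  op : IsOpen B
  hol : DifferentiableOn ℂ φ B
  inj : InjOn φ B
  imm : ∀ w ∈ B, Function.Injective (fderiv ℂ φ w)

end

section
variable {T F : Type} [NormedAddCommGroup T] [NormedSpace ℂ T]
  [NormedAddCommGroup F] [NormedSpace ℂ F]

/-- the part of `Y` over `U` -/
def ov (Y : Set (T × F)) (U : Set T) : Set (T × F) := {q | q ∈ Y ∧ q.1 ∈ U}

/-- `Y` is analytic over `U`, with bounded fibres. -/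
def BdAn (Y : Set (T × F)) (U : Set T) : Prop :=
  AnOn Y (U ×ˢ univ) ∧ ∃ R : ℝ, ∀ q ∈ Y, q.1 ∈ U → ‖q.2‖ ≤ R

/-- Over a neighbourhood of `t₀` the set `C` is a union of `d` disjoint holomorphic graphs. -/
def CovAt (d : ℕ) (C : Set (T × F)) (t₀ : T) : Prop :=
  ∃ (V : Set T) (s : Fin d → T → F), IsOpen V ∧ t₀ ∈ V ∧ (∀ i, DifferentiableOn ℂ (s i) V) ∧
    (∀ t ∈ V, Function.Injective fun i => s i t) ∧ ∀ t ∈ V, ∀ y, ((t, y) ∈ C ↔ ∃ i, y = s i t)

/-- `C` is an unbranched covering with `d` sheets over `N`. -/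
def Cov (d : ℕ) (C : Set (T × F)) (N : Set T) : Prop := ∀ t ∈ N, CovAt d C t

/-- holomorphic family of monic polynomials, given by its roots -/
def Mon {d : ℕ} (a : T → Fin d → ℂ) (U : Set T) : Prop :=
  ∀ w : ℂ, DifferentiableOn ℂ (fun t => ∏ i, (w - a t i)) U

/-- multigraph: all canonical polynomials have holomorphic coefficients -/
def MG {d : ℕ} (τ : T → Fin d → F) (U : Set T) : Prop :=
  ∀ ξ : F →L[ℂ] ℂ, Mon (fun t i => ξ (τ t i)) U

/-- support of a multigraph -/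
def supp {d : ℕ} (τ : T → Fin d → F) : Set (T × F) := {q | ∃ i, q.2 = τ q.1 i}

/-- `Y` misses arbitrarily small shells around `q`. -/
def Box (Y : Set (T × F)) (q : T × F) : Prop :=
  ∀ η > (0 : ℝ), ∃ ε ρ₁ ρ₂ : ℝ, 0 < ε ∧ ε < η ∧ 0 < ρ₁ ∧ ρ₁ < ρ₂ ∧ ρ₂ < η ∧
    ∀ x ∈ Y, dist x.1 q.1 ≤ ε → dist x.2 q.2 ≤ ρ₂ → dist x.2 q.2 < ρ₁

/-- points near which `Y` is the graph of a holomorphic map over an open subset of `T` -/
def Reg (Y : Set (T × F)) : Set (T × F) :=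
  {q | q ∈ Y ∧ ∃ (U : Set T) (W : Set F) (s : T → F), IsOpen U ∧ IsOpen W ∧ q.1 ∈ U ∧ q.2 ∈ W ∧
    DifferentiableOn ℂ s U ∧ MapsTo s U W ∧ ∀ t ∈ U, ∀ y ∈ W, ((t, y) ∈ Y ↔ y = s t)}

end

/-- the set of common roots of a system of monic polynomials, one for each coordinate -/
def monSet {T : Type} {m : ℕ} {d : Fin m → ℕ} (a : ∀ j, T → Fin (d j) → ℂ) :
    Set (T × (Fin m → ℂ)) := {q | ∀ j, ∃ i, q.2 j = a j q.1 i}

/-- limit of a family of sets along a filter (used with ultrafilters) -/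
def ulim {X ι : Type} [TopologicalSpace X] (l : Filter ι) (Z : ι → Set X) : Set X :=
  {q | ∀ W ∈ 𝓝 q, ∀ᶠ j in l, (W ∩ Z j).Nonempty}

end Pool.Agent.Lib.MP_823829_an.LA
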