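import Mathlib
import Pool.Agent.Lib.MP_823829_an.LA.Defs

/-! Local analytic geometry: statements of the first layer. -/

namespace Pool.Agent.Lib.MP_823829_an.LA

open Set Filter Topology Metric MeasureTheory Module
open scoped ENNReal NNReal

/-! ### Holomorphic functions -/

/-- locally bounded and holomorphic along every complex line implies holomorphic -/
def LineS : Prop :=
  ∀ (E F : Type) [NormedAddCommGroup E] [NormedSpace ℂ E] [FiniteDimensional ℂ E]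
    [NormedAddCommGroup F] [NormedSpace ℂ F] [CompleteSpace F] (f : E → F) (U : Set E),
    IsOpen U → (∀ x ∈ U, ∃ C : ℝ, ∀ᶠ y in 𝓝 x, ‖f y‖ ≤ C) →
    (∀ x ∈ U, ∀ v : E, DifferentiableAt ℂ (fun s : ℂ => f (x + s • v)) 0) →
    DifferentiableOn ℂ f U

/-- parametric integrals -/
def ParS : Prop :=
  ∀ (T Θ : Type) [NormedAddCommGroup T] [NormedSpace ℂ T] [FiniteDimensional ℂ T]
    [MeasurableSpace Θ] (μ : Measure Θ) (Φ : T → Θ → ℂ) (U : Set T) (b : Θ → ℝ),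
    IsOpen U → (∀ t ∈ U, AEStronglyMeasurable (Φ t) μ) →
    (∀ᵐ θ ∂μ, DifferentiableOn ℂ (fun t => Φ t θ) U) →
    (∀ᵐ θ ∂μ, ∀ t ∈ U, ‖Φ t θ‖ ≤ b θ) → Integrable b μ →
    DifferentiableOn ℂ (fun t => ∫ θ, Φ t θ ∂μ) U

/-- parametric circle integrals -/
def CircS : Prop :=
  ∀ (T : Type) [NormedAddCommGroup T] [NormedSpace ℂ T] [FiniteDimensional ℂ T]
    (Φ : T × ℂ → ℂ) (V : Set (T × ℂ)) (U : Set T) (c : ℂ) (r : ℝ),
    IsOpen V → IsOpen U → 0 < r → U ×ˢ sphere c r ⊆ V → DifferentiableOn ℂ Φ V →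
    DifferentiableOn ℂ (fun t => ∮ s in C(c, r), Φ (t, s)) U

/-- pointwise limits of uniformly bounded holomorphic functions along a filter -/
def UltS : Prop :=
  ∀ (T ι : Type) [NormedAddCommGroup T] [NormedSpace ℂ T] [FiniteDimensional ℂ T]
    (l : Filter ι) [l.NeBot] (f : ι → T → ℂ) (g : T → ℂ) (U : Set T) (C : ℝ), IsOpen U →
    (∀ᶠ j in l, DifferentiableOn ℂ (f j) U ∧ ∀ t ∈ U, ‖f j t‖ ≤ C) →
    (∀ t ∈ U, Tendsto (fun j => f j t) l (𝓝 (g t))) →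
    DifferentiableOn ℂ g U ∧ TendstoLocallyUniformlyOn f g l U

/-- Riemann extension theorem -/
def RiemS : Prop :=
  ∀ (T : Type) [NormedAddCommGroup T] [NormedSpace ℂ T] [FiniteDimensional ℂ T]
    (f δ : T → ℂ) (U : Set T), IsOpen U → DifferentiableOn ℂ δ U → NZ δ U →
    DifferentiableOn ℂ f (U ∩ {t | δ t ≠ 0}) →
    (∀ x ∈ U, ∃ C : ℝ, ∀ᶠ y in 𝓝 x, δ y ≠ 0 → ‖f y‖ ≤ C) →
    ∃ g : T → ℂ, DifferentiableOn ℂ g U ∧ ∀ t ∈ U, δ t ≠ 0 → g t = f t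

/-- a hypersurface does not separate -/
def ConnS : Prop :=
  ∀ (T : Type) [NormedAddCommGroup T] [NormedSpace ℂ T] [FiniteDimensional ℂ T]
    (δ : T → ℂ) (U : Set T), IsOpen U → IsPreconnected U → DifferentiableOn ℂ δ U → NZ δ U →
    IsPreconnected (U ∩ {t | δ t ≠ 0})

/-! ### Thin sets -/

structure ThinS : Prop where
  mono : ∀ {E : Type} [NormedAddCommGroup E] [NormedSpace ℂ E] {k : ℕ} {S S' : Set E},
    Thin k S' → S ⊆ S' → Thin k S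
  empty : ∀ {E : Type} [NormedAddCommGroup E] [NormedSpace ℂ E] (k : ℕ), Thin k (∅ : Set E)
  iUnion : ∀ {E ι : Type} [NormedAddCommGroup E] [NormedSpace ℂ E] [Countable ι] {k : ℕ}
    {S : ι → Set E}, (∀ i, Thin k (S i)) → Thin k (⋃ i, S i)
  union : ∀ {E : Type} [NormedAddCommGroup E] [NormedSpace ℂ E] {k : ℕ} {S S' : Set E},
    Thin k S → Thin k S' → Thin k (S ∪ S')
  ofImage : ∀ {E G : Type} [NormedAddCommGroup E] [NormedSpace ℂ E] [NormedAddCommGroup G]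
    [NormedSpace ℂ G] [FiniteDimensional ℂ G] {k : ℕ} {φ : G → E} {W : Set G},
    finrank ℂ G ≤ k → IsOpen W → DifferentiableOn ℂ φ W → Thin k (φ '' W)
  image : ∀ {E F : Type} [NormedAddCommGroup E] [NormedSpace ℂ E] [NormedAddCommGroup F]
    [NormedSpace ℂ F] {k : ℕ} {S V : Set E} {ψ : E → F},
    Thin k S → IsOpen V → S ⊆ V → DifferentiableOn ℂ ψ V → Thin k (ψ '' S)
  le : ∀ {E : Type} [NormedAddCommGroup E] [NormedSpace ℂ E] {k l : ℕ} {S : Set E},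
    Thin k S → k ≤ l → Thin l S
  zero : ∀ {E : Type} [NormedAddCommGroup E] [NormedSpace ℂ E] {S : Set E},
    Thin 0 S ↔ S.Countable
  loc : ∀ {E : Type} [NormedAddCommGroup E] [NormedSpace ℂ E] [FiniteDimensional ℂ E] {k : ℕ}
    {S : Set E}, (∀ p ∈ S, ∃ V ∈ 𝓝 p, Thin k (S ∩ V)) → Thin k S
  prod : ∀ {E F : Type} [NormedAddCommGroup E] [NormedSpace ℂ E] [NormedAddCommGroup F]
    [NormedSpace ℂ F] {k l : ℕ} {S : Set E} {S' : Set F}, Thin k S → Thin l S' →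
    Thin (k + l) (S ×ˢ S')
  haus : ∀ {E : Type} [NormedAddCommGroup E] [NormedSpace ℂ E] [FiniteDimensional ℂ E]
    [MeasurableSpace E] [BorelSpace E] {k : ℕ} {S : Set E} {s : ℝ},
    Thin k S → 2 * (k : ℝ) < s → μH[s] S = 0
  null : ∀ {E : Type} [NormedAddCommGroup E] [NormedSpace ℂ E] [FiniteDimensional ℂ E]
    [MeasurableSpace E] [BorelSpace E] (μ : Measure E) [μ.IsAddHaarMeasure] {k : ℕ} {S : Set E},
    Thin k S → k < finrank ℂ E → μ S = 0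
  dense : ∀ {E : Type} [NormedAddCommGroup E] [NormedSpace ℂ E] [FiniteDimensional ℂ E]
    {k : ℕ} {S : Set E}, Thin k S → k < finrank ℂ E → Dense Sᶜ
  notImm : ∀ {E G : Type} [NormedAddCommGroup E] [NormedSpace ℂ E] [FiniteDimensional ℂ E]
    [NormedAddCommGroup G] [NormedSpace ℂ G] [FiniteDimensional ℂ G] {k : ℕ} {φ : G → E}
    {W : Set G} {w : G}, IsOpen W → w ∈ W → DifferentiableOn ℂ φ W →
    Function.Injective (fderiv ℂ φ w) → k < finrank ℂ G → ¬ Thin k (φ '' W)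
  hausImm : ∀ {E G : Type} [NormedAddCommGroup E] [NormedSpace ℂ E] [FiniteDimensional ℂ E]
    [MeasurableSpace E] [BorelSpace E]
    [NormedAddCommGroup G] [NormedSpace ℂ G] [FiniteDimensional ℂ G] {φ : G → E}
    {W : Set G} {w : G} {s : ℝ}, IsOpen W → w ∈ W → DifferentiableOn ℂ φ W →
    Function.Injective (fderiv ℂ φ w) → 0 ≤ s → s ≤ 2 * (finrank ℂ G : ℝ) → μH[s] (φ '' W) ≠ 0

/-- zero sets are covered by countably many immersed hypersurfaces -/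
def ZeroS : Prop :=
  ∀ (E : Type) [NormedAddCommGroup E] [NormedSpace ℂ E] [FiniteDimensional ℂ E] (k : ℕ)
    (h : E → ℂ) (U : Set E), finrank ℂ E = k + 1 → IsOpen U → DifferentiableOn ℂ h U → NZ h U →
    ∃ (B : ℕ → Set (Fin k → ℂ)) (φ : ℕ → (Fin k → ℂ) → E), (∀ j, Imm (φ j) (B j)) ∧
      (∀ j, φ j '' B j ⊆ U) ∧ U ∩ {x | h x = 0} ⊆ ⋃ j, φ j '' B j

/-- the image of the critical set is thin -/
def CritS : Prop :=
  ∀ (G F : Type) [NormedAddCommGroup G] [NormedSpace ℂ G] [FiniteDimensional ℂ G]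
    [NormedAddCommGroup F] [NormedSpace ℂ F] [FiniteDimensional ℂ F] (k : ℕ) (φ : G → F)
    (W : Set G), finrank ℂ G = k + 1 → IsOpen W → DifferentiableOn ℂ φ W →
    Thin k (φ '' {w | w ∈ W ∧ ¬ Function.Injective (fderiv ℂ φ w)})

/-- points with uncountable fibre -/
def RkS : Prop :=
  ∀ (E F : Type) [NormedAddCommGroup E] [NormedSpace ℂ E] [FiniteDimensional ℂ E]
    [NormedAddCommGroup F] [NormedSpace ℂ F] [FiniteDimensional ℂ F] (k : ℕ) (ψ : E → F)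
    (S V : Set E), Thin (k + 1) S → IsOpen V → S ⊆ V → DifferentiableOn ℂ ψ V →
    Thin k {y | ¬ (S ∩ ψ ⁻¹' {y}).Countable}

/-- an analytic set is a countable union of immersed open sets -/
def StratS : Prop :=
  ∀ (E : Type) [NormedAddCommGroup E] [NormedSpace ℂ E] [FiniteDimensional ℂ E] (Y U : Set E),
    IsOpen U → AnOn Y U →
    ∃ (k : ℕ → ℕ) (B : ∀ j, Set (Fin (k j) → ℂ)) (φ : ∀ j, (Fin (k j) → ℂ) → E),
      (∀ j, Imm (φ j) (B j)) ∧ Y ∩ U = ⋃ j, φ j '' B j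

/-- dimension criterion -/
def DimS : Prop :=
  ∀ (E : Type) [NormedAddCommGroup E] [NormedSpace ℂ E] [FiniteDimensional ℂ E]
    [MeasurableSpace E] [BorelSpace E] (k : ℕ) (Y U : Set E) (s : ℝ), IsOpen U → AnOn Y U →
    0 ≤ s → s ≤ 2 * (k : ℝ) + 2 → μH[s] (Y ∩ U) = 0 → Thin k (Y ∩ U)

/-! ### Roots -/

/-- the zeros of `g (t, ·)` in a disc -/
def WPS : Prop :=
  ∀ (T : Type) [NormedAddCommGroup T] [NormedSpace ℂ T] [FiniteDimensional ℂ T]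
    (g : T × ℂ → ℂ) (V : Set (T × ℂ)) (t₀ : T) (c : ℂ) (r : ℝ), IsOpen V → 0 < r →
    DifferentiableOn ℂ g V → {t₀} ×ˢ closedBall c r ⊆ V → (∀ s ∈ sphere c r, g (t₀, s) ≠ 0) →
    ∃ (ε : ℝ) (d : ℕ) (a : T → Fin d → ℂ), 0 < ε ∧ ball t₀ ε ×ˢ closedBall c r ⊆ V ∧
      (∀ t ∈ ball t₀ ε, ∀ i, a t i ∈ ball c r) ∧
      (∀ t ∈ ball t₀ ε, ∀ s ∈ closedBall c r, (g (t, s) = 0 ↔ ∃ i, s = a t i)) ∧
      ∀ (G : T × ℂ → ℂ) (V' : Set (T × ℂ)) (N : Set T), IsOpen V' → IsOpen N → N ⊆ ball t₀ ε →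
        N ×ˢ closedBall c r ⊆ V' → DifferentiableOn ℂ G V' →
        DifferentiableOn ℂ (fun t => ∑ i, G (t, a t i)) N

/-- symmetric functions of the roots -/
structure SymS : Prop where
  ofPow : ∀ {T : Type} [NormedAddCommGroup T] [NormedSpace ℂ T] {d : ℕ} {a : T → Fin d → ℂ}
    {N : Set T}, (∀ k : ℕ, DifferentiableOn ℂ (fun t => ∑ i, a t i ^ k) N) → Mon a N
  sym : ∀ {T : Type} [NormedAddCommGroup T] [NormedSpace ℂ T] {d : ℕ} {a : T → Fin d → ℂ}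
    {N : Set T}, Mon a N → ∀ P : MvPolynomial (Fin d) ℂ, P.IsSymmetric →
    DifferentiableOn ℂ (fun t => MvPolynomial.eval (a t) P) N
  prod : ∀ {T : Type} [NormedAddCommGroup T] [NormedSpace ℂ T] {d : ℕ} {a : T → Fin d → ℂ}
    {N : Set T}, Mon a N → DifferentiableOn ℂ (fun t => ∏ i, a t i) N
  joint : ∀ {T : Type} [NormedAddCommGroup T] [NormedSpace ℂ T] {d : ℕ} {a : T → Fin d → ℂ}
    {N : Set T}, Mon a N →
    DifferentiableOn ℂ (fun q : T × ℂ => ∏ i, (q.2 - a q.1 i)) (N ×ˢ univ)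
  coeff : ∀ {T : Type} [NormedAddCommGroup T] [NormedSpace ℂ T] {d : ℕ} {a : T → Fin d → ℂ}
    {N : Set T}, Mon a N → ∃ c : Fin d → T → ℂ, (∀ k, DifferentiableOn ℂ (c k) N) ∧
    ∀ t w, ∏ i, (w - a t i) = w ^ d + ∑ k : Fin d, c k t * w ^ (k : ℕ)
  roots : ∀ {T : Type} [NormedAddCommGroup T] [NormedSpace ℂ T] {d : ℕ} (c : Fin d → T → ℂ),
    ∃ a : T → Fin d → ℂ, ∀ t w, ∏ i, (w - a t i) = w ^ d + ∑ k : Fin d, c k t * w ^ (k : ℕ)
  bdd : ∀ {T : Type} [NormedAddCommGroup T] [NormedSpace ℂ T] {d : ℕ} {a : T → Fin d → ℂ}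
    {N : Set T}, IsOpen N → Mon a N → ∀ t₀ ∈ N, ∃ R : ℝ, ∀ᶠ t in 𝓝 t₀, ∀ i, ‖a t i‖ ≤ R
  append : ∀ {T ι : Type} [NormedAddCommGroup T] [NormedSpace ℂ T] [Fintype ι] {d : ι → ℕ}
    {a : ∀ j, T → Fin (d j) → ℂ} {N : Set T}, (∀ j, Mon (a j) N) →
    ∃ (e : ℕ) (b : T → Fin e → ℂ), Mon b N ∧ ∀ t s, ((∃ i, s = b t i) ↔ ∃ j i, s = a j t i)

/-- discriminant: off a hypersurface the roots form an unbranched covering -/
def DiscS : Prop :=
  ∀ (T : Type) [NormedAddCommGroup T] [NormedSpace ℂ T] [FiniteDimensional ℂ T] (d : ℕ)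
    (a : T → Fin d → ℂ) (N : Set T), IsOpen N → IsPreconnected N → Mon a N →
    ∃ (δ : T → ℂ) (e : ℕ), DifferentiableOn ℂ δ N ∧ NZ δ N ∧
      Cov e (supp a) (N ∩ {t | δ t ≠ 0})

/-- the same for a system of monic polynomials -/
def MonCovS : Prop :=
  ∀ (T : Type) [NormedAddCommGroup T] [NormedSpace ℂ T] [FiniteDimensional ℂ T] (m : ℕ)
    (d : Fin m → ℕ) (a : ∀ j, T → Fin (d j) → ℂ) (N : Set T), IsOpen N → IsPreconnected N →
    (∀ j, Mon (a j) N) →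
    ∃ (δ : T → ℂ) (e : ℕ), DifferentiableOn ℂ δ N ∧ NZ δ N ∧
      Cov e (monSet a) (N ∩ {t | δ t ≠ 0})

/-- the part of a monic system over a thin set is thin -/
def MonThinS : Prop :=
  ∀ (k : ℕ) (T : Type) [NormedAddCommGroup T] [NormedSpace ℂ T] [FiniteDimensional ℂ T] (m : ℕ)
    (d : Fin m → ℕ) (a : ∀ j, T → Fin (d j) → ℂ) (N S : Set T), IsOpen N →
    (∀ j, Mon (a j) N) → S ⊆ N → Thin k S → Thin k (ov (monSet a) S)

/-! ### Coverings and multigraphs -/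

structure CovS : Prop where
  /-- the number of sheets is constant over a connected set -/
  const : ∀ {T F : Type} [NormedAddCommGroup T] [NormedSpace ℂ T] [NormedAddCommGroup F]
    [NormedSpace ℂ F] {C : Set (T × F)} {N : Set T}, IsPreconnected N →
    (∀ t ∈ N, ∃ d, CovAt d C t) → ∃ d, Cov d C N
  card : ∀ {T F : Type} [NormedAddCommGroup T] [NormedSpace ℂ T] [NormedAddCommGroup F]
    [NormedSpace ℂ F] {C : Set (T × F)} {d : ℕ} {t : T}, CovAt d C t →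
    {y | (t, y) ∈ C}.Finite ∧ {y | (t, y) ∈ C}.ncard = d
  an : ∀ {T F : Type} [NormedAddCommGroup T] [NormedSpace ℂ T] [NormedAddCommGroup F]
    [NormedSpace ℂ F] [FiniteDimensional ℂ F] {C : Set (T × F)} {d : ℕ} {t : T}, CovAt d C t →
    ∀ y, AnAt C (t, y)
  reg : ∀ {T F : Type} [NormedAddCommGroup T] [NormedSpace ℂ T] [NormedAddCommGroup F]
    [NormedSpace ℂ F] {C : Set (T × F)} {d : ℕ} {t : T}, CovAt d C t →
    ∀ y, (t, y) ∈ C → (t, y) ∈ Reg C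
  thin : ∀ {T F : Type} [NormedAddCommGroup T] [NormedSpace ℂ T] [FiniteDimensional ℂ T]
    [NormedAddCommGroup F] [NormedSpace ℂ F] {C : Set (T × F)} {N : Set T} {k : ℕ},
    finrank ℂ T ≤ k → (∀ t ∈ N, ∃ d, CovAt d C t) → Thin k (ov C N)
  /-- a relatively open and closed part of a covering is a covering -/
  sel : ∀ {T F : Type} [NormedAddCommGroup T] [NormedSpace ℂ T] [NormedAddCommGroup F]
    [NormedSpace ℂ F] {C P : Set (T × F)} {N : Set T} {d : ℕ}, IsOpen N → Cov d C N →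
    (∀ q ∈ C, q.1 ∈ N → ∀ᶠ q' in 𝓝 q, q' ∈ C → (q' ∈ P ↔ q ∈ P)) →
    ∀ t ∈ N, ∃ e, CovAt e (C ∩ P) t
  /-- the full part of an analytic set in a covering is relatively open and closed -/
  full : ∀ {T F : Type} [NormedAddCommGroup T] [NormedSpace ℂ T] [FiniteDimensional ℂ T]
    [NormedAddCommGroup F] [NormedSpace ℂ F] {C Y : Set (T × F)} {N : Set T} {d : ℕ},
    IsOpen N → Cov d C N → AnOn Y (ov C N) →
    ∀ q ∈ C, q.1 ∈ N → ∀ᶠ q' in 𝓝 q, q' ∈ C →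
      ((∀ᶠ x in 𝓝 q', x ∈ C → x ∈ Y) ↔ ∀ᶠ x in 𝓝 q, x ∈ C → x ∈ Y)
  /-- norms and traces -/
  norm : ∀ {T F : Type} [NormedAddCommGroup T] [NormedSpace ℂ T] [NormedAddCommGroup F]
    [NormedSpace ℂ F] {C : Set (T × F)} {N : Set T} {d : ℕ}, Cov d C N →
    ∃ τ : T → Fin d → F, (∀ t ∈ N, Function.Injective (τ t)) ∧
      (∀ t ∈ N, ∀ y, ((t, y) ∈ C ↔ ∃ i, y = τ t i)) ∧
      ∀ (G : T × F → ℂ) (V : Set (T × F)) (N' : Set T), IsOpen V → IsOpen N' → N' ⊆ N →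
        ov C N' ⊆ V → DifferentiableOn ℂ G V →
        DifferentiableOn ℂ (fun t => ∏ i, G (t, τ t i)) N' ∧
        DifferentiableOn ℂ (fun t => ∑ i, G (t, τ t i)) N'

structure MGS : Prop where
  /-- finitely many linear forms detect the support -/
  det : ∀ (F : Type) [NormedAddCommGroup F] [NormedSpace ℂ F] [FiniteDimensional ℂ F] (d : ℕ),
    ∃ (n : ℕ) (ξ : Fin n → F →L[ℂ] ℂ), ∀ v : Fin d → F, (∀ i, v i ≠ 0) → ∃ j, ∀ i, ξ j (v i) ≠ 0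
  an : ∀ {T F : Type} [NormedAddCommGroup T] [NormedSpace ℂ T] [NormedAddCommGroup F]
    [NormedSpace ℂ F] [FiniteDimensional ℂ F] {d : ℕ} {τ : T → Fin d → F} {U : Set T},
    IsOpen U → MG τ U → AnOn (supp τ) (U ×ˢ univ)
  bdd : ∀ {T F : Type} [NormedAddCommGroup T] [NormedSpace ℂ T] [NormedAddCommGroup F]
    [NormedSpace ℂ F] [FiniteDimensional ℂ F] {d : ℕ} {τ : T → Fin d → F} {U : Set T},
    IsOpen U → MG τ U → ∀ t₀ ∈ U, ∃ R : ℝ, ∀ᶠ t in 𝓝 t₀, ∀ i, ‖τ t i‖ ≤ R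
  usc : ∀ {T F : Type} [NormedAddCommGroup T] [NormedSpace ℂ T] [NormedAddCommGroup F]
    [NormedSpace ℂ F] [FiniteDimensional ℂ F] {d : ℕ} {τ : T → Fin d → F} {U : Set T},
    IsOpen U → MG τ U → ∀ t₀ ∈ U, ∀ W : Set F, IsOpen W → (∀ i, τ t₀ i ∈ W) →
    ∀ᶠ t in 𝓝 t₀, ∀ i, τ t i ∈ W
  lsc : ∀ {T F : Type} [NormedAddCommGroup T] [NormedSpace ℂ T] [NormedAddCommGroup F]
    [NormedSpace ℂ F] [FiniteDimensional ℂ F] {d : ℕ} {τ : T → Fin d → F} {U : Set T},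
    IsOpen U → MG τ U → ∀ t₀ ∈ U, ∀ i, ∀ W ∈ 𝓝 (τ t₀ i), ∀ᶠ t in 𝓝 t₀, ∃ j, τ t j ∈ W

/-- the closure of a bounded covering off a hypersurface is the support of a multigraph -/
def CanS : Prop :=
  ∀ (T F : Type) [NormedAddCommGroup T] [NormedSpace ℂ T] [FiniteDimensional ℂ T]
    [NormedAddCommGroup F] [NormedSpace ℂ F] [FiniteDimensional ℂ F] (d : ℕ) (C : Set (T × F))
    (δ : T → ℂ) (U : Set T) (R : ℝ), IsOpen U → DifferentiableOn ℂ δ U → NZ δ U →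
    Cov d C (U ∩ {t | δ t ≠ 0}) → (∀ q ∈ C, q.1 ∈ U → δ q.1 ≠ 0 → ‖q.2‖ ≤ R) →
    ∃ τ : T → Fin d → F, MG τ U ∧ (∀ t ∈ U, ∀ i, ‖τ t i‖ ≤ R) ∧
      (∀ t ∈ U, δ t ≠ 0 → Function.Injective (τ t) ∧ ∀ y, ((t, y) ∈ C ↔ ∃ i, y = τ t i)) ∧
      ov (supp τ) U = ov (closure (ov C (U ∩ {t | δ t ≠ 0}))) U

/-- limits of bounded multigraphs along an ultrafilter -/
def UltMGS : Prop :=
  ∀ (T F ι : Type) [NormedAddCommGroup T] [NormedSpace ℂ T] [FiniteDimensional ℂ T]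
    [NormedAddCommGroup F] [NormedSpace ℂ F] [FiniteDimensional ℂ F] (l : Ultrafilter ι) (d : ℕ)
    (τ : ι → T → Fin d → F) (U : Set T) (R : ℝ), IsOpen U →
    (∀ᶠ j in (l : Filter ι), MG (τ j) U ∧ ∀ t ∈ U, ∀ i, ‖τ j t i‖ ≤ R) →
    ∃ σ : T → Fin d → F, MG σ U ∧ (∀ t ∈ U, ∀ i, ‖σ t i‖ ≤ R) ∧
      (∀ t ∈ U, Tendsto (fun j => τ j t) l (𝓝 (σ t))) ∧
      ov (supp σ) U = ov (ulim l fun j => supp (τ j)) U

/-! ### Projections -/

/-- projection along one variable -/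
def Proj1S : Prop :=
  ∀ (T : Type) [NormedAddCommGroup T] [NormedSpace ℂ T] [FiniteDimensional ℂ T]
    (Y : Set (T × ℂ)) (U : Set T), IsOpen U → BdAn Y U →
    (∀ t ∈ U, {s | (t, s) ∈ Y}.Finite) ∧ AnOn (Prod.fst '' Y) U ∧
    ∀ t₀ ∈ U, ∃ (ε : ℝ) (d : ℕ) (a : T → Fin d → ℂ), 0 < ε ∧ ball t₀ ε ⊆ U ∧
      Mon a (ball t₀ ε) ∧ ov Y (ball t₀ ε) ⊆ supp a

/-- projection along several variables -/
def ProjS : Prop :=
  ∀ (m : ℕ) (T : Type) [NormedAddCommGroup T] [NormedSpace ℂ T] [FiniteDimensional ℂ T]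
    (Y : Set (T × (Fin m → ℂ))) (U : Set T), IsOpen U → BdAn Y U →
    (∀ t ∈ U, {y | (t, y) ∈ Y}.Finite) ∧ AnOn (Prod.fst '' Y) U ∧
    ∀ t₀ ∈ U, ∃ (ε : ℝ) (d : Fin m → ℕ) (a : ∀ j, T → Fin (d j) → ℂ), 0 < ε ∧ ball t₀ ε ⊆ U ∧
      (∀ j, Mon (a j) (ball t₀ ε)) ∧ ov Y (ball t₀ ε) ⊆ monSet a

/-- branched covering -/
def BCS : Prop :=
  ∀ (T F : Type) [NormedAddCommGroup T] [NormedSpace ℂ T] [FiniteDimensional ℂ T]
    [NormedAddCommGroup F] [NormedSpace ℂ F] [FiniteDimensional ℂ F] (Y : Set (T × F))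
    (U : Set T), IsOpen U → BdAn Y U →
    (∀ t ∈ U, {y | (t, y) ∈ Y}.Finite) ∧ AnOn (Prod.fst '' Y) U ∧
    (∀ (k : ℕ) (S : Set T), S ⊆ U → Thin k S → Thin k (ov Y S)) ∧
    ∀ t₀ ∈ U, ∃ (ε : ℝ) (δ : T → ℂ) (d M : ℕ), 0 < ε ∧ ball t₀ ε ⊆ U ∧
      DifferentiableOn ℂ δ (ball t₀ ε) ∧ NZ δ (ball t₀ ε) ∧
      Cov d Y (ball t₀ ε ∩ {t | δ t ≠ 0}) ∧ ∀ t ∈ ball t₀ ε, {y | (t, y) ∈ Y}.ncard ≤ M

/-! ### Measure theory -/

/-- cylinders over null sets -/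
def CylS : Prop :=
  ∀ (X P : Type) [MetricSpace X] [MeasurableSpace X] [BorelSpace X] [SecondCountableTopology X]
    [NormedAddCommGroup P] [NormedSpace ℝ P] [FiniteDimensional ℝ P] [MeasurableSpace P]
    [BorelSpace P] (A : Set X) (s : ℝ), 0 ≤ s → μH[s] A = 0 →
    μH[s + finrank ℝ P] (A ×ˢ (univ : Set P)) = 0

/-- almost every fibre of a null set is null -/
def EilS : Prop :=
  ∀ (P X : Type) [NormedAddCommGroup P] [NormedSpace ℝ P] [FiniteDimensional ℝ P]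
    [MeasurableSpace P] [BorelSpace P] (μ : Measure P) [μ.IsAddHaarMeasure]
    [MetricSpace X] [MeasurableSpace X] [BorelSpace X] [SecondCountableTopology X]
    (M : Set (P × X)) (s : ℝ), 0 ≤ s → μH[s + finrank ℝ P] M = 0 →
    ∀ᵐ p ∂μ, μH[s] {x | (p, x) ∈ M} = 0

/-- a generic plane through `p` meets a small set in a set of zero length -/
def SliceS : Prop :=
  ∀ (E T : Type) [NormedAddCommGroup E] [NormedSpace ℂ E] [FiniteDimensional ℂ E]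
    [MeasurableSpace E] [BorelSpace E] [NormedAddCommGroup T] [NormedSpace ℂ T]
    [FiniteDimensional ℂ T] (Y : Set E) (p : E), μH[2 * (finrank ℂ T : ℝ) + 1] Y = 0 →
    Dense {L : E →L[ℂ] T | μH[1] (Y ∩ {x | L x = L p}) = 0}

/-- a fibre of zero length gives small shells -/
def BoxS : Prop :=
  ∀ (T F : Type) [NormedAddCommGroup T] [NormedSpace ℂ T] [FiniteDimensional ℂ T]
    [NormedAddCommGroup F] [NormedSpace ℂ F] [FiniteDimensional ℂ F] [MeasurableSpace F]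
    [BorelSpace F] (Y : Set (T × F)) (q : T × F) (V : Set (T × F)), V ∈ 𝓝 q →
    (∀ x ∈ V, x ∈ closure Y → x ∈ Y) → μH[1] {y | (q.1, y) ∈ Y ∩ V} = 0 → Box Y q

/-- good projections are dense -/
def ScaleS : Prop :=
  ∀ (E T : Type) [NormedAddCommGroup E] [NormedSpace ℂ E] [FiniteDimensional ℂ E]
    [MeasurableSpace E] [BorelSpace E] [NormedAddCommGroup T] [NormedSpace ℂ T]
    [FiniteDimensional ℂ T] (m : ℕ) (Y V : Set E) (p : E), finrank ℂ E = finrank ℂ T + m →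
    V ∈ 𝓝 p → (∀ x ∈ V, x ∈ closure Y → x ∈ Y) → μH[2 * (finrank ℂ T : ℝ) + 1] (Y ∩ V) = 0 →
    Dense {L : E →L[ℂ] T | ∃ e : E ≃L[ℂ] T × (Fin m → ℂ), (∀ x, (e x).1 = L x) ∧
      Box (e '' Y) (e p)}

/-- finitely many projections out of a dense set span all minors -/
def SpanS : Prop :=
  ∀ (E T : Type) [NormedAddCommGroup E] [NormedSpace ℂ E] [FiniteDimensional ℂ E]
    [NormedAddCommGroup T] [NormedSpace ℂ T] [FiniteDimensional ℂ T] (D : Set (E →L[ℂ] T)),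
    Dense D → ∃ (n : ℕ) (L : Fin n → E →L[ℂ] T), (∀ i, L i ∈ D) ∧
      ∀ L' : E →L[ℂ] T, ∃ c : Fin n → ℂ, ∀ A : T →L[ℂ] E,
        (L'.comp A).det = ∑ i, c i * ((L i).comp A).det

/-- area formula for holomorphic maps, both directions -/
structure AreaS : Prop where
  le : ∀ {T : Type} [NormedAddCommGroup T] [NormedSpace ℂ T] [FiniteDimensional ℂ T]
    [MeasurableSpace T] [BorelSpace T] (μ : Measure T) [μ.IsAddHaarMeasure] {φ : T → T}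
    {W A N : Set T} {M : ℕ}, IsOpen W → DifferentiableOn ℂ φ W → MeasurableSet A → A ⊆ W →
    MapsTo φ A N → (∀ t, (A ∩ φ ⁻¹' {t}).encard ≤ M) →
    ∫⁻ w in A, ‖(fderiv ℂ φ w).det‖ₑ ^ 2 ∂μ ≤ M * μ N
  ge : ∀ {T : Type} [NormedAddCommGroup T] [NormedSpace ℂ T] [FiniteDimensional ℂ T]
    [MeasurableSpace T] [BorelSpace T] (μ : Measure T) [μ.IsAddHaarMeasure] {φ : T → T}
    {W A N : Set T} {d : ℕ}, IsOpen W → DifferentiableOn ℂ φ W → MeasurableSet A → A ⊆ W →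
    (∀ t ∈ N, (d : ℕ∞) ≤ (A ∩ φ ⁻¹' {t}).encard) →
    d * μ N ≤ ∫⁻ w in A, ‖(fderiv ℂ φ w).det‖ₑ ^ 2 ∂μ

/-- volume bound for pieces of an analytic set in small balls -/
def VolS : Prop :=
  ∀ (E T : Type) [NormedAddCommGroup E] [NormedSpace ℂ E] [FiniteDimensional ℂ E]
    [NormedAddCommGroup T] [NormedSpace ℂ T] [FiniteDimensional ℂ T]
    [MeasurableSpace T] [BorelSpace T] (μ : Measure T) [μ.IsAddHaarMeasure] (Y V : Set E) (p : E),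
    AnAt Y p → V ∈ 𝓝 p → Thin (finrank ℂ T) (Y ∩ V) → ∀ L' : E →L[ℂ] T,
    ∃ (r : ℝ) (C : ℝ≥0), 0 < r ∧ ∀ (g : T → E) (W : Set T), IsOpen W → DifferentiableOn ℂ g W →
      InjOn g W → MapsTo g W Y → ∀ x ∈ ball p r, ∀ ρ : ℝ, 0 < ρ → ρ ≤ r →
      ∫⁻ w in W ∩ g ⁻¹' ball x ρ, ‖(L'.comp (fderiv ℂ g w)).det‖ₑ ^ 2 ∂μ ≤
        C * ENNReal.ofReal (ρ ^ (2 * finrank ℂ T))

/-! ### Structure of analytic sets -/

/-- a continuous map with analytic graph is holomorphic -/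
def GraphS : Prop :=
  ∀ (T F : Type) [NormedAddCommGroup T] [NormedSpace ℂ T] [FiniteDimensional ℂ T]
    [NormedAddCommGroup F] [NormedSpace ℂ F] [FiniteDimensional ℂ F] (Y : Set (T × F))
    (U : Set T) (W : Set F) (s : T → F), IsOpen U → IsOpen W → ContinuousOn s U → MapsTo s U W →
    AnOn Y (U ×ˢ W) → (∀ t ∈ U, ∀ y ∈ W, ((t, y) ∈ Y ↔ y = s t)) → DifferentiableOn ℂ s U

/-- the closure of the regular part is analytic -/
def RegS : Prop :=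
  ∀ (T F : Type) [NormedAddCommGroup T] [NormedSpace ℂ T] [FiniteDimensional ℂ T]
    [NormedAddCommGroup F] [NormedSpace ℂ F] [FiniteDimensional ℂ F] (Y V : Set (T × F))
    (p : T × F), AnAt Y p → V ∈ 𝓝 p → Thin (finrank ℂ T) (Y ∩ V) → AnAt (closure (Reg Y)) p

/-- descent to an analytic set of the right dimension -/
def DescS : Prop :=
  ∀ (E : Type) [NormedAddCommGroup E] [NormedSpace ℂ E] [FiniteDimensional ℂ E] (k : ℕ)
    (Y G : Set E) (p : E), AnAt Y p → G ⊆ Y → (∀ q ∈ G, ∀ᶠ x in 𝓝 q, x ∈ Y → x ∈ G) →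
    Thin k G → ∃ (Y' V : Set E), V ∈ 𝓝 p ∧ AnAt Y' p ∧ Y' ⊆ Y ∧ G ∩ V ⊆ Y' ∧ Thin k (Y' ∩ V)

/-- the closure of a difference of analytic sets is analytic -/
def DiffS : Prop :=
  ∀ (E : Type) [NormedAddCommGroup E] [NormedSpace ℂ E] [FiniteDimensional ℂ E]
    (Y Z : Set E) (p : E), AnAt Y p → AnAt Z p → AnAt (closure (Y \ Z)) p

end Pool.Agent.Lib.MP_823829_an.LA
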