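import Mathlib
import Pool.Agent.Lib.MP_823829_an.LA.Stmt
import Pool.Agent.Lib.MP_caab05_ag.GB.Osg

/-! Local analytic geometry: elementary facts on analytic sets. -/

namespace Pool.Agent.Lib.MP_823829_an.LA

open Set Filter Topology Metric

section
variable {E G F : Type} [NormedAddCommGroup E] [NormedSpace ℂ E]
  [NormedAddCommGroup G] [NormedSpace ℂ G] [NormedAddCommGroup F] [NormedSpace ℂ F]

/-- Osgood's lemma. -/
theorem ana [FiniteDimensional ℂ E] [CompleteSpace F] {f : E → F} {U : Set E} (hU : IsOpen U)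
    (hf : DifferentiableOn ℂ f U) : AnalyticOnNhd ℂ f U :=
  MP_caab05_ag.GB.osg E F f U hU hf

/-- identity theorem -/
theorem eqOn_zero [FiniteDimensional ℂ E] [CompleteSpace F] {f : E → F} {U : Set E}
    (hU : IsOpen U) (hc : IsPreconnected U) (hf : DifferentiableOn ℂ f U) {x : E} (hx : x ∈ U)
    (h0 : ∀ᶠ y in 𝓝 x, f y = 0) : ∀ y ∈ U, f y = 0 :=
  fun _ hy => (ana hU hf).eqOn_zero_of_preconnected_of_eventuallyEq_zero hc hx h0 hy

theorem nz_of_ne [FiniteDimensional ℂ E] {h : E → ℂ} {U : Set E} (hU : IsOpen U)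
    (hc : IsPreconnected U) (hh : DifferentiableOn ℂ h U) {x : E} (hx : x ∈ U) (h0 : h x ≠ 0) :
    NZ h U := fun y hy => by
  by_contra hn
  simp only [not_frequently, not_not] at hn
  exact h0 (eqOn_zero hU hc hh hy hn x hx)

omit [NormedSpace ℂ E] in
theorem NZ.mono {h : E → ℂ} {U V : Set E} (hh : NZ h U) (hV : V ⊆ U) : NZ h V :=
  fun x hx => hh x (hV hx)

omit [NormedSpace ℂ E] in
theorem NZ.exists {h : E → ℂ} {U W : Set E} (hh : NZ h U) {x : E} (hx : x ∈ U) (hW : W ∈ 𝓝 x) :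
    ∃ y ∈ W, h y ≠ 0 := by
  obtain ⟨y, h1, h2⟩ := ((hh x hx).and_eventually hW).exists
  exact ⟨y, h2, h1⟩

omit [NormedSpace ℂ E] in
theorem NZ.mem_closure {h : E → ℂ} {U : Set E} (hU : IsOpen U) (hh : NZ h U) {x : E}
    (hx : x ∈ U) : x ∈ closure (U ∩ {t | h t ≠ 0}) := by
  rw [mem_closure_iff_frequently]
  exact ((hh x hx).and_eventually (hU.mem_nhds hx)).mono fun y hy => ⟨hy.2, hy.1⟩

omit [NormedSpace ℂ E] in
theorem NZ.mul {h g : E → ℂ} {U : Set E} (hU : IsOpen U) (hh : NZ h U) (hg : NZ g U)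
    (hc : ContinuousOn h U) : NZ (fun x => h x * g x) U := fun x hx => by
  rw [frequently_iff]
  intro W hW
  obtain ⟨W', hW', ho, hxW⟩ := _root_.mem_nhds_iff.1 (inter_mem hW (hU.mem_nhds hx))
  obtain ⟨y, hy, hy0⟩ := hh.exists hx (ho.mem_nhds hxW)
  have hyU := (hW' hy).2
  have h1 : ∀ᶠ z in 𝓝 y, h z ≠ 0 :=
    (hc.continuousAt (hU.mem_nhds hyU)).eventually_ne hy0
  obtain ⟨z, hz, hz0⟩ := hg.exists hyU (inter_mem h1 (ho.mem_nhds hy))
  exact ⟨z, (hW' hz.2).1, mul_ne_zero hz.1 hz0⟩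

omit [NormedSpace ℂ E] in
theorem NZ.prod {ι : Type} (s : Finset ι) {h : ι → E → ℂ} {U : Set E} (hU : IsOpen U)
    (hh : ∀ i ∈ s, NZ (h i) U) (hc : ∀ i ∈ s, ContinuousOn (h i) U) :
    NZ (fun x => ∏ i ∈ s, h i x) U := by
  classical
  induction s using Finset.induction_on with
  | empty => exact fun x _ => (Eventually.of_forall fun y => by simp).frequently
  | insert a s ha ih =>
    simp only [Finset.prod_insert ha]
    exact NZ.mul hU (hh a (by simp)) (ih (fun i hi => hh i (by simp [hi]))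
      fun i hi => hc i (by simp [hi])) (hc a (by simp))

theorem isOpen_inter_ne {h : E → ℂ} {U : Set E} (hU : IsOpen U) (hh : DifferentiableOn ℂ h U) :
    IsOpen (U ∩ {t | h t ≠ 0}) :=
  hh.continuousOn.isOpen_inter_preimage hU (isOpen_ne (x := (0 : ℂ)))

theorem AnAt.congr {Y Y' : Set E} {p : E} (h : AnAt Y p)
    (he : ∀ᶠ x in 𝓝 p, (x ∈ Y ↔ x ∈ Y')) : AnAt Y' p := by
  obtain ⟨V, r, f, hV, hp, hf, hY⟩ := h
  obtain ⟨W, hW, ho, hpW⟩ := _root_.mem_nhds_iff.1 he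
  exact ⟨V ∩ W, r, f, hV.inter ho, ⟨hp, hpW⟩, hf.mono inter_subset_left,
    fun x hx => (hW hx.2).symm.trans (hY x hx.1)⟩

theorem AnAt.eventually {Y : Set E} {p : E} (h : AnAt Y p) : ∀ᶠ q in 𝓝 p, AnAt Y q := by
  obtain ⟨V, r, f, hV, hp, hf, hY⟩ := h
  filter_upwards [hV.mem_nhds hp] with q hq using ⟨V, r, f, hV, hq, hf, hY⟩

theorem AnOn.mono {Y U V : Set E} (h : AnOn Y U) (hV : V ⊆ U) : AnOn Y V :=
  fun p hp => h p (hV hp)

/-- zero set of a vector valued holomorphic map -/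
theorem anAt_zero [FiniteDimensional ℂ F] {Y V : Set E} {p : E} {f : E → F} (hV : IsOpen V)
    (hp : p ∈ V) (hf : DifferentiableOn ℂ f V) (hY : ∀ x ∈ V, (x ∈ Y ↔ f x = 0)) : AnAt Y p := by
  let e : F ≃L[ℂ] (Fin (Module.finrank ℂ F) → ℂ) :=
    ContinuousLinearEquiv.ofFinrankEq (by simp)
  exact ⟨V, _, fun x => e (f x), hV, hp, e.differentiable.comp_differentiableOn hf,
    fun x hx => (hY x hx).trans (by simp)⟩

theorem anAt_of_notMem_closure {Y : Set E} {p : E} (h : p ∉ closure Y) : AnAt Y p :=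
  anAt_zero (V := (closure Y)ᶜ) (f := fun _ => (1 : ℂ)) isClosed_closure.isOpen_compl h
    (differentiableOn_const _) fun _ hx => by
      simpa using fun h' => hx (subset_closure h')

theorem anAt_of_eventually_notMem {Y : Set E} {p : E} (h : ∀ᶠ x in 𝓝 p, x ∉ Y) : AnAt Y p :=
  anAt_of_notMem_closure (by rwa [mem_closure_iff_frequently, not_frequently])

theorem anAt_empty (p : E) : AnAt (∅ : Set E) p := anAt_of_notMem_closure (by simp)

theorem anAt_univ (p : E) : AnAt (univ : Set E) p :=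
  anAt_zero (V := univ) (f := fun _ => (0 : ℂ)) isOpen_univ trivial (differentiableOn_const _)
    fun _ _ => by simp

theorem anAt_of_mem_nhds {Y : Set E} {p : E} (h : Y ∈ 𝓝 p) : AnAt Y p :=
  (anAt_univ p).congr (by filter_upwards [h] with x hx using by simp [hx])

theorem AnAt.mem_of_closure {Y : Set E} {p : E} (h : AnAt Y p) (hp : p ∈ closure Y) : p ∈ Y := by
  obtain ⟨V, r, f, hV, hpV, hf, hY⟩ := h
  rw [hY p hpV]
  by_contra hn
  have h1 : ∀ᶠ x in 𝓝 p, f x ≠ 0 :=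
    (hf.continuousOn.continuousAt (hV.mem_nhds hpV)).eventually_ne hn
  obtain ⟨x, hx, hx1, hx2⟩ :=
    ((mem_closure_iff_frequently.1 hp).and_eventually (h1.and (hV.mem_nhds hpV))).exists
  exact hx1 ((hY x hx2).1 hx)

theorem AnAt.closed_nhds {Y : Set E} {p : E} (h : AnAt Y p) :
    ∀ᶠ x in 𝓝 p, x ∈ closure Y → x ∈ Y :=
  h.eventually.mono fun _ hx => hx.mem_of_closure

theorem AnAt.eventually_notMem {Y : Set E} {p : E} (h : AnAt Y p) (hp : p ∉ Y) :
    ∀ᶠ x in 𝓝 p, x ∉ Y := by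
  have := mt h.mem_of_closure hp
  rwa [mem_closure_iff_frequently, not_frequently] at this

theorem AnAt.inter {Y Z : Set E} {p : E} (h : AnAt Y p) (h' : AnAt Z p) : AnAt (Y ∩ Z) p := by
  obtain ⟨V, r, f, hV, hp, hf, hY⟩ := h
  obtain ⟨V', r', f', hV', hp', hf', hY'⟩ := h'
  exact anAt_zero (V := V ∩ V') (f := fun x => (f x, f' x)) (hV.inter hV') ⟨hp, hp'⟩
    ((hf.mono inter_subset_left).prodMk (hf'.mono inter_subset_right)) fun x hx => by
      rw [mem_inter_iff, hY x hx.1, hY' x hx.2, Prod.mk_eq_zero]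

theorem AnAt.union {Y Z : Set E} {p : E} (h : AnAt Y p) (h' : AnAt Z p) : AnAt (Y ∪ Z) p := by
  obtain ⟨V, r, f, hV, hp, hf, hY⟩ := h
  obtain ⟨V', r', f', hV', hp', hf', hY'⟩ := h'
  refine anAt_zero (V := V ∩ V') (f := fun x => fun ij : Fin r × Fin r' => f x ij.1 * f' x ij.2)
    (hV.inter hV') ⟨hp, hp'⟩ (differentiableOn_pi.2 fun ij =>
      ((differentiableOn_pi.1 hf ij.1).mono inter_subset_left).mul
      ((differentiableOn_pi.1 hf' ij.2).mono inter_subset_right)) fun x hx => ?_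
  rw [mem_union, hY x hx.1, hY' x hx.2]
  constructor
  · rintro (h | h) <;> ext ij <;> simp [h]
  · intro h
    by_contra hn
    obtain ⟨i, hi⟩ := Function.ne_iff.1 (not_or.1 hn).1
    obtain ⟨j, hj⟩ := Function.ne_iff.1 (not_or.1 hn).2
    exact mul_ne_zero hi hj (congrFun h (i, j))

theorem AnAt.biUnion {ι : Type} {s : Set ι} (hs : s.Finite) {Y : ι → Set E} {p : E}
    (h : ∀ i ∈ s, AnAt (Y i) p) : AnAt (⋃ i ∈ s, Y i) p := by
  induction s, hs using Set.Finite.induction_on with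
  | empty => simpa using anAt_empty p
  | insert _ _ ih =>
    rw [biUnion_insert]
    exact (h _ (mem_insert _ _)).union (ih fun i hi => h i (mem_insert_of_mem _ hi))

theorem AnAt.iUnion {ι : Type} [Finite ι] {Y : ι → Set E} {p : E} (h : ∀ i, AnAt (Y i) p) :
    AnAt (⋃ i, Y i) p := by
  simpa using AnAt.biUnion (s := univ) finite_univ fun i _ => h i

theorem AnAt.biInter {ι : Type} {s : Set ι} (hs : s.Finite) {Y : ι → Set E} {p : E}
    (h : ∀ i ∈ s, AnAt (Y i) p) : AnAt (⋂ i ∈ s, Y i) p := by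
  induction s, hs using Set.Finite.induction_on with
  | empty => simpa using anAt_univ p
  | insert _ _ ih =>
    rw [biInter_insert]
    exact (h _ (mem_insert _ _)).inter (ih fun i hi => h i (mem_insert_of_mem _ hi))

theorem AnAt.iInter {ι : Type} [Finite ι] {Y : ι → Set E} {p : E} (h : ∀ i, AnAt (Y i) p) :
    AnAt (⋂ i, Y i) p := by
  simpa using AnAt.biInter (s := univ) finite_univ fun i _ => h i

theorem AnAt.preimage {Y : Set E} {φ : G → E} {W : Set G} {q : G} (h : AnAt Y (φ q))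
    (hW : IsOpen W) (hq : q ∈ W) (hφ : DifferentiableOn ℂ φ W) : AnAt (φ ⁻¹' Y) q := by
  obtain ⟨V, r, f, hV, hp, hf, hY⟩ := h
  exact ⟨W ∩ φ ⁻¹' V, r, fun x => f (φ x), hφ.continuousOn.isOpen_inter_preimage hW hV, ⟨hq, hp⟩,
    hf.comp (hφ.mono inter_subset_left) fun x hx => hx.2, fun x hx => hY _ hx.2⟩

theorem AnAt.preimage' {Y : Set E} {φ : G → E} {q : G} (h : AnAt Y (φ q))
    (hφ : Differentiable ℂ φ) : AnAt (φ ⁻¹' Y) q :=
  h.preimage isOpen_univ trivial hφ.differentiableOn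

theorem AnAt.image_equiv {Y : Set E} {p : E} (h : AnAt Y p) (e : E ≃L[ℂ] G) :
    AnAt (e '' Y) (e p) := by
  rw [e.image_eq_preimage_symm]
  exact AnAt.preimage' (by simpa using h) e.symm.differentiable

theorem AnAt.of_image_equiv {Y : Set E} {p : E} (e : E ≃L[ℂ] G) (h : AnAt (e '' Y) (e p)) :
    AnAt Y p := by
  have := h.preimage' (φ := e) e.differentiable
  rwa [preimage_image_eq _ e.injective] at this

theorem AnAt.inter_open {Y W : Set E} {p : E} (h : AnAt Y p) (hW : W ∈ 𝓝 p) : AnAt (Y ∩ W) p :=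
  h.inter (anAt_of_mem_nhds hW)

theorem anAt_singleton [FiniteDimensional ℂ E] (a p : E) : AnAt ({a} : Set E) p :=
  anAt_zero (V := univ) (f := fun x => x - a) isOpen_univ trivial (by fun_prop)
    fun x _ => by simp [sub_eq_zero]

theorem anAt_finite [FiniteDimensional ℂ E] {S : Set E} (hS : S.Finite) (p : E) : AnAt S p := by
  simpa using AnAt.biUnion hS (Y := fun a => {a}) fun a _ => anAt_singleton a p

/-- an analytic subset of a connected open set with an interior point is everything -/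
theorem AnOn.subset_of_mem_nhds [FiniteDimensional ℂ E] {Y U : Set E} (h : AnOn Y U)
    (hc : IsPreconnected U) {x : E} (hx : x ∈ U) (hY : Y ∈ 𝓝 x) : U ⊆ Y := by
  have key : U ⊆ interior Y := by
    refine hc.subset_of_closure_inter_subset isOpen_interior ⟨x, hx, mem_interior_iff_mem_nhds.2 hY⟩
      ?_
    rintro p ⟨hp, hpU⟩
    obtain ⟨V, r, f, hV, hpV, hf, hYV⟩ := h p hpU
    obtain ⟨ε, hε, hb⟩ := Metric.isOpen_iff.1 hV p hpV
    obtain ⟨y, hy, hyY⟩ := mem_closure_iff.1 hp _ isOpen_ball (mem_ball_self hε)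
    have h0 : ∀ᶠ z in 𝓝 y, f z = 0 := by
      filter_upwards [mem_interior_iff_mem_nhds.1 hyY, hV.mem_nhds (hb hy)] with z h1 h2
        using (hYV z h2).1 h1
    have h1 := eqOn_zero isOpen_ball (convex_ball p ε).isPreconnected (hf.mono hb) hy h0
    exact mem_interior_iff_mem_nhds.2 (mem_of_superset (ball_mem_nhds p hε)
      fun z hz => (hYV z (hb hz)).2 (h1 z hz))
  exact key.trans interior_subset

/-- a connected open set is irreducible -/
theorem AnOn.irr [FiniteDimensional ℂ E] {A B U : Set E} (hA : AnOn A U) (hB : AnOn B U)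
    (hU : IsOpen U) (hc : IsPreconnected U) (h : U ⊆ A ∪ B) : U ⊆ A ∨ U ⊆ B := by
  by_cases h1 : U ⊆ A
  · exact Or.inl h1
  obtain ⟨x, hx, hxA⟩ := not_subset.1 h1
  refine Or.inr (hB.subset_of_mem_nhds hc hx ?_)
  filter_upwards [(hA x hx).eventually_notMem hxA, hU.mem_nhds hx] with y h2 h3
    using (h h3).resolve_left h2

/-- one system of equations near a finite set -/
theorem glob {Y S : Set E} (hS : S.Finite) (h : AnOn Y S) :
    ∃ (V : Set E) (r : ℕ) (f : E → Fin r → ℂ), IsOpen V ∧ S ⊆ V ∧ DifferentiableOn ℂ f V ∧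
      ∀ x ∈ V, (x ∈ Y ↔ f x = 0) := by
  classical
  induction S, hS using Set.Finite.induction_on with
  | empty => exact ⟨∅, 0, 0, isOpen_empty, Subset.rfl, differentiableOn_empty, by simp⟩
  | @insert a S ha hS ih =>
    obtain ⟨V, r, f, hV, hSV, hf, hY⟩ := ih fun p hp => h p (mem_insert_of_mem _ hp)
    obtain ⟨V', r', f', hV', hp', hf', hY'⟩ := h a (mem_insert _ _)
    obtain ⟨A, B, hA, hB, haA, hSB, hd⟩ := SeparatedNhds.of_isCompact_isCompact
      (isCompact_singleton (x := a)) hS.isCompact (by simpa using ha)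
    have hA' : IsOpen (A ∩ V') := hA.inter hV'
    have hB' : IsOpen (B ∩ V) := hB.inter hV
    let e : ((Fin r → ℂ) × (Fin r' → ℂ)) ≃L[ℂ] (Fin (r + r') → ℂ) :=
      ContinuousLinearEquiv.ofFinrankEq (by simp)
    refine ⟨(A ∩ V') ∪ (B ∩ V), r + r', fun x => e (if x ∈ A then (0, f' x) else (f x, 0)),
      hA'.union hB', ?_, e.differentiable.comp_differentiableOn ?_, ?_⟩
    · rintro x (rfl | hx)
      · exact Or.inl ⟨haA rfl, hp'⟩
      · exact Or.inr ⟨hSB hx, hSV hx⟩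
    · rintro x (hx | hx)
      · refine (DifferentiableAt.congr_of_eventuallyEq (f := fun x => ((0 : Fin r → ℂ), f' x))
          ((differentiableAt_const _).prodMk (hf'.differentiableAt (hV'.mem_nhds hx.2))) ?_
          ).differentiableWithinAt
        filter_upwards [hA.mem_nhds hx.1] with y hy using if_pos hy
      · refine (DifferentiableAt.congr_of_eventuallyEq (f := fun x => (f x, (0 : Fin r' → ℂ)))
          ((hf.differentiableAt (hV.mem_nhds hx.2)).prodMk (differentiableAt_const _)) ?_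
          ).differentiableWithinAt
        filter_upwards [hB.mem_nhds hx.1] with y hy using
          if_neg fun h' => hd.ne_of_mem h' hy rfl
    · rintro x (hx | hx)
      · simp [hx.1, hY' x hx.2]
      · have : x ∉ A := fun h' => hd.ne_of_mem h' hx.1 rfl
        simp [this, hY x hx.2]

end

section
variable {T F : Type} [NormedAddCommGroup T] [NormedSpace ℂ T]
  [NormedAddCommGroup F] [NormedSpace ℂ F]

theorem BdAn.mono {Y : Set (T × F)} {U V : Set T} (h : BdAn Y U) (hV : V ⊆ U) : BdAn Y V :=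
  ⟨h.1.mono (prod_mono hV Subset.rfl), h.2.imp fun _ hR q hq hq' => hR q hq (hV hq')⟩

theorem Cov.mono {d : ℕ} {C : Set (T × F)} {U V : Set T} (h : Cov d C U) (hV : V ⊆ U) :
    Cov d C V := fun t ht => h t (hV ht)

theorem CovAt.congr {d : ℕ} {C C' : Set (T × F)} {t₀ : T} (h : CovAt d C t₀)
    (he : ∀ᶠ t in 𝓝 t₀, ∀ y, ((t, y) ∈ C ↔ (t, y) ∈ C')) : CovAt d C' t₀ := by
  obtain ⟨V, s, hV, ht, hs, hi, hC⟩ := h
  obtain ⟨W, hW, ho, htW⟩ := _root_.mem_nhds_iff.1 he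
  exact ⟨V ∩ W, s, hV.inter ho, ⟨ht, htW⟩, fun i => (hs i).mono inter_subset_left,
    fun t ht => hi t ht.1, fun t ht y => (hW ht.2 y).symm.trans (hC t ht.1 y)⟩

theorem CovAt.eventually {d : ℕ} {C : Set (T × F)} {t₀ : T} (h : CovAt d C t₀) :
    ∀ᶠ t in 𝓝 t₀, CovAt d C t := by
  obtain ⟨V, s, hV, ht, hs, hi, hC⟩ := h
  filter_upwards [hV.mem_nhds ht] with t ht' using ⟨V, s, hV, ht', hs, hi, hC⟩

theorem Mon.mono {d : ℕ} {a : T → Fin d → ℂ} {U V : Set T} (h : Mon a U) (hV : V ⊆ U) :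
    Mon a V := fun w => (h w).mono hV

theorem MG.mono {d : ℕ} {τ : T → Fin d → F} {U V : Set T} (h : MG τ U) (hV : V ⊆ U) :
    MG τ V := fun ξ => (h ξ).mono hV

/-- cutting out a piece with fibres in a compact set -/
theorem cut {Y : Set (T × F)} {U : Set T} {W K : Set F} (hU : IsOpen U) (hW : IsOpen W)
    (hK : IsCompact K) (hKW : K ⊆ W) (hY : AnOn Y (U ×ˢ W))
    (h : ∀ q ∈ Y, q.1 ∈ U → q.2 ∈ W → q.2 ∈ K) : BdAn (Y ∩ univ ×ˢ W) U := by
  refine ⟨fun q hq => ?_, ?_⟩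
  · by_cases hq' : q.2 ∈ W
    · exact (hY q ⟨hq.1, hq'⟩).inter_open ((isOpen_univ.prod hW).mem_nhds ⟨trivial, hq'⟩)
    · refine anAt_of_eventually_notMem ?_
      filter_upwards [(hU.prod hK.isClosed.isOpen_compl).mem_nhds
        (⟨hq.1, fun h' => hq' (hKW h')⟩ : q ∈ U ×ˢ Kᶜ)] with x hx hx'
      exact hx.2 (h x hx'.1 hx.1 hx'.2.2)
  · obtain ⟨R, hR⟩ := hK.isBounded.exists_norm_le
    exact ⟨R, fun q hq hq' => hR _ (h q hq.1 hq' hq.2.2)⟩

/-- a small scale at a point -/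
theorem Box.cut [FiniteDimensional ℂ F] {Y : Set (T × F)} {q : T × F} (h : Box Y q)
    (hY : AnAt Y q) {V : Set (T × F)} (hV : V ∈ 𝓝 q) :
    ∃ ε ρ₁ ρ₂ : ℝ, 0 < ε ∧ 0 < ρ₁ ∧ ρ₁ < ρ₂ ∧ closedBall q.1 ε ×ˢ closedBall q.2 ρ₂ ⊆ V ∧
      AnOn Y (closedBall q.1 ε ×ˢ closedBall q.2 ρ₂) ∧
      (∀ x ∈ Y, dist x.1 q.1 ≤ ε → dist x.2 q.2 ≤ ρ₂ → dist x.2 q.2 < ρ₁) ∧
      BdAn (Y ∩ univ ×ˢ ball q.2 ρ₂) (ball q.1 ε) := by
  have : ProperSpace F := FiniteDimensional.proper ℂ F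
  obtain ⟨η, hη, hb⟩ := Metric.mem_nhds_iff.1 (inter_mem hV hY.eventually)
  obtain ⟨ε, ρ₁, ρ₂, h1, h2, h3, h4, h5, h6⟩ := h η hη
  have hs : closedBall q.1 ε ×ˢ closedBall q.2 ρ₂ ⊆ ball q η := fun x hx => by
    rw [mem_ball, Prod.dist_eq]
    exact max_lt (lt_of_le_of_lt hx.1 h2) (lt_of_le_of_lt hx.2 h5)
  have hA : AnOn Y (closedBall q.1 ε ×ˢ closedBall q.2 ρ₂) := fun x hx => (hb (hs hx)).2
  exact ⟨ε, ρ₁, ρ₂, h1, h3, h4, fun x hx => (hb (hs hx)).1, hA, h6,
    LA.cut isOpen_ball isOpen_ball (isCompact_closedBall q.2 ρ₁) (closedBall_subset_ball h4)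
      (hA.mono (prod_mono ball_subset_closedBall ball_subset_closedBall))
      fun x hx hx1 hx2 => (h6 x hx (le_of_lt hx1) (le_of_lt hx2)).le⟩

end

end Pool.Agent.Lib.MP_823829_an.LA
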