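import Mathlib
import Pool.Agent.Lib.MP_823829_an.LA.Basic

/-! Branched coverings. -/

namespace Pool.Agent.Lib.MP_823829_an.LA

open Set Filter Topology Metric

/-- a connected open set is not a finite union of proper analytic subsets -/
theorem AnOn.irr_fin {E ι : Type} [NormedAddCommGroup E] [NormedSpace ℂ E] [FiniteDimensional ℂ E]
    {U : Set E} (hU : IsOpen U) (hc : IsPreconnected U) (hn : U.Nonempty) {s : Set ι}
    (hs : s.Finite) {A : ι → Set E} (hA : ∀ i ∈ s, AnOn (A i) U) (h : U ⊆ ⋃ i ∈ s, A i) :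
    ∃ i ∈ s, U ⊆ A i := by
  induction s, hs using Set.Finite.induction_on with
  | empty => simpa using hn.mono h
  | @insert a s _ hs ih =>
    rw [biUnion_insert] at h
    rcases (hA a (mem_insert _ _)).irr (fun p hp => AnAt.biUnion hs
      fun i hi => hA i (mem_insert_of_mem _ hi) p hp) hU hc h with h1 | h1
    · exact ⟨a, mem_insert _ _, h1⟩
    · obtain ⟨i, hi, h2⟩ := ih (fun i hi => hA i (mem_insert_of_mem _ hi)) h1
      exact ⟨i, mem_insert_of_mem _ hi, h2⟩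

namespace BC

variable {T : Type} [NormedAddCommGroup T] [NormedSpace ℂ T]

omit [NormedAddCommGroup T] [NormedSpace ℂ T] in
lemma fib_sub {m : ℕ} {d : Fin m → ℕ} (a : ∀ j, T → Fin (d j) → ℂ) (t : T) :
    {y | (t, y) ∈ monSet a} ⊆ range fun σ : ∀ j, Fin (d j) => fun j => a j t (σ j) := by
  intro y hy
  choose σ hσ using hy
  exact ⟨σ, funext fun j => (hσ j).symm⟩

/-- the monic system over a small closed ball is compact -/
lemma cpt [FiniteDimensional ℂ T] (h8 : SymS) {m : ℕ} {d : Fin m → ℕ}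
    {a : ∀ j, T → Fin (d j) → ℂ} {N : Set T} (hN : IsOpen N) (ha : ∀ j, Mon (a j) N) {t₀ : T}
    (ht : t₀ ∈ N) : ∃ ε > 0, closedBall t₀ ε ⊆ N ∧ IsCompact (ov (monSet a) (closedBall t₀ ε)) := by
  have : ProperSpace T := FiniteDimensional.proper ℂ T
  choose R hR using fun j => h8.bdd hN (ha j) t₀ ht
  obtain ⟨ε, hε, hb⟩ := nhds_basis_closedBall.mem_iff.1
    (inter_mem (hN.mem_nhds ht) (eventually_all.2 hR))
  refine ⟨ε, hε, fun t ht => (hb ht).1, ?_⟩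
  have hc : IsCompact (closedBall t₀ ε ×ˢ (univ.pi fun j => closedBall (0 : ℂ) (R j))) :=
    (isCompact_closedBall _ _).prod (isCompact_univ_pi fun j => isCompact_closedBall _ _)
  refine hc.of_isClosed_subset ?_ fun q hq => ⟨hq.2, fun j _ => ?_⟩
  · have h1 : ov (monSet a) (closedBall t₀ ε) = (closedBall t₀ ε ×ˢ univ) ∩
        (fun q : T × (Fin m → ℂ) => fun j => ∏ i, (q.2 j - a j q.1 i)) ⁻¹' {0} := by
      ext q
      simp only [ov, monSet, mem_ofPred_eq, mem_inter_iff, mem_prod, mem_univ, and_true,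
        mem_preimage, mem_singleton_iff, funext_iff, Pi.zero_apply, Finset.prod_eq_zero_iff,
        Finset.mem_univ, true_and, sub_eq_zero]
      exact and_comm
    rw [h1]
    refine ContinuousOn.preimage_isClosed_of_isClosed (continuousOn_pi.2 fun j => ?_)
      (isClosed_closedBall.prod isClosed_univ) isClosed_singleton
    exact (h8.joint (ha j)).continuousOn.comp (f := fun q : T × (Fin m → ℂ) => (q.1, q.2 j))
      (by fun_prop) fun q hq => ⟨(hb hq.1).1, trivial⟩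
  · obtain ⟨i, hi⟩ := hq.1 j
    rw [mem_closedBall_zero_iff, hi]
    exact (hb hq.2).2 j i

/-- a point over which the non-full sheets avoid `Y` -/
lemma avoid [FiniteDimensional ℂ T] {F : Type} [NormedAddCommGroup F] [NormedSpace ℂ F]
    {Z Y C : Set (T × F)} {N : Set T} {d : ℕ} (hN : IsOpen N) {t₁ : T} (ht : t₁ ∈ N)
    (hC : CovAt d C t₁) (hY : AnOn Y (N ×ˢ univ))
    (h1 : ∀ q ∈ C, q.1 ∈ N → ∀ᶠ x in 𝓝 q, x ∈ Z → x ∈ C)
    (h2 : ∀ q ∈ C, q.1 ∈ N → ¬ ∀ᶠ x in 𝓝 q, x ∈ Z → x ∈ Y) :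
    ∃ t ∈ N, ∀ y, (t, y) ∈ C → (t, y) ∉ Y := by
  obtain ⟨V, s, hV, htV, hs, hi, hsC⟩ := hC
  obtain ⟨ε, hε, hb⟩ := Metric.isOpen_iff.1 (hV.inter hN) t₁ ⟨htV, ht⟩
  by_contra hn
  push Not at hn
  obtain ⟨i, -, hi'⟩ := AnOn.irr_fin (U := ball t₁ ε) isOpen_ball (convex_ball _ _).isPreconnected
    ⟨t₁, mem_ball_self hε⟩ (s := univ) finite_univ
    (A := fun i => (fun t => (t, s i t)) ⁻¹' Y) (fun i _ t ht =>
      AnAt.preimage (hY _ ⟨(hb ht).2, trivial⟩) hV (hb ht).1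
        (differentiableOn_id.prodMk (hs i))) fun t ht => by
      obtain ⟨y, hy, hy'⟩ := hn t (hb ht).2
      obtain ⟨i, rfl⟩ := (hsC t (hb ht).1 y).1 hy
      exact mem_biUnion (mem_univ i) hy'
  have hq : (t₁, s i t₁) ∈ C := (hsC t₁ htV _).2 ⟨i, rfl⟩
  refine h2 _ hq ht ?_
  have h3 : ∀ j, ∀ᶠ x in 𝓝 (t₁, s i t₁), j ≠ i → x.2 ≠ s j x.1 := fun j => by
    by_cases hj : j = i
    · exact Eventually.of_forall fun _ h => absurd hj h
    have hc : ContinuousAt (fun x : T × F => s j x.1) (t₁, s i t₁) :=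
      ((hs j).continuousOn.continuousAt (hV.mem_nhds htV)).comp (f := Prod.fst)
        (x := (t₁, s i t₁)) continuousAt_fst
    have := (continuousAt_snd.sub hc).eventually_ne (y := 0)
      (sub_ne_zero.2 fun h => hj (hi t₁ htV h).symm)
    exact this.mono fun x hx _ => sub_ne_zero.1 hx
  filter_upwards [h1 _ hq ht, eventually_all.2 h3,
    continuous_fst.continuousAt.eventually (ball_mem_nhds t₁ hε)] with x hx1 hx2 hx3 hxZ
  obtain ⟨j, hj⟩ := (hsC x.1 (hb hx3).1 x.2).1 (hx1 hxZ)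
  obtain rfl : j = i := by_contra fun h => hx2 j h hj
  have := hi' hx3
  rwa [mem_preimage, ← hj] at this

lemma core [FiniteDimensional ℂ T] (h1 : RiemS) (h2 : ConnS) (h4 : MonCovS) (h6 : CovS)
    (h7 : MGS) (h8 : SymS) {m : ℕ} {d : Fin m → ℕ} {a : ∀ j, T → Fin (d j) → ℂ}
    {Y : Set (T × (Fin m → ℂ))} {t₀ : T} {ε₁ : ℝ} (hε₁ : 0 < ε₁)
    (hY : AnOn Y (ball t₀ ε₁ ×ˢ univ)) (ha : ∀ j, Mon (a j) (ball t₀ ε₁))
    (hYZ : ov Y (ball t₀ ε₁) ⊆ monSet a) :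
    ∃ (ε : ℝ) (δ : T → ℂ) (e : ℕ), 0 < ε ∧ ε ≤ ε₁ ∧ DifferentiableOn ℂ δ (ball t₀ ε) ∧
      NZ δ (ball t₀ ε) ∧ Cov e Y (ball t₀ ε ∩ {t | δ t ≠ 0}) := by
  set Z := monSet a with hZ
  obtain ⟨ε', hε', hs', hK⟩ := cpt h8 isOpen_ball ha (mem_ball_self hε₁)
  obtain ⟨V, r, f, hV, hSV, hf, hfY⟩ := glob (Y := Y)
    (S := (fun y => (t₀, y)) '' {y | (t₀, y) ∈ Z})
    (((finite_range _).subset (fib_sub a t₀)).image _) (by
      rintro _ ⟨y, -, rfl⟩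
      exact hY _ ⟨mem_ball_self hε₁, trivial⟩)
  have hK' : IsClosed (Prod.fst '' (ov Z (closedBall t₀ ε') \ V)) :=
    ((hK.diff hV).image continuous_fst).isClosed
  obtain ⟨ε, hε, hb⟩ := nhds_basis_closedBall.mem_iff.1 (inter_mem (hK'.isOpen_compl.mem_nhds
    (x := t₀) (by
      rintro ⟨q, hq, rfl⟩
      exact hq.2 (hSV ⟨q.2, hq.1.1, rfl⟩))) (inter_mem (closedBall_mem_nhds t₀ hε')
      (ball_mem_nhds t₀ hε₁)))
  have hZV : ov Z (closedBall t₀ ε) ⊆ V := fun q hq => by_contra fun h =>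
    (hb hq.2).1 ⟨q, ⟨⟨hq.1, (hb hq.2).2.1⟩, h⟩, rfl⟩
  have hK2 : IsCompact (ov Z (closedBall t₀ ε)) := by
    have : ov Z (closedBall t₀ ε) = ov Z (closedBall t₀ ε') ∩ Prod.fst ⁻¹' closedBall t₀ ε :=
      Set.ext fun q => ⟨fun h => ⟨⟨h.1, (hb h.2).2.1⟩, h.2⟩, fun h => ⟨h.1.1, h.2⟩⟩
    rw [this]
    exact hK.inter_right (isClosed_closedBall.preimage continuous_fst)
  obtain ⟨B, hB⟩ := hK2.exists_bound_of_continuousOn (hf.continuousOn.mono hZV)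
  have hsub : ball t₀ ε ⊆ ball t₀ ε₁ := fun t ht => (hb (ball_subset_closedBall ht)).2.2
  have hle : min ε ε₁ ≤ ε₁ := min_le_right _ _
  have hbe : ball t₀ (min ε ε₁) = ball t₀ ε := by
    ext t
    simp only [mem_ball, lt_min_iff]
    exact ⟨fun h => h.1, fun h => ⟨h, hsub h⟩⟩
  have hcv := (convex_ball t₀ ε).isPreconnected
  obtain ⟨δ₀, e₀, hδ₀, hnz₀, hcov⟩ := h4 T m d a (ball t₀ ε) isOpen_ball hcv
    fun j => (ha j).mono hsub
  set N := ball t₀ ε ∩ {t | δ₀ t ≠ 0} with hN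
  have hNo : IsOpen N := isOpen_inter_ne isOpen_ball hδ₀
  have hNc : IsPreconnected N := h2 T δ₀ _ isOpen_ball hcv hδ₀ hnz₀
  have hYN : AnOn Y (N ×ˢ univ) := hY.mono (prod_mono (inter_subset_left.trans hsub) Subset.rfl)
  set P : Set (T × (Fin m → ℂ)) := {q | ∀ᶠ x in 𝓝 q, x ∈ Z → x ∈ Y} with hP
  have hfull := h6.full hNo hcov (Y := Y) fun q hq => hYN q ⟨hq.2, trivial⟩
  obtain ⟨e, he⟩ := h6.const hNc (h6.sel (P := P) hNo hcov hfull)
  obtain ⟨e', he'⟩ := h6.const hNc (h6.sel (P := Pᶜ) hNo hcov fun q hq hq' =>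
    (hfull q hq hq').mono fun q' h h' => not_congr (h h'))
  obtain ⟨τ, -, hτ, hτh⟩ := h6.norm he'
  obtain ⟨t₁, ht₁, ht₁'⟩ := hnz₀.exists (mem_ball_self hε) (ball_mem_nhds t₀ hε)
  obtain ⟨t₂, ht₂, hav⟩ := avoid (Z := Z) hNo (⟨ht₁, ht₁'⟩ : t₁ ∈ N) (he' t₁ ⟨ht₁, ht₁'⟩) hYN
    (fun q hq hq' => (hfull q hq.1 hq').mono fun x hx hxZ => ⟨hxZ, fun h => hq.2 ((hx hxZ).1 h)⟩)
    fun q hq _ => hq.2
  have hτZ : ∀ t ∈ N, ∀ i, (t, τ t i) ∈ ov Z (closedBall t₀ ε) := fun t ht i =>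
    ⟨((hτ t ht _).2 ⟨i, rfl⟩).1, ball_subset_closedBall ht.1⟩
  obtain ⟨n, ξ, hξ⟩ := h7.det (Fin r → ℂ) e'
  obtain ⟨j, hj⟩ := hξ (fun i => f (t₂, τ t₂ i)) fun i h =>
    hav _ ((hτ t₂ ht₂ _).2 ⟨i, rfl⟩) ((hfY _ (hZV (hτZ t₂ ht₂ i))).2 h)
  obtain ⟨g, hg, hg'⟩ := h1 T (fun t => ∏ i, ξ j (f (t, τ t i))) δ₀ (ball t₀ ε) isOpen_ball hδ₀
    hnz₀ (hτh (fun q => ξ j (f q)) V N hV hNo Subset.rfl
      (fun q hq => hZV ⟨hq.1.1, ball_subset_closedBall hq.2.1⟩)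
      ((ξ j).differentiable.comp_differentiableOn hf)).1 fun x hx => ⟨(‖ξ j‖ * B) ^ e', by
      filter_upwards [isOpen_ball.mem_nhds hx] with y hy hy0
      rw [norm_prod]
      refine (Finset.prod_le_prod (fun i _ => norm_nonneg _) fun i _ =>
        (ξ j).le_opNorm_of_le (hB _ (hτZ y ⟨hy, hy0⟩ i))).trans_eq (by simp)⟩
  have hnzg : NZ g (ball t₀ ε) := nz_of_ne isOpen_ball hcv hg ht₂.1 (by
    rw [hg' t₂ ht₂.1 ht₂.2]
    exact Finset.prod_ne_zero_iff.2 fun i _ => hj i)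
  refine ⟨min ε ε₁, fun t => δ₀ t * g t, e, lt_min hε hε₁, hle, ?_⟩
  rw [hbe]
  refine ⟨hδ₀.mul hg, hnz₀.mul isOpen_ball hnzg hδ₀.continuousOn, fun t ht => ?_⟩
  refine (he t ⟨ht.1, left_ne_zero_of_mul ht.2⟩).congr ?_
  filter_upwards [(isOpen_inter_ne isOpen_ball (hδ₀.mul hg)).mem_nhds ht] with t' ht' y
  have htN : t' ∈ N := ⟨ht'.1, left_ne_zero_of_mul ht'.2⟩
  refine ⟨fun h => h.2.self_of_nhds h.1, fun h => ?_⟩
  have hz : (t', y) ∈ Z := hYZ ⟨h, hsub ht'.1⟩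
  refine ⟨hz, by_contra fun hn => right_ne_zero_of_mul ht'.2 ?_⟩
  obtain ⟨i, rfl⟩ := (hτ t' htN y).1 ⟨hz, hn⟩
  rw [hg' t' ht'.1 htN.2]
  exact Finset.prod_eq_zero (Finset.mem_univ i) (by
    rw [(hfY _ (hZV (hτZ t' htN i))).1 h, map_zero])

end BC

open BC in
theorem bcS (h0 : ThinS) (h1 : RiemS) (h2 : ConnS) (h3 : ProjS) (h4 : MonCovS) (h5 : MonThinS)
    (h6 : CovS) (h7 : MGS) (h8 : SymS) : BCS := by
  intro T F _ _ _ _ _ _ Y U hU hY
  set m := Module.finrank ℂ F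
  let e : F ≃L[ℂ] (Fin m → ℂ) := ContinuousLinearEquiv.ofFinrankEq (by simp [m])
  let Φ : T × (Fin m → ℂ) → T × F := fun q => (q.1, e.symm q.2)
  have hΦ : Differentiable ℂ Φ := by fun_prop
  have hY' : BdAn (Φ ⁻¹' Y) U := by
    refine ⟨fun q hq => AnAt.preimage' (hY.1 _ ⟨hq.1, trivial⟩) hΦ, ?_⟩
    obtain ⟨R, hR⟩ := hY.2
    refine ⟨‖(e : F →L[ℂ] Fin m → ℂ)‖ * R, fun q hq hq' => ?_⟩
    have := (e : F →L[ℂ] Fin m → ℂ).le_opNorm_of_le (hR _ hq hq')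
    simpa [Φ] using this
  have hfib : ∀ t, {y | (t, y) ∈ Y} = e.symm '' {y | (t, y) ∈ Φ ⁻¹' Y} := fun t => by
    ext y
    exact ⟨fun h => ⟨e y, by simpa [Φ] using h, by simp⟩, by rintro ⟨y', h, rfl⟩; exact h⟩
  obtain ⟨p1, p2, p3⟩ := h3 m T _ U hU hY'
  refine ⟨fun t ht => hfib t ▸ (p1 t ht).image _, ?_, fun k S hS hk => ?_, fun t₀ ht₀ => ?_⟩
  · convert p2 using 1
    ext t
    exact ⟨by rintro ⟨q, h, rfl⟩; exact ⟨(q.1, e q.2), by simpa [Φ] using h, rfl⟩,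
      by rintro ⟨q, h, rfl⟩; exact ⟨Φ q, h, rfl⟩⟩
  · refine h0.mono (h0.image (S := ov (Φ ⁻¹' Y) S) (h0.loc fun q hq => ?_) isOpen_univ
      (subset_univ _) hΦ.differentiableOn) fun q hq =>
      ⟨(q.1, e q.2), ⟨by simpa [Φ] using hq.1, hq.2⟩, by simp [Φ]⟩
    obtain ⟨ε, d, a, hε, -, ha, hsub⟩ := p3 q.1 (hS hq.2)
    refine ⟨Prod.fst ⁻¹' ball q.1 ε, continuous_fst.continuousAt.preimage_mem_nhds
      (ball_mem_nhds _ hε), h0.mono (h5 k T m d a _ (S ∩ ball q.1 ε) isOpen_ball ha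
      inter_subset_right (h0.mono hk inter_subset_left)) fun x hx =>
      ⟨hsub ⟨hx.1.1, hx.2⟩, hx.1.2, hx.2⟩⟩
  · obtain ⟨ε₁, d, a, hε₁, hb, ha, hsub⟩ := p3 t₀ ht₀
    obtain ⟨ε, δ, n, hε, hle, hδ, hnz, hcov⟩ := core h1 h2 h4 h6 h7 h8 hε₁
      (hY'.1.mono (prod_mono hb Subset.rfl)) ha hsub
    refine ⟨ε, δ, n, Fintype.card (∀ j, Fin (d j)), hε, (ball_subset_ball hle).trans hb, hδ, hnz,
      fun t ht => ?_, fun t ht => ?_⟩
    · obtain ⟨V, s, hV, htV, hs, hi, hC⟩ := hcov t ht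
      refine ⟨V, fun i t => e.symm (s i t), hV, htV,
        fun i => e.symm.differentiable.comp_differentiableOn (hs i),
        fun t ht => e.symm.injective.comp (hi t ht), fun t ht y => ?_⟩
      have := hC t ht (e y)
      simp only [mem_preimage, Φ, ContinuousLinearEquiv.symm_apply_apply] at this
      rw [this]
      exact exists_congr fun i => e.eq_symm_apply.symm
    · rw [hfib, ncard_image_of_injective _ e.symm.injective]
      refine (ncard_le_ncard (fun y hy => fib_sub a t (hsub ⟨hy, ball_subset_ball hle ht⟩))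
        (finite_range _)).trans ?_
      rw [← image_univ]
      exact (ncard_image_le finite_univ).trans_eq (by simp [ncard_univ])

end Pool.Agent.Lib.MP_823829_an.LA
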