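import Pool.Agent.Lib.MP_823829_an.LA.Stmt

/-! The closure of a bounded covering off a hypersurface is the support of a multigraph. -/

namespace Pool.Agent.Lib.MP_823829_an.LA

open Set Filter Topology Metric Module

namespace Can

lemma memClosure {E : Type} [NormedAddCommGroup E] [NormedSpace ℂ E] {Y : Set E} {p : E}
    (h : AnAt Y p) (hp : p ∈ closure Y) : p ∈ Y := by
  obtain ⟨V, r, f, hV, hpV, hf, hY⟩ := h
  rw [hY p hpV]
  by_contra hn
  have h1 : ∀ᶠ x in 𝓝 p, f x ≠ 0 :=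
    (hf.continuousOn.continuousAt (hV.mem_nhds hpV)).eventually_ne hn
  obtain ⟨x, hx, hx1, hx2⟩ :=
    ((mem_closure_iff_frequently.1 hp).and_eventually (h1.and (hV.mem_nhds hpV))).exists
  exact hx1 ((hY x hx2).1 hx)

/-- a limit value of a bounded family along a filter which avoids the hypersurface -/
lemma limit {T F : Type} [NormedAddCommGroup T] [NormedAddCommGroup F] [NormedSpace ℂ F]
    [FiniteDimensional ℂ F] {d : ℕ} (τ : T → Fin d → F) (N : Set T) (R : ℝ)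
    (hR : ∀ t ∈ N, ∀ i, ‖τ t i‖ ≤ R) (t : T) :
    ∃ v : Fin d → F, (t ∈ N → v = τ t) ∧ ((∃ᶠ y in 𝓝 t, y ∈ N) → (∀ i, ‖v i‖ ≤ R) ∧
      ∃ l : Filter T, l.NeBot ∧ l ≤ 𝓝 t ∧ (∀ᶠ y in l, y ∈ N) ∧ Tendsto τ l (𝓝 v)) := by
  by_cases ht : t ∈ N
  · exact ⟨τ t, fun _ => rfl, fun _ => ⟨hR t ht, pure t, inferInstance, pure_le_nhds t,
      by simpa using ht, tendsto_pure_nhds τ t⟩⟩
  by_cases hf : ∃ᶠ y in 𝓝 t, y ∈ N
  · have : ProperSpace F := FiniteDimensional.proper ℂ F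
    have hne : (𝓝 t ⊓ 𝓟 N).NeBot := frequently_mem_iff_neBot.1 hf
    let l : Ultrafilter T := Ultrafilter.of (𝓝 t ⊓ 𝓟 N)
    have hl : (l : Filter T) ≤ 𝓝 t ⊓ 𝓟 N := Ultrafilter.of_le _
    have hN : ∀ᶠ y in (l : Filter T), y ∈ N := le_principal_iff.1 (hl.trans inf_le_right)
    have hK : IsCompact (Set.pi univ fun _ : Fin d => closedBall (0 : F) R) :=
      isCompact_univ_pi fun _ => isCompact_closedBall 0 R
    obtain ⟨v, hv, hlv⟩ := hK.ultrafilter_le_nhds (l.map τ) (by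
      rw [le_principal_iff, Ultrafilter.coe_map, mem_map]
      filter_upwards [hN] with y hy i _
      simpa using hR y hy i)
    refine ⟨v, fun h => absurd h ht, fun _ => ⟨fun i => ?_, l, inferInstance,
      hl.trans inf_le_left, hN, hlv⟩⟩
    simpa using hv i (mem_univ i)
  · exact ⟨τ t, fun _ => rfl, fun h => absurd h hf⟩

end Can

theorem canS (h1 : RiemS) (h2 : CovS) (h3 : MGS) : CanS := by
  intro T F _ _ _ _ _ _ d C δ U R hU hδ hNZ hCov hR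
  set N : Set T := U ∩ {t | δ t ≠ 0} with hNdef
  have hN : IsOpen N :=
    hδ.continuousOn.isOpen_inter_preimage hU (isOpen_ne (x := (0 : ℂ)))
  obtain ⟨τ, hinj, hτ, hG⟩ := h2.norm hCov
  have hτR : ∀ t ∈ N, ∀ i, ‖τ t i‖ ≤ R := fun t ht i =>
    hR (t, τ t i) ((hτ t ht _).2 ⟨i, rfl⟩) ht.1 ht.2
  choose σ hσ1 hσ2 using Can.limit τ N R hτR
  have hfr : ∀ t ∈ U, ∃ᶠ y in 𝓝 t, y ∈ N := fun t ht =>
    ((hNZ t ht).and_eventually (hU.mem_nhds ht)).mono fun y hy => ⟨hy.2, hy.1⟩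
  have hMG : MG σ U := by
    intro ξ w
    have hf : DifferentiableOn ℂ (fun t => ∏ i, (w - ξ (τ t i))) N :=
      (hG (fun q => w - ξ q.2) univ N isOpen_univ hN Subset.rfl (subset_univ _)
        (by fun_prop)).1
    obtain ⟨g, hg, hgf⟩ := h1 T (fun t => ∏ i, (w - ξ (τ t i))) δ U hU hδ hNZ hf (by
      intro x hx
      refine ⟨(‖w‖ + ‖ξ‖ * R) ^ d, ?_⟩
      filter_upwards [hU.mem_nhds hx] with y hy hy0
      rw [norm_prod]
      calc ∏ i, ‖w - ξ (τ y i)‖ ≤ ∏ _i : Fin d, (‖w‖ + ‖ξ‖ * R) := by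
            refine Finset.prod_le_prod (fun i _ => norm_nonneg _) fun i _ => ?_
            refine (norm_sub_le _ _).trans ?_
            have := ξ.le_opNorm (τ y i)
            have h' := mul_le_mul_of_nonneg_left (hτR y ⟨hy, hy0⟩ i) (norm_nonneg ξ)
            linarith
        _ = (‖w‖ + ‖ξ‖ * R) ^ d := by simp)
    refine hg.congr fun t ht => ?_
    obtain ⟨_, l, hl, hlt, hlN, hlim⟩ := hσ2 t (hfr t ht)
    have a1 : Tendsto g l (𝓝 (g t)) :=
      ((hg.continuousOn.continuousAt (hU.mem_nhds ht)).tendsto).mono_left hlt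
    have hc : Continuous fun v : Fin d → F => ∏ i, (w - ξ (v i)) := by fun_prop
    have a2 : Tendsto (fun y => ∏ i, (w - ξ (τ y i))) l (𝓝 (∏ i, (w - ξ (σ t i)))) :=
      (hc.tendsto (σ t)).comp hlim
    have a3 : Tendsto g l (𝓝 (∏ i, (w - ξ (σ t i)))) :=
      a2.congr' (hlN.mono fun y hy => (hgf y hy.1 hy.2).symm)
    exact tendsto_nhds_unique a3 a1
  refine ⟨σ, hMG, fun t ht => (hσ2 t (hfr t ht)).1, fun t ht h0 => ?_, ?_⟩
  · rw [hσ1 t ⟨ht, h0⟩]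
    exact ⟨hinj t ⟨ht, h0⟩, hτ t ⟨ht, h0⟩⟩
  · ext ⟨t, y⟩
    constructor
    · rintro ⟨⟨i, hi⟩, ht⟩
      refine ⟨?_, ht⟩
      obtain ⟨_, l, hl, hlt, hlN, hlim⟩ := hσ2 t (hfr t ht)
      have a1 : Tendsto (fun x => (x, τ x i)) l (𝓝 (t, y)) := by
        refine Tendsto.prodMk_nhds hlt ?_
        have hy : y = σ t i := hi
        rw [hy]
        exact ((continuous_apply i).tendsto (σ t)).comp hlim
      exact mem_closure_of_tendsto a1
        (hlN.mono fun x hx => ⟨(hτ x hx _).2 ⟨i, rfl⟩, hx⟩)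
    · rintro ⟨hq, ht⟩
      refine ⟨Can.memClosure (h3.an hU hMG (t, y) ⟨ht, mem_univ _⟩) (closure_mono ?_ hq), ht⟩
      rintro ⟨x, z⟩ ⟨hz, hx⟩
      obtain ⟨i, hi⟩ := (hτ x hx z).1 hz
      exact ⟨i, by rw [hσ1 x hx]; exact hi⟩

end Pool.Agent.Lib.MP_823829_an.LA
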