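import Mathlib
import Pool.Agent.Lib.MP_823829_an.LA.Stmt
import Pool.Agent.Lib.MP_caab05_ag.GB.Osg

/-! Unbranched coverings. -/

namespace Pool.Agent.Lib.MP_823829_an.LA

open Set Filter Topology Metric Module

namespace Cov

variable {T F : Type} [NormedAddCommGroup T] [NormedSpace ℂ T] [NormedAddCommGroup F]
  [NormedSpace ℂ F]

lemma ev_ne {V : Set T} {s : T → F} {t : T} {y : F} (hV : IsOpen V) (ht : t ∈ V)
    (hs : DifferentiableOn ℂ s V) (hy : y ≠ s t) : ∀ᶠ q in 𝓝 (t, y), q.2 ≠ s q.1 := by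
  have hc : ContinuousAt s t := (hs.differentiableAt (hV.mem_nhds ht)).continuousAt
  have h1 : ContinuousAt (fun q : T × F => s q.1) (t, y) :=
    ContinuousAt.comp (f := Prod.fst) (g := s) (x := (t, y)) hc continuousAt_fst
  have h2 : ContinuousAt (fun q : T × F => q.2 - s q.1) (t, y) := continuousAt_snd.sub h1
  have h3 : (fun q : T × F => q.2 - s q.1) (t, y) ≠ 0 := sub_ne_zero.mpr hy
  filter_upwards [h2.eventually_ne h3] with q hq
  exact sub_ne_zero.mp hq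

lemma ev_fst {V : Set T} {t : T} (y : F) (hV : IsOpen V) (ht : t ∈ V) :
    ∀ᶠ q in 𝓝 (t, y), q.1 ∈ V :=
  (continuous_fst.continuousAt (x := (t, y))).eventually (hV.mem_nhds ht)

/-- near a point of a sheet the covering is the sheet -/
lemma near {d : ℕ} {C : Set (T × F)} {V : Set T} {s : Fin d → T → F} {t : T} (hV : IsOpen V)
    (ht : t ∈ V) (hs : ∀ i, DifferentiableOn ℂ (s i) V)
    (hi : ∀ t ∈ V, Function.Injective fun i => s i t)
    (hC : ∀ t ∈ V, ∀ y, ((t, y) ∈ C ↔ ∃ i, y = s i t)) (i : Fin d) :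
    ∀ᶠ q in 𝓝 (t, s i t), q.1 ∈ V ∧ (q ∈ C ↔ q.2 = s i q.1) := by
  have h1 : ∀ j, ∀ᶠ q in 𝓝 (t, s i t), j ≠ i → q.2 ≠ s j q.1 := by
    intro j
    by_cases hj : j = i
    · exact Eventually.of_forall fun q h => absurd hj h
    · have : s i t ≠ s j t := fun h => hj (hi t ht h).symm
      filter_upwards [ev_ne hV ht (hs j) this] with q hq _ using hq
  filter_upwards [eventually_all.mpr h1, ev_fst (s i t) hV ht] with q hq hqV
  refine ⟨hqV, ?_⟩
  have h2 := hC q.1 hqV q.2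
  constructor
  · intro h
    obtain ⟨j, hj⟩ := h2.mp h
    by_cases hji : j = i
    · rw [← hji]; exact hj
    · exact absurd hj (hq j hji)
  · intro h
    exact h2.mpr ⟨i, h⟩

lemma contAt {V : Set T} {s : T → F} {t : T} (hV : IsOpen V) (ht : t ∈ V)
    (hs : DifferentiableOn ℂ s V) : ContinuousAt (fun u => (u, s u)) t :=
  continuousAt_id.prodMk (hs.differentiableAt (hV.mem_nhds ht)).continuousAt

lemma card {C : Set (T × F)} {d : ℕ} {t : T} (h : CovAt d C t) :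
    {y | (t, y) ∈ C}.Finite ∧ {y | (t, y) ∈ C}.ncard = d := by
  obtain ⟨V, s, -, ht, -, hi, hC⟩ := h
  have he : {y | (t, y) ∈ C} = (fun i => s i t) '' univ := by
    ext y
    simp only [mem_ofPred_eq, hC t ht, mem_image, mem_univ, true_and]
    exact exists_congr fun i => eq_comm
  rw [he]
  refine ⟨finite_univ.image _, ?_⟩
  rw [ncard_image_of_injective _ (hi t ht), ncard_univ]
  simp

lemma ev {C : Set (T × F)} {d : ℕ} {t : T} (h : CovAt d C t) : ∀ᶠ u in 𝓝 t, CovAt d C u := by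
  obtain ⟨V, s, hV, ht, hs, hi, hC⟩ := h
  filter_upwards [hV.mem_nhds ht] with u hu using ⟨V, s, hV, hu, hs, hi, hC⟩

lemma const {C : Set (T × F)} {N : Set T} (hN : IsPreconnected N)
    (h : ∀ t ∈ N, ∃ d, CovAt d C t) : ∃ d, Cov d C N := by
  rcases N.eq_empty_or_nonempty with rfl | ⟨t₀, ht₀⟩
  · exact ⟨0, fun t ht => ht.elim⟩
  have hc : ContinuousOn (fun t => {y | (t, y) ∈ C}.ncard) N := by
    intro t ht
    obtain ⟨d, hd⟩ := h t ht
    have h1 : (fun t => {y | (t, y) ∈ C}.ncard) =ᶠ[𝓝 t] fun _ => d := by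
      filter_upwards [ev hd] with u hu using (card hu).2
    exact (continuousAt_const.congr h1.symm).continuousWithinAt
  refine ⟨{y | (t₀, y) ∈ C}.ncard, fun t ht => ?_⟩
  obtain ⟨d, hd⟩ := h t ht
  have h2 : {y | (t₀, y) ∈ C}.ncard = {y | (t, y) ∈ C}.ncard := hN.constant hc ht₀ ht
  rw [h2, (card hd).2]
  exact hd

lemma an [FiniteDimensional ℂ F] {C : Set (T × F)} {d : ℕ} {t : T} (h : CovAt d C t) (y : F) :
    AnAt C (t, y) := by
  obtain ⟨V, s, hV, ht, hs, hi, hC⟩ := h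
  by_cases hy : (t, y) ∈ C
  · obtain ⟨i, rfl⟩ := (hC t ht y).mp hy
    obtain ⟨O, hO, hOo, hq⟩ := _root_.eventually_nhds_iff.mp (near hV ht hs hi hC i)
    have hr : finrank ℂ F = finrank ℂ (Fin (finrank ℂ F) → ℂ) := by simp
    let L : F ≃L[ℂ] (Fin (finrank ℂ F) → ℂ) := ContinuousLinearEquiv.ofFinrankEq hr
    refine ⟨O, finrank ℂ F, fun q => L (q.2 - s i q.1), hOo, hq, ?_, ?_⟩
    · have h1 : DifferentiableOn ℂ (fun q : T × F => s i q.1) O :=
        (hs i).comp differentiableOn_fst fun q hq => (hO q hq).1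
      exact L.differentiable.comp_differentiableOn (differentiableOn_snd.sub h1)
    · intro x hx
      rw [(hO x hx).2, map_eq_zero_iff L L.injective, sub_eq_zero]
  · have h1 : ∀ j, ∀ᶠ q in 𝓝 (t, y), q.2 ≠ s j q.1 := fun j =>
      ev_ne hV ht (hs j) fun h => hy ((hC t ht y).mpr ⟨j, h⟩)
    have h2 : ∀ᶠ q in 𝓝 (t, y), q ∉ C := by
      filter_upwards [eventually_all.mpr h1, ev_fst y hV ht] with q hq hqV hqC
      obtain ⟨j, hj⟩ := (hC q.1 hqV q.2).mp hqC
      exact hq j hj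
    obtain ⟨O, hO, hOo, hq⟩ := _root_.eventually_nhds_iff.mp h2
    refine ⟨O, 1, fun _ _ => 1, hOo, hq, differentiableOn_const _, fun x hx => ?_⟩
    constructor
    · intro h
      exact absurd h (hO x hx)
    · intro h
      exact absurd (congrFun h 0) one_ne_zero

lemma reg {C : Set (T × F)} {d : ℕ} {t : T} (h : CovAt d C t) (y : F) (hy : (t, y) ∈ C) :
    (t, y) ∈ Reg C := by
  obtain ⟨V, s, hV, ht, hs, hi, hC⟩ := h
  obtain ⟨i, rfl⟩ := (hC t ht y).mp hy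
  obtain ⟨U, hU, W, hW, hUW⟩ := mem_nhds_prod_iff.mp (near hV ht hs hi hC i)
  obtain ⟨U', hU', hUo, htU⟩ := _root_.mem_nhds_iff.mp hU
  obtain ⟨W', hW', hWo, htW⟩ := _root_.mem_nhds_iff.mp hW
  have ho : IsOpen (V ∩ s i ⁻¹' W') := (hs i).continuousOn.isOpen_inter_preimage hV hWo
  refine ⟨hy, U' ∩ (V ∩ s i ⁻¹' W'), W', s i, hUo.inter ho, hWo, ⟨htU, ht, htW⟩, htW,
    (hs i).mono fun u hu => hu.2.1, fun u hu => hu.2.2, fun u hu z hz => ?_⟩
  exact (hUW (mk_mem_prod (hU' hu.1) (hW' hz))).2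

lemma thin (h1 : ThinS) [FiniteDimensional ℂ T] {C : Set (T × F)} {N : Set T} {k : ℕ}
    (hk : finrank ℂ T ≤ k) (h : ∀ t ∈ N, ∃ d, CovAt d C t) : Thin k (ov C N) := by
  have h2 : ∀ t, ∃ V : Set T, t ∈ N → V ∈ 𝓝[N] t ∧ Thin k (ov C V) := by
    intro t
    by_cases ht : t ∈ N
    · obtain ⟨d, V, s, hV, htV, hs, -, hC⟩ := h t ht
      refine ⟨V, fun _ => ⟨mem_nhdsWithin_of_mem_nhds (hV.mem_nhds htV), ?_⟩⟩
      have h3 : Thin k (⋃ i, (fun u => (u, s i u)) '' V) :=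
        h1.iUnion fun i => h1.ofImage hk hV (differentiableOn_id.prodMk (hs i))
      refine h1.mono h3 fun q hq => ?_
      obtain ⟨i, hi⟩ := (hC q.1 hq.2 q.2).mp hq.1
      exact mem_iUnion.mpr ⟨i, q.1, hq.2, Prod.ext rfl hi.symm⟩
    · exact ⟨∅, fun h => absurd h ht⟩
  choose V hV using h2
  obtain ⟨S, hSN, hSc, hS⟩ := TopologicalSpace.countable_cover_nhdsWithin
    (s := N) (f := V) fun t ht => (hV t ht).1
  have := hSc.to_subtype
  have h4 : Thin k (⋃ t : S, ov C (V t)) := h1.iUnion fun t => (hV t (hSN t.2)).2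
  refine h1.mono h4 fun q hq => ?_
  obtain ⟨t, ht, hqt⟩ := mem_iUnion₂.mp (hS hq.2)
  exact mem_iUnion.mpr ⟨⟨t, ht⟩, hq.1, hqt⟩

lemma sel {C P : Set (T × F)} {N : Set T} {d : ℕ} (h : Cov d C N)
    (hP : ∀ q ∈ C, q.1 ∈ N → ∀ᶠ q' in 𝓝 q, q' ∈ C → (q' ∈ P ↔ q ∈ P)) (t : T) (htN : t ∈ N) :
    ∃ e, CovAt e (C ∩ P) t := by
  classical
  obtain ⟨V, s, hV, ht, hs, hi, hC⟩ := h t htN
  have h1 : ∀ i, ∀ᶠ u in 𝓝 t, ((u, s i u) ∈ P ↔ (t, s i t) ∈ P) := by
    intro i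
    have h2 := (contAt hV ht (hs i)).eventually
      (hP (t, s i t) ((hC t ht _).mpr ⟨i, rfl⟩) htN)
    filter_upwards [h2, hV.mem_nhds ht] with u hu huV
    exact hu ((hC u huV _).mpr ⟨i, rfl⟩)
  obtain ⟨O, hO, hOo, htO⟩ :=
    _root_.eventually_nhds_iff.mp ((eventually_all.mpr h1).and (hV.mem_nhds ht))
  let I := {i : Fin d // (t, s i t) ∈ P}
  let e := Fintype.equivFin I
  refine ⟨Fintype.card I, O, fun j => s (e.symm j).1, hOo, htO,
    fun j => (hs _).mono fun u hu => (hO u hu).2, fun u hu a b hab => ?_, fun u hu y => ?_⟩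
  · exact e.symm.injective (Subtype.ext (hi u (hO u hu).2 hab))
  · constructor
    · rintro ⟨hyC, hyP⟩
      obtain ⟨i, rfl⟩ := (hC u (hO u hu).2 y).mp hyC
      exact ⟨e ⟨i, ((hO u hu).1 i).mp hyP⟩, by simp⟩
    · rintro ⟨j, rfl⟩
      exact ⟨(hC u (hO u hu).2 _).mpr ⟨_, rfl⟩, ((hO u hu).1 _).mpr (e.symm j).2⟩

lemma full [FiniteDimensional ℂ T] {C Y : Set (T × F)} {N : Set T} {d : ℕ} (h : Cov d C N)
    (hY : AnOn Y (ov C N)) (q : T × F) (hq : q ∈ C) (hqN : q.1 ∈ N) :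
    ∀ᶠ q' in 𝓝 q, q' ∈ C →
      ((∀ᶠ x in 𝓝 q', x ∈ C → x ∈ Y) ↔ ∀ᶠ x in 𝓝 q, x ∈ C → x ∈ Y) := by
  obtain ⟨V₁, r, f, hV₁, hq₁, hf, hfY⟩ := hY q ⟨hq, hqN⟩
  obtain ⟨t, y⟩ := q
  obtain ⟨V, s, hV, ht, hs, hi, hC⟩ := h t hqN
  obtain ⟨i, rfl⟩ := (hC t ht y).mp hq
  have h1 : ∀ᶠ u in 𝓝 t, (u, s i u) ∈ V₁ ∧ u ∈ V :=
    ((contAt hV ht (hs i)).eventually (hV₁.mem_nhds hq₁)).and (hV.mem_nhds ht)
  obtain ⟨ε, hε, hB⟩ := Metric.eventually_nhds_iff_ball.mp h1
  have hg : DifferentiableOn ℂ (fun u => f (u, s i u)) (ball t ε) :=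
    hf.comp (differentiableOn_id.prodMk ((hs i).mono fun u hu => (hB u hu).2))
      fun u hu => (hB u hu).1
  have hga := Pool.Agent.Lib.MP_caab05_ag.GB.osg T (Fin r → ℂ) _ _ isOpen_ball hg
  obtain ⟨O, hO, hOo, hqO⟩ := _root_.eventually_nhds_iff.mp
    ((near hV ht hs hi hC i).and (ev_fst (s i t) isOpen_ball (mem_ball_self hε)))
  have key : ∀ q' ∈ O, q' ∈ C →
      ((∀ᶠ x in 𝓝 q', x ∈ C → x ∈ Y) ↔ ∀ u ∈ ball t ε, f (u, s i u) = 0) := by
    rintro ⟨u, z⟩ huO huC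
    obtain ⟨⟨huV, hu⟩, huB⟩ := hO _ huO
    have hz : z = s i u := hu.mp huC
    subst hz
    constructor
    · intro hx
      have h2 := (contAt hV huV (hs i)).eventually hx
      have h3 : (fun u => f (u, s i u)) =ᶠ[𝓝 u] 0 := by
        filter_upwards [h2, isOpen_ball.mem_nhds huB] with v hv hvB
        exact (hfY _ (hB v hvB).1).mp (hv ((hC v (hB v hvB).2 _).mpr ⟨i, rfl⟩))
      exact hga.eqOn_zero_of_preconnected_of_eventuallyEq_zero (convex_ball t ε).isPreconnected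
        huB h3
    · intro hz
      filter_upwards [hOo.mem_nhds huO] with x hx hxC
      obtain ⟨⟨-, hx1⟩, hxB⟩ := hO x hx
      have h4 : x = (x.1, s i x.1) := Prod.ext rfl (hx1.mp hxC)
      rw [h4]
      exact (hfY _ (hB _ hxB).1).mpr (hz _ hxB)
  filter_upwards [hOo.mem_nhds hqO] with q' hq' hqC
  rw [key q' hq' hqC, key _ hqO hq]

lemma image_eq {d : ℕ} [DecidableEq F] {a b : Fin d → F} (h : ∀ y, (∃ i, y = a i) ↔ ∃ i, y = b i) :
    Finset.univ.image a = Finset.univ.image b := by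
  ext y
  simp only [Finset.mem_image, Finset.mem_univ, true_and]
  have := h y
  simpa only [eq_comm] using this

lemma prod_eq {d : ℕ} {a b : Fin d → F} (ha : Function.Injective a) (hb : Function.Injective b)
    (h : ∀ y, (∃ i, y = a i) ↔ ∃ i, y = b i) (H : F → ℂ) : ∏ i, H (a i) = ∏ i, H (b i) := by
  classical
  rw [← Finset.prod_image (s := Finset.univ) (g := a) (f := H) ha.injOn,
    ← Finset.prod_image (s := Finset.univ) (g := b) (f := H) hb.injOn, image_eq h]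

lemma sum_eq {d : ℕ} {a b : Fin d → F} (ha : Function.Injective a) (hb : Function.Injective b)
    (h : ∀ y, (∃ i, y = a i) ↔ ∃ i, y = b i) (H : F → ℂ) : ∑ i, H (a i) = ∑ i, H (b i) := by
  classical
  rw [← Finset.sum_image (s := Finset.univ) (g := a) (f := H) ha.injOn,
    ← Finset.sum_image (s := Finset.univ) (g := b) (f := H) hb.injOn, image_eq h]

lemma norm {C : Set (T × F)} {N : Set T} {d : ℕ} (h : Cov d C N) :
    ∃ τ : T → Fin d → F, (∀ t ∈ N, Function.Injective (τ t)) ∧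
      (∀ t ∈ N, ∀ y, ((t, y) ∈ C ↔ ∃ i, y = τ t i)) ∧
      ∀ (G : T × F → ℂ) (V : Set (T × F)) (N' : Set T), IsOpen V → IsOpen N' → N' ⊆ N →
        ov C N' ⊆ V → DifferentiableOn ℂ G V →
        DifferentiableOn ℂ (fun t => ∏ i, G (t, τ t i)) N' ∧
        DifferentiableOn ℂ (fun t => ∑ i, G (t, τ t i)) N' := by
  have h1 : ∀ t, ∃ τ : Fin d → F, t ∈ N →
      Function.Injective τ ∧ ∀ y, ((t, y) ∈ C ↔ ∃ i, y = τ i) := by
    intro t
    by_cases ht : t ∈ N
    · obtain ⟨V, s, -, htV, -, hi, hC⟩ := h t ht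
      exact ⟨fun i => s i t, fun _ => ⟨hi t htV, hC t htV⟩⟩
    · exact ⟨0, fun h => absurd h ht⟩
  choose τ hτ using h1
  refine ⟨τ, fun t ht => (hτ t ht).1, fun t ht => (hτ t ht).2, ?_⟩
  intro G W N' hW hN' hNN hCW hG
  have key : ∀ t ∈ N', DifferentiableAt ℂ (fun t => ∏ i, G (t, τ t i)) t ∧
      DifferentiableAt ℂ (fun t => ∑ i, G (t, τ t i)) t := by
    intro t ht
    obtain ⟨V, s, hV, htV, hs, hi, hC⟩ := h t (hNN ht)
    have h2 : ∀ i, DifferentiableAt ℂ (fun u => G (u, s i u)) t := by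
      intro i
      have h3 : (t, s i t) ∈ W := hCW ⟨(hC t htV _).mpr ⟨i, rfl⟩, ht⟩
      exact DifferentiableAt.comp (g := G) (f := fun u => (u, s i u)) t
        (hG.differentiableAt (hW.mem_nhds h3))
        (differentiableAt_id.prodMk ((hs i).differentiableAt (hV.mem_nhds htV)))
    have h4 : ∀ᶠ u in 𝓝 t, Function.Injective (τ u) ∧ (Function.Injective fun i => s i u) ∧
        ∀ y, (∃ i, y = τ u i) ↔ ∃ i, y = s i u := by
      filter_upwards [hV.mem_nhds htV, hN'.mem_nhds ht] with u huV huN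
      exact ⟨(hτ u (hNN huN)).1, hi u huV, fun y =>
        ((hτ u (hNN huN)).2 y).symm.trans (hC u huV y)⟩
    constructor
    · have h5 : DifferentiableAt ℂ (fun u => ∏ i, G (u, s i u)) t :=
        (HasFDerivAt.finsetProd fun i _ => (h2 i).hasFDerivAt).differentiableAt
      refine h5.congr_of_eventuallyEq ?_
      filter_upwards [h4] with u hu using prod_eq hu.1 hu.2.1 hu.2.2 fun y => G (u, y)
    · have h5 : DifferentiableAt ℂ (fun u => ∑ i, G (u, s i u)) t :=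
        DifferentiableAt.fun_sum fun i _ => h2 i
      refine h5.congr_of_eventuallyEq ?_
      filter_upwards [h4] with u hu using sum_eq hu.1 hu.2.1 hu.2.2 fun y => G (u, y)
  exact ⟨fun t ht => (key t ht).1.differentiableWithinAt,
    fun t ht => (key t ht).2.differentiableWithinAt⟩

end Cov

theorem covS (h1 : ThinS) : CovS where
  const := fun hN h => Cov.const hN h
  card := fun h => Cov.card h
  an := fun h y => Cov.an h y
  reg := fun h y hy => Cov.reg h y hy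
  thin := fun hk h => Cov.thin h1 hk h
  sel := fun _ h hP t ht => Cov.sel h hP t ht
  full := fun _ h hY q hq hqN => Cov.full h hY q hq hqN
  norm := fun h => Cov.norm h

end Pool.Agent.Lib.MP_823829_an.LA
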