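import Mathlib
import Pool.Agent.Lib.MP_823829_an.LA.Stmt
import Pool.Agent.Lib.MP_caab05_ag.GB.Osg

/-! Critical values and uncountable fibres of holomorphic maps. -/

namespace Pool.Agent.Lib.MP_823829_an.LA

open Set Filter Topology Metric Module

namespace Crit

section Lin

variable {G F R X : Type} [NormedAddCommGroup G] [NormedSpace ℂ G] [NormedAddCommGroup F]
  [NormedSpace ℂ F] [NormedAddCommGroup R] [NormedSpace ℂ R] [NormedAddCommGroup X]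
  [NormedSpace ℂ X]

/-- rank of a continuous linear map -/
noncomputable def rk (A : G →L[ℂ] F) : ℕ := finrank ℂ (LinearMap.range (A : G →ₗ[ℂ] F))

lemma rk_le [FiniteDimensional ℂ G] (A : G →L[ℂ] F) : rk A ≤ finrank ℂ G :=
  LinearMap.finrank_range_le _

lemma rk_lt [FiniteDimensional ℂ G] (A : G →L[ℂ] F) (h : ¬ Function.Injective A) :
    rk A < finrank ℂ G := by
  have h1 := LinearMap.finrank_range_add_finrank_ker (A : G →ₗ[ℂ] F)
  have h2 : LinearMap.ker (A : G →ₗ[ℂ] F) ≠ ⊥ := fun h0 => h (LinearMap.ker_eq_bot.1 h0)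
  have h3 : finrank ℂ (LinearMap.ker (A : G →ₗ[ℂ] F)) ≠ 0 := fun h0 =>
    h2 (Submodule.finrank_eq_zero.1 h0)
  unfold rk
  omega

lemma rk_comp_le [FiniteDimensional ℂ G] (A : G →L[ℂ] F) (B : X →L[ℂ] G) :
    rk (A.comp B) ≤ rk A :=
  Submodule.finrank_mono (LinearMap.range_comp_le_range (B : X →ₗ[ℂ] G) (A : G →ₗ[ℂ] F))

lemma surj_res (C : X →L[ℂ] F) (L : F →L[ℂ] R) (h : Function.Surjective fun x => L (C x)) :
    Function.Surjective
      ((L : F →ₗ[ℂ] R) ∘ₗ (LinearMap.range (C : X →ₗ[ℂ] F)).subtype) := by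
  intro u
  obtain ⟨x, hx⟩ := h u
  exact ⟨⟨C x, x, rfl⟩, hx⟩

lemma le_rk [FiniteDimensional ℂ F] (C : X →L[ℂ] F) (L : F →L[ℂ] R)
    (h : Function.Surjective fun x => L (C x)) : finrank ℂ R ≤ rk C :=
  LinearMap.finrank_le_finrank_of_surjective (surj_res C L h)

lemma zero_of_rk [FiniteDimensional ℂ F] [FiniteDimensional ℂ R] (C : X →L[ℂ] F) (L : F →L[ℂ] R)
    (h : Function.Surjective fun x => L (C x)) (hr : rk C ≤ finrank ℂ R) (x : X)
    (hx : L (C x) = 0) : C x = 0 := by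
  have h1 : finrank ℂ (LinearMap.range (C : X →ₗ[ℂ] F)) = finrank ℂ R :=
    le_antisymm hr (le_rk C L h)
  have h2 := (LinearMap.injective_iff_surjective_of_finrank_eq_finrank h1).2 (surj_res C L h)
  have h3 : (⟨C x, x, rfl⟩ : LinearMap.range (C : X →ₗ[ℂ] F)) = 0 := h2 (by simpa using hx)
  exact congrArg Subtype.val h3

lemma exists_LA [FiniteDimensional ℂ G] [FiniteDimensional ℂ F] (A₀ : G →L[ℂ] F) :
    ∃ (L : F →L[ℂ] (Fin (rk A₀) → ℂ)) (A : (Fin (rk A₀) → ℂ) →L[ℂ] G),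
      ∀ u, L (A₀ (A u)) = u := by
  obtain ⟨A, hA⟩ := LinearMap.exists_rightInverse_of_surjective
    (A₀ : G →ₗ[ℂ] F).rangeRestrict (LinearMap.range_rangeRestrict _)
  obtain ⟨L, hL⟩ := LinearMap.exists_leftInverse_of_injective
    (LinearMap.range (A₀ : G →ₗ[ℂ] F)).subtype (Submodule.ker_subtype _)
  let e : LinearMap.range (A₀ : G →ₗ[ℂ] F) ≃ₗ[ℂ] (Fin (rk A₀) → ℂ) :=
    (Module.finBasis ℂ _).equivFun
  refine ⟨LinearMap.toContinuousLinearMap (e.toLinearMap ∘ₗ L),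
    LinearMap.toContinuousLinearMap (A ∘ₗ e.symm.toLinearMap), fun u => ?_⟩
  have h1 : A₀ (A (e.symm u)) = (e.symm u : F) :=
    congrArg Subtype.val (LinearMap.congr_fun hA (e.symm u))
  have h2 : L (e.symm u : F) = e.symm u := LinearMap.congr_fun hL (e.symm u)
  simp [h1, h2]

lemma diff_det {r : ℕ} {T : X → (Fin r → ℂ) →L[ℂ] (Fin r → ℂ)} {U : Set X}
    (hT : DifferentiableOn ℂ T U) : DifferentiableOn ℂ (fun w => (T w).det) U := by
  have h1 : (fun w => (T w).det) = fun w => ∑ σ : Equiv.Perm (Fin r),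
      ((Equiv.Perm.sign σ : ℤ) : ℂ) * ∏ i, T w (Pi.single i 1) (σ i) := by
    funext w
    rw [ContinuousLinearMap.det, ← LinearMap.det_toMatrix', Matrix.det_apply']
    simp [LinearMap.toMatrix'_apply]
  rw [h1]
  refine DifferentiableOn.fun_sum fun σ _ => (differentiableOn_const _).mul ?_
  have h2 : ∀ i, DifferentiableOn ℂ (fun w => T w (Pi.single i 1) (σ i)) U := fun i =>
    differentiableOn_pi.1 (hT.clm_apply (differentiableOn_const _)) (σ i)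
  exact fun x hx => (HasFDerivWithinAt.finsetProd (u := Finset.univ)
    fun i _ => (h2 i x hx).hasFDerivWithinAt).differentiableWithinAt

lemma surj_of_det {r : ℕ} (T : (Fin r → ℂ) →L[ℂ] (Fin r → ℂ)) (h : T.det ≠ 0) :
    Function.Surjective T :=
  (T.toContinuousLinearEquivOfDetNeZero h).surjective

end Lin

variable {G F : Type} [NormedAddCommGroup G] [NormedSpace ℂ G] [FiniteDimensional ℂ G]
  [NormedAddCommGroup F] [NormedSpace ℂ F] [FiniteDimensional ℂ F]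

lemma nz_of_ne {D : G → ℂ} {B : Set G} (hB : IsOpen B) (hc : IsPreconnected B)
    (hD : DifferentiableOn ℂ D B) {w : G} (hw : w ∈ B) (h : D w ≠ 0) : NZ D B := by
  intro x hx hf
  have h1 : D =ᶠ[𝓝 x] 0 := hf.mono fun y hy => not_not.1 hy
  exact h ((MP_caab05_ag.GB.osg G ℂ D B hB hD).eqOn_zero_of_preconnected_of_eventuallyEq_zero
    hc hx h1 hw)

/-- the points at which the rank is not locally maximal form a thin set -/
lemma bad_thin (h1 : ThinS) (h2 : ZeroS) {k : ℕ} {φ : G → F} {W : Set G}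
    (hk : finrank ℂ G = k + 1) (hW : IsOpen W) (hφ : DifferentiableOn ℂ φ W) :
    Thin k {w | w ∈ W ∧ ¬ ∀ᶠ w' in 𝓝 w, rk (fderiv ℂ φ w') ≤ rk (fderiv ℂ φ w)} := by
  have : CompleteSpace F := FiniteDimensional.complete ℂ F
  refine h1.loc fun p hp => ?_
  obtain ⟨ε, hε, hB⟩ := Metric.isOpen_iff.1 hW p hp.1
  refine ⟨ball p ε, ball_mem_nhds p hε, ?_⟩
  have hfin : ((fun w => rk (fderiv ℂ φ w)) '' ball p ε).Finite :=
    (Set.finite_Iic (finrank ℂ G)).subset (by rintro _ ⟨w, _, rfl⟩; exact rk_le _)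
  obtain ⟨w₀, hw₀, hmax⟩ : ∃ w₀ ∈ ball p ε, ∀ w ∈ ball p ε,
      rk (fderiv ℂ φ w) ≤ rk (fderiv ℂ φ w₀) := by
    obtain ⟨_, ⟨w₀, hw₀, rfl⟩, hm⟩ := Set.exists_max_image _ id hfin
      ⟨_, p, mem_ball_self hε, rfl⟩
    exact ⟨w₀, hw₀, fun w hw => hm _ ⟨w, hw, rfl⟩⟩
  obtain ⟨L, A, hLA⟩ := exists_LA (fderiv ℂ φ w₀)
  have hd : DifferentiableOn ℂ (fderiv ℂ φ) (ball p ε) :=
    ((MP_caab05_ag.GB.osg G F φ W hW hφ).fderiv.mono hB).differentiableOn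
  have hD : DifferentiableOn ℂ (fun w => (L.comp ((fderiv ℂ φ w).comp A)).det) (ball p ε) :=
    diff_det ((differentiableOn_const L).clm_comp (hd.clm_comp (differentiableOn_const A)))
  have hD0 : (L.comp ((fderiv ℂ φ w₀).comp A)).det ≠ 0 := by
    have : L.comp ((fderiv ℂ φ w₀).comp A) = ContinuousLinearMap.id ℂ _ :=
      ContinuousLinearMap.ext hLA
    rw [this]
    simp [ContinuousLinearMap.det]
  obtain ⟨B, ψ, hi, -, hc⟩ := h2 G k _ _ hk isOpen_ball hD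
    (nz_of_ne isOpen_ball (convex_ball p ε).isPreconnected hD hw₀ hD0)
  refine ⟨B, ψ, fun j => (hi j).op, fun j => (hi j).hol, Subset.trans ?_ hc⟩
  rintro w ⟨hw, hwB⟩
  refine ⟨hwB, ?_⟩
  by_contra hne
  apply hw.2
  have h3 : Function.Surjective fun x => L (fderiv ℂ φ w x) := by
    intro u
    obtain ⟨v, hv⟩ := surj_of_det _ hne u
    exact ⟨A v, hv⟩
  have h4 := le_rk _ L h3
  rw [finrank_fin_fun] at h4
  filter_upwards [isOpen_ball.mem_nhds hwB] with w' hw'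
  exact (hmax w' hw').trans h4

/-- near a point of locally maximal rank at most `k` the image is thin -/
lemma good_thin (h1 : ThinS) {k : ℕ} {φ : G → F} {W : Set G} (hW : IsOpen W)
    (hφ : DifferentiableOn ℂ φ W) {w₀ : G} (hw₀ : w₀ ∈ W)
    (hmax : ∀ᶠ w in 𝓝 w₀, rk (fderiv ℂ φ w) ≤ rk (fderiv ℂ φ w₀))
    (hk : rk (fderiv ℂ φ w₀) ≤ k) : ∃ V ∈ 𝓝 w₀, Thin k (φ '' V) := by
  have : CompleteSpace F := FiniteDimensional.complete ℂ F
  have : CompleteSpace G := FiniteDimensional.complete ℂ G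
  obtain ⟨r, hr, L, A, hLA⟩ : ∃ r, rk (fderiv ℂ φ w₀) = r ∧ ∃ (L : F →L[ℂ] (Fin r → ℂ))
      (A : (Fin r → ℂ) →L[ℂ] G), ∀ u, L (fderiv ℂ φ w₀ (A u)) = u := ⟨_, rfl, exists_LA _⟩
  rw [hr] at hmax hk
  obtain ⟨K, e, he⟩ : ∃ (K : Submodule ℂ G) (e : G ≃L[ℂ] (Fin r → ℂ) × K),
      ∀ x, L (fderiv ℂ φ w₀ x) = (e x).1 :=
    ⟨_, ContinuousLinearEquiv.equivOfRightInverse (L.comp (fderiv ℂ φ w₀)) A hLA, fun x => rfl⟩
  have hφa : ContDiffAt ℂ 1 φ w₀ := (MP_caab05_ag.GB.osg G F φ W hW hφ w₀ hw₀).contDiffAt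
  set P : G →L[ℂ] K := (ContinuousLinearMap.snd ℂ (Fin r → ℂ) K).comp (e : G →L[ℂ] _) with hP
  set ψ : G → (Fin r → ℂ) × K := fun w => (L (φ w), P w) with hψ
  have hψa : ContDiffAt ℂ 1 ψ w₀ := (L.contDiff.contDiffAt.comp w₀ hφa).prodMk P.contDiff.contDiffAt
  have hψd : HasFDerivAt ψ (e : G →L[ℂ] (Fin r → ℂ) × K) w₀ := by
    have h2 := (L.hasFDerivAt.comp w₀
      (hφa.differentiableAt one_ne_zero).hasFDerivAt).prodMk (P.hasFDerivAt (x := w₀))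
    exact h2.congr_fderiv (ContinuousLinearMap.ext fun x => Prod.ext (he x) rfl)
  set θ := hψa.localInverse hψd one_ne_zero with hθ
  have hs := hψa.hasStrictFDerivAt' hψd one_ne_zero
  have hθ1 : ∀ᶠ z in 𝓝 (ψ w₀), ContDiffAt ℂ 1 θ z :=
    (hψa.to_localInverse hψd one_ne_zero).eventually (by simp)
  have hθ2 : ∀ᶠ z in 𝓝 (ψ w₀), ψ (θ z) = z := hs.eventually_right_inverse
  have hθ3 : ∀ᶠ w in 𝓝 w₀, θ (ψ w) = w := hs.eventually_left_inverse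
  have hθ4 : Tendsto θ (𝓝 (ψ w₀)) (𝓝 w₀) := hs.localInverse_tendsto
  have hθ5 := hθ4.eventually (hmax.and (hW.mem_nhds hw₀))
  obtain ⟨ε, hε, hb⟩ := Metric.eventually_nhds_iff_ball.1 (hθ1.and (hθ2.and hθ5))
  have hχ : ∀ z ∈ ball (ψ w₀) ε,
      HasFDerivAt (φ ∘ θ) ((fderiv ℂ φ (θ z)).comp (fderiv ℂ θ z)) z := fun z hz =>
    ((hφ.differentiableAt (hW.mem_nhds (hb z hz).2.2.2)).hasFDerivAt).comp z
      ((hb z hz).1.differentiableAt one_ne_zero).hasFDerivAt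
  have hL : ∀ z ∈ ball (ψ w₀) ε, ∀ x,
      L (((fderiv ℂ φ (θ z)).comp (fderiv ℂ θ z)) x) = x.1 := by
    intro z hz x
    have h2 := L.hasFDerivAt.comp z (hχ z hz)
    have h3 : (L ∘ φ ∘ θ) =ᶠ[𝓝 z] Prod.fst := by
      filter_upwards [isOpen_ball.mem_nhds hz] with y hy
      exact congrArg Prod.fst (hb y hy).2.1
    have h4 := (h2.congr_of_eventuallyEq h3.symm).unique (hasFDerivAt_fst (𝕜 := ℂ))
    exact ContinuousLinearMap.ext_iff.1 h4 x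
  have h0 : ∀ z ∈ ball (ψ w₀) ε, ∀ v : K,
      ((fderiv ℂ φ (θ z)).comp (fderiv ℂ θ z)) (0, v) = 0 := by
    intro z hz v
    refine zero_of_rk _ L (fun u => ⟨(u, 0), hL z hz _⟩) ?_ _ (hL z hz _)
    rw [finrank_fin_fun]
    exact (rk_comp_le _ _).trans (hb z hz).2.2.1
  have hmem : ∀ u ∈ ball (ψ w₀).1 ε, ∀ v ∈ ball (ψ w₀).2 ε, (u, v) ∈ ball (ψ w₀) ε := by
    intro u hu v hv
    have h2 : (u, v) ∈ ball (ψ w₀).1 ε ×ˢ ball (ψ w₀).2 ε := ⟨hu, hv⟩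
    rwa [ball_prod_same] at h2
  have hconst : ∀ z ∈ ball (ψ w₀) ε, φ (θ z) = φ (θ (z.1, (ψ w₀).2)) := by
    intro z hz
    have hz' : z ∈ ball (ψ w₀).1 ε ×ˢ ball (ψ w₀).2 ε := by rwa [ball_prod_same]
    have h2 : ∀ v ∈ ball (ψ w₀).2 ε,
        HasFDerivAt (fun v : K => φ (θ (z.1, v))) (0 : K →L[ℂ] F) v := by
      intro v hv
      have h3 := (hχ (z.1, v) (hmem _ hz'.1 v hv)).comp v (hasFDerivAt_prodMk_right z.1 v)
      exact h3.congr_fderiv (ContinuousLinearMap.ext fun x => h0 _ (hmem _ hz'.1 v hv) x)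
    exact isOpen_ball.is_const_of_fderiv_eq_zero (𝕜 := ℂ) (f := fun v : K => φ (θ (z.1, v)))
      (convex_ball _ _).isPreconnected
      (fun v hv => (h2 v hv).differentiableAt.differentiableWithinAt)
      (fun v hv => (h2 v hv).fderiv) hz'.2 (mem_ball_self hε)
  have hT : Thin k ((fun u : Fin r → ℂ => φ (θ (u, (ψ w₀).2))) '' ball (ψ w₀).1 ε) := by
    refine h1.ofImage (by rwa [finrank_fin_fun]) isOpen_ball fun u hu => ?_
    have h2 := (hχ (u, (ψ w₀).2) (hmem u hu _ (mem_ball_self hε))).comp u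
      (hasFDerivAt_prodMk_left (𝕜 := ℂ) u (ψ w₀).2)
    exact h2.differentiableAt.differentiableWithinAt
  refine ⟨{w | θ (ψ w) = w ∧ ψ w ∈ ball (ψ w₀) ε},
    hθ3.and (hψa.continuousAt.preimage_mem_nhds (ball_mem_nhds _ hε)), h1.mono hT ?_⟩
  rintro _ ⟨w, ⟨hw1, hw2⟩, rfl⟩
  have hz' : ψ w ∈ ball (ψ w₀).1 ε ×ˢ ball (ψ w₀).2 ε := by rwa [ball_prod_same]
  refine ⟨(ψ w).1, hz'.1, ?_⟩
  have h2 := hconst _ hw2
  rw [hw1] at h2
  exact h2.symm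

omit [FiniteDimensional ℂ F] in
/-- a fibre without critical points is countable -/
lemma fibre_countable (h1 : ThinS) {g : G → F} {W : Set G} (hW : IsOpen W)
    (hg : DifferentiableOn ℂ g W) {y : F}
    (h : ∀ w ∈ W, g w = y → Function.Injective (fderiv ℂ g w)) :
    (W ∩ g ⁻¹' {y}).Countable := by
  refine h1.zero.1 (h1.loc fun p hp => ?_)
  obtain ⟨C, -, hC⟩ := (LinearMap.injective_iff_antilipschitz
    (fderiv ℂ g p : G →ₗ[ℂ] F)).1 (h p hp.1 hp.2)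
  have h2 := (hg.differentiableAt (hW.mem_nhds hp.1)).hasFDerivAt.eventually_ne (c := y) ⟨C, hC⟩
  rw [eventually_nhdsWithin_iff] at h2
  refine ⟨_, h2, h1.zero.2 ((countable_singleton p).mono ?_)⟩
  rintro x ⟨hx1, hx2⟩
  by_contra hx
  exact hx2 hx hx1.2

end Crit

open Crit

theorem critS (h1 : ThinS) (h2 : ZeroS) : CritS := by
  intro G F _ _ _ _ _ _ k φ W hk hW hφ
  have hb := h1.image (bad_thin h1 h2 hk hW hφ) hW (fun w hw => hw.1) hφ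
  set S : Set G := {w | w ∈ W ∧ (∀ᶠ w' in 𝓝 w, rk (fderiv ℂ φ w') ≤ rk (fderiv ℂ φ w)) ∧
    rk (fderiv ℂ φ w) ≤ k} with hS
  have hV : ∀ w : G, ∃ V : Set G, w ∈ S → V ∈ 𝓝 w ∧ Thin k (φ '' V) := by
    intro w
    by_cases hw : w ∈ S
    · obtain ⟨V, hV, hT⟩ := good_thin h1 hW hφ hw.1 hw.2.1 hw.2.2
      exact ⟨V, fun _ => ⟨hV, hT⟩⟩
    · exact ⟨∅, fun h => (hw h).elim⟩
  choose V hV using hV
  obtain ⟨t, hts, htc, hcov⟩ := TopologicalSpace.countable_cover_nhdsWithin (f := V) (s := S)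
    fun w hw => mem_nhdsWithin_of_mem_nhds (hV w hw).1
  have := htc.to_subtype
  have hg : Thin k (⋃ w : t, φ '' V w) := h1.iUnion fun w => (hV w (hts w.2)).2
  refine h1.mono (h1.union hb hg) ?_
  rintro _ ⟨w, ⟨hw, hi⟩, rfl⟩
  by_cases hm : ∀ᶠ w' in 𝓝 w, rk (fderiv ℂ φ w') ≤ rk (fderiv ℂ φ w)
  · right
    have h3 := rk_lt _ hi
    have h4 : w ∈ S := ⟨hw, hm, by omega⟩
    obtain ⟨x, hx, hwx⟩ := mem_iUnion₂.1 (hcov h4)
    exact mem_iUnion.2 ⟨⟨x, hx⟩, w, hwx, rfl⟩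
  · exact Or.inl ⟨w, ⟨hw, hm⟩, rfl⟩

theorem rkS (h1 : ThinS) (h3 : CritS) : RkS := by
  intro E F _ _ _ _ _ _ k ψ S V hS hV hSV hψ
  obtain ⟨B, φ, hB, hφ, hc⟩ := hS
  have hW : ∀ j, IsOpen (B j ∩ φ j ⁻¹' V) := fun j =>
    (hφ j).continuousOn.isOpen_inter_preimage (hB j) hV
  have hg : ∀ j, DifferentiableOn ℂ (ψ ∘ φ j) (B j ∩ φ j ⁻¹' V) := fun j =>
    hψ.comp ((hφ j).mono inter_subset_left) fun w hw => hw.2
  refine h1.mono (h1.iUnion fun j =>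
    h3 _ F k (ψ ∘ φ j) _ (finrank_fin_fun ℂ) (hW j) (hg j)) fun y hy => ?_
  by_contra hn
  apply hy
  have h4 : ∀ j, ((B j ∩ φ j ⁻¹' V) ∩ (ψ ∘ φ j) ⁻¹' {y}).Countable := fun j =>
    fibre_countable h1 (hW j) (hg j) fun w hw hwy => by
      by_contra hi
      exact hn (mem_iUnion.2 ⟨j, w, ⟨hw, hi⟩, hwy⟩)
  refine (countable_iUnion fun j => (h4 j).image (φ j)).mono ?_
  rintro x ⟨hx, hxy⟩
  obtain ⟨j, w, hw, rfl⟩ := mem_iUnion.1 (hc hx)
  exact mem_iUnion.2 ⟨j, w, ⟨⟨hw, hSV hx⟩, hxy⟩, rfl⟩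

end Pool.Agent.Lib.MP_823829_an.LA
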