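import Mathlib
import Pool.Agent.Lib.MP_823829_an.LA.Stmt

/-! Descent to an analytic set of the right dimension. -/

namespace Pool.Agent.Lib.MP_823829_an.LA

open Set Filter Topology Metric MeasureTheory Module

namespace Desc

section
variable {E : Type} [NormedAddCommGroup E] [NormedSpace ℂ E]

theorem anAt_of_eventually {Y Z : Set E} {q : E} {V : Set E} {r : ℕ} {f : E → Fin r → ℂ}
    (hV : IsOpen V) (hq : q ∈ V) (hf : DifferentiableOn ℂ f V)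
    (hY : ∀ x ∈ V, (x ∈ Y ↔ f x = 0)) (h : ∀ᶠ x in 𝓝 q, (x ∈ Z ↔ x ∈ Y)) : AnAt Z q := by
  obtain ⟨W, hW, hWo, hqW⟩ := _root_.eventually_nhds_iff.1 h
  refine ⟨V ∩ W, r, f, hV.inter hWo, ⟨hq, hqW⟩, hf.mono inter_subset_left, fun x hx => ?_⟩
  rw [hW x hx.2, hY x hx.1]

theorem anAt_of_empty {Z : Set E} {q : E} (h : ∀ᶠ x in 𝓝 q, x ∉ Z) : AnAt Z q := by
  obtain ⟨W, hW, hWo, hqW⟩ := _root_.eventually_nhds_iff.1 h
  refine ⟨W, 1, fun _ _ => 1, hWo, hqW, differentiableOn_const _, fun x hx => ?_⟩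
  constructor
  · intro h
    exact absurd h (hW x hx)
  · intro h
    have := congrFun h 0
    simp at this

theorem anAt_inter_zero {Y : Set E} {p : E} (hY : AnAt Y p) {g : E → ℂ} {W : Set E}
    (hW : IsOpen W) (hp : p ∈ W) (hg : DifferentiableOn ℂ g W) :
    AnAt (Y ∩ {x | g x = 0}) p := by
  obtain ⟨V, r, f, hV, hpV, hf, hYf⟩ := hY
  refine ⟨V ∩ W, r + 1, fun x => Fin.cons (g x) (f x), hV.inter hW, ⟨hpV, hp⟩, ?_, fun x hx => ?_⟩
  · rw [differentiableOn_pi]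
    intro i
    refine Fin.cases ?_ (fun j => ?_) i
    · simpa using hg.mono inter_subset_right
    · simpa using (differentiableOn_pi.1 hf j).mono inter_subset_left
  · constructor
    · rintro ⟨h1, h2⟩
      have h3 := (hYf x hx.1).1 h1
      funext i
      refine Fin.cases ?_ (fun j => ?_) i
      · simpa using h2
      · simp [h3]
    · intro h
      refine ⟨(hYf x hx.1).2 ?_, ?_⟩
      · funext j
        simpa using congrFun h j.succ
      · simpa using congrFun h 0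

theorem closed_near {Y : Set E} {V : Set E} {r : ℕ} {f : E → Fin r → ℂ}
    (hV : IsOpen V) (hf : DifferentiableOn ℂ f V) (hY : ∀ x ∈ V, (x ∈ Y ↔ f x = 0)) :
    ∀ x ∈ V, x ∈ closure Y → x ∈ Y := by
  intro x hx hc
  rw [hY x hx]
  by_contra hne
  have hcont : ContinuousAt f x := (hf.continuousOn x hx).continuousAt (hV.mem_nhds hx)
  have h1 : ∀ᶠ y in 𝓝 x, f y ≠ 0 := hcont.eventually_ne hne
  have h2 : ∀ᶠ y in 𝓝 x, y ∈ V := hV.mem_nhds hx
  obtain ⟨y, hy, hy1, hy2⟩ := (mem_closure_iff_frequently.1 hc).and_eventually (h1.and h2)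
    |>.exists
  exact hy1 ((hY y hy2).1 hy)

end

section
variable {T F : Type} [NormedAddCommGroup T] [NormedSpace ℂ T]
  [NormedAddCommGroup F] [NormedSpace ℂ F]

/-- cutting an analytic set along a shell -/
theorem cut {Y : Set (T × F)} {q : T × F} (hY : AnAt Y q) (hB : Box Y q) :
    ∃ ε ρ : ℝ, 0 < ε ∧ 0 < ρ ∧ BdAn (Y ∩ {x | x.2 ∈ ball q.2 ρ}) (ball q.1 ε) := by
  obtain ⟨V, r, f, hV, hqV, hf, hYf⟩ := hY
  obtain ⟨η, hη, hball⟩ := Metric.isOpen_iff.1 hV q hqV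
  obtain ⟨ε, ρ₁, ρ₂, hε, hεη, hρ₁, h12, hρη, hsh⟩ := hB η hη
  refine ⟨ε, ρ₂, hε, hρ₁.trans h12, ?_, ‖q.2‖ + ρ₂, ?_⟩
  · rintro x ⟨hx, -⟩
    have hx1 : dist x.1 q.1 < ε := hx
    rcases lt_or_ge (dist x.2 q.2) ρ₂ with h | h
    · have hxV : x ∈ V := by
        apply hball
        rw [mem_ball, Prod.dist_eq]
        exact max_lt (hx1.trans hεη) (h.trans hρη)
      refine anAt_of_eventually hV hxV hf hYf ?_
      have : ∀ᶠ y : T × F in 𝓝 x, dist y.2 q.2 < ρ₂ :=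
        (continuous_snd.dist continuous_const).continuousAt.eventually_lt continuousAt_const h
      filter_upwards [this] with y hy
      exact ⟨fun h => h.1, fun h => ⟨h, hy⟩⟩
    · apply anAt_of_empty
      have h1 : ∀ᶠ y : T × F in 𝓝 x, ρ₁ < dist y.2 q.2 :=
        continuousAt_const.eventually_lt (continuous_snd.dist continuous_const).continuousAt
          (h12.trans_le h)
      have h2 : ∀ᶠ y : T × F in 𝓝 x, dist y.1 q.1 < ε :=
        (continuous_fst.dist continuous_const).continuousAt.eventually_lt continuousAt_const hx1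
      filter_upwards [h1, h2] with y hy1 hy2 hy
      have h3 : dist y.2 q.2 < ρ₂ := hy.2
      exact absurd (hsh y hy.1 hy2.le h3.le) (not_lt.2 hy1.le)
  · rintro x ⟨-, hx⟩ -
    have h3 : dist x.2 q.2 < ρ₂ := hx
    rw [dist_eq_norm] at h3
    calc ‖x.2‖ = ‖q.2 + (x.2 - q.2)‖ := by congr 1; abel
      _ ≤ ‖q.2‖ + ‖x.2 - q.2‖ := norm_add_le _ _
      _ ≤ ‖q.2‖ + ρ₂ := by linarith

end

/-- one step of the descent -/
theorem step (h0 : ThinS) (h1 : ZeroS) (h2 : ScaleS) (h3 : BCS)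
    {E : Type} [NormedAddCommGroup E] [NormedSpace ℂ E] [FiniteDimensional ℂ E] {k l : ℕ}
    (hkl : k < l + 1) (hl : l + 1 ≤ finrank ℂ E) {Y G V : Set E} {p : E} (hY : AnAt Y p)
    (hGY : G ⊆ Y) (hG : ∀ q ∈ G, ∀ᶠ x in 𝓝 q, x ∈ Y → x ∈ G) (hGt : Thin k G)
    (hV : V ∈ 𝓝 p) (hYt : Thin (l + 1) (Y ∩ V)) :
    ∃ Y' V' : Set E, IsOpen V' ∧ p ∈ V' ∧ AnAt Y' p ∧ Y' ⊆ Y ∧ G ∩ V' ⊆ Y' ∧
      Thin l (Y' ∩ V') := by
  borelize E
  obtain ⟨m, hm⟩ := Nat.exists_eq_add_of_le hl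
  have hT : finrank ℂ (Fin (l + 1) → ℂ) = l + 1 := by simp
  obtain ⟨V₀, r, f, hV₀, hpV₀, hf, hYf⟩ := hY
  have hnull : μH[2 * (finrank ℂ (Fin (l + 1) → ℂ) : ℝ) + 1] (Y ∩ (V ∩ V₀)) = 0 := by
    refine h0.haus (h0.mono hYt (inter_subset_inter_right _ inter_subset_left)) ?_
    rw [hT]
    linarith
  have hd := h2 E (Fin (l + 1) → ℂ) m Y (V ∩ V₀) p (by rw [hT, hm])
    (inter_mem hV (hV₀.mem_nhds hpV₀)) (fun x hx => closed_near hV₀ hf hYf x hx.2) hnull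
  obtain ⟨L, e, -, hB⟩ := hd.nonempty
  have hmem : ∀ x, x ∈ e '' Y ↔ e.symm x ∈ Y := by
    intro x
    constructor
    · rintro ⟨y, hy, rfl⟩
      simpa using hy
    · intro h
      exact ⟨_, h, by simp⟩
  have hY1 : AnAt (e '' Y) (e p) := by
    refine ⟨e.symm ⁻¹' V₀, r, f ∘ e.symm, hV₀.preimage e.symm.continuous, by simpa using hpV₀,
      hf.comp e.symm.differentiableOn (fun x hx => hx), fun x hx => ?_⟩
    rw [hmem, hYf _ hx]
    rfl
  obtain ⟨ε, ρ, hε, hρ, hbd⟩ := cut hY1 hB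
  obtain ⟨-, -, hth, hcov⟩ := h3 _ _ _ _ isOpen_ball hbd
  obtain ⟨ε', δ, d, M, hε', hsub, hδ, hnz, hC, -⟩ := hcov (e p).1 (mem_ball_self hε)
  obtain ⟨B, φ, hφ, -, hcover⟩ := h1 _ l δ _ hT isOpen_ball hδ hnz
  have hS : Thin l (ball (e p).1 ε' ∩ {x | δ x = 0}) :=
    ⟨B, φ, fun j => (hφ j).op, fun j => (hφ j).hol, hcover⟩
  have hS' := hth l _ (inter_subset_left.trans hsub) hS
  have hS'' := h0.image hS' isOpen_univ (subset_univ _) e.symm.differentiableOn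
  have hopen : IsOpen (e ⁻¹' (ball (e p).1 ε' ×ˢ ball (e p).2 ρ)) :=
    (isOpen_ball.prod isOpen_ball).preimage e.continuous
  have hpo : p ∈ e ⁻¹' (ball (e p).1 ε' ×ˢ ball (e p).2 ρ) :=
    ⟨mem_ball_self hε', mem_ball_self hρ⟩
  refine ⟨Y ∩ {x | δ (e x).1 = 0}, e ⁻¹' (ball (e p).1 ε' ×ˢ ball (e p).2 ρ), hopen, hpo, ?_,
    inter_subset_left, ?_, ?_⟩
  · refine anAt_inter_zero ⟨V₀, r, f, hV₀, hpV₀, hf, hYf⟩ hopen hpo ?_
    exact hδ.comp (differentiable_fst.comp e.differentiable).differentiableOn (fun x hx => hx.1)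
  · rintro x ⟨hxG, hx1, hx2⟩
    refine ⟨hGY hxG, ?_⟩
    by_contra hne
    obtain ⟨W, s, hW, hxW, hs, -, hsW⟩ := hC (e x).1 ⟨hx1, hne⟩
    obtain ⟨i, hi⟩ := (hsW _ hxW (e x).2).1 ⟨⟨x, hGY hxG, rfl⟩, hx2⟩
    obtain ⟨N, hN, hNo, hxN⟩ := _root_.eventually_nhds_iff.1 (hG x hxG)
    set ψ : (Fin (l + 1) → ℂ) → E := fun t => e.symm (t, s i t) with hψ
    have hψd : DifferentiableOn ℂ ψ W :=
      e.symm.differentiable.comp_differentiableOn (differentiableOn_id.prodMk (hs i))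
    have hW' : IsOpen (W ∩ ψ ⁻¹' N) := hψd.continuousOn.isOpen_inter_preimage hW hNo
    have hψx : ψ (e x).1 = x := by
      simp only [hψ, ← hi]
      simp
    have hxW' : (e x).1 ∈ W ∩ ψ ⁻¹' N := ⟨hxW, by rw [mem_preimage, hψx]; exact hxN⟩
    have hinj : Function.Injective (fderiv ℂ ψ (e x).1) := by
      have hd1 : HasFDerivAt ψ (fderiv ℂ ψ (e x).1) (e x).1 :=
        ((hψd _ hxW).differentiableAt (hW.mem_nhds hxW)).hasFDerivAt
      let P : E →L[ℂ] (Fin (l + 1) → ℂ) := (ContinuousLinearMap.fst ℂ _ (Fin m → ℂ)).comp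
        (e : E →L[ℂ] (Fin (l + 1) → ℂ) × (Fin m → ℂ))
      have hd2 := P.hasFDerivAt.comp _ hd1
      have hid : P ∘ ψ = id := by
        funext t
        simp [P, hψ]
      rw [hid] at hd2
      have heq := hd2.unique (hasFDerivAt_id _)
      intro u v huv
      have hu := congrArg (fun A => A u) heq
      have hv := congrArg (fun A => A v) heq
      simp only [ContinuousLinearMap.comp_apply, ContinuousLinearMap.id_apply] at hu hv
      rw [← hu, ← hv, huv]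
    refine h0.notImm hW' hxW' (hψd.mono inter_subset_left) hinj (by rw [hT]; exact hkl)
      (h0.mono hGt ?_)
    rintro _ ⟨t, ⟨ht1, ht2⟩, rfl⟩
    apply hN _ ht2
    have := ((hsW t ht1 (s i t)).2 ⟨i, rfl⟩).1
    exact (hmem _).1 this
  · refine h0.mono hS'' ?_
    rintro x ⟨⟨hxY, hxδ⟩, hx1, hx2⟩
    exact ⟨e x, ⟨⟨⟨x, hxY, rfl⟩, hx2⟩, hx1, hxδ⟩, by simp⟩

theorem ind (h0 : ThinS) (h1 : ZeroS) (h2 : ScaleS) (h3 : BCS)
    {E : Type} [NormedAddCommGroup E] [NormedSpace ℂ E] [FiniteDimensional ℂ E] {k : ℕ} {p : E}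
    (l : ℕ) : l ≤ finrank ℂ E → ∀ (Y G V : Set E), AnAt Y p → G ⊆ Y →
    (∀ q ∈ G, ∀ᶠ x in 𝓝 q, x ∈ Y → x ∈ G) → Thin k G → V ∈ 𝓝 p → Thin l (Y ∩ V) →
    ∃ (Y' V' : Set E), V' ∈ 𝓝 p ∧ AnAt Y' p ∧ Y' ⊆ Y ∧ G ∩ V' ⊆ Y' ∧ Thin k (Y' ∩ V') := by
  induction l with
  | zero =>
    intro _ Y G V hY hGY _ _ hV hYt
    exact ⟨Y, V, hV, hY, Subset.rfl, inter_subset_left.trans hGY, h0.le hYt (Nat.zero_le _)⟩
  | succ l ih =>
    intro hl Y G V hY hGY hG hGt hV hYt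
    rcases le_or_gt (l + 1) k with hk | hk
    · exact ⟨Y, V, hV, hY, Subset.rfl, inter_subset_left.trans hGY, h0.le hYt hk⟩
    · obtain ⟨Y₁, V₁, hV₁, hp₁, hY₁, hsub, hG₁, ht₁⟩ :=
        step h0 h1 h2 h3 hk hl hY hGY hG hGt hV hYt
      obtain ⟨Y', V', hV', hY', hsub', hG', ht'⟩ := ih (by omega) Y₁ (G ∩ V₁) V₁ hY₁ hG₁
        (fun q hq => by
          filter_upwards [hG q hq.1, hV₁.mem_nhds hq.2] with x hx1 hx2 hx
          exact ⟨hx1 (hsub hx), hx2⟩)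
        (h0.mono hGt inter_subset_left) (hV₁.mem_nhds hp₁) ht₁
      refine ⟨Y', V₁ ∩ V', inter_mem (hV₁.mem_nhds hp₁) hV', hY', hsub'.trans hsub, ?_,
        h0.mono ht' (inter_subset_inter_right _ inter_subset_right)⟩
      rintro x ⟨hx1, hx2, hx3⟩
      exact hG' ⟨⟨hx1, hx2⟩, hx3⟩

end Desc

theorem descS (h0 : ThinS) (h1 : ZeroS) (h2 : ScaleS) (h3 : BCS) (_h4 : CovS) : DescS := by
  intro E _ _ _ k Y G p hY hGY hG hGt
  refine Desc.ind h0 h1 h2 h3 (finrank ℂ E) le_rfl Y G univ hY hGY hG hGt univ_mem ?_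
  have := h0.ofImage (φ := (id : E → E)) (W := univ) le_rfl isOpen_univ differentiableOn_id
  exact h0.mono this (by simp)

end Pool.Agent.Lib.MP_823829_an.LA
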