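import Mathlib
import Pool.Agent.Lib.MP_823829_an.LA.Stmt
import Pool.Agent.Lib.MP_caab05_ag.GB.Osg

/-! Off a hypersurface the roots of a holomorphic family of monic polynomials form an unbranched
covering. -/

namespace Pool.Agent.Lib.MP_823829_an.LA

open Set Filter Topology Metric

namespace Disc

section
variable {T : Type} [NormedAddCommGroup T] [NormedSpace ℂ T]

theorem nz_of [FiniteDimensional ℂ T] {δ : T → ℂ} {N : Set T} (hN : IsOpen N)
    (hc : IsPreconnected N) (hδ : DifferentiableOn ℂ δ N) {t : T} (ht : t ∈ N) (h : δ t ≠ 0) :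
    NZ δ N := by
  intro x hx
  by_contra hne
  have h0 : δ =ᶠ[𝓝 x] 0 := by
    filter_upwards [not_frequently.1 hne] with y hy
    exact not_not.1 hy
  exact h ((Pool.Agent.Lib.MP_caab05_ag.GB.osg T ℂ δ N hN
    hδ).eqOn_zero_of_preconnected_of_eventuallyEq_zero hc hx h0 ht)

theorem nz_prod {ι : Type} {δ : ι → T → ℂ} {N : Set T} (hN : IsOpen N)
    (hδ : ∀ j, DifferentiableOn ℂ (δ j) N) (h : ∀ j, NZ (δ j) N) (s : Finset ι) :
    NZ (fun t => ∏ j ∈ s, δ j t) N := by
  classical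
  induction s using Finset.induction_on with
  | empty => exact fun x _ => Frequently.of_forall fun y => by simp
  | insert j s hj ih =>
    intro x hx
    rw [frequently_iff]
    intro W hW
    obtain ⟨W', hW', hWo, hxW⟩ := _root_.mem_nhds_iff.1 (inter_mem hW (hN.mem_nhds hx))
    obtain ⟨y, hyW, hy⟩ := frequently_iff.1 (h j x hx) (hWo.mem_nhds hxW)
    have hyN : y ∈ N := (hW' hyW).2
    have h1 : ∀ᶠ z in 𝓝 y, δ j z ≠ 0 :=
      ((hδ j).continuousOn.continuousAt (hN.mem_nhds hyN)).eventually_ne hy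
    obtain ⟨z, ⟨hz1, hz2⟩, hz⟩ := frequently_iff.1 (ih y hyN) (inter_mem h1 (hWo.mem_nhds hyW))
    refine ⟨z, (hW' hz2).1, ?_⟩
    change ∏ j ∈ insert j s, δ j z ≠ 0
    rw [Finset.prod_insert hj]
    exact mul_ne_zero hz1 hz

theorem diff_prod {ι : Type} {δ : ι → T → ℂ} {N : Set T}
    (hδ : ∀ j, DifferentiableOn ℂ (δ j) N) (s : Finset ι) :
    DifferentiableOn ℂ (fun t => ∏ j ∈ s, δ j t) N := by
  classical
  induction s using Finset.induction_on with
  | empty => simp
  | insert j s hj ih =>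
    simp only [Finset.prod_insert hj]
    exact (hδ j).mul ih

end

/-- the product of all differences -/
noncomputable def dif {ρ : ℕ} (x : Fin ρ → ℂ) : ℂ := ∏ i, ∏ j ∈ Finset.univ.erase i, (x i - x j)

theorem dif_ne {ρ : ℕ} {x : Fin ρ → ℂ} : dif x ≠ 0 ↔ Function.Injective x := by
  simp only [dif, Finset.prod_ne_zero_iff, Finset.mem_univ, Finset.mem_erase, true_imp_iff,
    and_true, sub_ne_zero]
  constructor
  · intro h i j hij
    by_contra hne
    exact h i j (fun e => hne e.symm) hij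
  · intro h i j hij e
    exact hij (h e).symm

open Classical in
theorem dif_eq {ρ : ℕ} {x : Fin ρ → ℂ} (hx : Function.Injective x) :
    dif x = ∏ u ∈ Finset.univ.image x, ∏ w ∈ (Finset.univ.image x).erase u, (u - w) := by
  rw [Finset.prod_image hx.injOn]
  refine Finset.prod_congr rfl fun i _ => ?_
  rw [← Finset.image_erase hx, Finset.prod_image hx.injOn]

/-- the generalised discriminant -/
noncomputable def disc (ρ : ℕ) {d : ℕ} (y : Fin d → ℂ) : ℂ := ∑ f : Fin ρ → Fin d, dif (y ∘ f)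

/-- the generalised discriminant as a polynomial -/
noncomputable def discP (ρ d : ℕ) : MvPolynomial (Fin d) ℂ :=
  ∑ f : Fin ρ → Fin d, ∏ i, ∏ j ∈ Finset.univ.erase i,
    (MvPolynomial.X (f i) - MvPolynomial.X (f j))

theorem eval_discP (ρ : ℕ) {d : ℕ} (y : Fin d → ℂ) :
    MvPolynomial.eval y (discP ρ d) = disc ρ y := by
  simp [discP, disc, dif, map_sum, map_prod]

theorem discP_symm (ρ d : ℕ) : (discP ρ d).IsSymmetric := by
  intro e
  simp only [discP, map_sum, map_prod, map_sub, MvPolynomial.rename_X]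
  exact Fintype.sum_equiv (Equiv.arrowCongr (Equiv.refl _) e) _ _ fun f => rfl

open Classical in
theorem image_eq {ρ d : ℕ} {y : Fin d → ℂ} (hy : (Finset.univ.image y).card ≤ ρ) {x : Fin ρ → ℂ}
    (hx : Function.Injective x) (h : ∀ b, ∃ i, x b = y i) :
    Finset.univ.image x = Finset.univ.image y := by
  refine Finset.eq_of_subset_of_card_le ?_ ?_
  · intro u hu
    obtain ⟨b, -, rfl⟩ := Finset.mem_image.1 hu
    obtain ⟨i, hi⟩ := h b
    exact Finset.mem_image.2 ⟨i, Finset.mem_univ _, hi.symm⟩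
  · rwa [Finset.card_image_of_injective _ hx, Finset.card_univ, Fintype.card_fin]

open Classical in
theorem disc_ne {ρ d : ℕ} {y : Fin d → ℂ} (hy : (Finset.univ.image y).card = ρ) :
    disc ρ y ≠ 0 := by
  set A := Finset.univ.image y with hA
  have hf : ∀ u : A, ∃ i, y i = u := fun u => by
    obtain ⟨i, -, hi⟩ := Finset.mem_image.1 u.2
    exact ⟨i, hi⟩
  choose g hg using hf
  let e : A ≃ Fin ρ := Finset.equivFinOfCardEq hy
  have h0 : Function.Injective (y ∘ fun b => g (e.symm b)) := by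
    intro b c hbc
    simp only [Function.comp, hg] at hbc
    exact e.symm.injective (Subtype.ext hbc)
  set D := ∏ u ∈ A, ∏ w ∈ A.erase u, (u - w) with hD
  have key : ∀ f : Fin ρ → Fin d, Function.Injective (y ∘ f) → dif (y ∘ f) = D := fun f hf => by
    rw [dif_eq hf, image_eq hy.le hf fun b => ⟨f b, rfl⟩]
  have hD0 : D ≠ 0 := key _ h0 ▸ dif_ne.2 h0
  have : disc ρ y = (Finset.univ.filter fun f : Fin ρ → Fin d =>
      Function.Injective (y ∘ f)).card * D := by
    rw [disc, ← Finset.sum_filter_of_ne (p := fun f : Fin ρ → Fin d => Function.Injective (y ∘ f))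
      fun f _ hf => dif_ne.1 hf, Finset.sum_congr rfl fun f hf => key f (Finset.mem_filter.1 hf).2,
      Finset.sum_const, nsmul_eq_mul]
  rw [this]
  refine mul_ne_zero (Nat.cast_ne_zero.2 (Finset.card_pos.2 ⟨fun b => g (e.symm b),
    Finset.mem_filter.2 ⟨Finset.mem_univ _, h0⟩⟩).ne') hD0

theorem exists_inj {ρ d : ℕ} {y : Fin d → ℂ} (h : disc ρ y ≠ 0) :
    ∃ f : Fin ρ → Fin d, Function.Injective (y ∘ f) := by
  obtain ⟨f, -, hf⟩ := Finset.exists_ne_zero_of_sum_ne_zero h
  exact ⟨f, dif_ne.1 hf⟩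

theorem exists_rad {ρ : ℕ} {x : Fin ρ → ℂ} (hx : Function.Injective x) :
    ∃ r : ℝ, 0 < r ∧ ∀ b c, b ≠ c → 2 * r < dist (x b) (x c) := by
  have h : ∀ᶠ r : ℝ in 𝓝[>] 0, ∀ b c, b ≠ c → 2 * r < dist (x b) (x c) := by
    refine eventually_all.2 fun b => eventually_all.2 fun c => ?_
    by_cases hbc : b = c
    · exact Eventually.of_forall fun _ h => absurd hbc h
    · have h1 : Tendsto (fun r : ℝ => 2 * r) (𝓝[>] 0) (𝓝 (2 * 0)) :=
        (tendsto_const_nhds.mul tendsto_id).mono_left nhdsWithin_le_nhds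
      rw [mul_zero] at h1
      filter_upwards [h1.eventually (gt_mem_nhds (dist_pos.2 (hx.ne hbc)))] with r hr _ using hr
  obtain ⟨r, hr, hr0⟩ := (h.and self_mem_nhdsWithin).exists
  exact ⟨r, hr0, hr⟩

open Classical in
theorem covAt (h1 : WPS) (h2 : SymS) {T : Type} [NormedAddCommGroup T] [NormedSpace ℂ T]
    [FiniteDimensional ℂ T] {d ρ : ℕ} {a : T → Fin d → ℂ} {N : Set T} (hN : IsOpen N)
    (ha : Mon a N) (hρ : ∀ t ∈ N, (Finset.univ.image (a t)).card ≤ ρ) {t₁ : T} (ht₁ : t₁ ∈ N)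
    (hδ : disc ρ (a t₁) ≠ 0) : CovAt ρ (supp a) t₁ := by
  obtain ⟨f, hf⟩ := exists_inj hδ
  set x := a t₁ ∘ f with hx
  have him := image_eq (hρ t₁ ht₁) hf fun b => ⟨f b, rfl⟩
  obtain ⟨r, hr, hsep⟩ := exists_rad hf
  have hz : ∀ (t : T) (s : ℂ), ∏ i, (s - a t i) = 0 ↔ ∃ i, s = a t i := fun t s => by
    simp only [Finset.prod_eq_zero_iff, Finset.mem_univ, true_and, sub_eq_zero]
  have hw := fun b => h1 T (fun q : T × ℂ => ∏ i, (q.2 - a q.1 i)) (N ×ˢ univ) t₁ (x b) r
    (hN.prod isOpen_univ) hr (h2.joint ha)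
    (prod_mono (singleton_subset_iff.2 ht₁) (subset_univ _)) (fun s hs h0 => by
      obtain ⟨i, hi⟩ := (hz t₁ s).1 h0
      have : s ∈ Finset.univ.image x := him ▸ Finset.mem_image.2 ⟨i, Finset.mem_univ _, hi.symm⟩
      obtain ⟨c, -, rfl⟩ := Finset.mem_image.1 this
      have hd : dist (x c) (x b) = r := hs
      by_cases hcb : c = b
      · rw [hcb, dist_self] at hd
        exact hr.ne hd
      · have := hsep c b hcb
        linarith)
  choose ε e α hε hsub hball hroot hhol using hw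
  have hi : ∀ b, Nonempty (Fin (e b)) := fun b => by
    obtain ⟨i, -⟩ := (hroot b t₁ (mem_ball_self (hε b)) (x b) (mem_closedBall_self hr.le)).1
      ((hz t₁ _).2 ⟨f b, rfl⟩)
    exact ⟨i⟩
  have he : ∀ b, (e b : ℂ) ≠ 0 := fun b =>
    Nat.cast_ne_zero.2 (Fin.pos_iff_nonempty.2 (hi b)).ne'
  set V : Set T := ⋂ b, ball t₁ (ε b) ∩ N with hV
  have hVb : ∀ b, V ⊆ ball t₁ (ε b) := fun b t ht => (mem_iInter.1 ht b).1
  have hone : ∀ {b c : Fin ρ} {u : ℂ}, u ∈ ball (x b) r → u ∈ ball (x c) r → b = c := by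
    intro b c u hb hc
    by_contra hbc
    have h3 := hsep b c hbc
    have h4 := dist_triangle_left (x b) (x c) u
    rw [mem_ball] at hb hc
    linarith
  have hrt : ∀ t ∈ V, ∀ b i, ∃ j, α b t i = a t j := fun t ht b i =>
    (hz t _).1 ((hroot b t (hVb b ht) _ (ball_subset_closedBall (hball b t (hVb b ht) i))).2
      ⟨i, rfl⟩)
  have hinj : ∀ t ∈ V, Function.Injective fun b => α b t (hi b).some := fun t ht b c hbc =>
    hone (hball b t (hVb b ht) _) (by
      have := hball c t (hVb c ht) (hi c).some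
      simp only at hbc
      rwa [hbc])
  have hall : ∀ t ∈ V ∩ N, ∀ j, ∃ b, a t j = α b t (hi b).some := fun t ht j => by
    have h5 := image_eq (hρ t ht.2) (hinj t ht.1) fun b => hrt t ht.1 b _
    have : a t j ∈ Finset.univ.image fun b => α b t (hi b).some :=
      h5 ▸ Finset.mem_image.2 ⟨j, Finset.mem_univ _, rfl⟩
    obtain ⟨b, -, hb⟩ := Finset.mem_image.1 this
    exact ⟨b, hb.symm⟩
  have hs : ∀ t ∈ V ∩ N, ∀ b, (e b : ℂ)⁻¹ * ∑ i, α b t i = α b t (hi b).some := fun t ht b => by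
    have h6 : ∀ i, α b t i = α b t (hi b).some := fun i => by
      obtain ⟨j, hj⟩ := hrt t ht.1 b i
      obtain ⟨c, hc⟩ := hall t ht j
      have hbc : b = c := hone (hball b t (hVb b ht.1) i) (by
        rw [hj, hc]
        exact hball c t (hVb c ht.1) _)
      subst hbc
      rw [hj, hc]
    rw [Finset.sum_congr rfl fun i _ => h6 i, Finset.sum_const, Finset.card_univ,
      Fintype.card_fin, nsmul_eq_mul, ← mul_assoc, inv_mul_cancel₀ (he b), one_mul]
  have hVo : IsOpen (V ∩ N) := (isOpen_iInter_of_finite fun b => isOpen_ball.inter hN).inter hN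
  refine ⟨V ∩ N, fun b t => (e b : ℂ)⁻¹ * ∑ i, α b t i, hVo,
    ⟨mem_iInter.2 fun b => ⟨mem_ball_self (hε b), ht₁⟩, ht₁⟩, fun b => ?_, fun t ht => ?_,
    fun t ht y => ?_⟩
  · exact (hhol b Prod.snd univ (V ∩ N) isOpen_univ hVo (fun t ht => hVb b ht.1) (subset_univ _)
      differentiable_snd.differentiableOn).const_mul _
  · simp only [hs t ht]
    exact hinj t ht.1
  · simp only [hs t ht]
    constructor
    · rintro ⟨j, hj⟩
      obtain ⟨b, hb⟩ := hall t ht j
      exact ⟨b, hj.trans hb⟩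
    · rintro ⟨b, hb⟩
      obtain ⟨j, hj⟩ := hrt t ht.1 b (hi b).some
      exact ⟨j, hb.trans hj⟩

end Disc

open Disc in
theorem discS (h1 : WPS) (h2 : SymS) : DiscS := by
  classical
  intro T _ _ _ d a N hN hc ha
  rcases N.eq_empty_or_nonempty with rfl | hne
  · exact ⟨fun _ => 1, 0, differentiableOn_empty, fun _ h => h.elim, fun _ h => h.1.elim⟩
  have hfin : ((fun t => (Finset.univ.image (a t)).card) '' N).Finite :=
    (Set.finite_le_nat d).subset (by
      rintro _ ⟨t, -, rfl⟩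
      exact Finset.card_image_le.trans (by simp))
  obtain ⟨t₀, ht₀, hmax⟩ := Set.Finite.exists_maximalFor' _ N hfin hne
  have hδ : DifferentiableOn ℂ (fun t => disc (Finset.univ.image (a t₀)).card (a t)) N := by
    simpa only [eval_discP] using h2.sym ha _ (discP_symm (Finset.univ.image (a t₀)).card d)
  refine ⟨fun t => disc (Finset.univ.image (a t₀)).card (a t), (Finset.univ.image (a t₀)).card,
    hδ, nz_of hN hc hδ ht₀ (disc_ne rfl), fun t ht => covAt h1 h2 hN ha (fun t ht => ?_) ht.1 ht.2⟩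
  exact le_of_not_gt fun h => (hmax ht h.le).not_gt h

open Disc in
theorem monCovS (h : DiscS) : MonCovS := by
  intro T _ _ _ m d a N hN hc ha
  choose δ e hδ hnz hcov using fun j => h T (d j) (a j) N hN hc (ha j)
  refine ⟨fun t => ∏ j, δ j t, Fintype.card (∀ j, Fin (e j)),
    diff_prod hδ _, nz_prod hN hδ hnz _, fun t₀ ht₀ => ?_⟩
  have h0 : ∀ j, δ j t₀ ≠ 0 := fun j => Finset.prod_ne_zero_iff.1 ht₀.2 j (Finset.mem_univ _)
  choose V s hV hmem hs hinj hiff using fun j => hcov j t₀ ⟨ht₀.1, h0 j⟩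
  let q := (Fintype.equivFin (∀ j, Fin (e j))).symm
  refine ⟨⋂ j, V j, fun k t j => s j (q k j) t, isOpen_iInter_of_finite hV, mem_iInter.2 hmem,
    fun k => differentiableOn_pi.2 fun j => (hs j _).mono (iInter_subset _ j),
    fun t ht k l hkl => q.injective (funext fun j =>
      hinj j t (mem_iInter.1 ht j) (congrFun hkl j)), fun t ht y => ?_⟩
  constructor
  · intro hy
    choose g hg using fun j => (hiff j t (mem_iInter.1 ht j) (y j)).1 (hy j)
    exact ⟨q.symm g, funext fun j => by simpa only [q.apply_symm_apply] using hg j⟩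
  · rintro ⟨k, rfl⟩ j
    exact (hiff j t (mem_iInter.1 ht j) _).2 ⟨_, rfl⟩

end Pool.Agent.Lib.MP_823829_an.LA
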