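import Mathlib
import Pool.Agent.Lib.MP_823829_an.LA.Stmt

/-! A continuous map with analytic graph is holomorphic. -/

namespace Pool.Agent.Lib.MP_823829_an.LA

open Set Filter Topology Metric Module

namespace Graph

variable {T F : Type} [NormedAddCommGroup T] [NormedSpace ℂ T]
  [NormedAddCommGroup F] [NormedSpace ℂ F]

/-- the whole graph of `s` is analytic over `U` -/
theorem anOn_graph {Y : Set (T × F)} {U : Set T} {W : Set F} {s : T → F} (hU : IsOpen U)
    (hW : IsOpen W) (hs : ContinuousOn s U) (hm : MapsTo s U W) (hY : AnOn Y (U ×ˢ W))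
    (hg : ∀ t ∈ U, ∀ y ∈ W, ((t, y) ∈ Y ↔ y = s t)) :
    AnOn {q : T × F | q.2 = s q.1} (U ×ˢ univ) := by
  rintro ⟨t, y⟩ ⟨ht, -⟩
  by_cases hy : y = s t
  · have hyW : y ∈ W := hy ▸ hm ht
    obtain ⟨V, r, f, hV, hp, hf, hx⟩ := hY (t, y) ⟨ht, hyW⟩
    refine ⟨V ∩ U ×ˢ W, r, f, hV.inter (hU.prod hW), ⟨hp, ht, hyW⟩, hf.mono inter_subset_left, ?_⟩
    rintro ⟨t', y'⟩ ⟨h1, h2, h3⟩
    rw [← hx _ h1]
    exact (hg t' h2 y' h3).symm
  · have hc : ContinuousOn (fun q : T × F => q.2 - s q.1) (U ×ˢ univ) :=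
      continuous_snd.continuousOn.sub (hs.comp continuous_fst.continuousOn fun q hq => hq.1)
    have ho : IsOpen (U ×ˢ (univ : Set F) ∩ (fun q : T × F => q.2 - s q.1) ⁻¹' {0}ᶜ) :=
      hc.isOpen_inter_preimage (hU.prod isOpen_univ) isOpen_compl_singleton
    refine ⟨_, 1, fun _ _ => 1, ho, ⟨⟨ht, mem_univ _⟩, ?_⟩, differentiableOn_const _, ?_⟩
    · simpa [sub_eq_zero] using hy
    · rintro ⟨t', y'⟩ ⟨-, h2⟩
      have h3 : ¬ y' = s t' := by simpa [sub_eq_zero] using h2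
      constructor
      · intro h; exact absurd h h3
      · intro h
        have := congrFun h 0
        simp at this

/-- where the graph is an unbranched covering the map is holomorphic -/
theorem diff_of_cov {s : T → F} {d : ℕ} {t : T} (h : CovAt d {q : T × F | q.2 = s q.1} t) :
    DifferentiableAt ℂ s t := by
  obtain ⟨V, σ, hV, ht, hσ, -, hC⟩ := h
  obtain ⟨i, -⟩ := (hC t ht (s t)).1 rfl
  have he : ∀ t' ∈ V, s t' = σ i t' := fun t' ht' => ((hC t' ht' (σ i t')).2 ⟨i, rfl⟩).symm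
  have : DifferentiableOn ℂ s V := (hσ i).congr he
  exact this.differentiableAt (hV.mem_nhds ht)

omit [NormedSpace ℂ T] in
/-- two continuous functions that agree off a hypersurface agree -/
theorem eq_of_nz {f g δ : T → ℂ} {U : Set T} (hU : IsOpen U) (hf : ContinuousOn f U)
    (hg : ContinuousOn g U) (hδ : NZ δ U) (h : ∀ t ∈ U, δ t ≠ 0 → g t = f t) :
    ∀ t ∈ U, g t = f t := by
  intro t ht
  have hn := hU.mem_nhds ht
  have h1 : ∃ᶠ y in 𝓝 t, g y = f y :=
    ((hδ t ht).and_eventually hn).mono fun y hy => h y hy.2 hy.1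
  exact tendsto_nhds_unique_of_frequently_eq (hg.continuousAt hn) (hf.continuousAt hn) h1

end Graph

theorem graphS (h1 : RiemS) (h4 : BCS) (_h6 : CovS) : GraphS := by
  intro T F _ _ _ _ _ _ Y U W s hU hW hs hm hY hg t₀ ht₀
  have hA := Graph.anOn_graph hU hW hs hm hY hg
  have ho : IsOpen (U ∩ s ⁻¹' ball (s t₀) 1) := hs.isOpen_inter_preimage hU isOpen_ball
  have hb : ∀ t ∈ U ∩ s ⁻¹' ball (s t₀) 1, ‖s t‖ ≤ ‖s t₀‖ + 1 := by
    intro t ht
    have h2 : ‖s t - s t₀‖ < 1 := by simpa [dist_eq_norm] using ht.2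
    have h3 := norm_add_le (s t₀) (s t - s t₀)
    rw [add_sub_cancel] at h3
    linarith
  have hB : BdAn {q : T × F | q.2 = s q.1} (U ∩ s ⁻¹' ball (s t₀) 1) := by
    refine ⟨fun p hp => hA p ⟨hp.1.1, mem_univ _⟩, ‖s t₀‖ + 1, ?_⟩
    intro q hq hq1
    have : q.2 = s q.1 := hq
    rw [this]
    exact hb _ hq1
  obtain ⟨-, -, -, h⟩ := h4 T F _ _ ho hB
  obtain ⟨ε, δ, d, M, hε, hsub, hδ, hnz, hcov, -⟩ := h t₀ ⟨ht₀, mem_ball_self one_pos⟩
  have hsc : ContinuousOn s (ball t₀ ε) := hs.mono fun t ht => (hsub ht).1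
  have key : ∀ ξ : F →L[ℂ] ℂ, DifferentiableOn ℂ (fun t => ξ (s t)) (ball t₀ ε) := by
    intro ξ
    have hd : DifferentiableOn ℂ (fun t => ξ (s t)) (ball t₀ ε ∩ {t | δ t ≠ 0}) := fun t ht =>
      (ξ.differentiableAt.comp t (Graph.diff_of_cov (hcov t ht))).differentiableWithinAt
    obtain ⟨g, hgd, hge⟩ := h1 T (fun t => ξ (s t)) δ (ball t₀ ε) isOpen_ball hδ hnz hd (by
      intro x hx
      refine ⟨‖ξ‖ * (‖s t₀‖ + 1), ?_⟩
      filter_upwards [isOpen_ball.mem_nhds hx] with y hy _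
      exact (ξ.le_opNorm _).trans (mul_le_mul_of_nonneg_left (hb y (hsub hy)) (norm_nonneg _)))
    have := Graph.eq_of_nz isOpen_ball (ξ.continuous.comp_continuousOn hsc) hgd.continuousOn hnz hge
    exact hgd.congr fun t ht => (this t ht).symm
  let b := Module.finBasis ℂ F
  have hsum : s = fun t => ∑ i, (LinearMap.toContinuousLinearMap (b.coord i)) (s t) • b i := by
    funext t
    simp [b.sum_repr]
  have hfin : DifferentiableOn ℂ s (ball t₀ ε) := by
    rw [hsum]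
    exact DifferentiableOn.fun_sum fun i _ => (key _).smul_const _
  exact (hfin.differentiableAt (isOpen_ball.mem_nhds (mem_ball_self hε))).differentiableWithinAt

end Pool.Agent.Lib.MP_823829_an.LA
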