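import Mathlib
import Pool.Agent.Lib.MP_823829_an.LA.Stmt
import Pool.Agent.Lib.MP_caab05_ag.GB.Osg

/-! A locally bounded map that is holomorphic along every complex line is holomorphic. -/

namespace Pool.Agent.Lib.MP_823829_an.LA

open Set Filter Topology Metric Asymptotics

namespace Line

variable {E F : Type} [NormedAddCommGroup E] [NormedSpace ℂ E]
  [NormedAddCommGroup F] [NormedSpace ℂ F]

/-- directional derivative -/
noncomputable def D (f : E → F) (a v : E) : F := deriv (fun s : ℂ => f (a + s • v)) 0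

/-- the hypotheses on a ball -/
structure H (f : E → F) (c : E) (R M : ℝ) : Prop where
  bd : ∀ y ∈ ball c R, ‖f y‖ ≤ M
  df : ∀ y ∈ ball c R, ∀ v : E, DifferentiableAt ℂ (fun s : ℂ => f (y + s • v)) 0

lemma H.mono {f : E → F} {c a : E} {R r M : ℝ} (h : H f c R M) (hs : ball a r ⊆ ball c R) :
    H f a r M := ⟨fun y hy => h.bd y (hs hy), fun y hy => h.df y (hs hy)⟩

lemma H.line {f : E → F} {c : E} {R M : ℝ} (h : H f c R M) {a v : E} {s₀ : ℂ}
    (hs : a + s₀ • v ∈ ball c R) : DifferentiableAt ℂ (fun s : ℂ => f (a + s • v)) s₀ := by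
  have h1 := h.df _ hs v
  have h2 : (fun s : ℂ => f (a + s • v)) =
      (fun s : ℂ => f (a + s₀ • v + s • v)) ∘ fun s => s - s₀ := by
    funext s
    simp only [Function.comp_apply, sub_smul]
    congr 1
    abel
  rw [h2]
  refine DifferentiableAt.comp s₀ ?_ (by fun_prop)
  simpa using h1

lemma D_zero (f : E → F) (a : E) : D f a 0 = 0 := by simp [D]

lemma H.onLine {f : E → F} {a : E} {r M : ℝ} (h : H f a r M) {v : E} (hv : v ≠ 0) :
    DifferentiableOn ℂ (fun s : ℂ => f (a + s • v)) (ball 0 (r / ‖v‖)) ∧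
      ∀ s ∈ ball (0 : ℂ) (r / ‖v‖), ‖f (a + s • v)‖ ≤ M := by
  have hv' : 0 < ‖v‖ := norm_pos_iff.2 hv
  have hm : ∀ s ∈ ball (0 : ℂ) (r / ‖v‖), a + s • v ∈ ball a r := fun s hs => by
    rw [mem_ball_zero_iff, lt_div_iff₀ hv'] at hs
    rwa [mem_ball_iff_norm, add_sub_cancel_left, norm_smul]
  exact ⟨fun s hs => (h.line (hm s hs)).differentiableWithinAt, fun s hs => h.bd _ (hm s hs)⟩

lemma H.D_le {f : E → F} {a : E} {r M : ℝ} (h : H f a r M) (hr : 0 < r) (v : E) :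
    ‖D f a v‖ ≤ 2 * M / r * ‖v‖ := by
  by_cases hv : v = 0
  · simp [hv, D_zero]
  have hv' : 0 < ‖v‖ := norm_pos_iff.2 hv
  obtain ⟨h1, h2⟩ := h.onLine hv
  have h3 := Pool.Agent.Lib.MP_caab05_ag.GB.OsgAux.cauchy (by positivity) h1 h2
  rw [D, norm_deriv_eq_norm_fderiv]
  refine h3.trans_eq ?_
  field_simp

lemma H.second {f : E → F} {a : E} {r M : ℝ} (h : H f a r M) {v : E} (hv : ‖v‖ < r) :
    ‖f (a + v) - f a - D f a v‖ ≤ 4 * M / r ^ 2 * ‖v‖ ^ 2 := by
  by_cases hv0 : v = 0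
  · simp [hv0, D_zero]
  have hv' : 0 < ‖v‖ := norm_pos_iff.2 hv0
  have hr : 0 < r := hv'.trans hv
  obtain ⟨h1, h2⟩ := h.onLine hv0
  have h3 := Pool.Agent.Lib.MP_caab05_ag.GB.OsgAux.second (z := 1) h1 h2 (by
    rw [mem_ball_zero_iff, norm_one, lt_div_iff₀ hv', one_mul]; exact hv)
  simp only [one_smul, zero_smul, add_zero, sub_zero, norm_one, fderiv_apply_one_eq_deriv] at h3
  refine h3.trans_eq ?_
  field_simp

lemma H.lip {f : E → F} {a : E} {r M : ℝ} (h : H f a r M) {v : E} (hv : ‖v‖ < r) :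
    ‖f (a + v) - f a‖ ≤ 6 * M / r * ‖v‖ := by
  have hr : 0 < r := (norm_nonneg v).trans_lt hv
  have hM : 0 ≤ M := (norm_nonneg _).trans (h.bd a (mem_ball_self hr))
  have h1 := h.second hv
  have h2 := h.D_le hr v
  have h3 : ‖f (a + v) - f a‖ ≤ ‖f (a + v) - f a - D f a v‖ + ‖D f a v‖ := by
    simpa using norm_add_le (f (a + v) - f a - D f a v) (D f a v)
  have h4 : 4 * M / r ^ 2 * ‖v‖ ^ 2 ≤ 4 * M / r * ‖v‖ := by
    have e : 4 * M / r ^ 2 * ‖v‖ ^ 2 = 4 * M / r * ‖v‖ * (‖v‖ / r) := by field_simp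
    rw [e]
    exact mul_le_of_le_one_right (by positivity) ((div_le_one hr).2 hv.le)
  have e : 6 * M / r * ‖v‖ = 4 * M / r * ‖v‖ + 2 * M / r * ‖v‖ := by ring
  linarith

lemma H.smul {f : E → F} {a : E} {r M : ℝ} (h : H f a r M) (hr : 0 < r) (t : ℂ) (v : E) :
    D f a (t • v) = t • D f a v := by
  have h1 := (h.df a (mem_ball_self hr) v).hasDerivAt
  have h2 : HasDerivAt (fun s : ℂ => s * t) t 0 := by
    simpa using (hasDerivAt_id (0 : ℂ)).mul_const t
  have h3 := HasDerivAt.scomp (x := (0 : ℂ)) (h := fun s : ℂ => s * t)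
    (g₁ := fun s : ℂ => f (a + s • v)) (g₁' := D f a v) (by rw [zero_mul]; exact h1) h2
  have h4 : (fun s : ℂ => f (a + s • t • v)) =
      (fun s : ℂ => f (a + s • v)) ∘ fun s : ℂ => s * t := by
    funext s
    simp only [Function.comp_apply, mul_smul]
  rw [D, h4, h3.deriv]

lemma H.add {f : E → F} {c : E} {r M : ℝ} (h : H f c (3 * r) M) (hr : 0 < r) (v w : E) :
    D f c (v + w) = D f c v + D f c w := by
  have hM : 0 ≤ M := (norm_nonneg _).trans (h.bd c (mem_ball_self (by positivity)))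
  have hb : ∀ a : E, ‖a - c‖ < 2 * r → H f a r M := fun a ha => h.mono fun y hy => by
    rw [mem_ball_iff_norm] at hy ⊢
    have := norm_add_le (y - a) (a - c)
    rw [sub_add_sub_cancel] at this
    linarith
  have hc : H f c r M := hb c (by simp; positivity)
  set K := 4 * M / r ^ 2 with hK
  set L := 6 * M / r with hL
  have hK0 : 0 ≤ K := by positivity
  have hL0 : 0 ≤ L := by positivity
  set N := ‖v‖ + ‖w‖ with hN
  have hN0 : 0 ≤ N := by positivity
  have hv : ‖v‖ ≤ N := by rw [hN]; linarith [norm_nonneg w]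
  have hw : ‖w‖ ≤ N := by rw [hN]; linarith [norm_nonneg v]
  have hvw : ‖v + w‖ ≤ N := norm_add_le v w
  have key : ∀ τ : ℝ, 0 < τ → τ ≤ 1 → τ * N < r →
      ‖D f c (v + w) - D f c v - D f c w‖ ≤ (5 * K * N ^ 2 + 2 * L * N) * τ := by
    intro τ h0 h1 h2
    have hn : ∀ (t : ℝ) (u : E), 0 ≤ t → ‖u‖ ≤ N → ‖(t : ℂ) • u‖ ≤ t * N := fun t u ht hu => by
      rw [norm_smul, Complex.norm_real, Real.norm_of_nonneg ht]
      exact mul_le_mul_of_nonneg_left hu ht
    have hsq : τ ^ 2 * N ≤ τ * N := mul_le_mul_of_nonneg_right (by nlinarith) hN0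
    have h20 : 0 ≤ τ ^ 2 := by positivity
    have sec : ∀ (a : E) (t : ℝ) (u : E), H f a r M → 0 ≤ t → t * N < r → ‖u‖ ≤ N →
        ‖f (a + (t : ℂ) • u) - f a - (t : ℂ) • D f a u‖ ≤ K * (t * N) ^ 2 := by
      intro a t u ha ht htr hu
      have := ha.second ((hn t u ht hu).trans_lt htr)
      rw [ha.smul hr] at this
      refine this.trans (mul_le_mul_of_nonneg_left ?_ hK0)
      exact pow_le_pow_left₀ (norm_nonneg _) (hn t u ht hu) 2
    set a := c + ((τ ^ 2 : ℝ) : ℂ) • v with ha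
    have hac : ‖a - c‖ ≤ τ ^ 2 * N := by
      rw [ha, add_sub_cancel_left]; exact hn _ _ h20 hv
    have hHa : H f a r M := hb a (by linarith)
    have e1 := sec c (τ ^ 2) (v + w) hc h20 (by linarith) hvw
    have e2 := sec c (τ ^ 2) v hc h20 (by linarith) hv
    have e3 := sec a (τ ^ 2) w hHa h20 (by linarith) hw
    have e4 := sec a τ w hHa h0.le h2 hw
    have e5 := sec c τ w hc h0.le h2 hw
    have hcw : H f (c + (τ : ℂ) • w) r M := hb _ (by
      rw [add_sub_cancel_left]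
      have := hn τ w h0.le hw
      linarith)
    have hlt : ‖((τ ^ 2 : ℝ) : ℂ) • v‖ < r := (hn _ _ h20 hv).trans_lt (by linarith)
    have e6 := (hcw.lip hlt).trans (mul_le_mul_of_nonneg_left (hn _ _ h20 hv) hL0)
    have e7 := (hc.lip hlt).trans (mul_le_mul_of_nonneg_left (hn _ _ h20 hv) hL0)
    have q1 : c + ((τ ^ 2 : ℝ) : ℂ) • (v + w) = a + ((τ ^ 2 : ℝ) : ℂ) • w := by
      rw [ha, smul_add]; abel
    have q2 : c + (τ : ℂ) • w + ((τ ^ 2 : ℝ) : ℂ) • v = a + (τ : ℂ) • w := by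
      rw [ha]; abel
    rw [q1] at e1
    rw [q2] at e6
    rw [← ha] at e2 e7
    have b1 : ‖((τ ^ 2 : ℝ) : ℂ) • (D f c (v + w) - D f c v - D f a w)‖ ≤
        3 * (K * (τ ^ 2 * N) ^ 2) := by
      have e : ((τ ^ 2 : ℝ) : ℂ) • (D f c (v + w) - D f c v - D f a w) =
          (f a - f c - ((τ ^ 2 : ℝ) : ℂ) • D f c v)
          + (f (a + ((τ ^ 2 : ℝ) : ℂ) • w) - f a - ((τ ^ 2 : ℝ) : ℂ) • D f a w)
          - (f (a + ((τ ^ 2 : ℝ) : ℂ) • w) - f c - ((τ ^ 2 : ℝ) : ℂ) • D f c (v + w)) := by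
        simp only [smul_sub]; abel
      rw [e]
      refine (norm_sub_le _ _).trans ?_
      have := norm_add_le (f a - f c - ((τ ^ 2 : ℝ) : ℂ) • D f c v)
        (f (a + ((τ ^ 2 : ℝ) : ℂ) • w) - f a - ((τ ^ 2 : ℝ) : ℂ) • D f a w)
      linarith
    have b2 : ‖(τ : ℂ) • (D f a w - D f c w)‖ ≤
        2 * (K * (τ * N) ^ 2) + 2 * (L * (τ ^ 2 * N)) := by
      have e : (τ : ℂ) • (D f a w - D f c w) =
          (f (c + (τ : ℂ) • w) - f c - (τ : ℂ) • D f c w)
          - (f (a + (τ : ℂ) • w) - f a - (τ : ℂ) • D f a w)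
          + ((f (a + (τ : ℂ) • w) - f (c + (τ : ℂ) • w)) - (f a - f c)) := by
        simp only [smul_sub]; abel
      rw [e]
      refine (norm_add_le _ _).trans ?_
      have i1 := norm_sub_le (f (c + (τ : ℂ) • w) - f c - (τ : ℂ) • D f c w)
        (f (a + (τ : ℂ) • w) - f a - (τ : ℂ) • D f a w)
      have i2 := norm_sub_le (f (a + (τ : ℂ) • w) - f (c + (τ : ℂ) • w)) (f a - f c)
      linarith
    rw [norm_smul, Complex.norm_real, Real.norm_of_nonneg h20] at b1
    rw [norm_smul, Complex.norm_real, Real.norm_of_nonneg h0.le] at b2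
    have c1 : ‖D f c (v + w) - D f c v - D f a w‖ ≤ 3 * K * N ^ 2 * τ := by
      have : τ ^ 2 * ‖D f c (v + w) - D f c v - D f a w‖ ≤ τ ^ 2 * (3 * K * N ^ 2 * τ ^ 2) :=
        b1.trans_eq (by ring)
      have h3 := le_of_mul_le_mul_left this (by positivity)
      exact h3.trans (mul_le_mul_of_nonneg_left (by nlinarith) (by positivity))
    have c2 : ‖D f a w - D f c w‖ ≤ (2 * K * N ^ 2 + 2 * L * N) * τ := by
      have : τ * ‖D f a w - D f c w‖ ≤ τ * ((2 * K * N ^ 2 + 2 * L * N) * τ) :=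
        b2.trans_eq (by ring)
      exact le_of_mul_le_mul_left this h0
    have i := norm_add_le (D f c (v + w) - D f c v - D f a w) (D f a w - D f c w)
    rw [sub_add_sub_cancel] at i
    linarith
  have lim : Tendsto (fun τ : ℝ => (5 * K * N ^ 2 + 2 * L * N) * τ) (𝓝[>] 0) (𝓝 0) := by
    have : Tendsto (fun τ : ℝ => (5 * K * N ^ 2 + 2 * L * N) * τ) (𝓝 0)
        (𝓝 ((5 * K * N ^ 2 + 2 * L * N) * 0)) := Continuous.tendsto (by fun_prop) 0
    rw [mul_zero] at this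
    exact this.mono_left nhdsWithin_le_nhds
  have ev : ∀ᶠ τ : ℝ in 𝓝[>] 0,
      ‖D f c (v + w) - D f c v - D f c w‖ ≤ (5 * K * N ^ 2 + 2 * L * N) * τ := by
    have t1 : ∀ᶠ τ : ℝ in 𝓝 0, τ * N < r := by
      have : Tendsto (fun τ : ℝ => τ * N) (𝓝 0) (𝓝 (0 * N)) := Continuous.tendsto (by fun_prop) 0
      rw [zero_mul] at this
      exact this.eventually (gt_mem_nhds hr)
    have t2 : ∀ᶠ τ : ℝ in 𝓝 0, τ < 1 := gt_mem_nhds one_pos
    filter_upwards [self_mem_nhdsWithin, nhdsWithin_le_nhds t1, nhdsWithin_le_nhds t2]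
      with τ h0 h1 h2
    exact key τ h0 h2.le h1
  have z := norm_le_zero_iff.1 (ge_of_tendsto lim ev)
  rw [sub_sub, sub_eq_zero] at z
  exact z

lemma H.diff {f : E → F} {c : E} {r M : ℝ} (h : H f c (3 * r) M) (hr : 0 < r) :
    DifferentiableAt ℂ f c := by
  have hc : H f c r M := h.mono (ball_subset_ball (by linarith))
  let A : E →ₗ[ℂ] F :=
    { toFun := D f c
      map_add' := h.add hr
      map_smul' := fun t v => hc.smul hr t v }
  let B : E →L[ℂ] F := A.mkContinuous (2 * M / r) (hc.D_le hr)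
  refine (hasFDerivAt_iff_isLittleO_nhds_zero.2 ?_ : HasFDerivAt f B c).differentiableAt
  have h1 : (fun v => f (c + v) - f c - B v) =O[𝓝 0] fun v : E => ‖v‖ ^ 2 := by
    refine IsBigO.of_bound (4 * M / r ^ 2) ?_
    filter_upwards [ball_mem_nhds (0 : E) hr] with v hv
    rw [norm_pow, norm_norm]
    exact hc.second (mem_ball_zero_iff.1 hv)
  exact h1.trans_isLittleO (isLittleO_norm_pow_id one_lt_two)

end Line

theorem lineS : LineS := by
  intro E F _ _ _ _ _ _ f U hU hb hd x hx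
  obtain ⟨C, hC⟩ := hb x hx
  obtain ⟨R, hR, h⟩ := Metric.eventually_nhds_iff_ball.1 (hC.and (hU.mem_nhds hx))
  have hH : Line.H f x (3 * (R / 3)) C := by
    rw [show 3 * (R / 3) = R by ring]
    exact ⟨fun y hy => (h y hy).1, fun y hy => hd y (h y hy).2⟩
  exact (hH.diff (by positivity)).differentiableWithinAt

end Pool.Agent.Lib.MP_823829_an.LA
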