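import Pool.Agent.Lib.MP_823829_an.LA.Stmt

/-! Multigraphs: supports, semicontinuity and limits along ultrafilters. -/

namespace Pool.Agent.Lib.MP_823829_an.LA

open Set Filter Topology Metric Module

namespace MGaux

variable {F : Type} [NormedAddCommGroup F] [NormedSpace ℂ F] [FiniteDimensional ℂ F]

lemma det (F : Type) [NormedAddCommGroup F] [NormedSpace ℂ F] [FiniteDimensional ℂ F] (d : ℕ) :
    ∃ (n : ℕ) (ξ : Fin n → F →L[ℂ] ℂ),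
      ∀ v : Fin d → F, (∀ i, v i ≠ 0) → ∃ j, ∀ i, ξ j (v i) ≠ 0 := by
  classical
  let P : F →ₗ[ℂ] Polynomial ℂ :=
    (Polynomial.ofFn (finrank ℂ F)).comp (finBasis ℂ F).equivFun.toLinearMap
  have hP : Function.Injective P :=
    (Polynomial.injective_ofFn _).comp (finBasis ℂ F).equivFun.injective
  have hd : ∀ v, (P v).natDegree ≤ finrank ℂ F := fun v =>
    Polynomial.natDegree_le_of_degree_le (Polynomial.ofFn_degree_lt _).le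
  refine ⟨d * finrank ℂ F + 1, fun j => LinearMap.toContinuousLinearMap
    ((Polynomial.leval ((j : ℕ) : ℂ)).comp P), fun v hv => ?_⟩
  by_contra h
  push Not at h
  have h0 : ∏ i, P (v i) = 0 := by
    refine Polynomial.eq_zero_of_natDegree_lt_card_of_eval_eq_zero _
      (f := fun j : Fin (d * finrank ℂ F + 1) => ((j : ℕ) : ℂ))
      (Nat.cast_injective.comp Fin.val_injective) (fun j => ?_) ?_
    · obtain ⟨i, hi⟩ := h j
      rw [Polynomial.eval_prod]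
      exact Finset.prod_eq_zero (Finset.mem_univ i) hi
    · refine (Polynomial.natDegree_prod_le _ _).trans_lt ?_
      rw [Fintype.card_fin, Nat.lt_succ_iff]
      exact (Finset.sum_le_card_nsmul _ _ _ fun i _ => hd (v i)).trans_eq (by simp)
  obtain ⟨i, -, hi⟩ := Finset.prod_eq_zero_iff.1 h0
  exact hv i (hP (hi.trans (map_zero P).symm))

lemma sep {d : ℕ} {y : F} {σ : Fin d → F} (h : ¬ ∃ i, y = σ i) :
    ∃ ξ : F →L[ℂ] ℂ, ∏ i, (ξ y - ξ (σ i)) ≠ 0 := by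
  obtain ⟨n, ξ, hξ⟩ := det F d
  obtain ⟨j, hj⟩ := hξ (fun i => y - σ i) fun i e => h ⟨i, sub_eq_zero.1 e⟩
  exact ⟨ξ j, Finset.prod_ne_zero_iff.2 fun i _ => by rw [← map_sub]; exact hj i⟩

lemma range_eq {d : ℕ} {σ σ' : Fin d → F}
    (h : ∀ (ξ : F →L[ℂ] ℂ) (w : ℂ), ∏ i, (w - ξ (σ i)) = ∏ i, (w - ξ (σ' i))) (i : Fin d) :
    ∃ j, σ i = σ' j := by
  by_contra hn
  obtain ⟨ξ, hξ⟩ := sep hn
  exact hξ ((h ξ _).symm.trans (Finset.prod_eq_zero (Finset.mem_univ i) (sub_self _)))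

lemma exists_lim {ι : Type} (l : Ultrafilter ι) {d : ℕ} {τ : ι → Fin d → F} {R : ℝ}
    (h : ∀ᶠ j in (l : Filter ι), ∀ i, ‖τ j i‖ ≤ R) :
    ∃ σ : Fin d → F, (∀ i, ‖σ i‖ ≤ R) ∧ Tendsto τ l (𝓝 σ) := by
  have := FiniteDimensional.proper ℂ F
  have h1 : ∀ i, ∃ y ∈ closedBall (0 : F) R, Tendsto (fun j => τ j i) l (𝓝 y) := fun i =>
    (isCompact_closedBall (0 : F) R).ultrafilter_le_nhds (l.map fun j => τ j i)
      (le_principal_iff.2 (h.mono fun j hj => mem_closedBall_zero_iff.2 (hj i)))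
  choose σ h2 h3 using h1
  exact ⟨σ, fun i => mem_closedBall_zero_iff.1 (h2 i), tendsto_pi_nhds.2 h3⟩

omit [FiniteDimensional ℂ F] in
lemma tendsto_prod {ι : Type} {l : Filter ι} {d : ℕ} {τ : ι → Fin d → F} {σ : Fin d → F}
    (h : Tendsto τ l (𝓝 σ)) (ξ : F →L[ℂ] ℂ) (w : ℂ) :
    Tendsto (fun j => ∏ i, (w - ξ (τ j i))) l (𝓝 (∏ i, (w - ξ (σ i)))) :=
  (show Continuous fun v : Fin d → F => ∏ i, (w - ξ (v i)) by fun_prop).continuousAt.tendsto.comp h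

variable {T : Type} [NormedAddCommGroup T] [NormedSpace ℂ T] {d : ℕ} {τ : T → Fin d → F}
  {U : Set T}

lemma bdd (h : SymS) (hU : IsOpen U) (hτ : MG τ U) {t₀ : T} (ht : t₀ ∈ U) :
    ∃ R : ℝ, ∀ᶠ t in 𝓝 t₀, ∀ i, ‖τ t i‖ ≤ R := by
  let b := finBasis ℂ F
  choose R hR using fun k =>
    h.bdd hU (hτ (LinearMap.toContinuousLinearMap (b.coord k))) t₀ ht
  refine ⟨∑ k, R k * ‖b k‖, (eventually_all.2 hR).mono fun t h1 i => ?_⟩
  rw [← b.sum_repr (τ t i)]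
  refine norm_sum_le_of_le _ fun k _ => ?_
  rw [norm_smul]
  exact mul_le_mul_of_nonneg_right (h1 k i) (norm_nonneg _)

lemma ultra (h : SymS) (hU : IsOpen U) (hτ : MG τ U) {t₀ : T} (ht : t₀ ∈ U) (l : Ultrafilter T)
    (hl : (l : Filter T) ≤ 𝓝 t₀) : ∃ σ : Fin d → F, Tendsto τ l (𝓝 σ) ∧
      (∀ i, ∃ j, σ i = τ t₀ j) ∧ ∀ i, ∃ j, τ t₀ i = σ j := by
  obtain ⟨R, hR⟩ := bdd h hU hτ ht
  obtain ⟨σ, -, hσ⟩ := exists_lim l (hl hR)
  have e : ∀ (ξ : F →L[ℂ] ℂ) (w : ℂ), ∏ i, (w - ξ (σ i)) = ∏ i, (w - ξ (τ t₀ i)) := fun ξ w =>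
    tendsto_nhds_unique (tendsto_prod hσ ξ w)
      (((hτ ξ w).continuousOn.continuousAt (hU.mem_nhds ht)).tendsto.mono_left hl)
  exact ⟨σ, hσ, range_eq e, range_eq fun ξ w => (e ξ w).symm⟩

lemma an (h : SymS) (hU : IsOpen U) (hτ : MG τ U) : AnOn (supp τ) (U ×ˢ univ) := by
  obtain ⟨n, ξ, hξ⟩ := det F d
  refine fun p hp => ⟨U ×ˢ univ, n, fun q j => ∏ i, (ξ j q.2 - ξ j (τ q.1 i)),
    hU.prod isOpen_univ, hp, differentiableOn_pi.2 fun j => ?_, fun q _ => ⟨?_, fun h0 => ?_⟩⟩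
  · exact (h.joint (hτ (ξ j))).comp (f := fun q : T × F => (q.1, ξ j q.2)) (by fun_prop)
      fun q hq => ⟨hq.1, trivial⟩
  · rintro ⟨i, hi⟩
    funext j
    exact Finset.prod_eq_zero (Finset.mem_univ i) (by rw [hi, sub_self])
  · by_contra hn
    obtain ⟨j, hj⟩ := hξ (fun i => q.2 - τ q.1 i) fun i e => hn ⟨i, sub_eq_zero.1 e⟩
    obtain ⟨i, -, hi⟩ := Finset.prod_eq_zero_iff.1 (congrFun h0 j)
    exact hj i (by rw [map_sub]; exact hi)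

omit [FiniteDimensional ℂ F] in
lemma fac_le {R : ℝ} {y : F} (hy : ‖y‖ ≤ R) (ξ : F →L[ℂ] ℂ) (w : ℂ) :
    ‖w - ξ y‖ ≤ ‖w‖ + ‖ξ‖ * R :=
  (norm_sub_le _ _).trans (add_le_add le_rfl (ξ.le_opNorm_of_le hy))

omit [FiniteDimensional ℂ F] in
lemma prod_le {R : ℝ} {v : Fin d → F} (hv : ∀ i, ‖v i‖ ≤ R) (ξ : F →L[ℂ] ℂ) (w : ℂ)
    (s : Finset (Fin d)) : ‖∏ i ∈ s, (w - ξ (v i))‖ ≤ (‖w‖ + ‖ξ‖ * R) ^ s.card := by
  rw [norm_prod, ← Finset.prod_const]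
  exact Finset.prod_le_prod (fun i _ => norm_nonneg _) fun i _ => fac_le (hv i) ξ w

end MGaux

theorem mgS (h : SymS) : MGS where
  det := MGaux.det
  an := fun hU hτ => MGaux.an h hU hτ
  bdd := fun hU hτ _ ht => MGaux.bdd h hU hτ ht
  usc := fun hU hτ t₀ ht W hW hm => mem_iff_ultrafilter.2 fun l hl => by
    obtain ⟨σ, h1, h2, -⟩ := MGaux.ultra h hU hτ ht l hl
    refine eventually_all.2 fun i => tendsto_pi_nhds.1 h1 i (hW.mem_nhds ?_)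
    obtain ⟨j, hj⟩ := h2 i
    exact hj ▸ hm j
  lsc := fun hU hτ t₀ ht i W hW => mem_iff_ultrafilter.2 fun l hl => by
    obtain ⟨σ, h1, -, h2⟩ := MGaux.ultra h hU hτ ht l hl
    obtain ⟨j, hj⟩ := h2 i
    exact mem_of_superset (mem_map.1 (tendsto_pi_nhds.1 h1 j (hj ▸ hW))) fun t h3 => ⟨j, h3⟩

theorem ultMGS (h1 : UltS) (_h2 : SymS) (_h3 : MGS) : UltMGS := by
  intro T F ι _ _ _ _ _ _ l d τ U R hU hτ
  have e : ∀ t, ∃ σ : Fin d → F, t ∈ U → (∀ i, ‖σ i‖ ≤ R) ∧ Tendsto (fun j => τ j t) l (𝓝 σ) :=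
    fun t => by
      by_cases ht : t ∈ U
      · obtain ⟨σ, hσ⟩ := MGaux.exists_lim l (τ := fun j => τ j t) (hτ.mono fun j hj => hj.2 t ht)
        exact ⟨σ, fun _ => hσ⟩
      · exact ⟨0, fun h => absurd h ht⟩
  choose σ hσ using e
  have key := fun (ξ : F →L[ℂ] ℂ) (w : ℂ) => h1 T ι l (fun j t => ∏ i, (w - ξ (τ j t i)))
    (fun t => ∏ i, (w - ξ (σ t i))) U _ hU
    (hτ.mono fun j hj => ⟨hj.1 ξ w, fun t ht => MGaux.prod_le (hj.2 t ht) ξ w _⟩)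
    fun t ht => MGaux.tendsto_prod (hσ t ht).2 ξ w
  refine ⟨σ, fun ξ w => (key ξ w).1, fun t ht => (hσ t ht).1, fun t ht => (hσ t ht).2, ?_⟩
  ext ⟨t, y⟩
  refine and_congr_left fun ht : t ∈ U => ⟨?_, fun hq => ?_⟩
  · rintro ⟨i, rfl : y = σ t i⟩ W hW
    have : Tendsto (fun j => (t, τ j t i)) l (𝓝 (t, σ t i)) :=
      tendsto_const_nhds.prodMk_nhds (tendsto_pi_nhds.1 (hσ t ht).2 i)
    exact (show ∀ᶠ j in (l : Filter ι), (t, τ j t i) ∈ W from this hW).mono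
      fun j hj => ⟨_, hj, i, rfl⟩
  · by_contra hn
    obtain ⟨ξ, hξ⟩ := MGaux.sep (y := y) (σ := σ t) hn
    obtain ⟨k1, k2⟩ := key ξ (ξ y)
    obtain ⟨c, hc, c0⟩ : ∃ c : ℝ, 2 * c < ‖∏ i, (ξ y - ξ (σ t i))‖ ∧ 0 < c :=
      ⟨‖∏ i, (ξ y - ξ (σ t i))‖ / 3, by linarith [norm_pos_iff.2 hξ],
        by linarith [norm_pos_iff.2 hξ]⟩
    obtain ⟨N, hN, k3⟩ := tendstoLocallyUniformlyOn_iff.1 k2 c c0 t ht
    rw [hU.nhdsWithin_eq ht] at hN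
    have k4 : ∀ᶠ t' in 𝓝 t, 2 * c < ‖∏ i, (ξ y - ξ (σ t' i))‖ :=
      (k1.continuousOn.continuousAt (hU.mem_nhds ht)).norm.eventually (lt_mem_nhds hc)
    have k5 : ∀ᶠ y' in 𝓝 y, ‖ξ y - ξ y'‖ * (‖ξ y‖ + ‖ξ‖ * R) ^ (d - 1) < c :=
      (show Continuous fun y' => ‖ξ y - ξ y'‖ * (‖ξ y‖ + ‖ξ‖ * R) ^ (d - 1) by
        fun_prop).continuousAt.eventually (gt_mem_nhds (by simpa using c0))
    have k6 := hq _ (prod_mem_nhds (inter_mem (inter_mem hN k4) (hU.mem_nhds ht)) k5)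
    obtain ⟨j, ⟨⟨t', y'⟩, ⟨⟨⟨a1, a2⟩, a3⟩, a4⟩, i, rfl : y' = τ j t' i⟩, a5, a6⟩ :=
      (k6.and (k3.and hτ)).exists
    have b1 := a5 t' a1
    have b2 := MGaux.prod_le (a6.2 t' a3) ξ (ξ y) (Finset.univ.erase i)
    rw [Finset.card_erase_of_mem (Finset.mem_univ i), Finset.card_univ, Fintype.card_fin] at b2
    have b3 : ‖∏ i, (ξ y - ξ (τ j t' i))‖ < c := by
      rw [← Finset.mul_prod_erase _ _ (Finset.mem_univ i), norm_mul]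
      exact (mul_le_mul_of_nonneg_left b2 (norm_nonneg _)).trans_lt a4
    have b4 := norm_le_norm_add_norm_sub' (∏ i, (ξ y - ξ (σ t' i))) (∏ i, (ξ y - ξ (τ j t' i)))
    rw [dist_eq_norm] at b1
    have a2' : 2 * c < ‖∏ i, (ξ y - ξ (σ t' i))‖ := a2
    linarith

end Pool.Agent.Lib.MP_823829_an.LA
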