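import Mathlib
import Pool.Agent.Lib.MP_823829_an.LA.Stmt
import Pool.Agent.Shared.HoloIntegral
import Pool.Agent.Lib.MP_caab05_ag.GB.Osg

/-! Parametric integrals and limits of holomorphic functions of several variables. -/

namespace Pool.Agent.Lib.MP_823829_an.LA

open Set Filter Topology Metric MeasureTheory Module

theorem parS (h : LineS) : ParS := by
  intro T Θ _ _ _ _ μ Φ U b hU hm hd hb hi
  refine h T ℂ _ U hU (fun x hx => ⟨∫ θ, b θ ∂μ, ?_⟩) fun x hx v => ?_
  · filter_upwards [hU.mem_nhds hx] with y hy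
    exact norm_integral_le_of_norm_le hi (hb.mono fun θ hθ => hθ y hy)
  · have hl : Differentiable ℂ fun s : ℂ => x + s • v := by fun_prop
    have hU' : IsOpen ((fun s : ℂ => x + s • v) ⁻¹' U) := hU.preimage hl.continuous
    have h0 : (0 : ℂ) ∈ (fun s : ℂ => x + s • v) ⁻¹' U := by simpa using hx
    have := Pool.Agent.Shared.HoloIntegral.differentiableOn_integral (μ := μ)
      (F := fun s θ => Φ (x + s • v) θ) hU' (b := b) (fun w hw => hm _ hw)
      (hd.mono fun θ hθ => hθ.comp hl.differentiableOn fun s hs => hs)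
      (hb.mono fun θ hθ w hw => hθ _ hw) hi
    exact this.differentiableAt (hU'.mem_nhds h0)

theorem circS (h : ParS) : CircS := by
  intro T _ _ _ Φ V U c r hV hU hr hsub hΦ t₀ ht₀
  have : ProperSpace T := FiniteDimensional.proper ℂ T
  obtain ⟨ε, hε, hball⟩ := nhds_basis_closedBall.mem_iff.1 (hU.mem_nhds ht₀)
  have hK : IsCompact (closedBall t₀ ε ×ˢ sphere c r) :=
    (isCompact_closedBall _ _).prod (isCompact_sphere _ _)
  have hKV : closedBall t₀ ε ×ˢ sphere c r ⊆ V := (prod_mono hball Subset.rfl).trans hsub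
  obtain ⟨M, hM⟩ := hK.exists_bound_of_continuousOn (hΦ.continuousOn.mono hKV)
  have hmem : ∀ t ∈ ball t₀ ε, ∀ θ : ℝ, (t, circleMap c r θ) ∈ closedBall t₀ ε ×ˢ sphere c r :=
    fun t ht θ => ⟨ball_subset_closedBall ht, circleMap_mem_sphere c hr.le θ⟩
  have key := h T ℝ (volume.restrict (Ioc 0 (2 * Real.pi)))
    (fun t θ => deriv (circleMap c r) θ • Φ (t, circleMap c r θ)) (ball t₀ ε) (fun _ => r * M)
    isOpen_ball ?_ (Eventually.of_forall fun θ => ?_) (Eventually.of_forall fun θ t ht => ?_) ?_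
  · have h1 : (fun t => ∮ s in C(c, r), Φ (t, s)) = fun t => ∫ θ in Ioc 0 (2 * Real.pi),
        deriv (circleMap c r) θ • Φ (t, circleMap c r θ) := by
      funext t
      rw [circleIntegral, intervalIntegral.integral_of_le Real.two_pi_pos.le]
    rw [h1]
    exact (key.differentiableAt (ball_mem_nhds _ hε)).differentiableWithinAt
  · intro t ht
    apply Continuous.aestronglyMeasurable
    have h1 : Continuous fun θ : ℝ => Φ (t, circleMap c r θ) :=
      hΦ.continuousOn.comp_continuous (continuous_const.prodMk (continuous_circleMap c r))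
        fun θ => hKV (hmem t ht θ)
    simp only [deriv_circleMap]
    exact ((continuous_circleMap 0 r).mul continuous_const).smul h1
  · have h1 : DifferentiableOn ℂ (fun t => Φ (t, circleMap c r θ)) (ball t₀ ε) :=
      hΦ.comp (differentiableOn_id.prodMk (differentiableOn_const _)) fun t ht => hKV (hmem t ht θ)
    exact h1.const_smul (deriv (circleMap c r) θ)
  · rw [norm_smul, deriv_circleMap, norm_mul, Complex.norm_I, mul_one, norm_circleMap_zero,
      abs_of_pos hr]
    exact mul_le_mul_of_nonneg_left (hM _ (hmem t ht θ)) hr.le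
  · exact integrable_const _

theorem ultS : UltS := by
  intro T ι _ _ _ l _ f g U C hU hf hg
  have hloc : ∀ x ∈ U, ∃ R : ℝ, 0 < R ∧ ball x R ⊆ U := fun x hx => Metric.isOpen_iff.1 hU x hx
  constructor
  · intro x hx
    obtain ⟨R, hR, hsub⟩ := hloc x hx
    have : ProperSpace (T →L[ℂ] ℂ) := FiniteDimensional.proper ℂ _
    have hb : ∀ᶠ j in l, fderiv ℂ (f j) x ∈ closedBall (0 : T →L[ℂ] ℂ) (2 * C / R) := by
      filter_upwards [hf] with j hj
      rw [mem_closedBall_zero_iff]
      exact Pool.Agent.Lib.MP_caab05_ag.GB.OsgAux.cauchy hR (hj.1.mono hsub) fun y hy => hj.2 y (hsub hy)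
    let 𝒰 := Ultrafilter.of l
    have h𝒰 : (𝒰 : Filter ι) ≤ l := Ultrafilter.of_le l
    obtain ⟨A, -, hA⟩ := (isCompact_closedBall (0 : T →L[ℂ] ℂ) (2 * C / R)).ultrafilter_le_nhds
      (𝒰.map fun j => fderiv ℂ (f j) x) (by
        rw [Ultrafilter.coe_map, le_principal_iff, mem_map]
        exact h𝒰 hb)
    have hA' : Tendsto (fun j => fderiv ℂ (f j) x) 𝒰 (𝓝 A) := hA
    have hest : ∀ z ∈ ball x R, ‖g z - g x - A (z - x)‖ ≤ 4 * C * (‖z - x‖ / R) ^ 2 := by
      intro z hz
      have h1 : Tendsto (fun j => fderiv ℂ (f j) x (z - x)) 𝒰 (𝓝 (A (z - x))) :=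
        ((ContinuousLinearMap.apply ℂ ℂ (z - x)).continuous.tendsto A).comp hA'
      have h2 := ((((hg z (hsub hz)).mono_left h𝒰).sub ((hg x hx).mono_left h𝒰)).sub h1).norm
      refine le_of_tendsto h2 ?_
      filter_upwards [h𝒰 hf] with j hj
      exact Pool.Agent.Lib.MP_caab05_ag.GB.OsgAux.second (hj.1.mono hsub) (fun y hy => hj.2 y (hsub hy)) hz
    have hO : (fun z => g z - g x - A (z - x)) =O[𝓝 x] fun z => ‖z - x‖ ^ 2 := by
      refine Asymptotics.IsBigO.of_bound (4 * C / R ^ 2) ?_
      filter_upwards [ball_mem_nhds x hR] with z hz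
      refine (hest z hz).trans (le_of_eq ?_)
      rw [norm_pow, norm_norm, div_pow]
      ring
    have hD : HasFDerivAt g A x := by
      rw [hasFDerivAt_iff_isLittleO]
      exact hO.trans_isLittleO (Asymptotics.isLittleO_pow_sub_sub x one_lt_two)
    exact hD.differentiableAt.differentiableWithinAt
  · rw [Metric.tendstoLocallyUniformlyOn_iff]
    intro ε hε x hx
    obtain ⟨R, hR, hsub⟩ := hloc x hx
    have hlip : ∀ᶠ j in l, ∀ z ∈ ball x R, dist (f j z) (f j x) ≤ 2 * C / R * dist z x := by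
      filter_upwards [hf] with j hj z hz
      refine Complex.dist_le_div_mul_dist_of_mapsTo_ball (hj.1.mono hsub) (fun y hy => ?_) hz
      rw [mem_closedBall_iff_norm]
      linarith [norm_sub_le (f j y) (f j x), hj.2 y (hsub hy), hj.2 x hx]
    have hglip : ∀ z ∈ ball x R, dist (g z) (g x) ≤ 2 * C / R * dist z x := fun z hz =>
      le_of_tendsto ((hg z (hsub hz)).dist (hg x hx)) (hlip.mono fun j hj => hj z hz)
    have hc : Tendsto (fun z => 2 * C / R * dist z x) (𝓝 x) (𝓝 0) := by
      have : Continuous fun z => 2 * C / R * dist z x := by fun_prop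
      simpa using this.tendsto x
    have h3 : 0 < ε / 3 := by positivity
    refine ⟨{z | z ∈ ball x R ∧ 2 * C / R * dist z x < ε / 3},
      mem_nhdsWithin_of_mem_nhds ((eventually_mem_set.2 (ball_mem_nhds x hR)).and
        (hc.eventually (gt_mem_nhds h3))), ?_⟩
    filter_upwards [hlip, Metric.tendsto_nhds.1 (hg x hx) _ h3] with j hj hj2 y hy
    have a := hj y hy.1
    have b := hglip y hy.1
    have c := dist_triangle4 (g y) (g x) (f j x) (f j y)
    rw [dist_comm (g x), dist_comm (f j x) (f j y)] at c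
    linarith [hy.2]

end Pool.Agent.Lib.MP_823829_an.LA
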