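import Mathlib
import Pool.Agent.Lib.MP_823829_an.LA.Stmt

/-! Local analytic geometry: projection along several variables. -/

namespace Pool.Agent.Lib.MP_823829_an.LA

open Set Filter Topology Metric

namespace Proj

theorem anAt_pre {E G : Type} [NormedAddCommGroup E] [NormedSpace ℂ E] [NormedAddCommGroup G]
    [NormedSpace ℂ G] {Y : Set E} {φ : G → E} {p : G} (hφ : Differentiable ℂ φ)
    (h : AnAt Y (φ p)) : AnAt (φ ⁻¹' Y) p := by
  obtain ⟨V, r, f, hV, hp, hf, hY⟩ := h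
  refine ⟨φ ⁻¹' V, r, fun x => f (φ x), hV.preimage hφ.continuous, hp, ?_, fun x hx => hY _ hx⟩
  exact hf.comp hφ.differentiableOn fun x hx => hx

variable {T : Type} [NormedAddCommGroup T] [NormedSpace ℂ T]

/-- put the distinguished variable back in place `j` -/
def ins {m : ℕ} (j : Fin (m + 1)) (q : (T × ℂ) × (Fin m → ℂ)) : T × (Fin (m + 1) → ℂ) :=
  (q.1.1, Fin.insertNth (α := fun _ => ℂ) j q.1.2 q.2)

theorem ins_diff {m : ℕ} (j : Fin (m + 1)) : Differentiable ℂ (ins (T := T) j) := by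
  refine Differentiable.prodMk (differentiable_fst.comp differentiable_fst) ?_
  refine differentiable_pi.2 ?_
  rw [Fin.forall_iff_succAbove j]
  constructor
  · simp only [Fin.insertNth_apply_same]
    exact differentiable_snd.comp differentiable_fst
  · intro k
    simp only [Fin.insertNth_apply_succAbove]
    fun_prop

omit [NormedAddCommGroup T] [NormedSpace ℂ T] in
theorem ins_eq {m : ℕ} (j : Fin (m + 1)) (t : T) (y : Fin (m + 1) → ℂ) :
    ins j ((t, y j), Fin.removeNth j y) = (t, y) := by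
  simp [ins]

theorem bd_ins {m : ℕ} (j : Fin (m + 1)) {Y : Set (T × (Fin (m + 1) → ℂ))} {U : Set T}
    (h : BdAn Y U) : BdAn (ins j ⁻¹' Y) (U ×ˢ (univ : Set ℂ)) := by
  obtain ⟨hA, R, hR⟩ := h
  refine ⟨fun p hp => anAt_pre (ins_diff j) (hA _ ⟨hp.1.1, mem_univ _⟩), max R 0, ?_⟩
  intro q hq hU
  have h1 := hR _ hq hU.1
  refine (pi_norm_le_iff_of_nonneg (le_max_right _ _)).2 fun k => ?_
  have h2 := norm_le_pi_norm (ins j q).2 (j.succAbove k)
  simp only [ins, Fin.insertNth_apply_succAbove] at h2 h1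
  exact h2.trans (h1.trans (le_max_left _ _))

theorem bd_proj {m : ℕ} (j : Fin (m + 1)) {Y : Set (T × (Fin (m + 1) → ℂ))} {U : Set T}
    (h : BdAn Y U) (hA : AnOn (Prod.fst '' (ins j ⁻¹' Y)) (U ×ˢ (univ : Set ℂ))) :
    BdAn (Prod.fst '' (ins j ⁻¹' Y)) U := by
  obtain ⟨_, R, hR⟩ := h
  refine ⟨hA, R, ?_⟩
  rintro _ ⟨q, hq, rfl⟩ hU
  have h1 := hR _ hq hU
  have h2 := norm_le_pi_norm (ins j q).2 j
  simp only [ins, Fin.insertNth_apply_same] at h2 h1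
  exact h2.trans h1

omit [NormedAddCommGroup T] [NormedSpace ℂ T] in
theorem proj_proj {m : ℕ} (j : Fin (m + 1)) (Y : Set (T × (Fin (m + 1) → ℂ))) :
    Prod.fst '' (Prod.fst '' (ins j ⁻¹' Y)) = Prod.fst '' Y := by
  ext t
  constructor
  · rintro ⟨_, ⟨q, hq, rfl⟩, rfl⟩
    exact ⟨ins j q, hq, rfl⟩
  · rintro ⟨⟨t, y⟩, hq, rfl⟩
    refine ⟨(t, y j), ⟨((t, y j), Fin.removeNth j y), ?_, rfl⟩, rfl⟩
    rw [mem_preimage, ins_eq]
    exact hq

theorem an_proj (h1 : Proj1S) (m : ℕ) : ∀ (T : Type) [NormedAddCommGroup T] [NormedSpace ℂ T]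
    [FiniteDimensional ℂ T] (Y : Set (T × (Fin m → ℂ))) (U : Set T), IsOpen U → BdAn Y U →
    AnOn (Prod.fst '' Y) U := by
  induction m with
  | zero =>
    intro T _ _ _ Y U _ h p hp
    have e : Prod.fst '' Y = (fun t : T => (t, (0 : Fin 0 → ℂ))) ⁻¹' Y := by
      ext t
      constructor
      · rintro ⟨⟨t, y⟩, hq, rfl⟩
        rw [mem_preimage, Subsingleton.elim (0 : Fin 0 → ℂ) y]
        exact hq
      · intro ht
        exact ⟨_, ht, rfl⟩
    rw [e]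
    exact anAt_pre (differentiable_id.prodMk (differentiable_const _)) (h.1 _ ⟨hp, mem_univ _⟩)
  | succ m ih =>
    intro T _ _ _ Y U hU h
    have hA := ih (T × ℂ) _ _ (hU.prod isOpen_univ) (bd_ins 0 h)
    have := (h1 T _ U hU (bd_proj 0 h hA)).2.1
    rwa [proj_proj] at this

theorem mon_proj (h1 : Proj1S) (m : ℕ) (T : Type) [NormedAddCommGroup T] [NormedSpace ℂ T]
    [FiniteDimensional ℂ T] (Y : Set (T × (Fin m → ℂ))) (U : Set T) (hU : IsOpen U)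
    (h : BdAn Y U) (t₀ : T) (ht₀ : t₀ ∈ U) (j : Fin m) :
    ∃ (ε : ℝ) (d : ℕ) (a : T → Fin d → ℂ), 0 < ε ∧ Mon a (ball t₀ ε) ∧
      ∀ q ∈ Y, q.1 ∈ ball t₀ ε → ∃ i, q.2 j = a q.1 i := by
  cases m with
  | zero => exact j.elim0
  | succ m =>
    have hA := an_proj h1 m (T × ℂ) _ _ (hU.prod isOpen_univ) (bd_ins j h)
    obtain ⟨ε, d, a, hε, -, hM, hS⟩ := (h1 T _ U hU (bd_proj j h hA)).2.2 t₀ ht₀
    refine ⟨ε, d, a, hε, hM, ?_⟩
    rintro ⟨t, y⟩ hq ht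
    have : (t, y j) ∈ ov (Prod.fst '' (ins j ⁻¹' Y)) (ball t₀ ε) := by
      refine ⟨⟨((t, y j), Fin.removeNth j y), ?_, rfl⟩, ht⟩
      rw [mem_preimage, ins_eq]
      exact hq
    exact hS this

end Proj

theorem projS (h1 : Proj1S) (_h2 : SymS) : ProjS := by
  intro m T _ _ _ Y U hU h
  have key : ∀ t₀ ∈ U, ∃ (ε : ℝ) (d : Fin m → ℕ) (a : ∀ j, T → Fin (d j) → ℂ), 0 < ε ∧
      ball t₀ ε ⊆ U ∧ (∀ j, Mon (a j) (ball t₀ ε)) ∧ ov Y (ball t₀ ε) ⊆ monSet a := by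
    intro t₀ ht₀
    choose ε d a hε hM hS using Proj.mon_proj h1 m T Y U hU h t₀ ht₀
    have hn : U ∩ ⋂ j, ball t₀ (ε j) ∈ 𝓝 t₀ :=
      inter_mem (hU.mem_nhds ht₀) (iInter_mem.2 fun j => ball_mem_nhds _ (hε j))
    obtain ⟨η, hη, hsub⟩ := Metric.mem_nhds_iff.1 hn
    have hj : ∀ j, ball t₀ η ⊆ ball t₀ (ε j) := fun j x hx => mem_iInter.1 (hsub hx).2 j
    exact ⟨η, d, a, hη, fun x hx => (hsub hx).1, fun j w => (hM j w).mono (hj j),
      fun q hq j => hS j q hq.1 (hj j hq.2)⟩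
  refine ⟨fun t ht => ?_, Proj.an_proj h1 m T Y U hU h, key⟩
  obtain ⟨ε, d, a, hε, -, -, hS⟩ := key t ht
  refine (finite_range fun (c : ∀ j, Fin (d j)) j => a j t (c j)).subset fun y hy => ?_
  have : (t, y) ∈ monSet a := hS ⟨hy, mem_ball_self hε⟩
  choose c hc using this
  exact ⟨c, funext fun j => (hc j).symm⟩

end Pool.Agent.Lib.MP_823829_an.LA
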