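import Mathlib
import Pool.Agent.Lib.MP_823829_an.LA.Stmt

/-! Projection of an analytic set with bounded fibres along one variable. -/

namespace Pool.Agent.Lib.MP_823829_an.LA

open Set Filter Topology Metric

namespace Proj1

variable {T : Type} [NormedAddCommGroup T] [NormedSpace ℂ T]

lemma an_congr {Y Y' : Set T} {p : T} (h : AnAt Y p) (e : ∀ᶠ x in 𝓝 p, x ∈ Y' ↔ x ∈ Y) :
    AnAt Y' p := by
  obtain ⟨V, r, f, h1, h2, h3, h4⟩ := h
  obtain ⟨W, w1, w2, w3⟩ := _root_.eventually_nhds_iff.1 e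
  exact ⟨V ∩ W, r, f, h1.inter w2, ⟨h2, w3⟩, h3.mono inter_subset_left,
    fun x hx => (w1 x hx.2).trans (h4 x hx.1)⟩

lemma an_empty (p : T) : AnAt (∅ : Set T) p :=
  ⟨univ, 1, fun _ _ => 1, isOpen_univ, trivial, differentiableOn_const _,
    fun _ _ => ⟨fun h => h.elim, fun h => one_ne_zero (congrFun h 0)⟩⟩

lemma an_union {Y Y' : Set T} {p : T} (h : AnAt Y p) (h' : AnAt Y' p) : AnAt (Y ∪ Y') p := by
  obtain ⟨V, r, f, h1, h2, h3, h4⟩ := h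
  obtain ⟨V', r', f', k1, k2, k3, k4⟩ := h'
  refine ⟨V ∩ V', r * r', fun x k => f x (finProdFinEquiv.symm k).1 *
    f' x (finProdFinEquiv.symm k).2, h1.inter k1, ⟨h2, k2⟩, differentiableOn_pi.2 fun k =>
      ((differentiableOn_pi.1 h3 _).mono inter_subset_left).mul
        ((differentiableOn_pi.1 k3 _).mono inter_subset_right), fun x hx => ?_⟩
  rw [mem_union, h4 x hx.1, k4 x hx.2]
  constructor
  · rintro (h | h) <;> funext k <;> simp only [h, Pi.zero_apply, zero_mul, mul_zero]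
  · intro h
    by_contra hn
    obtain ⟨n1, n2⟩ := not_or.1 hn
    obtain ⟨i, hi⟩ := Function.ne_iff.1 n1
    obtain ⟨j, hj⟩ := Function.ne_iff.1 n2
    have := congrFun h (finProdFinEquiv (i, j))
    simp only [Equiv.symm_apply_apply] at this
    exact mul_ne_zero hi hj this

lemma an_biUnion {ι : Type} (S : Finset ι) {Y : ι → Set T} {p : T} (h : ∀ b, AnAt (Y b) p) :
    AnAt (⋃ b ∈ S, Y b) p := by
  classical
  induction S using Finset.induction_on with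
  | empty => simpa using an_empty p
  | insert b S _ ih =>
    rw [Finset.set_biUnion_insert]
    exact an_union (h b) ih

lemma an_line {F : Type} [NormedAddCommGroup F] [NormedSpace ℂ F] [CompleteSpace F]
    {f : T × ℂ → F} {V : Set (T × ℂ)} (hV : IsOpen V) (hf : DifferentiableOn ℂ f V) {t : T} {s : ℂ}
    (h : (t, s) ∈ V) : AnalyticAt ℂ (fun z => f (t, z)) s := by
  have ho : IsOpen {z : ℂ | (t, z) ∈ V} := hV.preimage (Continuous.prodMk_right t)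
  refine DifferentiableOn.analyticAt (s := {z : ℂ | (t, z) ∈ V}) ?_ (ho.mem_nhds h)
  exact hf.comp ((differentiableOn_const t).prodMk differentiableOn_id) fun _ hz => hz

/-- The points of a bounded fibre are isolated. -/
lemma isolated {Y : Set (T × ℂ)} {t : T} {R : ℝ} (hY : ∀ s, AnAt Y (t, s))
    (hR : ∀ s, (t, s) ∈ Y → ‖s‖ ≤ R) (s : ℂ) : ∀ᶠ z in 𝓝[≠] s, (t, z) ∉ Y := by
  have dich : ∀ s, (∀ᶠ z in 𝓝 s, (t, z) ∈ Y) ∨ ∀ᶠ z in 𝓝[≠] s, (t, z) ∉ Y := fun s => by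
    obtain ⟨V, r, f, h1, h2, h3, h4⟩ := hY s
    have hv : ∀ᶠ z in 𝓝 s, (t, z) ∈ V :=
      (h1.preimage (Continuous.prodMk_right t)).mem_nhds h2
    refine (an_line h1 h3 h2).eventually_eq_zero_or_eventually_ne_zero.imp (fun h => ?_) fun h => ?_
    · filter_upwards [h, hv] with z a b using (h4 _ b).2 a
    · filter_upwards [h, nhdsWithin_le_nhds hv] with z a b using fun c => a ((h4 _ b).1 c)
  have hc : IsClopen {s : ℂ | ∀ᶠ z in 𝓝 s, (t, z) ∈ Y} := by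
    refine ⟨⟨isOpen_iff_mem_nhds.2 fun s hs => ?_⟩, isOpen_setOf_eventually_nhds⟩
    have h := eventually_nhdsWithin_iff.1 ((dich s).resolve_left hs)
    filter_upwards [h] with z hz hm
    by_cases e : z = s
    · exact hs (e ▸ hm)
    · exact hz e hm.self_of_nhds
  refine (dich s).resolve_left fun hs => ?_
  have hu := hc.eq_univ ⟨s, hs⟩
  have h1 : ((|R| + 1 : ℝ) : ℂ) ∈ {s : ℂ | ∀ᶠ z in 𝓝 s, (t, z) ∈ Y} := hu ▸ mem_univ _
  have h2 := hR _ h1.self_of_nhds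
  rw [Complex.norm_real, Real.norm_eq_abs] at h2
  linarith [le_abs_self R, le_abs_self (|R| + 1)]

/-- The part of the set over a small disc. -/
lemma piece [FiniteDimensional ℂ T] (h1 : WPS) (h2 : SymS) (h3 : MGS) {Y : Set (T × ℂ)} {t₀ : T}
    {c : ℂ} (hY : AnAt Y (t₀, c)) (hi : ∀ᶠ z in 𝓝[≠] c, (t₀, z) ∉ Y) :
    ∃ (ρ ε : ℝ) (d : ℕ) (a : T → Fin d → ℂ), 0 < ρ ∧ 0 < ε ∧ Mon a (ball t₀ ε) ∧
      (∀ t ∈ ball t₀ ε, ∀ s ∈ ball c ρ, (t, s) ∈ Y → ∃ i, s = a t i) ∧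
      AnAt {t | ∃ s ∈ ball c ρ, (t, s) ∈ Y} t₀ := by
  obtain ⟨V, r, f, v1, v2, v3, v4⟩ := hY
  have hv : ∀ᶠ z in 𝓝 c, (t₀, z) ∈ V :=
    (v1.preimage (Continuous.prodMk_right t₀)).mem_nhds v2
  obtain ⟨j, hj⟩ : ∃ j, ∀ᶠ z in 𝓝[≠] c, f (t₀, z) j ≠ 0 := by
    by_contra hn
    have h0 : ∀ᶠ z in 𝓝 c, ∀ j, f (t₀, z) j = 0 := eventually_all.2 fun j =>
      Or.resolve_right (an_line v1 (differentiableOn_pi.1 v3 j)
        v2).eventually_eq_zero_or_eventually_ne_zero fun h => hn ⟨j, h⟩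
    obtain ⟨z, a1, a2, a3⟩ := (hi.and ((h0.and hv).filter_mono nhdsWithin_le_nhds)).exists
    exact a1 ((v4 _ a3).2 (funext a2))
  obtain ⟨ρ, hρ, hb⟩ := nhds_basis_closedBall.eventually_iff.1
    (hv.and (eventually_nhdsWithin_iff.1 hj))
  obtain ⟨ε, d, a, e1, e2, e3, e4, e5⟩ := h1 T (fun q => f q j) V t₀ c ρ v1 hρ
    (differentiableOn_pi.1 v3 j) (by
      rintro ⟨t, s⟩ ⟨ht, hs⟩
      obtain rfl : t = t₀ := ht
      exact (hb hs).1)
    fun s hs => (hb (sphere_subset_closedBall hs)).2 (ne_of_mem_sphere hs hρ.ne')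
  have mon : ∀ G : T × ℂ → ℂ, DifferentiableOn ℂ G V →
      Mon (fun t i => G (t, a t i)) (ball t₀ ε) := fun G hG =>
    h2.ofPow fun k => e5 (fun q => G q ^ k) V _ v1 isOpen_ball Subset.rfl e2 (hG.pow k)
  have hz : ∀ t ∈ ball t₀ ε, ∀ s ∈ ball c ρ, (t, s) ∈ Y → ∃ i, s = a t i := fun t ht s hs h =>
    (e4 t ht s (ball_subset_closedBall hs)).1
      (congrFun ((v4 _ (e2 ⟨ht, ball_subset_closedBall hs⟩)).1 h) j)
  obtain ⟨n, ξ, hξ⟩ := h3.det (Fin r → ℂ) d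
  refine ⟨ρ, ε, d, a, hρ, e1, mon Prod.snd differentiableOn_snd, hz, ball t₀ ε, n,
    fun t k => ∏ i, ξ k (f (t, a t i)), isOpen_ball, mem_ball_self e1,
    differentiableOn_pi.2 fun k => h2.prod (mon (fun q => ξ k (f q))
      ((ξ k).differentiable.comp_differentiableOn v3)), fun t ht => ⟨?_, fun h => ?_⟩⟩
  · rintro ⟨s, hs, h⟩
    obtain ⟨i, rfl⟩ := hz t ht s hs h
    funext k
    refine Finset.prod_eq_zero (Finset.mem_univ i) ?_
    rw [(v4 _ (e2 ⟨ht, ball_subset_closedBall hs⟩)).1 h, map_zero]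
  · by_contra hn
    obtain ⟨k, hk⟩ := hξ (fun i => f (t, a t i)) fun i h0 => hn ⟨a t i, e3 t ht i,
      (v4 _ (e2 ⟨ht, ball_subset_closedBall (e3 t ht i)⟩)).2 h0⟩
    exact Finset.prod_ne_zero_iff.2 (fun i _ => hk i) (congrFun h k)

lemma main [FiniteDimensional ℂ T] (h1 : WPS) (h2 : SymS) (h3 : MGS) {Y : Set (T × ℂ)} {U : Set T}
    (hU : IsOpen U) (hY : BdAn Y U) {t₀ : T} (ht : t₀ ∈ U) : AnAt (Prod.fst '' Y) t₀ ∧
      ∃ (ε : ℝ) (d : ℕ) (a : T → Fin d → ℂ), 0 < ε ∧ ball t₀ ε ⊆ U ∧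
        Mon a (ball t₀ ε) ∧ ov Y (ball t₀ ε) ⊆ supp a := by
  obtain ⟨hA, R, hR⟩ := hY
  have hA' : ∀ s, AnAt Y (t₀, s) := fun s => hA _ ⟨ht, trivial⟩
  choose ρ ε d a p1 p2 p3 p4 p5 using fun c =>
    piece h1 h2 h3 (hA' c) (isolated hA' (fun s hs => hR _ hs ht) c)
  obtain ⟨S, -, hS⟩ := (isCompact_closedBall (0 : ℂ) R).elim_nhds_subcover
    (fun c => ball c (ρ c)) fun c _ => ball_mem_nhds c (p1 c)
  have hc : ∀ t ∈ U, ∀ s, (t, s) ∈ Y → ∃ c ∈ S, s ∈ ball c (ρ c) := fun t ht s hs => by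
    simpa only [mem_iUnion, exists_prop] using hS (mem_closedBall_zero_iff.2 (hR _ hs ht))
  constructor
  · refine an_congr (an_biUnion S p5) ?_
    filter_upwards [hU.mem_nhds ht] with t ht
    simp only [mem_iUnion, exists_prop, mem_setOf_eq]
    constructor
    · rintro ⟨⟨_, s⟩, hs, rfl⟩
      obtain ⟨c, a1, a2⟩ := hc _ ht s hs
      exact ⟨c, a1, s, a2, hs⟩
    · rintro ⟨c, -, s, -, hs⟩
      exact ⟨_, hs, rfl⟩
  · have he : ∀ᶠ t in 𝓝 t₀, t ∈ U ∧ ∀ c ∈ S, t ∈ ball t₀ (ε c) :=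
      (show ∀ᶠ t in 𝓝 t₀, t ∈ U from hU.mem_nhds ht).and
        ((eventually_all_finset S).2 fun c _ => ball_mem_nhds t₀ (p2 c))
    obtain ⟨η, hη, hb⟩ := nhds_basis_ball.eventually_iff.1 he
    obtain ⟨e, b, b1, b2⟩ := h2.append (ι := S) (d := fun c => d c) (a := fun c => a c)
      (N := ball t₀ η) fun c w => (p3 c w).mono fun t ht => (hb ht).2 c c.2
    refine ⟨η, e, b, hη, fun t ht => (hb ht).1, b1, ?_⟩
    rintro ⟨t, s⟩ ⟨hs, ht⟩
    obtain ⟨c, a1, a2⟩ := hc t (hb ht).1 s hs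
    obtain ⟨i, hi⟩ := p4 c t ((hb ht).2 c a1) s a2 hs
    exact (b2 t s).2 ⟨⟨c, a1⟩, i, hi⟩

end Proj1

theorem proj1S (h1 : WPS) (h2 : SymS) (h3 : MGS) : Proj1S := by
  intro T _ _ _ Y U hU hY
  refine ⟨fun t ht => ?_, fun t ht => (Proj1.main h1 h2 h3 hU hY ht).1,
    fun t ht => (Proj1.main h1 h2 h3 hU hY ht).2⟩
  obtain ⟨ε, d, a, hε, -, -, h⟩ := (Proj1.main h1 h2 h3 hU hY ht).2
  refine (finite_range (a t)).subset fun s hs => ?_
  obtain ⟨i, hi⟩ := h (show (t, s) ∈ ov Y (ball t ε) from ⟨hs, mem_ball_self hε⟩)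
  exact ⟨i, hi.symm⟩

end Pool.Agent.Lib.MP_823829_an.LA
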