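import Mathlib
import Pool.Agent.Lib.MP_823829_an.LA.Stmt
import Pool.Agent.Lib.MP_caab05_ag.GB.Osg

/-! The closure of the regular part of an analytic set is analytic. -/

namespace Pool.Agent.Lib.MP_823829_an.LA

open Set Filter Topology Metric MeasureTheory Module

namespace RegAux

variable {T F G : Type} [NormedAddCommGroup T] [NormedSpace ℂ T] [NormedAddCommGroup F]
  [NormedSpace ℂ F] [NormedAddCommGroup G] [NormedSpace ℂ G]

theorem pull {Y : Set F} {Z : Set G} {p : F} (e : F →L[ℂ] G) (h : AnAt Z (e p))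
    (hc : ∀ᶠ x in 𝓝 p, x ∈ Y ↔ e x ∈ Z) : AnAt Y p := by
  obtain ⟨V, r, f, hV, hp, hf, h⟩ := h
  obtain ⟨W, hW, hWo, hpW⟩ := _root_.eventually_nhds_iff.1 hc
  exact ⟨W ∩ e ⁻¹' V, r, f ∘ e, hWo.inter (hV.preimage e.continuous), ⟨hpW, hp⟩,
    hf.comp e.differentiable.differentiableOn fun x hx => hx.2,
    fun x hx => (hW x hx.1).trans (h _ hx.2)⟩

theorem cut {Z : Set (T × G)} {q : T × G} (h : AnAt Z q) (hB : Box Z q) :
    ∃ ε > (0 : ℝ), ∃ ρ > (0 : ℝ), BdAn (Z ∩ ball q.1 ε ×ˢ ball q.2 ρ) (ball q.1 ε) := by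
  obtain ⟨V, r, f, hV, hp, hf, h⟩ := h
  obtain ⟨η, hη, hsub⟩ := Metric.isOpen_iff.1 hV q hp
  obtain ⟨ε, ρ₁, ρ₂, h1, h2, h3, h4, h5, h6⟩ := hB η hη
  refine ⟨ε, h1, ρ₂, h3.trans h4, fun x hx => ?_, ‖q.2‖ + ρ₂, fun x hx _ => ?_⟩
  · by_cases hx2 : x.2 ∈ ball q.2 ρ₂
    · have hs : ball q.1 ε ×ˢ ball q.2 ρ₂ ⊆ V := fun y hy => hsub
        (max_lt (hy.1.trans h2) (hy.2.trans h5))
      exact ⟨_, r, f, isOpen_ball.prod isOpen_ball, ⟨hx.1, hx2⟩, hf.mono hs,
        fun y hy => (and_iff_left hy).trans (h y (hs hy))⟩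
    · refine ⟨univ ×ˢ (closedBall q.2 ρ₁)ᶜ, 1, fun _ => 1,
        isOpen_univ.prod isClosed_closedBall.isOpen_compl,
        ⟨trivial, fun h => hx2 (closedBall_subset_ball h4 h)⟩, differentiableOn_const _,
        fun y hy => iff_of_false (fun h => hy.2 (h6 y h.1 h.2.1.le h.2.2.le).le) one_ne_zero⟩
  · have := norm_le_norm_add_norm_sub' x.2 q.2
    have := mem_ball_iff_norm.1 hx.2.2
    linarith

theorem reg_iff {Y : Set (T × F)} {q : T × F} : q ∈ Reg Y ↔ q ∈ Y ∧ ∃ s : T → F,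
    (∀ᶠ u in 𝓝 q.1, DifferentiableAt ℂ s u) ∧ ∀ᶠ x in 𝓝 q, (x ∈ Y ↔ x.2 = s x.1) := by
  refine and_congr_right fun hq => ⟨?_, ?_⟩
  · rintro ⟨U, W, s, hU, hW, h1, h2, hs, -, h⟩
    refine ⟨s, ?_, ?_⟩
    · filter_upwards [hU.mem_nhds h1] with u hu using hs.differentiableAt (hU.mem_nhds hu)
    · filter_upwards [(hU.prod hW).mem_nhds ⟨h1, h2⟩] with x hx using h x.1 hx.1 x.2 hx.2
  · rintro ⟨s, hs, h⟩
    obtain ⟨U, W, hU, h1, hW, h2, hsub⟩ := mem_nhds_prod_iff'.1 h
    have h3 : ∀ᶠ u in 𝓝 q.1, s u ∈ W := hs.self_of_nhds.continuousAt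
      (hW.mem_nhds (h.self_of_nhds.1 hq ▸ h2))
    obtain ⟨U', h4, h5, h6⟩ := _root_.eventually_nhds_iff.1 (hs.and (h3.and (hU.mem_nhds h1)))
    exact ⟨U', W, s, h5, hW, h6, h2, fun u hu => (h4 u hu).1.differentiableWithinAt,
      fun u hu => (h4 u hu).2.1, fun u hu y hy => hsub (a := (u, y)) ⟨(h4 u hu).2.2, hy⟩⟩

theorem reg_open {Y : Set (T × F)} {q : T × F} (h : q ∈ Reg Y) :
    ∀ᶠ x in 𝓝 q, x ∈ Y → x ∈ Reg Y := by
  obtain ⟨-, s, h1, h2⟩ := reg_iff.1 h
  filter_upwards [continuous_fst.continuousAt h1.eventually_nhds, h2.eventually_nhds]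
    with x h3 h4 hx using reg_iff.2 ⟨hx, s, h3, h4⟩

variable [FiniteDimensional ℂ T]

theorem ana [CompleteSpace F] {s : T → F} {t : T} (h : ∀ᶠ u in 𝓝 t, DifferentiableAt ℂ s u) :
    AnalyticAt ℂ s t := by
  obtain ⟨U, h1, h2, h3⟩ := _root_.eventually_nhds_iff.1 h
  exact MP_caab05_ag.GB.osg T F s U h2 (fun u hu => (h1 u hu).differentiableWithinAt) t h3

theorem det_diff {A : F → T →L[ℂ] T} {x : F} (h : DifferentiableAt ℂ A x) :
    DifferentiableAt ℂ (fun t => (A t).det) x := by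
  classical
  let b := Module.finBasis ℂ T
  simp only [ContinuousLinearMap.det, ← LinearMap.det_toMatrix b, Matrix.det_apply',
    LinearMap.toMatrix_apply]
  exact .fun_sum fun σ _ => .const_mul (HasFDerivAt.finsetProd fun i _ =>
    (((b.coord (σ i)).toContinuousLinearMap.differentiableAt).comp x
      (h.clm_apply (differentiableAt_const (b i)))).hasFDerivAt).differentiableAt _

/-- On a sheet, the regular points are the points where a Jacobian does not vanish. -/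
theorem key {Y : Set (T × F)} (e : (T × F) ≃L[ℂ] T × G) {s : T → G} {q : T × G}
    (hq : q.2 = s q.1) (hs : ∀ᶠ u in 𝓝 q.1, DifferentiableAt ℂ s u)
    (h : ∀ᶠ x in 𝓝 q, e.symm x ∈ Y ↔ x.2 = s x.1) :
    e.symm q ∈ Reg Y ↔ (fderiv ℂ (fun t => (e.symm (t, s t)).1) q.1).det ≠ 0 := by
  have := FiniteDimensional.complete ℂ T
  obtain ⟨t, _, rfl⟩ : ∃ t y, q = (t, y) := ⟨_, _, rfl⟩
  obtain rfl : _ = s t := hq
  have hd : ∀ᶠ u in 𝓝 t, DifferentiableAt ℂ (fun t => e.symm (t, s t)) u :=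
    hs.mono fun u hu => e.symm.differentiableAt.comp u (differentiableAt_id.prodMk hu)
  have h' : ∀ᶠ x in 𝓝 (e.symm (t, s t)), x ∈ Y ↔ (e x).2 = s (e x).1 := by
    have : Tendsto e (𝓝 (e.symm (t, s t))) (𝓝 (t, s t)) := by
      simpa using e.continuous.tendsto (e.symm (t, s t))
    simpa using this.eventually h
  rw [reg_iff]
  constructor
  · rintro ⟨hY, r, h1, h2⟩
    set y := e.symm (t, s t) with hy
    have e1 : (y.1, r y.1) = y := Prod.ext rfl (h2.self_of_nhds.1 hY).symm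
    have hg : DifferentiableAt ℂ (fun u => (u, r u)) y.1 :=
      differentiableAt_id.prodMk h1.self_of_nhds
    have hk : DifferentiableAt ℂ (fun u => (e (u, r u)).1) y.1 :=
      (e.differentiableAt.comp _ hg).fst
    have ht : Tendsto (fun u => (u, r u)) (𝓝 y.1) (𝓝 y) := by
      simpa only [ContinuousAt, e1] using hg.continuousAt
    have e2 : (e (y.1, r y.1)).1 = t := by rw [e1, hy, e.apply_symm_apply]
    have e3 : (fun t => (e.symm (t, s t)).1) ∘ (fun u => (e (u, r u)).1) =ᶠ[𝓝 y.1] id := by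
      filter_upwards [ht.eventually h', ht.eventually h2] with u h3 h4
      rw [Function.comp_apply, ← h3.1 (h4.2 rfl), Prod.mk.eta, e.symm_apply_apply, id]
    have e4 := fderiv_comp y.1 (e2 ▸ hd.self_of_nhds.fst) hk
    rw [e3.fderiv_eq, fderiv_id, e2] at e4
    have e5 := (LinearMap.det_id.symm.trans
      (congrArg (fun A : T →L[ℂ] T => LinearMap.det (A : T →ₗ[ℂ] T)) e4)).trans
      (LinearMap.det_comp _ _)
    exact left_ne_zero_of_mul (e5 ▸ one_ne_zero)
  · intro hJ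
    have hc : ContDiffAt ℂ 1 (fun t => (e.symm (t, s t)).1) t :=
      (ana (hd.mono fun u hu => hu.fst)).contDiffAt
    have hf : HasFDerivAt (fun t => (e.symm (t, s t)).1)
        (ContinuousLinearMap.toContinuousLinearEquivOfDetNeZero _ hJ : T →L[ℂ] T) t := by
      rw [ContinuousLinearMap.coe_toContinuousLinearEquivOfDetNeZero]
      exact hd.self_of_nhds.fst.hasFDerivAt
    have hst := hc.hasStrictFDerivAt' hf one_ne_zero
    have k1 := (hc.to_localInverse hf one_ne_zero).eventually (by simp)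
    have k2 := hst.localInverse_tendsto
    have k3 := hst.eventually_left_inverse
    have k4 := hst.eventually_right_inverse
    refine ⟨h'.self_of_nhds.2 (by simp), fun u => (e.symm (hc.localInverse hf one_ne_zero u,
      s (hc.localInverse hf one_ne_zero u))).2, ?_, ?_⟩
    · filter_upwards [k1, k2.eventually hd] with u h1 h2
      exact (h2.comp u (h1.differentiableAt one_ne_zero)).snd
    · have : Tendsto (fun x => (e x).1) (𝓝 (e.symm (t, s t))) (𝓝 t) := by
        simpa using e.continuous.fst.tendsto (e.symm (t, s t))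
      filter_upwards [h', this.eventually k3, continuous_fst.continuousAt.eventually k4]
        with x h1 h2 h3
      rw [h1]
      constructor
      · intro h4
        rw [← h4, Prod.mk.eta, e.symm_apply_apply] at h2
        rw [show hc.localInverse hf one_ne_zero x.1 = (e x).1 from h2, ← h4, Prod.mk.eta,
          e.symm_apply_apply]
      · intro h4
        rw [show x = _ from Prod.ext h3.symm h4, e.apply_symm_apply]

theorem sing {m : ℕ} {Y : Set (T × F)} (e : (T × F) ≃L[ℂ] T × (Fin m → ℂ))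
    {s : T → Fin m → ℂ} {q : T × (Fin m → ℂ)} (hs : ∀ᶠ u in 𝓝 q.1, DifferentiableAt ℂ s u)
    (h : ∀ᶠ x in 𝓝 q, e.symm x ∈ Y ↔ x.2 = s x.1) :
    AnAt {x | e.symm x ∈ Y ∧ e.symm x ∉ Reg Y} q := by
  have := FiniteDimensional.complete ℂ T
  have hJ : ∀ᶠ u in 𝓝 q.1, DifferentiableAt ℂ
      (fun u => (fderiv ℂ (fun t => (e.symm (t, s t)).1) u).det) u :=
    ((ana (hs.mono fun u hu => (e.symm.differentiableAt.comp u
      (differentiableAt_id.prodMk hu)).fst)).fderiv.eventually_analyticAt).mono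
      fun u hu => det_diff hu.differentiableAt
  obtain ⟨V, h1, h2, h3⟩ := _root_.eventually_nhds_iff.1 ((continuous_fst.continuousAt.eventually
    (hJ.and hs.eventually_nhds)).and h.eventually_nhds)
  refine ⟨V, m + 1, fun x => Fin.cons (fderiv ℂ (fun t => (e.symm (t, s t)).1) x.1).det
    (x.2 - s x.1), h2, h3, fun x hx => ?_, fun x hx => ?_⟩
  · refine (differentiableAt_pi.2 fun i => ?_).differentiableWithinAt
    refine Fin.cases ?_ (fun i => ?_) i
    · exact (h1 x hx).1.1.comp x differentiableAt_fst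
    · exact differentiableAt_pi.1 (differentiableAt_snd.sub
        ((h1 x hx).1.2.self_of_nhds.comp x differentiableAt_fst)) i
  · rw [mem_ofPred_eq, (h1 x hx).2.self_of_nhds, funext_iff (g := (0 : Fin (m + 1) → ℂ)),
      Fin.forall_fin_succ, and_comm]
    simp only [Fin.cons_zero, Fin.cons_succ, Pi.zero_apply, Pi.sub_apply, sub_eq_zero,
      ← funext_iff]
    exact and_congr_left fun h4 => by rw [key e h4 (h1 x hx).1.2 (h1 x hx).2, not_not]

end RegAux

open RegAux in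
theorem regS (h0 : ThinS) (h1 : ZeroS) (h2 : ScaleS) (h3 : BCS) (h4 : CovS) (h5 : ConnS)
    (h6 : CanS) (h7 : MGS) : RegS := by
  intro T F _ _ _ _ _ _ Y V p hY hV hT
  let _ := borel (T × F)
  have : BorelSpace (T × F) := ⟨rfl⟩
  obtain ⟨V₀, r, f, hV₀, hp, hf, hfY⟩ := id hY
  obtain ⟨L, e, -, hB⟩ := (h2 (T × F) T (finrank ℂ F) Y (V ∩ V₀) p finrank_prod
    (inter_mem hV (hV₀.mem_nhds hp)) (fun x hx h => (hfY x hx.2).2
      (isClosed_singleton.mem_of_frequently_of_tendsto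
        (((mem_closure_iff_frequently.1 h).and_eventually (hV₀.mem_nhds hx.2)).mono
          fun y hy => (hfY y hy.2).1 hy.1) (hf.continuousOn.continuousAt (hV₀.mem_nhds hx.2))))
    (h0.haus (h0.mono hT fun x hx => ⟨hx.1, hx.2.1⟩) (by linarith))).nonempty
  have him : ∀ x, x ∈ e '' Y ↔ e.symm x ∈ Y := fun x => by
    rw [e.image_eq_preimage_symm, mem_preimage]
  obtain ⟨ε, hε, ρ, hρ, hbd⟩ := cut (pull (Z := Y) e.symm.toContinuousLinearMap
    (by simpa using hY) (.of_forall him)) hB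
  set O := ball (e p).1 ε ×ˢ ball (e p).2 ρ
  have hO : IsOpen O := isOpen_ball.prod isOpen_ball
  set C := e '' Y ∩ O
  obtain ⟨-, -, hth, hbc⟩ := h3 T _ C _ isOpen_ball hbd
  obtain ⟨ε', δ, d, -, hε', hsub, hδ, hnz, hC, -⟩ := hbc _ (mem_ball_self hε)
  set B := ball (e p).1 ε'
  have hN : IsOpen (B ∩ {t | δ t ≠ 0}) :=
    hδ.continuousOn.isOpen_inter_preimage isOpen_ball isOpen_compl_singleton
  set D := {x | e.symm x ∈ Y ∧ e.symm x ∉ Reg Y}
  have hD : AnOn D (ov C (B ∩ {t | δ t ≠ 0})) := fun x hx => by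
    obtain ⟨-, s, h8, h9⟩ := reg_iff.1 (h4.reg (hC x.1 hx.2) x.2 hx.1)
    refine sing e h8 ?_
    filter_upwards [h9, hO.mem_nhds hx.1.2] with z h10 h11
    rw [← h10, ← him]
    exact (and_iff_left h11).symm
  set P := {q | ¬ ∀ᶠ x in 𝓝 q, x ∈ C → x ∈ D}
  obtain ⟨d', hC'⟩ := h4.const (h5 T δ B isOpen_ball (convex_ball _ _).isPreconnected hδ hnz)
    (h4.sel (P := P) hN hC fun q hq hq' => (h4.full hN hC hD q hq hq').mono
      fun x hx h => not_congr (hx h))
  obtain ⟨R, hR⟩ := hbd.2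
  obtain ⟨τ, hτ, -, -, hcl⟩ := h6 T _ d' (C ∩ P) δ B R isOpen_ball hδ hnz hC'
    fun q hq hq' _ => hR q hq.1 (hsub hq')
  have hden : Dense ((fun x => (e.symm x).1) '' ov C (B ∩ {t | δ t = 0}))ᶜ := by
    cases hn : finrank ℂ T with
    | zero =>
      have := finrank_zero_iff.1 hn
      rintro u
      refine subset_closure ?_
      rintro ⟨x, ⟨-, h8, h9⟩, -⟩
      obtain ⟨y, hy⟩ := (hnz _ h8).exists
      exact hy (Subsingleton.elim x.1 y ▸ h9)
    | succ k =>
      obtain ⟨B', φ, h8, -, h9⟩ := h1 T k δ B hn isOpen_ball hδ hnz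
      exact h0.dense (h0.image (hth k _ (fun x hx => hsub hx.1)
        ⟨B', φ, fun j => (h8 j).op, fun j => (h8 j).hol, h9⟩) isOpen_univ (subset_univ _)
        e.symm.differentiable.fst.differentiableOn) (by omega)
  have hO' : IsOpen (O ∩ Prod.fst ⁻¹' B) := hO.inter (isOpen_ball.preimage continuous_fst)
  have hin : (O ∩ Prod.fst ⁻¹' B) ∩ e.symm ⁻¹' Reg Y ⊆
      closure (ov (C ∩ P) (B ∩ {t | δ t ≠ 0})) := fun z hz => by
    obtain ⟨h8, s, h9, h10⟩ := reg_iff.1 hz.2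
    have ht : Tendsto (fun u => (u, s u)) (𝓝 (e.symm z).1) (𝓝 (e.symm z)) := by
      simpa only [ContinuousAt, ← h10.self_of_nhds.1 h8] using
        (differentiableAt_fun_id.prodMk h9.self_of_nhds).continuousAt
    have ht' : Tendsto (fun u => e (u, s u)) (𝓝 (e.symm z).1) (𝓝 z) := by
      simpa [Function.comp_def] using (e.continuous.tendsto _).comp ht
    refine mem_closure_of_frequently_of_tendsto ?_ ht'
    refine ((mem_closure_iff_frequently.1 (hden _)).and_eventually ((ht.eventually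
      (h10.and (reg_open hz.2))).and (ht'.eventually (hO'.mem_nhds hz.1)))).mono ?_
    rintro u ⟨h11, ⟨h12, h13⟩, h14⟩
    have h15 : e (u, s u) ∈ C := ⟨mem_image_of_mem _ (h12.2 rfl), h14.1⟩
    refine ⟨⟨h15, fun h => (h.self_of_nhds h15).2 ?_⟩, h14.2,
      fun h => h11 ⟨_, ⟨h15, h14.2, h⟩, by simp⟩⟩
    simpa using h13 (h12.2 rfl)
  have hout : ov (C ∩ P) (B ∩ {t | δ t ≠ 0}) ⊆ closure (e.symm ⁻¹' Reg Y) := fun z hz =>
    mem_closure_iff_frequently.2 ((not_eventually.1 hz.1.2).mono fun x hx => by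
      by_contra h
      exact hx fun h8 => ⟨(him x).1 h8.1, h⟩)
  refine pull e.toContinuousLinearMap (h7.an isOpen_ball hτ (e p) ⟨mem_ball_self hε', trivial⟩) ?_
  filter_upwards [e.continuous.continuousAt.eventually
    (hO'.mem_nhds ⟨⟨mem_ball_self hε, mem_ball_self hρ⟩, mem_ball_self hε'⟩)] with x hx
  have h8 : x ∈ closure (Reg Y) ↔ e x ∈ closure (e.symm ⁻¹' Reg Y) := by
    have := e.symm.toHomeomorph.preimage_closure (Reg Y)
    simp only [ContinuousLinearEquiv.coe_toHomeomorph] at this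
    simp [← this]
  have h9 := Set.ext_iff.1 hcl (e x)
  rw [h8]
  exact ⟨fun h => (h9.2 ⟨closure_minimal hin isClosed_closure (hO'.inter_closure ⟨hx, h⟩),
    hx.2⟩).1, fun h => closure_minimal hout isClosed_closure (h9.1 ⟨h, hx.2⟩).1⟩

end Pool.Agent.Lib.MP_823829_an.LA
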