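import Mathlib
import Pool.Agent.Lib.MP_823829_an.LA.Stmt
import Pool.Agent.Lib.MP_caab05_ag.GB.Osg

/-! Riemann extension theorem; a hypersurface does not separate. -/

namespace Pool.Agent.Lib.MP_823829_an.LA

open Set Filter Topology Metric

namespace Riem

/-- a holomorphic function on a disc that is not identically zero has isolated zeros -/
lemma isol {d : ℂ → ℂ} {R : ℝ} (hd : DifferentiableOn ℂ d (ball 0 R)) {a : ℂ} (ha : a ∈ ball 0 R)
    (h0 : d a ≠ 0) : ∀ z ∈ ball (0 : ℂ) R, ∀ᶠ w in 𝓝[≠] z, d w ≠ 0 := by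
  intro z hz
  have han : AnalyticOnNhd ℂ d (ball 0 R) := hd.analyticOnNhd isOpen_ball
  rcases (han z hz).eventually_eq_zero_or_eventually_ne_zero with h | h
  · exact absurd (han.eqOn_zero_of_preconnected_of_eventuallyEq_zero
      (convex_ball (0 : ℂ) R).isPreconnected hz h ha) h0
  · exact h

/-- removal of the isolated singularities of a bounded function of one variable -/
lemma remove {d φ : ℂ → ℂ} {D : Set ℂ} {C : ℝ} (hD : IsOpen D) (hd : ContinuousOn d D)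
    (hi : ∀ z ∈ D, ∀ᶠ w in 𝓝[≠] z, d w ≠ 0) (hφ : ∀ z ∈ D, d z ≠ 0 → DifferentiableAt ℂ φ z)
    (hC : ∀ z ∈ D, d z ≠ 0 → ‖φ z‖ ≤ C) :
    ∃ ψ : ℂ → ℂ, DifferentiableOn ℂ ψ D ∧ ∀ z, d z ≠ 0 → ψ z = φ z := by
  classical
  refine ⟨fun z => if d z = 0 then limUnder (𝓝[≠] z) φ else φ z, fun z hz => ?_,
    fun z hz => if_neg hz⟩
  by_cases h : d z = 0
  · have h1 : ∀ᶠ w in 𝓝 z, w ≠ z → d w ≠ 0 := eventually_nhdsWithin_iff.1 (hi z hz)
    have h2 : {w | w ∈ D ∧ (w ≠ z → d w ≠ 0)} ∈ 𝓝 z := inter_mem (hD.mem_nhds hz) h1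
    have h3 := Complex.differentiableOn_update_limUnder_of_bddAbove (f := φ) h2
      (fun w hw => (hφ w hw.1.1 (hw.1.2 hw.2)).differentiableWithinAt)
      ⟨C, by
        rintro _ ⟨w, hw, rfl⟩
        exact hC w hw.1.1 (hw.1.2 hw.2)⟩
    refine ((h3.differentiableAt h2).congr_of_eventuallyEq ?_).differentiableWithinAt
    filter_upwards [h1] with w hw
    by_cases hwz : w = z
    · subst hwz
      simp [h]
    · rw [if_neg (hw hwz), Function.update_of_ne hwz]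
  · have h1 : ∀ᶠ w in 𝓝 z, d w ≠ 0 := (hd.continuousAt (hD.mem_nhds hz)).eventually_ne h
    refine ((hφ z hz h).congr_of_eventuallyEq ?_).differentiableWithinAt
    filter_upwards [h1] with w hw
    exact if_neg hw

/-- Cauchy formula across removable singularities -/
lemma cauchy {d φ : ℂ → ℂ} {R r C : ℝ} (hr : 0 < r) (hrR : r < R)
    (hd : DifferentiableOn ℂ d (ball 0 R)) (h0 : d 0 ≠ 0) (hs : ∀ s ∈ sphere (0 : ℂ) r, d s ≠ 0)
    (hφ : ∀ z ∈ ball (0 : ℂ) R, d z ≠ 0 → DifferentiableAt ℂ φ z)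
    (hC : ∀ z ∈ ball (0 : ℂ) R, d z ≠ 0 → ‖φ z‖ ≤ C) :
    (∮ s in C(0, r), s⁻¹ * φ s) = (2 * Real.pi * Complex.I : ℂ) * φ 0 := by
  obtain ⟨ψ, hψ, he⟩ := remove isOpen_ball hd.continuousOn
    (isol hd (mem_ball_self (hr.trans hrR)) h0) hφ hC
  have h1 := (hψ.mono (closedBall_subset_ball hrR)).circleIntegral_sub_inv_smul (mem_ball_self hr)
  rw [he 0 h0] at h1
  rw [← smul_eq_mul, ← h1]
  refine circleIntegral.integral_congr hr.le fun s hs' => ?_
  simp [he s (hs s hs')]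

variable {T : Type} [NormedAddCommGroup T] [NormedSpace ℂ T]

lemma line_diff (t v : T) : Differentiable ℂ (fun s : ℂ => t + s • v) :=
  (differentiable_const t).add (differentiable_id.smul_const v)

lemma line_mem {x t v : T} {ρ : ℝ} (ht : t ∈ ball x (ρ / 2)) (hv : ‖v‖ < ρ / 4) {s : ℂ}
    (hs : s ∈ ball (0 : ℂ) 2) : t + s • v ∈ ball x ρ := by
  rw [mem_ball_zero_iff] at hs
  rw [mem_ball, dist_eq_norm] at ht ⊢
  have h1 : ‖s • v‖ ≤ 2 * (ρ / 4) := by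
    rw [norm_smul]
    exact mul_le_mul hs.le hv.le (norm_nonneg _) (by norm_num)
  calc ‖t + s • v - x‖ = ‖(t - x) + s • v‖ := by congr 1; abel
    _ ≤ ‖t - x‖ + ‖s • v‖ := norm_add_le _ _
    _ < ρ := by linarith

/-- local extension -/
lemma loc [FiniteDimensional ℂ T] (h : CircS) {f δ : T → ℂ} {U : Set T} (hU : IsOpen U)
    (hδ : DifferentiableOn ℂ δ U) (hnz : NZ δ U) (hf : DifferentiableOn ℂ f (U ∩ {t | δ t ≠ 0}))
    {x : T} (hx : x ∈ U) {C : ℝ} (hC : ∀ᶠ y in 𝓝 x, δ y ≠ 0 → ‖f y‖ ≤ C) :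
    ∃ (N : Set T) (g : T → ℂ), IsOpen N ∧ x ∈ N ∧ N ⊆ U ∧ DifferentiableOn ℂ g N ∧
      ∀ t ∈ N, δ t ≠ 0 → g t = f t := by
  obtain ⟨ρ, hρ, hb⟩ := Metric.eventually_nhds_iff_ball.1 (hC.and (hU.mem_nhds hx))
  have hW : IsOpen (U ∩ {t | δ t ≠ 0}) :=
    hδ.continuousOn.isOpen_inter_preimage hU (isOpen_ne (x := (0 : ℂ)))
  obtain ⟨y, hy0, hy⟩ :=
    ((hnz x hx).and_eventually (ball_mem_nhds x (by positivity : 0 < ρ / 4))).exists
  set v : T := y - x with hv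
  have hv4 : ‖v‖ < ρ / 4 := by rwa [dist_eq_norm] at hy
  have hdl : ∀ t ∈ ball x (ρ / 2), DifferentiableOn ℂ (fun s : ℂ => δ (t + s • v)) (ball 0 2) :=
    fun t ht => hδ.comp (line_diff t v).differentiableOn fun s hs => (hb _ (line_mem ht hv4 hs)).2
  have hx2 : x ∈ ball x (ρ / 2) := mem_ball_self (by positivity)
  have hi := isol (hdl x hx2) (a := 1) (by simp) (by simpa [hv] using hy0) 0
    (mem_ball_self (by norm_num))
  obtain ⟨ε, hε, hε'⟩ := Metric.eventually_nhds_iff_ball.1 (eventually_nhdsWithin_iff.1 hi)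
  set r : ℝ := min (ε / 2) 1 with hr
  have hr0 : 0 < r := lt_min (by positivity) one_pos
  have hrε : r < ε := (min_le_left _ _).trans_lt (by linarith)
  have hr2 : r < 2 := (min_le_right _ _).trans_lt (by norm_num)
  set L : T × ℂ → T := fun q => q.1 + q.2 • v with hL
  have hLd : Differentiable ℂ L := differentiable_fst.add (differentiable_snd.smul_const v)
  set V : Set (T × ℂ) := L ⁻¹' (U ∩ {t | δ t ≠ 0}) ∩ {q | q.2 ≠ 0} with hV
  have hVo : IsOpen V :=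
    (hW.preimage hLd.continuous).inter (isOpen_ne_fun continuous_snd continuous_const)
  have hxV : ({x} : Set T) ×ˢ sphere (0 : ℂ) r ⊆ V := by
    rintro ⟨t, s⟩ ⟨ht, hs⟩
    obtain rfl : t = x := ht
    have hs' : ‖s‖ = r := mem_sphere_zero_iff_norm.1 hs
    have hs0 : s ≠ 0 := fun h0 => by
      rw [h0, norm_zero] at hs'
      exact hr0.ne hs'
    have hs2 : s ∈ ball (0 : ℂ) 2 := by rw [mem_ball_zero_iff, hs']; exact hr2
    exact ⟨⟨(hb _ (line_mem hx2 hv4 hs2)).2,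
      hε' s (by rw [mem_ball_zero_iff, hs']; exact hrε) hs0⟩, hs0⟩
  obtain ⟨N₀, S, hN₀, -, hxN, hS, hNS⟩ :=
    generalized_tube_lemma isCompact_singleton (isCompact_sphere (0 : ℂ) r) hVo hxV
  have hNV : (N₀ ∩ ball x (ρ / 2)) ×ˢ sphere (0 : ℂ) r ⊆ V := fun q hq =>
    hNS ⟨hq.1.1, hS hq.2⟩
  have hΦ : DifferentiableOn ℂ (fun q : T × ℂ => q.2⁻¹ * f (L q)) V :=
    (differentiable_snd.differentiableOn.inv fun q hq => hq.2).mul
      (hf.comp hLd.differentiableOn fun q hq => hq.1)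
  have hint := h T _ V (N₀ ∩ ball x (ρ / 2)) 0 r hVo (hN₀.inter isOpen_ball) hr0 hNV hΦ
  have hπ : (2 * Real.pi * Complex.I : ℂ) ≠ 0 := Complex.two_pi_I_ne_zero
  refine ⟨N₀ ∩ ball x (ρ / 2),
    fun t => (2 * Real.pi * Complex.I : ℂ)⁻¹ * ∮ s in C(0, r), s⁻¹ * f (t + s • v),
    hN₀.inter isOpen_ball, ⟨hxN rfl, hx2⟩,
    fun t ht => (hb t (ball_subset_ball (by linarith) ht.2)).2, hint.const_mul _, ?_⟩
  intro t ht ht0
  have hc := cauchy (d := fun s : ℂ => δ (t + s • v)) (φ := fun s : ℂ => f (t + s • v)) (C := C)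
    hr0 hr2 (hdl t ht.2) (by simpa using ht0)
    (fun s hs => (hNV (a := (t, s)) ⟨ht, hs⟩).1.2)
    (fun s hs hs0 => (hf.differentiableAt
      (hW.mem_nhds ⟨(hb _ (line_mem ht.2 hv4 hs)).2, hs0⟩)).comp s (line_diff t v s))
    (fun s hs hs0 => (hb _ (line_mem ht.2 hv4 hs)).1 hs0)
  simp only [hc, zero_smul, add_zero]
  rw [← mul_assoc, inv_mul_cancel₀ hπ, one_mul]

end Riem

theorem riemS (h : CircS) : RiemS := by
  intro T _ _ _ f δ U hU hδ hnz hf hb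
  have key : ∀ x ∈ U, ∃ (N : Set T) (g : T → ℂ), IsOpen N ∧ x ∈ N ∧ DifferentiableOn ℂ g N ∧
      (∀ t ∈ N, δ t ≠ 0 → g t = f t) ∧ ∀ t ∈ N, limUnder (𝓝[{t | δ t ≠ 0}] t) f = g t := by
    intro x hx
    obtain ⟨C, hC⟩ := hb x hx
    obtain ⟨N, g, hN, hxN, hNU, hg, he⟩ := Riem.loc h hU hδ hnz hf hx hC
    refine ⟨N, g, hN, hxN, hg, he, fun t ht => ?_⟩
    have : (𝓝[{t | δ t ≠ 0}] t).NeBot := frequently_iff_neBot.1 (hnz t (hNU ht))
    have h1 : Tendsto g (𝓝[{t | δ t ≠ 0}] t) (𝓝 (g t)) :=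
      (hg.continuousOn.continuousAt (hN.mem_nhds ht)).tendsto.mono_left nhdsWithin_le_nhds
    refine (h1.congr' ?_).limUnder_eq
    filter_upwards [self_mem_nhdsWithin, mem_nhdsWithin_of_mem_nhds (hN.mem_nhds ht)] with w h0 hw
    exact he w hw h0
  refine ⟨fun t => limUnder (𝓝[{t | δ t ≠ 0}] t) f, fun x hx => ?_, fun x hx h0 => ?_⟩
  · obtain ⟨N, g, hN, hxN, hg, -, he⟩ := key x hx
    refine ((hg.differentiableAt (hN.mem_nhds hxN)).congr_of_eventuallyEq ?_).differentiableWithinAt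
    filter_upwards [hN.mem_nhds hxN] with t ht
    exact he t ht
  · obtain ⟨N, g, -, hxN, -, hg, he⟩ := key x hx
    exact (he x hxN).trans (hg x hxN h0)

theorem connS (h : RiemS) : ConnS := by
  classical
  intro T _ _ _ δ U hU hc hδ hnz u v hu hv huv ⟨p, hp, hpu⟩ ⟨q, hq, hqv⟩
  by_contra hne
  have hdis : ∀ t ∈ U ∩ {t | δ t ≠ 0}, t ∈ v → t ∉ u := fun t ht h1 h2 => hne ⟨t, ht, h2, h1⟩
  have hW : IsOpen (U ∩ {t | δ t ≠ 0}) :=
    hδ.continuousOn.isOpen_inter_preimage hU (isOpen_ne (x := (0 : ℂ)))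
  set f : T → ℂ := fun t => if t ∈ u then 1 else 0 with hf
  have hfv : ∀ t ∈ U ∩ {t | δ t ≠ 0}, t ∈ v → ∀ᶠ w in 𝓝 t, w ∈ U ∩ {t | δ t ≠ 0} ∧ f w = 0 := by
    intro t ht htv
    filter_upwards [hW.mem_nhds ht, hv.mem_nhds htv] with w h1 h2
    exact ⟨h1, if_neg (hdis w h1 h2)⟩
  have hfd : DifferentiableOn ℂ f (U ∩ {t | δ t ≠ 0}) := by
    intro t ht
    rcases huv ht with h1 | h1
    · refine ((differentiableAt_const (1 : ℂ)).congr_of_eventuallyEq ?_).differentiableWithinAt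
      filter_upwards [hu.mem_nhds h1] with w hw
      exact if_pos hw
    · refine ((differentiableAt_const (0 : ℂ)).congr_of_eventuallyEq ?_).differentiableWithinAt
      filter_upwards [hfv t ht h1] with w hw
      exact hw.2
  obtain ⟨g, hg, he⟩ := h T f δ U hU hδ hnz hfd fun x _ =>
    ⟨1, Eventually.of_forall fun y _ => by
      by_cases hy : y ∈ u <;> simp [hf, hy]⟩
  have han := MP_caab05_ag.GB.osg T ℂ g U hU hg
  have h0 : g =ᶠ[𝓝 q] 0 := by
    filter_upwards [hfv q hq hqv] with w hw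
    rw [he w hw.1.1 hw.1.2, hw.2]
    rfl
  have h1 := han.eqOn_zero_of_preconnected_of_eventuallyEq_zero hc hq.1 h0 hp.1
  rw [he p hp.1 hp.2] at h1
  simp [hf, hpu] at h1

end Pool.Agent.Lib.MP_823829_an.LA
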