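import Pool.Agent.Lib.MP_823829_an.LA.Stmt
import Pool.Agent.Lib.MP_823829_an.GM.Sep

/-! Good projections: slices, boxes, scales, and spanning of minors. -/

namespace Pool.Agent.Lib.MP_823829_an.LA

open Set Filter Topology Metric MeasureTheory Module
open scoped ENNReal NNReal

namespace Scale

theorem eil_loc {X Y : Type*} [MetricSpace X] [MeasurableSpace X] [BorelSpace X]
    [SecondCountableTopology X] [MetricSpace Y] [MeasurableSpace Y] [BorelSpace Y] {a s : ℝ}
    (ha : 0 < a) (hs : 0 < s) {M : Set X} {f : X → Y}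
    (hf : ∀ x ∈ M, ∃ (L : ℝ≥0), ∃ t ∈ 𝓝 x, LipschitzOnWith L f t)
    (hM : μH[a + s] M = 0) {C : ℝ≥0∞} {ν : Measure Y} (h : GM.Fro s C ν) (hC : C ≠ ∞) :
    ∀ᵐ z ∂ν, μH[a] (M ∩ f ⁻¹' {z}) = 0 := by
  choose! L t ht hL using hf
  obtain ⟨S, hS, hc, hcov⟩ := TopologicalSpace.countable_cover_nhdsWithin (s := M) (f := t)
    fun x hx => mem_nhdsWithin_of_mem_nhds (ht x hx)
  have h1 : ∀ᵐ z ∂ν, ∀ x ∈ S, μH[a] ((M ∩ t x) ∩ f ⁻¹' {z}) = 0 :=
    (ae_ball_iff hc).2 fun x hx => GM.eilenberg ha hs ((hL x (hS hx)).mono inter_subset_right)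
      (measure_mono_null inter_subset_left hM) h hC
  filter_upwards [h1] with z hz
  refine measure_mono_null (fun x hx => ?_) ((measure_biUnion_null_iff hc).2 hz)
  obtain ⟨y, hy, hxy⟩ := mem_iUnion₂.1 (hcov hx.1)
  exact mem_biUnion hy ⟨⟨hx.1, hxy⟩, hx.2⟩

variable {E T : Type} [NormedAddCommGroup E] [NormedSpace ℂ E] [FiniteDimensional ℂ E]
  [NormedAddCommGroup T] [NormedSpace ℂ T] [FiniteDimensional ℂ T]

theorem slice_aux [MeasurableSpace E] [BorelSpace E] (hT : 0 < finrank ℂ T) {Y : Set E} (p : E)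
    (h : μH[2 * (finrank ℂ T : ℝ) + 1] Y = 0) {ε : ℝ} (hε : 0 < ε) (n : ℕ) :
    ∀ (l : Fin n → E →L[ℂ] ℂ) (t₀ : Fin n → T), ∃ t : Fin n → T, (∀ i, dist (t i) (t₀ i) < ε) ∧
      μH[1] {x ∈ Y | (∃ i, l i (x - p) ≠ 0) ∧ ∑ i, l i (x - p) • t i = 0} = 0 := by
  induction n with
  | zero => exact fun l t₀ => ⟨t₀, by simp, by simp⟩
  | succ n ih =>
    intro l t₀
    obtain ⟨t, ht, h1⟩ := ih (fun i => l i.succ) (fun i => t₀ i.succ)
    borelize T
    have : FiniteDimensional ℝ T := Module.Finite.trans ℂ T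
    have : FiniteDimensional ℝ E := Module.Finite.trans ℂ E
    have : ProperSpace T := FiniteDimensional.proper ℝ T
    have : ProperSpace E := FiniteDimensional.proper ℝ E
    let φ : E → T := fun x => -((l 0 (x - p))⁻¹ • ∑ i : Fin n, l i.succ (x - p) • t i)
    have hd : (finrank ℝ T : ℝ) = 2 * finrank ℂ T := by
      rw [finrank_real_of_complex]; push_cast; ring
    have h2 := eil_loc (M := {x ∈ Y | l 0 (x - p) ≠ 0}) (f := φ) one_pos
      (s := finrank ℝ T) (by rw [hd]; positivity) (fun x hx => by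
        have h3 : ContDiffAt ℝ 1 φ x := by
          refine ContDiffAt.restrict_scalars ℝ (𝕜' := ℂ) ?_
          have h4 : ∀ i, ContDiffAt ℂ 1 (fun x => l i (x - p)) x := fun i => by fun_prop
          exact (((h4 0).inv hx.2).smul
            (ContDiffAt.sum fun i _ => (h4 _).smul contDiffAt_const)).neg
        exact h3.exists_lipschitzOnWith)
      (by rw [hd, add_comm]; exact measure_mono_null (fun x hx => hx.1) h)
      (GM.fro_haar Measure.addHaar) (isCompact_closedBall 0 1).measure_lt_top.ne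
    obtain ⟨u, hu, hu'⟩ := (Measure.dense_of_ae h2).exists_dist_lt (t₀ 0) hε
    refine ⟨Fin.cons u t, fun i => Fin.cases (by simpa [dist_comm] using hu') (by simpa using ht) i,
      measure_mono_null (fun x hx => ?_) (measure_union_null hu h1)⟩
    have h4 := hx.2.2
    simp only [Fin.sum_univ_succ, Fin.cons_zero, Fin.cons_succ] at h4
    by_cases h0 : l 0 (x - p) = 0
    · refine Or.inr ⟨hx.1, ?_, by simpa [h0] using h4⟩
      obtain ⟨i, hi⟩ := hx.2.1
      revert hi
      exact Fin.cases (fun hi => absurd h0 hi) (fun j hj => ⟨j, hj⟩) i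
    · refine Or.inl ⟨⟨hx.1, h0⟩, ?_⟩
      simp only [mem_preimage, mem_singleton_iff, φ, eq_neg_of_add_eq_zero_right h4, smul_neg,
        neg_neg, inv_smul_smul₀ h0]

omit [FiniteDimensional ℂ E] in
theorem dense_det (A : T →L[ℂ] E) (L₀ : E →L[ℂ] T) (h : L₀.comp A = .id ℂ T) :
    Dense {L : E →L[ℂ] T | (L.comp A).det ≠ 0} := fun L => by
  have h1 : Tendsto (fun t : ℂ => L - t • L₀) (𝓝[≠] 0) (𝓝 L) := by
    have : Continuous fun t : ℂ => L - t • L₀ := by fun_prop
    simpa using (this.tendsto 0).mono_left nhdsWithin_le_nhds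
  refine mem_closure_of_tendsto h1 ?_
  have h2 := Module.End.finite_spectrum (K := ℂ) (V := T) (L.comp A : T →L[ℂ] T)
  filter_upwards [nhdsNE_le_cofinite _ h2.compl_mem_cofinite] with t ht
  rw [mem_compl_iff, spectrum.notMem_iff] at ht
  have h3 := (LinearMap.isUnit_det _ ht.neg).ne_zero
  convert h3 using 2
  ext v
  have := congrArg (fun B : T →L[ℂ] T => B v) h
  simp only [ContinuousLinearMap.comp_apply, ContinuousLinearMap.id_apply] at this
  simp [this]

end Scale

theorem sliceS : SliceS := by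
  intro E T _ _ _ _ _ _ _ _ Y p h
  rcases Nat.eq_zero_or_pos (finrank ℂ T) with hT | hT
  · have : {L : E →L[ℂ] T | μH[1] (Y ∩ {x | L x = L p}) = 0} = univ :=
      eq_univ_of_forall fun L => measure_mono_null inter_subset_left (by simpa [hT] using h)
    rw [this]
    exact dense_univ
  let b := finBasis ℂ E
  let l : Fin (finrank ℂ E) → E →L[ℂ] ℂ := fun i => (b.coord i).toContinuousLinearMap
  let Φ : (Fin (finrank ℂ E) → T) → E →L[ℂ] T := fun t => ∑ i, (l i).smulRight (t i)
  have hΦ : Continuous Φ := continuous_finsetSum _ fun i _ =>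
    (ContinuousLinearMap.smulRightL ℂ E T (l i)).continuous.comp (continuous_apply i)
  have hs : Function.Surjective Φ := fun L => ⟨fun i => L (b i), by
    ext x
    conv_rhs => rw [← b.sum_repr x, map_sum]
    simp [Φ, l]⟩
  refine (hs.denseRange.dense_image hΦ
    (s := Φ ⁻¹' {L | μH[1] (Y ∩ {x | L x = L p}) = 0}) ?_).mono (image_preimage_subset _ _)
  refine Metric.dense_iff.2 fun t₀ ε hε => ?_
  obtain ⟨t, ht, h1⟩ := Scale.slice_aux hT p h hε _ l t₀
  refine ⟨t, mem_ball.2 ((dist_pi_lt_iff hε).2 ht), ?_⟩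
  have := Measure.nullSingletonClass_hausdorff E one_pos
  refine measure_mono_null (fun x hx => ?_) (measure_union_null h1 (measure_singleton p))
  by_cases hx' : ∃ i, l i (x - p) ≠ 0
  · refine Or.inl ⟨hx.1, hx', ?_⟩
    have h2 : Φ t (x - p) = 0 := by rw [map_sub, sub_eq_zero]; exact hx.2
    simpa only [Φ, sum_apply, ContinuousLinearMap.smulRight_apply] using h2
  · push Not at hx'
    exact Or.inr (sub_eq_zero.1 (b.ext_elem fun i => by simpa [l] using hx' i))

theorem boxS : BoxS := by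
  intro T F _ _ _ _ _ _ _ _ Y q V hV hc h η hη
  have : ProperSpace T := FiniteDimensional.proper ℂ T
  have : ProperSpace F := FiniteDimensional.proper ℂ F
  obtain ⟨r, hr, hrV⟩ := nhds_basis_closedBall.mem_iff.1 hV
  have h1 : volume ((fun y => dist y q.2) '' {y | (q.1, y) ∈ Y ∩ V}) = 0 := by
    rw [← hausdorffMeasure_real]
    have := (LipschitzWith.dist_left q.2).hausdorffMeasure_image_le zero_le_one
      {y | (q.1, y) ∈ Y ∩ V}
    rw [h, mul_zero] at this
    exact le_antisymm this zero_le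
  obtain ⟨ρ, hρ, hρ'⟩ := (Measure.dense_of_ae (measure_eq_zero_iff_ae_notMem.1 h1)).exists_between
    (lt_min hr hη)
  have hK : IsCompact (closure Y ∩ closedBall q r) :=
    (isCompact_closedBall q r).inter_left isClosed_closure
  let g : T × F → ℝ := fun x => max (dist x.1 q.1) |dist x.2 q.2 - ρ|
  obtain ⟨δ, hδ, hg⟩ := hK.exists_forall_le' (f := g) (by fun_prop) (a := 0) fun x hx => by
    refine lt_of_le_of_ne (le_max_of_le_left dist_nonneg) fun h0 => hρ ⟨x.2, ?_, ?_⟩
    · have : x.1 = q.1 := dist_le_zero.1 (h0 ▸ le_max_left _ _)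
      rw [mem_ofPred_eq, ← this]
      exact ⟨hc _ (hrV hx.2) hx.1, hrV hx.2⟩
    · exact sub_eq_zero.1 (abs_nonpos_iff.1 (h0 ▸ le_max_right _ _))
  have h2 := hρ'.1
  have h3 := hρ'.2.trans_le (min_le_left _ _)
  have h4 := hρ'.2.trans_le (min_le_right _ _)
  obtain ⟨c, hc0, c1, c2, c3, c4⟩ : ∃ c > 0, c < δ ∧ c < ρ ∧ c < r - ρ ∧ c < η - ρ := by
    obtain ⟨c, h5, h6⟩ := exists_between (show 0 < min (min δ ρ) (min (r - ρ) (η - ρ)) by
      simp only [lt_min_iff]; exact ⟨⟨hδ, h2⟩, by linarith, by linarith⟩)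
    simp only [lt_min_iff] at h6
    exact ⟨c, h5, h6.1.1, h6.1.2, h6.2.1, h6.2.2⟩
  refine ⟨c, ρ - c, ρ + c, hc0, by linarith, by linarith, by linarith, by linarith,
    fun x hx x1 x2 => ?_⟩
  have h5 := hg x ⟨subset_closure hx, by
    rw [mem_closedBall, Prod.dist_eq]; exact max_le (by linarith) (by linarith)⟩
  by_contra! h6
  have h7 : g x ≤ c := max_le x1 (abs_le.2 ⟨by linarith, by linarith⟩)
  linarith

theorem scaleS : ScaleS := by
  intro E T _ _ _ _ _ _ _ _ m Y V p hd hV hc h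
  let e₀ : E ≃L[ℂ] T × (Fin m → ℂ) := ContinuousLinearEquiv.ofFinrankEq (by simpa using hd)
  let A : T →L[ℂ] E := (e₀.symm : T × (Fin m → ℂ) →L[ℂ] E).comp (.inl ℂ _ _)
  let B : E →L[ℂ] Fin m → ℂ := (ContinuousLinearMap.snd ℂ T _).comp (e₀ : E →L[ℂ] _)
  have h1 := Scale.dense_det A ((ContinuousLinearMap.fst ℂ T (Fin m → ℂ)).comp e₀.toContinuousLinearMap)
    (by ext; simp [A])
  have h2 : IsOpen {L : E →L[ℂ] T | (L.comp A).det ≠ 0} :=
    isOpen_ne_fun (ContinuousLinearMap.continuous_det.comp (by fun_prop)) continuous_const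
  refine ((sliceS E T _ p h).inter_of_isOpen_right h1 h2).mono fun L hL => ?_
  have h3 : Function.Injective (L.prod B) := by
    rw [injective_iff_map_eq_zero]
    intro x hx
    rw [ContinuousLinearMap.prod_apply, Prod.mk_eq_zero] at hx
    have h4 : x = A (e₀ x).1 := by
      refine e₀.injective (Prod.ext (by simp [A]) ?_)
      simpa [A, B] using hx.2
    have h5 : Function.Injective (L.comp A) :=
      ((L.comp A).toContinuousLinearEquivOfDetNeZero hL.2).injective
    have h6 : (e₀ x).1 = 0 := h5 (by rw [ContinuousLinearMap.comp_apply, ← h4, hx.1, map_zero])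
    rw [h4, h6, map_zero]
  let e : E ≃L[ℂ] T × (Fin m → ℂ) := (LinearMap.linearEquivOfInjective (L.prod B : E →L[ℂ] _)
    h3 (by simpa using hd)).toContinuousLinearEquiv
  have he : ∀ x, e x = (L x, B x) := fun x => rfl
  refine ⟨e, fun x => rfl, boxS T _ _ _ (e '' V) (e.toHomeomorph.isOpenMap.image_mem_nhds hV)
    ?_ ?_⟩
  · rintro _ ⟨x, hx, rfl⟩ h4
    refine mem_image_of_mem _ (hc x hx ?_)
    have := e.toHomeomorph.image_closure Y
    simp only [ContinuousLinearEquiv.coe_toHomeomorph] at this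
    rw [← this] at h4
    exact (e.injective.mem_set_image).1 h4
  · have h4 := B.lipschitz.hausdorffMeasure_image_le zero_le_one (Y ∩ V ∩ {x | L x = L p})
    rw [hL.1, mul_zero] at h4
    refine measure_mono_null (fun y hy => ?_) (le_antisymm h4 zero_le)
    rw [mem_ofPred_eq, ← image_inter e.injective] at hy
    obtain ⟨x, hx, hxy⟩ := hy
    exact ⟨x, ⟨hx, congrArg Prod.fst hxy⟩, congrArg Prod.snd hxy⟩

theorem spanS : SpanS := by
  intro E T _ _ _ _ _ _ D hD
  let b := finBasis ℂ T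
  let P : (E →L[ℂ] T) → (T →L[ℂ] E) → ℂ := fun L A => (L.comp A).det
  have hP : Continuous P :=
    continuous_pi fun A => ContinuousLinearMap.continuous_det.comp (by fun_prop)
  let Ψ : MultilinearMap ℂ (fun _ : Fin (finrank ℂ T) => E) ℂ →ₗ[ℂ] (T →L[ℂ] E) → ℂ :=
    { toFun := fun ω A => ω fun i => A (b i), map_add' := fun _ _ => rfl,
      map_smul' := fun _ _ => rfl }
  have h1 : Submodule.span ℂ (P '' D) ≤ LinearMap.range Ψ := by
    rw [Submodule.span_le]
    rintro _ ⟨L, -, rfl⟩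
    refine ⟨b.det.toMultilinearMap.compLinearMap fun _ => (L : E →ₗ[ℂ] T), funext fun A => ?_⟩
    have := b.det_comp (L.comp A : T →L[ℂ] T) b
    rw [b.det_self, mul_one] at this
    exact this
  have : FiniteDimensional ℂ (Submodule.span ℂ (P '' D)) := Submodule.finiteDimensional_of_le h1
  obtain ⟨S, hS, h2⟩ := (Submodule.fg_span_iff_fg_span_finset_subset _).1
    (Module.Finite.iff_fg.1 this)
  choose L hL hL' using fun i : Fin S.card => hS (S.equivFin.symm i).2
  refine ⟨_, L, hL, fun L' => ?_⟩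
  have h3 : P L' ∈ Submodule.span ℂ (P '' D) :=
    (Submodule.closed_of_finiteDimensional _).closure_subset
      (map_mem_closure hP (hD L') fun x hx => Submodule.subset_span (mem_image_of_mem P hx))
  have h4 : (S : Set _) ⊆ range fun i => P (L i) := fun f hf =>
    ⟨S.equivFin ⟨f, hf⟩, by simp [hL']⟩
  rw [h2] at h3
  obtain ⟨c, hc⟩ := (Submodule.mem_span_range_iff_exists_fun ℂ).1 (Submodule.span_mono h4 h3)
  exact ⟨c, fun A => by simpa [P] using (congrFun hc A).symm⟩

end Pool.Agent.Lib.MP_823829_an.LA
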