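import Mathlib
import Pool.Agent.Lib.MP_823829_an.LA.Basic

/-! Analytic sets are countable unions of immersed open sets. -/

namespace Pool.Agent.Lib.MP_823829_an.LA

open Set Filter Topology Metric MeasureTheory Module

namespace Strat

variable {E G : Type} [NormedAddCommGroup E] [NormedSpace ℂ E] [NormedAddCommGroup G]
  [NormedSpace ℂ G]

/-- countable unions of immersed open sets -/
def St (S : Set E) : Prop :=
  ∃ (k : ℕ → ℕ) (B : ∀ j, Set (Fin (k j) → ℂ)) (φ : ∀ j, (Fin (k j) → ℂ) → E),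
    (∀ j, Imm (φ j) (B j)) ∧ S = ⋃ j, φ j '' B j

theorem St.iUnion {ι : Type} [Countable ι] {S : ι → Set E} (h : ∀ i, St (S i)) :
    St (⋃ i, S i) := by
  cases isEmpty_or_nonempty ι
  · exact ⟨fun _ => 0, fun _ => ∅, fun _ _ => 0, fun _ => ⟨isOpen_empty, differentiableOn_empty,
      injOn_empty _, fun _ h => h.elim⟩, by simp⟩
  choose k B φ h1 h2 using h
  obtain ⟨g, hg⟩ := exists_surjective_nat (ι × ℕ)
  refine ⟨fun n => k (g n).1 (g n).2, fun n => B _ _, fun n => φ _ _, fun n => h1 _ _, ?_⟩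
  rw [hg.iUnion_comp fun z => φ z.1 z.2 '' B z.1 z.2, iUnion_prod']
  exact iUnion_congr h2

theorem St.image {ψ : G → E} {W S : Set G} (hψ : Imm ψ W) (hS : S ⊆ W) (h : St S) :
    St (ψ '' S) := by
  obtain ⟨k, B, φ, h1, rfl⟩ := h
  have h2 : ∀ j, MapsTo (φ j) (B j) W := fun j w hw => hS (mem_iUnion.2 ⟨j, w, hw, rfl⟩)
  refine ⟨k, B, fun j => ψ ∘ φ j, fun j => ⟨(h1 j).op, hψ.hol.comp (h1 j).hol (h2 j),
    hψ.inj.comp (h1 j).inj (h2 j), fun w hw => ?_⟩, by simp only [image_iUnion, image_comp]⟩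
  rw [fderiv_comp w (hψ.hol.differentiableAt (hψ.op.mem_nhds (h2 j hw)))
    ((h1 j).hol.differentiableAt ((h1 j).op.mem_nhds hw))]
  exact (hψ.imm _ (h2 j hw)).comp ((h1 j).imm w hw)

variable [FiniteDimensional ℂ E]

theorem st_open {S : Set E} (hS : IsOpen S) : St S := by
  let e : (Fin (finrank ℂ E) → ℂ) ≃L[ℂ] E := ContinuousLinearEquiv.ofFinrankEq (by simp)
  refine ⟨fun _ => finrank ℂ E, fun _ => e ⁻¹' S, fun _ => e, fun _ => ⟨hS.preimage e.continuous,
    e.differentiableOn, e.injective.injOn, fun w _ => ?_⟩, ?_⟩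
  · rw [e.fderiv]
    exact e.injective
  · rw [iUnion_const, image_preimage_eq _ e.surjective]

theorem st_loc {S : Set E} (h : ∀ p ∈ S, ∃ V ∈ 𝓝 p, St (S ∩ V)) : St S := by
  have : ProperSpace E := FiniteDimensional.proper ℂ E
  choose! V h1 h2 using h
  obtain ⟨t, ht, hc, h3⟩ := TopologicalSpace.countable_cover_nhdsWithin (f := V) (s := S)
    fun p hp => mem_nhdsWithin_of_mem_nhds (h1 p hp)
  have := hc.to_subtype
  have h4 := St.iUnion fun p : t => h2 p (ht p.2)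
  rwa [← inter_iUnion, iUnion_coe_set, inter_eq_left.2 h3] at h4

theorem main (h2 : ZeroS) (n : ℕ) : ∀ (E : Type) [NormedAddCommGroup E] [NormedSpace ℂ E]
    [FiniteDimensional ℂ E] (Y U : Set E), finrank ℂ E = n → IsOpen U → AnOn Y U →
    St (Y ∩ U) := by
  induction n using Nat.strong_induction_on with
  | _ n ih =>
  intro E _ _ _ Y U hn hU hY
  refine st_loc fun p hp => ?_
  obtain ⟨V, r, f, hV, hpV, hf, hYV⟩ := hY p hp.2
  obtain ⟨ε, hε, hb⟩ := Metric.isOpen_iff.1 (hU.inter hV) p ⟨hp.2, hpV⟩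
  refine ⟨ball p ε, ball_mem_nhds p hε, ?_⟩
  rw [inter_assoc, inter_eq_right.2 (hb.trans inter_subset_left)]
  by_cases h0 : ∀ x ∈ ball p ε, f x = 0
  · rw [inter_eq_right.2 fun x hx => (hYV x (hb hx).2).2 (h0 x hx)]
    exact st_open isOpen_ball
  simp only [not_forall] at h0
  obtain ⟨x, hx, h0⟩ := h0
  obtain ⟨j, hj⟩ := Function.ne_iff.1 h0
  have hne : x ≠ p := by
    rintro rfl
    exact h0 ((hYV x hpV).1 hp.1)
  have : Nontrivial E := ⟨x, p, hne⟩
  obtain ⟨k, rfl⟩ := Nat.exists_eq_succ_of_ne_zero (hn ▸ finrank_pos.ne' : n ≠ 0)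
  have hfj := (differentiableOn_pi.1 hf j).mono (hb.trans inter_subset_right)
  obtain ⟨B, ψ, h3, h4, h5⟩ := h2 E k (fun x => f x j) (ball p ε) hn isOpen_ball hfj
    (nz_of_ne isOpen_ball (convex_ball p ε).isPreconnected hfj hx hj)
  have h6 : Y ∩ ball p ε = ⋃ i, ψ i '' (ψ i ⁻¹' Y ∩ B i) := by
    simp only [image_preimage_inter, ← inter_iUnion]
    exact subset_antisymm (fun y hy => ⟨hy.1, h5 ⟨hy.2, congrFun ((hYV y (hb hy.2).2).1 hy.1) j⟩⟩)
      (inter_subset_inter_right _ (iUnion_subset h4))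
  rw [h6]
  exact St.iUnion fun i => St.image (h3 i) inter_subset_right (ih k k.lt_succ_self _ _ _ (by simp)
    (h3 i).op fun w hw => (hY _ (hb (h4 i ⟨w, hw, rfl⟩)).1).preimage (h3 i).op hw (h3 i).hol)

end Strat

theorem stratS (h2 : ZeroS) : StratS := fun E _ _ _ Y U => Strat.main h2 _ E Y U rfl

theorem dimS (h1 : ThinS) (h : StratS) : DimS := by
  intro E _ _ _ _ _ k Y U s hU hY s0 hs h0
  obtain ⟨d, B, φ, h2, h3⟩ := h E Y U hU hY
  rw [h3] at h0 ⊢
  refine h1.iUnion fun j => ?_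
  rcases (B j).eq_empty_or_nonempty with e | ⟨w, hw⟩
  · rw [e, image_empty]
    exact h1.empty k
  refine h1.ofImage (not_lt.1 fun hk => ?_) (h2 j).op (h2 j).hol
  refine h1.hausImm (h2 j).op hw (h2 j).hol ((h2 j).imm w hw) s0 (hs.trans ?_)
    (measure_mono_null (subset_iUnion (fun j => φ j '' B j) j) h0)
  have : (k : ℝ) + 1 ≤ finrank ℂ (Fin (d j) → ℂ) := by exact_mod_cast hk
  linarith

end Pool.Agent.Lib.MP_823829_an.LA
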