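import Mathlib
import Pool.Agent.Lib.MP_823829_an.LA.Stmt

/-! Symmetric functions of the roots of a monic polynomial with holomorphic coefficients. -/

namespace Pool.Agent.Lib.MP_823829_an.LA

open Set Filter Topology Polynomial

namespace SymAux

/-- the monic polynomial with the given roots -/
noncomputable def pl {d : ℕ} (v : Fin d → ℂ) : ℂ[X] := ∏ i, (X - C (v i))

theorem pl_monic {d : ℕ} (v : Fin d → ℂ) : (pl v).Monic :=
  monic_prod_of_monic _ _ fun _ _ => monic_X_sub_C _

theorem pl_natDegree {d : ℕ} (v : Fin d → ℂ) : (pl v).natDegree = d := by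
  unfold pl
  rw [natDegree_prod_of_monic _ _ fun _ _ => monic_X_sub_C _]
  simp

theorem pl_eval {d : ℕ} (v : Fin d → ℂ) (w : ℂ) : (pl v).eval w = ∏ i, (w - v i) := by
  simp [pl, eval_prod]

theorem pl_coeff {d : ℕ} (v : Fin d → ℂ) {k : ℕ} (hk : k ≤ d) :
    (pl v).coeff k = (-1) ^ (d - k) * (Finset.univ.val.map v).esymm (d - k) := by
  have h := Multiset.prod_X_sub_C_coeff (Finset.univ.val.map v) (k := k) (by simpa using hk)
  have e : pl v = ((Finset.univ.val.map v).map fun t => X - C t).prod := by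
    rw [Multiset.map_map]; rfl
  have c : Multiset.card (Finset.univ.val.map v) = d := by simp
  rw [e, h, c]

theorem monic_eval {d : ℕ} (p : ℂ[X]) (hp : p.Monic) (hd : p.natDegree = d) (w : ℂ) :
    p.eval w = w ^ d + ∑ k : Fin d, p.coeff k * w ^ (k : ℕ) := by
  rw [eval_eq_sum_range, hd, Finset.sum_range_succ, ← hd, hp.coeff_natDegree, one_mul, hd,
    Finset.sum_range, add_comm]

theorem prod_eq {d : ℕ} (v : Fin d → ℂ) (w : ℂ) :
    ∏ i, (w - v i) = w ^ d + ∑ k : Fin d, (pl v).coeff k * w ^ (k : ℕ) := by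
  rw [← pl_eval, monic_eval _ (pl_monic v) (pl_natDegree v)]

theorem coeff_interp {d : ℕ} (k : ℕ) : ∃ b : ℕ → ℂ, ∀ v : Fin d → ℂ,
    (pl v).coeff k = ∑ j ∈ Finset.range (d + 1), (∏ i, ((j : ℂ) - v i)) * b j := by
  refine ⟨fun j => (Lagrange.basis (Finset.range (d + 1)) (fun n : ℕ => (n : ℂ)) j).coeff k,
    fun v => ?_⟩
  have hinj : Set.InjOn (fun n : ℕ => (n : ℂ)) (Finset.range (d + 1)) :=
    fun _ _ _ _ h => Nat.cast_injective h
  have hdeg : (pl v).degree < (Finset.range (d + 1)).card := by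
    rw [degree_eq_natDegree (pl_monic v).ne_zero, pl_natDegree, Finset.card_range]
    exact_mod_cast Nat.lt_succ_self d
  conv_lhs => rw [Lagrange.eq_interpolate hinj hdeg, Lagrange.interpolate_apply, finsetSum_coeff]
  refine Finset.sum_congr rfl fun j _ => ?_
  rw [coeff_C_mul, pl_eval]

theorem root_le {d : ℕ} (c : Fin d → ℂ) (z : ℂ) (h : z ^ d + ∑ k : Fin d, c k * z ^ (k : ℕ) = 0) :
    ‖z‖ ≤ 1 + ∑ k, ‖c k‖ := by
  have hs : 0 ≤ ∑ k, ‖c k‖ := Finset.sum_nonneg fun _ _ => norm_nonneg _
  by_contra hz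
  rw [not_le] at hz
  have h1 : 1 ≤ ‖z‖ := by linarith
  have e : z ^ d = -∑ k : Fin d, c k * z ^ (k : ℕ) := eq_neg_of_add_eq_zero_left h
  have h2 : ‖z‖ ^ d * ‖z‖ ≤ (∑ k, ‖c k‖) * ‖z‖ ^ d := by
    conv_lhs => rw [← norm_pow, e, norm_neg]
    rw [Finset.sum_mul]
    refine (mul_le_mul_of_nonneg_right (norm_sum_le _ _) (norm_nonneg z)).trans ?_
    rw [Finset.sum_mul]
    refine Finset.sum_le_sum fun k _ => ?_
    rw [norm_mul, norm_pow, mul_assoc, ← pow_succ]
    exact mul_le_mul_of_nonneg_left (pow_le_pow_right₀ h1 k.2) (norm_nonneg _)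
  have h3 : 0 < ‖z‖ ^ d := pow_pos (by linarith) d
  nlinarith

theorem exists_fn {d : ℕ} (s : Multiset ℂ) (hs : Multiset.card s = d) :
    ∃ v : Fin d → ℂ, Finset.univ.val.map v = s := by
  induction s using Quotient.inductionOn with
  | h l =>
    have hl : l.length = d := by simpa using hs
    subst hl
    refine ⟨l.get, ?_⟩
    rw [Fin.univ_val_map]
    simp

theorem exists_roots {d : ℕ} (c : Fin d → ℂ) :
    ∃ v : Fin d → ℂ, ∀ w, ∏ i, (w - v i) = w ^ d + ∑ k : Fin d, c k * w ^ (k : ℕ) := by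
  let q : ℂ[X] := ∑ k : Fin d, C (c k) * X ^ (k : ℕ)
  have hq : q.degree < d := degree_sum_fin_lt c
  have hm : (X ^ d + q).Monic := monic_X_pow_add hq
  have hd : (X ^ d + q).natDegree = d := by
    rw [natDegree_eq_of_degree_eq_some]
    rw [degree_add_eq_left_of_degree_lt (by rwa [degree_X_pow]), degree_X_pow]
  have hs : (X ^ d + q).Splits := IsAlgClosed.splits _
  obtain ⟨v, hv⟩ := exists_fn (d := d) (X ^ d + q).roots (by rw [← hs.natDegree_eq_card_roots, hd])
  refine ⟨v, fun w => ?_⟩
  have e := congrArg (eval w) (hs.eq_prod_roots_of_monic hm)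
  rw [← hv, Multiset.map_map] at e
  have e2 : eval w (Multiset.map ((fun a => X - C a) ∘ v) Finset.univ.val).prod
      = ∏ i, (w - v i) := pl_eval v w
  rw [← e2, ← e]
  simp [q, eval_finsetSum]

variable {T : Type} [NormedAddCommGroup T] [NormedSpace ℂ T] {d : ℕ} {a : T → Fin d → ℂ}
  {N : Set T}

theorem diff_prod {ι : Type} (s : Finset ι) (f : ι → T → ℂ)
    (hf : ∀ j, DifferentiableOn ℂ (f j) N) :
    DifferentiableOn ℂ (fun t => ∏ j ∈ s, f j t) N := by
  classical
  induction s using Finset.induction_on with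
  | empty => simp only [Finset.prod_empty]; exact differentiableOn_const _
  | insert j s hj ih => simp only [Finset.prod_insert hj]; exact (hf j).mul ih

theorem mon_coeff (h : Mon a N) (k : ℕ) :
    DifferentiableOn ℂ (fun t => (pl (a t)).coeff k) N := by
  obtain ⟨b, hb⟩ := coeff_interp (d := d) k
  simp only [hb]
  exact DifferentiableOn.fun_sum fun j _ => (h j).mul_const _

theorem mon_esymm (h : Mon a N) (k : ℕ) :
    DifferentiableOn ℂ (fun t => (Finset.univ.val.map (a t)).esymm k) N := by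
  rcases le_or_gt k d with hk | hk
  · have e : ∀ t, (Finset.univ.val.map (a t)).esymm k
        = (-1) ^ k * (pl (a t)).coeff (d - k) := by
      intro t
      rw [pl_coeff _ (Nat.sub_le d k), Nat.sub_sub_self hk, ← mul_assoc, ← mul_pow]
      simp
    simp only [e]
    exact (mon_coeff h _).const_mul _
  · have e : ∀ t, (Finset.univ.val.map (a t)).esymm k = 0 := by
      intro t
      rw [Multiset.esymm, Multiset.powersetCard_eq_empty _ (by simpa using hk)]
      simp
    simp only [e]
    exact differentiableOn_const _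

theorem mon_of_esymm
    (h : ∀ k, DifferentiableOn ℂ (fun t => (Finset.univ.val.map (a t)).esymm k) N) :
    Mon a N := by
  intro w
  simp only [prod_eq]
  refine (differentiableOn_const _).add (DifferentiableOn.fun_sum fun k _ => ?_)
  simp only [pl_coeff _ k.2.le]
  exact ((h _).const_mul _).mul_const _

theorem esymm_of_pow (h : ∀ k : ℕ, DifferentiableOn ℂ (fun t => ∑ i, a t i ^ k) N) (k : ℕ) :
    DifferentiableOn ℂ (fun t => (Finset.univ.val.map (a t)).esymm k) N := by
  induction k using Nat.strong_induction_on with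
  | _ k ih =>
    rcases Nat.eq_zero_or_pos k with rfl | hk
    · simp only [Multiset.esymm, Multiset.powersetCard_zero_left, Multiset.map_singleton,
        Multiset.prod_zero, Multiset.sum_singleton]
      exact differentiableOn_const _
    · have hk' : (k : ℂ) ≠ 0 := by exact_mod_cast hk.ne'
      have e : ∀ t, (Finset.univ.val.map (a t)).esymm k = (k : ℂ)⁻¹ * ((-1) ^ (k + 1) *
          ∑ p ∈ Finset.HasAntidiagonal.antidiagonal k with p.1 < k,
            (-1) ^ p.1 * (Finset.univ.val.map (a t)).esymm p.1 * ∑ i, a t i ^ p.2) := by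
        intro t
        have := congrArg (MvPolynomial.aeval (a t)) (MvPolynomial.mul_esymm_eq_sum (Fin d) ℂ k)
        simp only [map_mul, map_natCast, map_pow, map_neg, map_one, map_sum,
          MvPolynomial.aeval_esymm_eq_multiset_esymm, MvPolynomial.psum,
          MvPolynomial.aeval_X] at this
        rw [← this, ← mul_assoc, inv_mul_cancel₀ hk', one_mul]
      simp only [e]
      refine DifferentiableOn.const_mul (DifferentiableOn.const_mul
        (DifferentiableOn.fun_sum fun p hp => ?_) _) _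
      exact ((ih p.1 (Finset.mem_filter.1 hp).2).const_mul _).mul (h p.2)

theorem diff_aeval {n : ℕ} (f : T → Fin n → ℂ) (hf : ∀ i, DifferentiableOn ℂ (fun t => f t i) N)
    (Q : MvPolynomial (Fin n) ℂ) :
    DifferentiableOn ℂ (fun t => MvPolynomial.aeval (f t) Q) N := by
  induction Q using MvPolynomial.induction_on with
  | C c => simp only [MvPolynomial.aeval_C]; exact differentiableOn_const _
  | add p q hp hq => simp only [map_add]; exact hp.add hq
  | mul_X p i hp => simp only [map_mul, MvPolynomial.aeval_X]; exact hp.mul (hf i)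

theorem mon_sym (h : Mon a N) (P : MvPolynomial (Fin d) ℂ) (hP : P.IsSymmetric) :
    DifferentiableOn ℂ (fun t => MvPolynomial.eval (a t) P) N := by
  obtain ⟨Q, hQ⟩ := MvPolynomial.esymmAlgHom_surjective (σ := Fin d) ℂ (n := d) (by simp) ⟨P, hP⟩
  have e : P = MvPolynomial.aeval (fun i : Fin d => MvPolynomial.esymm (Fin d) ℂ (i + 1)) Q := by
    rw [← MvPolynomial.esymmAlgHom_apply, hQ]
  have e2 : ∀ t, MvPolynomial.eval (a t) P = MvPolynomial.aeval
      (fun i : Fin d => (Finset.univ.val.map (a t)).esymm (i + 1)) Q := by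
    intro t
    rw [← MvPolynomial.coe_aeval_eq_eval, e]
    change MvPolynomial.aeval (a t) _ = _
    rw [← AlgHom.comp_apply, MvPolynomial.comp_aeval]
    simp only [MvPolynomial.aeval_esymm_eq_multiset_esymm]
  simp only [e2]
  exact diff_aeval _ (fun i => mon_esymm h _) Q

theorem mon_prod (h : Mon a N) : DifferentiableOn ℂ (fun t => ∏ i, a t i) N := by
  have e : ∀ t, ∏ i, a t i = (-1) ^ d * ∏ i, (0 - a t i) := by
    intro t
    simp only [zero_sub, Finset.prod_neg, Finset.card_univ, Fintype.card_fin]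
    rw [← mul_assoc, ← mul_pow]
    simp
  simp only [e]
  exact (h 0).const_mul _

theorem mon_joint (h : Mon a N) :
    DifferentiableOn ℂ (fun q : T × ℂ => ∏ i, (q.2 - a q.1 i)) (N ×ˢ univ) := by
  simp only [prod_eq]
  refine DifferentiableOn.add (by fun_prop) (DifferentiableOn.fun_sum fun k _ => ?_)
  refine DifferentiableOn.mul ?_ (by fun_prop)
  exact (mon_coeff h k).comp differentiableOn_fst fun q hq => hq.1

theorem mon_bdd (hN : IsOpen N) (h : Mon a N) (t₀ : T) (ht : t₀ ∈ N) :
    ∃ R : ℝ, ∀ᶠ t in 𝓝 t₀, ∀ i, ‖a t i‖ ≤ R := by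
  have hc : ContinuousAt (fun t => 1 + ∑ k : Fin d, ‖(pl (a t)).coeff k‖) t₀ := by
    refine continuousAt_const.add (tendsto_finsetSum _ fun k _ => ?_)
    exact ((mon_coeff h k).differentiableAt (hN.mem_nhds ht)).continuousAt.norm
  refine ⟨(1 + ∑ k : Fin d, ‖(pl (a t₀)).coeff k‖) + 1, ?_⟩
  filter_upwards [hc.eventually (gt_mem_nhds (lt_add_one _))] with t ht i
  refine (root_le _ _ ?_).trans ht.le
  rw [← prod_eq]
  exact Finset.prod_eq_zero (Finset.mem_univ i) (sub_self _)

end SymAux

open SymAux in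
theorem symS : SymS where
  ofPow h := mon_of_esymm (esymm_of_pow h)
  sym h := mon_sym h
  prod h := mon_prod h
  joint h := mon_joint h
  coeff {_ _ _ _ a _} h :=
    ⟨fun k t => (pl (a t)).coeff k, fun k => mon_coeff h k, fun t w => prod_eq (a t) w⟩
  roots c := by
    choose a ha using fun t => exists_roots fun k => c k t
    exact ⟨a, ha⟩
  bdd hN h := mon_bdd hN h
  append {T ι _ _ _ d a N} h := by
    classical
    let e := Fintype.equivFin (Σ j, Fin (d j))
    refine ⟨_, fun t i => a (e.symm i).1 t (e.symm i).2, fun w => ?_, fun t s => ⟨?_, ?_⟩⟩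
    · have e2 : ∀ t, ∏ i, (w - a (e.symm i).1 t (e.symm i).2) = ∏ j, ∏ i, (w - a j t i) := by
        intro t
        rw [e.symm.prod_comp fun p : Σ j, Fin (d j) => w - a p.1 t p.2, Fintype.prod_sigma]
      simp only [e2]
      exact diff_prod Finset.univ (fun j t => ∏ i, (w - a j t i)) fun j => h j w
    · rintro ⟨i, hi⟩
      exact ⟨_, _, hi⟩
    · rintro ⟨j, i, hi⟩
      refine ⟨e ⟨j, i⟩, ?_⟩
      change s = (fun p : Σ j, Fin (d j) => a p.1 t p.2) (e.symm (e ⟨j, i⟩))
      rw [hi, e.symm_apply_apply]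

end Pool.Agent.Lib.MP_823829_an.LA
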