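import Mathlib
import Pool.Agent.Lib.MP_823829_an.LA.Stmt
import Pool.Agent.Lib.MP_caab05_ag.GB.Osg

/-! Local analytic geometry: thin sets. -/

namespace Pool.Agent.Lib.MP_823829_an.LA

open Set Filter Topology Metric MeasureTheory Module
open scoped ENNReal NNReal

namespace ThinAux

section
variable {E : Type} [NormedAddCommGroup E] [NormedSpace ℂ E]

theorem mono {k : ℕ} {S S' : Set E} (h : Thin k S') (hs : S ⊆ S') : Thin k S := by
  obtain ⟨B, φ, h1, h2, h3⟩ := h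
  exact ⟨B, φ, h1, h2, hs.trans h3⟩

theorem empty (k : ℕ) : Thin k (∅ : Set E) :=
  ⟨fun _ => ∅, fun _ _ => 0, fun _ => isOpen_empty, fun _ => differentiableOn_const _,
    empty_subset _⟩

theorem iUnion {ι : Type} [Countable ι] {k : ℕ} {S : ι → Set E} (h : ∀ i, Thin k (S i)) :
    Thin k (⋃ i, S i) := by
  rcases isEmpty_or_nonempty ι with hι | hι
  · rw [iUnion_of_empty]
    exact empty k
  choose B φ h1 h2 h3 using h
  obtain ⟨f, hf⟩ := exists_surjective_nat (ι × ℕ)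
  refine ⟨fun n => B (f n).1 (f n).2, fun n => φ (f n).1 (f n).2, fun n => h1 _ _,
    fun n => h2 _ _, fun x hx => ?_⟩
  obtain ⟨i, hi⟩ := mem_iUnion.1 hx
  obtain ⟨j, hj⟩ := mem_iUnion.1 (h3 i hi)
  obtain ⟨n, hn⟩ := hf (i, j)
  refine mem_iUnion.2 ⟨n, ?_⟩
  simp only [hn]
  exact hj

theorem union {k : ℕ} {S S' : Set E} (h : Thin k S) (h' : Thin k S') : Thin k (S ∪ S') := by
  rw [union_eq_iUnion]
  refine iUnion fun b => ?_
  cases b
  · exact h'
  · exact h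

theorem exists_surj (G : Type) [NormedAddCommGroup G] [NormedSpace ℂ G] [FiniteDimensional ℂ G]
    {k : ℕ} (h : finrank ℂ G ≤ k) : ∃ P : (Fin k → ℂ) →L[ℂ] G, Function.Surjective P := by
  let e : (Fin (finrank ℂ G) → ℂ) ≃L[ℂ] G := ContinuousLinearEquiv.ofFinrankEq (by simp)
  let Q : (Fin k → ℂ) →L[ℂ] (Fin (finrank ℂ G) → ℂ) :=
    ContinuousLinearMap.pi fun i => ContinuousLinearMap.proj (Fin.castLE h i)
  have hQ : Function.Surjective Q := (Fin.castLE_injective h).surjective_comp_right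
  exact ⟨e.toContinuousLinearMap.comp Q, e.surjective.comp hQ⟩

theorem ofImage {G : Type} [NormedAddCommGroup G] [NormedSpace ℂ G] [FiniteDimensional ℂ G]
    {k : ℕ} {φ : G → E} {W : Set G} (h : finrank ℂ G ≤ k) (hW : IsOpen W)
    (hφ : DifferentiableOn ℂ φ W) : Thin k (φ '' W) := by
  obtain ⟨P, hP⟩ := exists_surj G h
  refine ⟨fun _ => P ⁻¹' W, fun _ => φ ∘ P, fun _ => hW.preimage P.continuous,
    fun _ => hφ.comp P.differentiableOn fun _ hx => hx, ?_⟩
  rintro _ ⟨w, hw, rfl⟩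
  obtain ⟨u, rfl⟩ := hP w
  exact mem_iUnion.2 ⟨0, u, hw, rfl⟩

theorem image {F : Type} [NormedAddCommGroup F] [NormedSpace ℂ F] {k : ℕ} {S V : Set E}
    {ψ : E → F} (h : Thin k S) (hV : IsOpen V) (hS : S ⊆ V) (hψ : DifferentiableOn ℂ ψ V) :
    Thin k (ψ '' S) := by
  obtain ⟨B, φ, h1, h2, h3⟩ := h
  refine ⟨fun j => B j ∩ φ j ⁻¹' V, fun j => ψ ∘ φ j,
    fun j => (h2 j).continuousOn.isOpen_inter_preimage (h1 j) hV,
    fun j => hψ.comp ((h2 j).mono inter_subset_left) fun _ hx => hx.2, ?_⟩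
  rintro _ ⟨x, hx, rfl⟩
  obtain ⟨j, u, hu, rfl⟩ := mem_iUnion.1 (h3 hx)
  exact mem_iUnion.2 ⟨j, u, ⟨hu, hS hx⟩, rfl⟩

theorem le {k l : ℕ} {S : Set E} (h : Thin k S) (hkl : k ≤ l) : Thin l S := by
  obtain ⟨B, φ, h1, h2, h3⟩ := h
  exact mono (iUnion fun j => ofImage (by simpa using hkl) (h1 j) (h2 j)) h3

theorem zero {S : Set E} : Thin 0 S ↔ S.Countable := by
  constructor
  · rintro ⟨B, φ, -, -, h3⟩
    exact (countable_iUnion fun j => (Set.toFinite (B j)).countable.image _).mono h3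
  · intro hS
    have := hS.to_subtype
    have h1 : ∀ x : S, Thin 0 ({x.1} : Set E) := fun x =>
      ⟨fun _ => univ, fun _ _ => x.1, fun _ => isOpen_univ, fun _ => differentiableOn_const _,
        fun y hy => mem_iUnion.2 ⟨0, 0, mem_univ _, (mem_singleton_iff.1 hy).symm⟩⟩
    exact mono (iUnion h1) fun x hx => mem_iUnion.2 ⟨⟨x, hx⟩, rfl⟩

theorem loc [FiniteDimensional ℂ E] {k : ℕ} {S : Set E}
    (h : ∀ p ∈ S, ∃ V ∈ 𝓝 p, Thin k (S ∩ V)) : Thin k S := by
  have : ProperSpace E := FiniteDimensional.proper ℂ E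
  choose! V hV hT using h
  obtain ⟨t, hts, htc, hcov⟩ := TopologicalSpace.countable_cover_nhdsWithin
    (f := V) (s := S) fun x hx => mem_nhdsWithin_of_mem_nhds (hV x hx)
  have := htc.to_subtype
  refine mono (iUnion fun x : t => hT x.1 (hts x.2)) fun y hy => ?_
  obtain ⟨x, hx, hyx⟩ := mem_iUnion₂.1 (hcov hy)
  exact mem_iUnion.2 ⟨⟨x, hx⟩, hy, hyx⟩

theorem prod {F : Type} [NormedAddCommGroup F] [NormedSpace ℂ F] {k l : ℕ} {S : Set E}
    {S' : Set F} (h : Thin k S) (h' : Thin l S') : Thin (k + l) (S ×ˢ S') := by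
  obtain ⟨B, φ, h1, h2, h3⟩ := h
  obtain ⟨B', φ', h1', h2', h3'⟩ := h'
  have h4 : ∀ q : ℕ × ℕ, Thin (k + l) (Prod.map (φ q.1) (φ' q.2) '' (B q.1 ×ˢ B' q.2)) := fun q =>
    ofImage (by simp) ((h1 _).prod (h1' _))
      (((h2 _).comp differentiableOn_fst fun _ hx => hx.1).prodMk
        ((h2' _).comp differentiableOn_snd fun _ hx => hx.2))
  refine mono (iUnion h4) ?_
  rintro ⟨x, y⟩ ⟨hx, hy⟩
  obtain ⟨i, u, hu, rfl⟩ := mem_iUnion.1 (h3 hx)
  obtain ⟨j, v, hv, rfl⟩ := mem_iUnion.1 (h3' hy)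
  exact mem_iUnion.2 ⟨(i, j), (u, v), ⟨hu, hv⟩, rfl⟩

theorem dim [FiniteDimensional ℂ E] {k : ℕ} {S : Set E} (h : Thin k S) :
    dimH S ≤ ((2 * k : ℕ) : ℝ≥0∞) := by
  have : CompleteSpace E := FiniteDimensional.complete ℂ E
  obtain ⟨B, φ, h1, h2, h3⟩ := h
  refine (dimH_mono h3).trans ?_
  rw [dimH_iUnion]
  refine iSup_le fun j => ?_
  have ha := MP_caab05_ag.GB.osg _ _ _ _ (h1 j) (h2 j)
  have h4 : dimH (φ j '' B j) ≤ dimH (B j) := by
    refine dimH_image_le_of_locally_lipschitzOn fun x hx => ?_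
    obtain ⟨K, t, ht, hK⟩ := ((ha x hx).contDiffAt (n := 1)).exists_lipschitzOnWith
    exact ⟨K, t, mem_nhdsWithin_of_mem_nhds ht, hK⟩
  refine h4.trans ((dimH_mono (subset_univ _)).trans ?_)
  rw [Real.dimH_univ_eq_finrank, finrank_real_of_complex]
  simp

theorem haus [FiniteDimensional ℂ E] [MeasurableSpace E] [BorelSpace E] {k : ℕ} {S : Set E}
    {s : ℝ} (h : Thin k S) (hs : 2 * (k : ℝ) < s) : μH[s] S = 0 := by
  have h0 : 0 ≤ s := le_trans (by positivity) hs.le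
  lift s to ℝ≥0 using h0
  refine hausdorffMeasure_of_dimH_lt ((dim h).trans_lt ?_)
  have h1 : ((2 * k : ℕ) : ℝ≥0) < s := by exact_mod_cast hs
  exact_mod_cast h1

theorem dim_lt [FiniteDimensional ℂ E] {k : ℕ} {S : Set E} (h : Thin k S)
    (hk : k < finrank ℂ E) : dimH S < finrank ℝ E := by
  refine (dim h).trans_lt ?_
  rw [finrank_real_of_complex]
  exact_mod_cast (by omega : 2 * k < 2 * finrank ℂ E)

theorem null [FiniteDimensional ℂ E] [MeasurableSpace E] [BorelSpace E] (μ : Measure E)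
    [μ.IsAddHaarMeasure] {k : ℕ} {S : Set E} (h : Thin k S) (hk : k < finrank ℂ E) : μ S = 0 := by
  have hac : μ ≪ μH[((finrank ℝ E : ℝ≥0) : ℝ)] := by
    rw [NNReal.coe_natCast]
    exact Measure.absolutelyContinuous_isAddHaarMeasure μ _
  exact measure_zero_of_dimH_lt hac (by exact_mod_cast dim_lt h hk)

theorem dense [FiniteDimensional ℂ E] {k : ℕ} {S : Set E} (h : Thin k S)
    (hk : k < finrank ℂ E) : Dense Sᶜ :=
  dense_compl_of_dimH_lt_finrank (dim_lt h hk)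

theorem hausImm [FiniteDimensional ℂ E] [MeasurableSpace E] [BorelSpace E] {G : Type}
    [NormedAddCommGroup G] [NormedSpace ℂ G] [FiniteDimensional ℂ G] {φ : G → E} {W : Set G}
    {w : G} {s : ℝ} (hW : IsOpen W) (hw : w ∈ W) (hφ : DifferentiableOn ℂ φ W)
    (hinj : Function.Injective (fderiv ℂ φ w)) (hs : 0 ≤ s) (hs2 : s ≤ 2 * (finrank ℂ G : ℝ)) :
    μH[s] (φ '' W) ≠ 0 := by
  have : CompleteSpace E := FiniteDimensional.complete ℂ E
  have : CompleteSpace G := FiniteDimensional.complete ℂ G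
  borelize G
  intro h0
  obtain ⟨L0, hL0⟩ := (fderiv ℂ φ w : G →ₗ[ℂ] E).exists_leftInverse_of_injective
    (LinearMap.ker_eq_bot.2 hinj)
  let L : E →L[ℂ] G := LinearMap.toContinuousLinearMap L0
  have ha := MP_caab05_ag.GB.osg _ _ _ _ hW hφ w hw
  have hs1 : HasStrictFDerivAt (L ∘ φ) (L.comp (fderiv ℂ φ w)) w :=
    L.hasStrictFDerivAt.comp w ha.hasStrictFDerivAt
  have hid : L.comp (fderiv ℂ φ w) = ((ContinuousLinearEquiv.refl ℂ G : G ≃L[ℂ] G) : G →L[ℂ] G) := by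
    ext v
    exact LinearMap.congr_fun hL0 v
  rw [hid] at hs1
  have hn : (L ∘ φ) '' W ∈ 𝓝 ((L ∘ φ) w) := by
    rw [← hs1.map_nhds_eq_of_equiv]
    exact image_mem_map (hW.mem_nhds hw)
  have h1 : μH[s] ((L ∘ φ) '' W) = 0 := by
    rw [image_comp]
    refine le_antisymm ((L.lipschitz.hausdorffMeasure_image_le hs _).trans ?_) zero_le
    rw [h0, mul_zero]
  have h2 : s ≤ (finrank ℝ G : ℝ) := by
    rw [finrank_real_of_complex]
    exact_mod_cast hs2
  have h3 : μH[(finrank ℝ G : ℝ)] ((L ∘ φ) '' W) = 0 :=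
    le_antisymm ((Measure.hausdorffMeasure_mono h2 _).trans h1.le) zero_le
  exact (Measure.measure_pos_of_mem_nhds _ hn).ne' h3

theorem notImm [FiniteDimensional ℂ E] {G : Type} [NormedAddCommGroup G] [NormedSpace ℂ G]
    [FiniteDimensional ℂ G] {k : ℕ} {φ : G → E} {W : Set G} {w : G} (hW : IsOpen W) (hw : w ∈ W)
    (hφ : DifferentiableOn ℂ φ W) (hinj : Function.Injective (fderiv ℂ φ w))
    (hk : k < finrank ℂ G) : ¬ Thin k (φ '' W) := by
  borelize E
  intro h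
  have h1 : ((k : ℝ) + 1) ≤ finrank ℂ G := by exact_mod_cast hk
  exact hausImm (s := 2 * (k : ℝ) + 1) hW hw hφ hinj (by positivity) (by linarith)
    (haus h (by linarith))

end

end ThinAux

theorem thinS : ThinS where
  mono := ThinAux.mono
  empty := ThinAux.empty
  iUnion := ThinAux.iUnion
  union := ThinAux.union
  ofImage := ThinAux.ofImage
  image := ThinAux.image
  le := ThinAux.le
  zero := ThinAux.zero
  loc := ThinAux.loc
  prod := ThinAux.prod
  haus := ThinAux.haus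
  null := fun μ _ _ _ h hk => ThinAux.null μ h hk
  dense := ThinAux.dense
  notImm := ThinAux.notImm
  hausImm := ThinAux.hausImm

end Pool.Agent.Lib.MP_823829_an.LA
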