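import Mathlib
import Pool.Agent.Lib.MP_823829_an.LA.Stmt

/-! Volume bound for pieces of an analytic set in small balls. -/

namespace Pool.Agent.Lib.MP_823829_an.LA

open Set Filter Topology Metric MeasureTheory Module
open scoped ENNReal NNReal

namespace Vol

theorem closed_near {E : Type} [NormedAddCommGroup E] [NormedSpace ℂ E] {Y : Set E} {p : E}
    (h : AnAt Y p) : ∃ V ∈ 𝓝 p, ∀ x ∈ V, x ∈ closure Y → x ∈ Y := by
  obtain ⟨V, r, f, hV, hp, hf, hY⟩ := h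
  refine ⟨V, hV.mem_nhds hp, fun x hx hc => (hY x hx).2 ?_⟩
  by_contra h0
  have h1 : ∀ᶠ y in 𝓝 x, f y ≠ 0 :=
    ((hf x hx).differentiableAt (hV.mem_nhds hx)).continuousAt.eventually_ne h0
  obtain ⟨y, ⟨h2, h3⟩, h4⟩ := mem_closure_iff_nhds.1 hc _ (h1.and (hV.mem_nhds hx))
  exact h2 ((hY y h3).1 h4)

theorem image_equiv {E F : Type} [NormedAddCommGroup E] [NormedSpace ℂ E] [NormedAddCommGroup F]
    [NormedSpace ℂ F] (e : E ≃L[ℂ] F) {Y : Set E} {p : E} (h : AnAt Y p) :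
    AnAt (e '' Y) (e p) := by
  obtain ⟨V, r, f, hV, hp, hf, hY⟩ := h
  refine ⟨e.symm ⁻¹' V, r, f ∘ e.symm, hV.preimage e.symm.continuous, by simpa using hp,
    hf.comp e.symm.differentiableOn fun _ hx => hx, fun x hx => ?_⟩
  rw [Function.comp_apply, ← hY _ hx]
  exact ⟨fun ⟨y, hy, e1⟩ => by simpa [← e1] using hy, fun hy => ⟨_, hy, by simp⟩⟩

theorem cut {T F : Type} [NormedAddCommGroup T] [NormedSpace ℂ T] [NormedAddCommGroup F]
    [NormedSpace ℂ F] {Z : Set (T × F)} {q : T × F} (h : AnAt Z q) (hb : Box Z q) :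
    ∃ ε ρ : ℝ, 0 < ε ∧ 0 < ρ ∧ BdAn (Z ∩ {x | dist x.2 q.2 < ρ}) (ball q.1 ε) := by
  obtain ⟨V, r, f, hV, hq, hf, hZ⟩ := h
  obtain ⟨η, hη, hηV⟩ := Metric.isOpen_iff.1 hV q hq
  obtain ⟨ε, ρ₁, ρ₂, h1, h2, h3, h4, h5, h6⟩ := hb η hη
  refine ⟨ε, ρ₁, h1, h3, fun x hx => ?_, ‖q.2‖ + ρ₁, fun x hx _ => ?_⟩
  · rcases lt_or_ge (dist x.2 q.2) ρ₂ with h7 | h7
    · have hsub : ball q.1 ε ×ˢ ball q.2 ρ₂ ⊆ V := fun y hy => hηV (by
        rw [mem_ball, Prod.dist_eq]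
        exact max_lt (hy.1.trans h2) (hy.2.trans h5))
      refine ⟨ball q.1 ε ×ˢ ball q.2 ρ₂, r, f, isOpen_ball.prod isOpen_ball, ⟨hx.1, h7⟩,
        hf.mono hsub, fun y hy => ?_⟩
      rw [← hZ y (hsub hy)]
      exact ⟨fun h => h.1, fun h => ⟨h, h6 y h (le_of_lt hy.1) (le_of_lt hy.2)⟩⟩
    · refine ⟨{y | ρ₁ < dist y.2 q.2}, 1, fun _ => 1, isOpen_lt continuous_const (by fun_prop),
        h4.trans_le h7, differentiableOn_const _, fun y hy => ?_⟩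
      exact iff_of_false (fun h => lt_asymm (a := dist y.2 q.2) (b := ρ₁) h.2 hy) one_ne_zero
  · have h7 : dist x.2 q.2 < ρ₁ := hx.2
    rw [dist_eq_norm] at h7
    linarith [norm_le_insert' x.2 q.2]

theorem fibre (h4 : BCS) {E T F : Type} [NormedAddCommGroup E] [NormedSpace ℂ E]
    [NormedAddCommGroup T] [NormedSpace ℂ T] [FiniteDimensional ℂ T] [NormedAddCommGroup F]
    [NormedSpace ℂ F] [FiniteDimensional ℂ F] {Y : Set E} {p : E} (h : AnAt Y p)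
    (e : E ≃L[ℂ] T × F) (hb : Box (e '' Y) (e p)) : ∃ (r : ℝ) (M : ℕ), 0 < r ∧
      ∀ t, (Y ∩ ball p r ∩ {x | (e x).1 = t}).encard ≤ M := by
  obtain ⟨ε, ρ, hε, hρ, hB⟩ := cut (image_equiv e h) hb
  obtain ⟨f1, -, -, f2⟩ := h4 T F _ _ isOpen_ball hB
  obtain ⟨ε', -, -, M, hε', hsub, -, -, -, hM⟩ := f2 (e p).1 (mem_ball_self hε)
  have hn : e ⁻¹' (ball (e p).1 ε' ×ˢ ball (e p).2 ρ) ∈ 𝓝 p :=
    e.continuous.continuousAt.preimage_mem_nhds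
      (prod_mem_nhds (ball_mem_nhds _ hε') (ball_mem_nhds _ hρ))
  obtain ⟨r, hr, hr'⟩ := Metric.mem_nhds_iff.1 hn
  refine ⟨r, M, hr, fun t => ?_⟩
  rcases (Y ∩ ball p r ∩ {x | (e x).1 = t}).eq_empty_or_nonempty with h0 | ⟨x₀, hx₀⟩
  · rw [h0, encard_empty]
    exact zero_le
  have ht : t ∈ ball (e p).1 ε' := hx₀.2 ▸ (hr' hx₀.1.2).1
  refine (encard_le_encard_of_injOn (f := fun x => (e x).2)
    (t := {y | (t, y) ∈ e '' Y ∩ {x | dist x.2 (e p).2 < ρ}}) (fun x hx => ?_)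
    fun x hx y hy hxy => e.injective (Prod.ext (hx.2.trans hy.2.symm) hxy)).trans ?_
  · exact ⟨⟨x, hx.1.1, Prod.ext hx.2 rfl⟩, (hr' hx.1.2).2⟩
  · rw [← (f1 t (hsub ht)).cast_ncard_eq]
    exact_mod_cast hM t ht

theorem enorm_sum_sq {n : ℕ} (c d : Fin n → ℂ) :
    ‖∑ i, c i * d i‖ₑ ^ 2 ≤ (∑ i, ‖c i‖₊ ^ 2 : ℝ≥0) * ∑ i, ‖d i‖ₑ ^ 2 := by
  have h1 : ‖∑ i, c i * d i‖₊ ^ 2 ≤ (∑ i, ‖c i‖₊ ^ 2) * ∑ i, ‖d i‖₊ ^ 2 := by
    refine le_trans ?_ (Finset.sum_mul_sq_le_sq_mul_sq Finset.univ (fun i => ‖c i‖₊) fun i => ‖d i‖₊)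
    refine pow_le_pow_left₀ zero_le ((nnnorm_sum_le _ _).trans (le_of_eq ?_)) 2
    simp only [nnnorm_mul]
  simp only [enorm_eq_nnnorm]
  exact_mod_cast h1

end Vol

theorem volS (h0 : ThinS) (h1 : ScaleS) (h2 : SpanS) (h3 : AreaS) (h4 : BCS) : VolS := by
  intro E T _ _ _ _ _ _ _ _ μ _ Y V p hY hV hT L'
  rcases lt_or_ge (finrank ℂ E) (finrank ℂ T) with hlt | hle
  · refine ⟨1, 0, one_pos, fun g W _ _ _ _ x _ ρ _ _ => ?_⟩
    have hz : ∀ A : T →L[ℂ] E, (L'.comp A).det = 0 := fun A => by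
      by_contra hd
      have h5 : Function.Injective (L'.comp A) :=
        (LinearMap.equivOfDetNeZero (L'.comp A).toLinearMap hd).injective
      have h6 : Function.Injective A.toLinearMap := Function.Injective.of_comp (f := L') h5
      exact hlt.not_ge (LinearMap.finrank_le_finrank_of_injective h6)
    simp [hz]
  obtain ⟨m, hm⟩ := Nat.exists_eq_add_of_le hle
  borelize E
  have : CompleteSpace T := FiniteDimensional.complete ℂ T
  obtain ⟨V₀, hV₀, hcl⟩ := Vol.closed_near hY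
  obtain ⟨n, L, hL, hc⟩ := h2 E T _ (h1 E T m Y (V ∩ V₀) p hm (inter_mem hV hV₀)
    (fun x hx => hcl x hx.2)
    (h0.haus (h0.mono hT (inter_subset_inter_right _ inter_subset_left)) (by linarith)))
  obtain ⟨c, hc⟩ := hc L'
  have key : ∀ i, ∃ (r : ℝ) (M : ℕ), 0 < r ∧ ∀ t, (Y ∩ ball p r ∩ {x | L i x = t}).encard ≤ M := by
    intro i
    obtain ⟨e, he, hb⟩ := hL i
    simpa only [he] using Vol.fibre h4 hY e hb
  choose r M hr hM using key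
  obtain ⟨r₀, hr₀, hr₀'⟩ : ∃ r₀ : ℝ, 0 < r₀ ∧ ∀ i, ball p r₀ ⊆ ball p (r i) := by
    obtain ⟨r₀, h5, h6⟩ := Metric.mem_nhds_iff.1
      ((iInter_mem (f := 𝓝 p)).2 fun i => ball_mem_nhds p (hr i))
    exact ⟨r₀, h5, fun i => h6.trans (iInter_subset _ i)⟩
  have hfin : μ (ball 0 1) ≠ ∞ := measure_ball_lt_top.ne
  refine ⟨r₀ / 2, (∑ i, ‖c i‖₊ ^ 2) * ∑ i, M i * ((‖L i‖₊ + 1) ^ (2 * finrank ℂ T) *
    (μ (ball 0 1)).toNNReal), half_pos hr₀, fun g W hW hg hinj hmap x hx ρ hρ hρr => ?_⟩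
  have hA : IsOpen (W ∩ g ⁻¹' ball x ρ) := hg.continuousOn.isOpen_inter_preimage hW isOpen_ball
  have hi : ∀ i, ∫⁻ w in W ∩ g ⁻¹' ball x ρ, ‖(fderiv ℂ (L i ∘ g) w).det‖ₑ ^ 2 ∂μ ≤
      (M i * ((‖L i‖₊ + 1) ^ (2 * finrank ℂ T) * (μ (ball 0 1)).toNNReal) : ℝ≥0) *
        ENNReal.ofReal (ρ ^ (2 * finrank ℂ T)) := by
    intro i
    have hpos : 0 < ‖L i‖ + 1 := by positivity
    refine (h3.le μ (N := ball (L i x) ((‖L i‖ + 1) * ρ)) (M := M i) hW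
      ((L i).differentiable.comp_differentiableOn hg) hA.measurableSet inter_subset_left
      (fun w hw => ?_) fun t => ?_).trans (le_of_eq ?_)
    · have h5 : ‖g w - x‖ < ρ := mem_ball_iff_norm.1 hw.2
      have h6 := (L i).le_opNorm (g w - x)
      rw [mem_ball_iff_norm, Function.comp_apply, ← map_sub]
      nlinarith [norm_nonneg (L i), norm_nonneg (g w - x)]
    · refine (encard_le_encard_of_injOn (f := g) (fun w hw => ?_)
        (hinj.mono fun w hw => hw.1.1)).trans (hM i t)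
      refine ⟨⟨hmap hw.1.1, hr₀' i ?_⟩, hw.2⟩
      have h5 : dist (g w) x < ρ := hw.1.2
      have h6 : dist x p < r₀ / 2 := hx
      rw [mem_ball]
      linarith [dist_triangle (g w) x p]
    · rw [Measure.addHaar_ball_of_pos μ _ (mul_pos hpos hρ), finrank_real_of_complex, mul_pow,
        ENNReal.ofReal_mul (by positivity)]
      have e1 : ENNReal.ofReal ((‖L i‖ + 1) ^ (2 * finrank ℂ T)) =
          ((‖L i‖₊ + 1) ^ (2 * finrank ℂ T) : ℝ≥0) := by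
        rw [← ENNReal.ofReal_coe_nnreal]
        simp
      rw [e1, ENNReal.coe_mul, ENNReal.coe_mul, ENNReal.coe_toNNReal hfin, ENNReal.coe_natCast]
      ring
  have hmeas : ∀ i, Measurable fun w => ‖(fderiv ℂ (L i ∘ g) w).det‖ₑ ^ 2 := fun i =>
    (ContinuousLinearMap.continuous_det.measurable.comp (measurable_fderiv ℂ _)).enorm.pow_const 2
  calc ∫⁻ w in W ∩ g ⁻¹' ball x ρ, ‖(L'.comp (fderiv ℂ g w)).det‖ₑ ^ 2 ∂μ
      ≤ ∫⁻ w in W ∩ g ⁻¹' ball x ρ, (∑ i, ‖c i‖₊ ^ 2 : ℝ≥0) *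
          ∑ i, ‖(fderiv ℂ (L i ∘ g) w).det‖ₑ ^ 2 ∂μ := by
        refine setLIntegral_mono' hA.measurableSet fun w hw => ?_
        have hd := (hg w hw.1).differentiableAt (hW.mem_nhds hw.1)
        have e1 : ∀ i, fderiv ℂ (L i ∘ g) w = (L i).comp (fderiv ℂ g w) := fun i =>
          ((L i).hasFDerivAt.comp w hd.hasFDerivAt).fderiv
        simp only [e1, hc]
        exact Vol.enorm_sum_sq c _
    _ = (∑ i, ‖c i‖₊ ^ 2 : ℝ≥0) *
          ∑ i, ∫⁻ w in W ∩ g ⁻¹' ball x ρ, ‖(fderiv ℂ (L i ∘ g) w).det‖ₑ ^ 2 ∂μ := by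
        rw [lintegral_const_mul' _ _ ENNReal.coe_ne_top, lintegral_finsetSum _ fun i _ => hmeas i]
    _ ≤ _ := by
        rw [ENNReal.coe_mul, mul_assoc]
        refine mul_le_mul_right ((Finset.sum_le_sum fun i _ => hi i).trans (le_of_eq ?_)) _
        rw [← Finset.sum_mul, ENNReal.ofNNReal_finsetSum]

end Pool.Agent.Lib.MP_823829_an.LA
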