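import Mathlib
import Pool.Agent.Lib.MP_823829_an.LA.Stmt
import Pool.Agent.Lib.MP_caab05_ag.GB.Osg

/-! Roots of a holomorphic family in a disc, by the argument principle. -/

namespace Pool.Agent.Lib.MP_823829_an.LA

open Set Filter Topology Metric Complex

namespace WP

/-- division by the zero at `z` -/
theorem divide {f : ℂ → ℂ} {K : Set ℂ} (hf : AnalyticOnNhd ℂ f K) {z : ℂ} (hz : z ∈ K)
    (hne : ¬ ∀ᶠ s in 𝓝 z, f s = 0) :
    ∃ (m : ℕ) (u : ℂ → ℂ), AnalyticOnNhd ℂ u K ∧ u z ≠ 0 ∧ ∀ s, f s = (s - z) ^ m * u s := by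
  classical
  obtain ⟨m, g, hg, hg0, hfg⟩ := (hf z hz).exists_eventuallyEq_pow_smul_nonzero_iff.2 hne
  refine ⟨m, fun s => if s = z then g z else f s / (s - z) ^ m, fun s hs => ?_, by simpa using hg0,
    fun s => ?_⟩
  · by_cases h : s = z
    · subst h
      refine hg.congr ?_
      filter_upwards [hfg] with w hw
      by_cases h' : w = s
      · simp [h']
      · have h2 : (w - s) ^ m ≠ 0 := pow_ne_zero _ (sub_ne_zero.2 h')
        rw [if_neg h', hw, smul_eq_mul, mul_div_cancel_left₀ _ h2]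
    · have h1 : AnalyticAt ℂ (fun w => f w / (w - z) ^ m) s :=
        (hf s hs).div ((analyticAt_id.sub analyticAt_const).pow m)
          (pow_ne_zero _ (sub_ne_zero.2 h))
      refine h1.congr ?_
      filter_upwards [isOpen_ne.mem_nhds h] with w hw
      rw [if_neg hw]
  · by_cases h : s = z
    · subst h
      have h1 := hfg.self_of_nhds
      simpa using h1
    · have h2 : (s - z) ^ m ≠ 0 := pow_ne_zero _ (sub_ne_zero.2 h)
      simp only [if_neg h]
      rw [mul_div_cancel₀ _ h2]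

/-- the conclusion of the argument principle -/
def Good (f : ℂ → ℂ) (c : ℂ) (r : ℝ) (l : List ℂ) : Prop :=
  (∀ a ∈ l, a ∈ ball c r) ∧ (∀ s ∈ closedBall c r, (f s = 0 ↔ s ∈ l)) ∧
    ∀ G : ℂ → ℂ, AnalyticOnNhd ℂ G (closedBall c r) →
      (∮ s in C(c, r), G s * (deriv f s / f s)) = (2 * Real.pi * I) * (l.map G).sum

theorem good_nil {f : ℂ → ℂ} {c : ℂ} {r : ℝ} (hr : 0 < r)
    (hf : AnalyticOnNhd ℂ f (closedBall c r)) (h0 : ∀ s ∈ closedBall c r, f s ≠ 0) :
    Good f c r [] := by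
  refine ⟨by simp, fun s hs => by simp [h0 s hs], fun G hG => ?_⟩
  have h1 : DifferentiableOn ℂ (fun s => G s * (deriv f s / f s)) (closedBall c r) := fun s hs =>
    ((hG s hs).mul ((hf s hs).deriv.div (hf s hs) (h0 s hs))).differentiableAt.differentiableWithinAt
  rw [(h1.mono closure_ball_subset_closedBall).diffContOnCl.circleIntegral_eq_zero hr.le]
  simp

theorem good_step {f u : ℂ → ℂ} {c z : ℂ} {r : ℝ} {m : ℕ} {l : List ℂ} (hr : 0 < r)
    (hu : AnalyticOnNhd ℂ u (closedBall c r)) (hz : z ∈ ball c r)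
    (hS : ∀ s ∈ sphere c r, u s ≠ 0) (hfu : ∀ s, f s = (s - z) ^ m * u s)
    (hl : Good u c r l) : Good f c r (List.replicate m z ++ l) := by
  obtain ⟨h1, h2, h3⟩ := hl
  refine ⟨fun a ha => ?_, fun s hs => ?_, fun G hG => ?_⟩
  · rcases List.mem_append.1 ha with h | h
    · rw [(List.mem_replicate.1 h).2]; exact hz
    · exact h1 a h
  · rw [hfu, mul_eq_zero, h2 s hs, List.mem_append, List.mem_replicate, pow_eq_zero_iff',
      sub_eq_zero, and_comm]
  · have hne : ∀ s ∈ sphere c r, s - z ≠ 0 := by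
      intro s hs h
      rw [sub_eq_zero.1 h, mem_sphere] at hs
      exact (mem_ball.1 hz).ne hs
    have e : EqOn (fun s => G s * (deriv f s / f s))
        (fun s => (m : ℂ) * ((s - z)⁻¹ • G s) + G s * (deriv u s / u s)) (sphere c r) := by
      intro s hs
      have hd : HasDerivAt f ((m : ℂ) * (s - z) ^ (m - 1) * u s + (s - z) ^ m * deriv u s) s := by
        have e1 : f = fun w => (w - z) ^ m * u w := funext hfu
        have d1 : HasDerivAt (fun w : ℂ => (w - z) ^ m) ((m : ℂ) * (s - z) ^ (m - 1)) s := by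
          simpa using ((hasDerivAt_id s).sub_const z).fun_pow m
        rw [e1]
        exact d1.mul (hu s (sphere_subset_closedBall hs)).differentiableAt.hasDerivAt
      have a1 := hne s hs
      have a2 := hS s hs
      simp only [hd.deriv, hfu s, smul_eq_mul]
      rcases m with _ | k
      · simp
      · simp only [Nat.add_sub_cancel]
        field_simp
        ring
    have c1 : ContinuousOn G (sphere c r) := hG.continuousOn.mono sphere_subset_closedBall
    have i1 : CircleIntegrable (fun s => (m : ℂ) * ((s - z)⁻¹ • G s)) c r := by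
      refine ContinuousOn.circleIntegrable hr.le (continuousOn_const.mul ?_)
      exact ((continuousOn_id.sub continuousOn_const).inv₀ hne).smul c1
    have i2 : CircleIntegrable (fun s => G s * (deriv u s / u s)) c r := by
      refine ContinuousOn.circleIntegrable hr.le (c1.mul ?_)
      exact (hu.deriv.continuousOn.mono sphere_subset_closedBall).div
        (hu.continuousOn.mono sphere_subset_closedBall) hS
    rw [circleIntegral.integral_congr hr.le e, circleIntegral.integral_add i1 i2,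
      circleIntegral.integral_const_mul, hG.differentiableOn.circleIntegral_sub_inv_smul hz,
      h3 G hG]
    simp only [List.map_append, List.map_replicate, List.sum_append, List.sum_replicate,
      smul_eq_mul, nsmul_eq_mul]
    ring

theorem good_of_finset {c : ℂ} {r : ℝ} (hr : 0 < r) (Z : Finset ℂ) :
    ∀ f : ℂ → ℂ, AnalyticOnNhd ℂ f (closedBall c r) → (∀ s ∈ sphere c r, f s ≠ 0) →
      (∀ s ∈ closedBall c r, f s = 0 → s ∈ Z) → ∃ l, Good f c r l := by
  classical
  induction Z using Finset.induction_on with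
  | empty =>
    intro f hf _ hZ
    exact ⟨[], good_nil hr hf fun s hs h => by simpa using hZ s hs h⟩
  | insert z Z _ ih =>
    intro f hf hS hZ
    by_cases hz : z ∈ ball c r
    · have hne : ¬ ∀ᶠ s in 𝓝 z, f s = 0 := by
        intro h
        have h1 : ((insert z Z : Finset ℂ) : Set ℂ) ∈ 𝓝 z := by
          filter_upwards [h, isOpen_ball.mem_nhds hz] with s h2 h3
          exact hZ s (ball_subset_closedBall h3) h2
        exact infinite_of_mem_nhds z h1 (Finset.finite_toSet _)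
      obtain ⟨m, u, hu, hu0, hfu⟩ := divide hf (ball_subset_closedBall hz) hne
      have hS' : ∀ s ∈ sphere c r, u s ≠ 0 := fun s hs h => hS s hs (by rw [hfu, h, mul_zero])
      obtain ⟨l, hl⟩ := ih u hu hS' fun s hs h => by
        rcases Finset.mem_insert.1 (hZ s hs (by rw [hfu, h, mul_zero])) with h' | h'
        · exact absurd (h' ▸ h) hu0
        · exact h'
      exact ⟨_, good_step hr hu hz hS' hfu hl⟩
    · refine ih f hf hS fun s hs h => ?_
      rcases Finset.mem_insert.1 (hZ s hs h) with h' | h'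
      · subst h'
        exact absurd h (hS s (le_antisymm (mem_closedBall.1 hs) (not_lt.1 hz)))
      · exact h'

theorem good_exists {c : ℂ} {r : ℝ} (hr : 0 < r) {f : ℂ → ℂ}
    (hf : AnalyticOnNhd ℂ f (closedBall c r)) (hS : ∀ s ∈ sphere c r, f s ≠ 0) :
    ∃ l, Good f c r l := by
  have hfin : {s | s ∈ closedBall c r ∧ f s = 0}.Finite := by
    by_contra hinf
    obtain ⟨x, hx, hacc⟩ := Set.Infinite.exists_accPt_of_subset_isCompact hinf
      (isCompact_closedBall c r) fun s hs => hs.1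
    have h1 := hf.eqOn_zero_of_preconnected_of_frequently_eq_zero
      (convex_closedBall c r).isPreconnected hx
      ((accPt_iff_frequently_nhdsNE.1 hacc).mono fun y hy => hy.2)
    obtain ⟨s, hs⟩ := (NormedSpace.sphere_nonempty (x := c)).2 hr.le
    exact hS s hs (h1 (sphere_subset_closedBall hs))
  exact good_of_finset hr hfin.toFinset f hf hS fun s hs h => by simp [h, mem_closedBall.1 hs]

section
variable {T : Type} [NormedAddCommGroup T] [NormedSpace ℂ T]

theorem slice_an [FiniteDimensional ℂ T] {g : T × ℂ → ℂ} {V : Set (T × ℂ)} (hV : IsOpen V)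
    (hg : DifferentiableOn ℂ g V) {t : T} {K : Set ℂ} (hK : ∀ s ∈ K, (t, s) ∈ V) :
    AnalyticOnNhd ℂ (fun s => g (t, s)) K := fun s hs =>
  (MP_caab05_ag.GB.osg _ _ g V hV hg (t, s) (hK s hs)).comp_of_eq
    (analyticAt_const.prod analyticAt_id) rfl

theorem slice_deriv {g : T × ℂ → ℂ} {t : T} {s : ℂ} (hg : DifferentiableAt ℂ g (t, s)) :
    deriv (fun w => g (t, w)) s = fderiv ℂ g (t, s) (0, 1) := by
  have h1 : HasDerivAt (fun w : ℂ => ((t, w) : T × ℂ)) (0, 1) s :=
    (hasDerivAt_const s t).prodMk (hasDerivAt_id s)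
  exact (hg.hasFDerivAt.comp_hasDerivAt s h1).deriv

theorem integral_diff [FiniteDimensional ℂ T] (h : CircS) {g G : T × ℂ → ℂ}
    {V V' : Set (T × ℂ)} {N : Set T} {c : ℂ} {r : ℝ} (hr : 0 < r) (hV : IsOpen V)
    (hV' : IsOpen V') (hN : IsOpen N) (hg : DifferentiableOn ℂ g V)
    (hG : DifferentiableOn ℂ G V')
    (hS : ∀ t ∈ N, ∀ s ∈ sphere c r, (t, s) ∈ V' ∧ (t, s) ∈ V ∧ g (t, s) ≠ 0) :
    DifferentiableOn ℂ
      (fun t => ∮ s in C(c, r), G (t, s) * (deriv (fun w => g (t, w)) s / g (t, s))) N := by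
  have ho : IsOpen (V ∩ g ⁻¹' {0}ᶜ) :=
    hg.continuousOn.isOpen_inter_preimage hV isOpen_compl_singleton
  have hd : DifferentiableOn ℂ (fun q => fderiv ℂ g q (0, 1)) V :=
    (MP_caab05_ag.GB.osg _ _ g V hV hg).fderiv.differentiableOn.clm_apply
      (differentiableOn_const _)
  have hs1 : V' ∩ (V ∩ g ⁻¹' {0}ᶜ) ⊆ V := fun q hq => hq.2.1
  have hs2 : ∀ q ∈ V' ∩ (V ∩ g ⁻¹' {0}ᶜ), g q ≠ 0 := fun q hq => hq.2.2
  have hq1 : DifferentiableOn ℂ (fun q => G q * (fderiv ℂ g q (0, 1) / g q))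
      (V' ∩ (V ∩ g ⁻¹' {0}ᶜ)) := by
    simp only [div_eq_mul_inv]
    exact (hG.mono inter_subset_left).fun_mul ((hd.mono hs1).fun_mul ((hg.mono hs1).fun_inv hs2))
  have h1 := h T (fun q => G q * (fderiv ℂ g q (0, 1) / g q)) (V' ∩ (V ∩ g ⁻¹' {0}ᶜ)) N c r
    (hV'.inter ho) hN hr
    (fun q hq => ⟨(hS q.1 hq.1 q.2 hq.2).1, (hS q.1 hq.1 q.2 hq.2).2.1, (hS q.1 hq.1 q.2 hq.2).2.2⟩)
    hq1
  refine h1.congr fun t ht => circleIntegral.integral_congr hr.le fun s hs => ?_
  have h2 := slice_deriv (hg.differentiableAt (hV.mem_nhds (hS t ht s hs).2.1))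
  simp only [h2]

end

theorem sum_getD (l : List ℂ) {d : ℕ} (hd : l.length = d) (G : ℂ → ℂ) :
    ∑ i : Fin d, G (l.getD i 0) = (l.map G).sum := by
  subst hd
  rw [← Fin.sum_univ_fun_getElem]
  refine Finset.sum_congr rfl fun i _ => ?_
  rw [List.getD_eq_getElem _ _ i.2]

theorem mem_getD (l : List ℂ) {d : ℕ} (hd : l.length = d) (s : ℂ) :
    s ∈ l ↔ ∃ i : Fin d, s = l.getD i 0 := by
  subst hd
  rw [List.mem_iff_getElem]
  constructor
  · rintro ⟨i, hi, rfl⟩
    exact ⟨⟨i, hi⟩, (List.getD_eq_getElem _ _ hi).symm⟩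
  · rintro ⟨i, rfl⟩
    exact ⟨i, i.2, (List.getD_eq_getElem _ _ i.2).symm⟩

end WP

open WP in
theorem wpS (h : CircS) : WPS := by
  classical
  intro T _ _ _ g V t₀ c r hV hr hg hsub hS
  have ho : IsOpen (V ∩ g ⁻¹' {0}ᶜ) :=
    hg.continuousOn.isOpen_inter_preimage hV isOpen_compl_singleton
  have e1 : ∀ᶠ t in 𝓝 t₀, ∀ s ∈ closedBall c r, (t, s) ∈ V :=
    (isCompact_closedBall c r).eventually_forall_of_forall_eventually
      (P := fun t s => (t, s) ∈ V) fun s hs => hV.mem_nhds (hsub ⟨rfl, hs⟩)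
  have e2 : ∀ᶠ t in 𝓝 t₀, ∀ s ∈ sphere c r, (t, s) ∈ V ∩ g ⁻¹' {0}ᶜ :=
    (isCompact_sphere c r).eventually_forall_of_forall_eventually
      (P := fun t s => (t, s) ∈ V ∩ g ⁻¹' {0}ᶜ) fun s hs =>
        ho.mem_nhds ⟨hsub ⟨rfl, sphere_subset_closedBall hs⟩, hS s hs⟩
  obtain ⟨ε, hε, hb⟩ := Metric.eventually_nhds_iff_ball.1 (e1.and e2)
  have hl : ∀ t, ∃ l : List ℂ, t ∈ ball t₀ ε → Good (fun s => g (t, s)) c r l := by
    intro t
    by_cases ht : t ∈ ball t₀ ε
    · obtain ⟨l, hl⟩ := good_exists hr (slice_an hV hg (hb t ht).1)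
        fun s hs => ((hb t ht).2 s hs).2
      exact ⟨l, fun _ => hl⟩
    · exact ⟨[], fun h' => absurd h' ht⟩
  choose l hl using hl
  have h2 : (2 * Real.pi * I : ℂ) ≠ 0 := Complex.two_pi_I_ne_zero
  have key : ∀ (G : T × ℂ → ℂ) (V' : Set (T × ℂ)) (N : Set T), IsOpen V' → IsOpen N →
      N ⊆ ball t₀ ε → N ×ˢ closedBall c r ⊆ V' → DifferentiableOn ℂ G V' →
      DifferentiableOn ℂ (fun t => ((l t).map fun s => G (t, s)).sum) N := by
    intro G V' N hV' hN hNb hNV hG
    have h1 := integral_diff h hr hV hV' hN hg hG fun t ht s hs =>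
      ⟨hNV ⟨ht, sphere_subset_closedBall hs⟩, ((hb t (hNb ht)).2 s hs).1,
        ((hb t (hNb ht)).2 s hs).2⟩
    refine (h1.const_mul (2 * Real.pi * I : ℂ)⁻¹).congr fun t ht => ?_
    rw [(hl t (hNb ht)).2.2 (fun s => G (t, s)) (slice_an hV' hG fun s hs => hNV ⟨ht, hs⟩),
      inv_mul_cancel_left₀ h2]
  have hlen : ∀ t ∈ ball t₀ ε, (l t).length = (l t₀).length := by
    intro t ht
    have h1 := (key (fun _ => 1) univ (ball t₀ ε) isOpen_univ isOpen_ball Subset.rfl
      (subset_univ _) (differentiableOn_const _)).continuousOn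
    have h3 : ContinuousOn ((fun n : ℕ => (n : ℝ)) ∘ fun t => (l t).length) (ball t₀ ε) := by
      refine (Complex.continuous_re.comp_continuousOn h1).congr fun t _ => ?_
      simp
    have h4 : ContinuousOn (fun t => (l t).length) (ball t₀ ε) :=
      Nat.isClosedEmbedding_coe_real.isInducing.continuousOn_iff.2 h3
    exact (convex_ball t₀ ε).isPreconnected.constant h4 ht (mem_ball_self hε)
  refine ⟨ε, (l t₀).length, fun t i => (l t).getD i 0, hε, fun q hq => (hb q.1 hq.1).1 q.2 hq.2,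
    fun t ht i => ?_, fun t ht s hs => ?_, fun G V' N hV' hN hNb hNV hG => ?_⟩
  · exact (hl t ht).1 _ ((mem_getD _ (hlen t ht) _).2 ⟨i, rfl⟩)
  · exact ((hl t ht).2.1 s hs).trans (mem_getD _ (hlen t ht) s)
  · exact (key G V' N hV' hN hNb hNV hG).congr fun t ht =>
      sum_getD _ (hlen t (hNb ht)) fun s => G (t, s)

end Pool.Agent.Lib.MP_823829_an.LA
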