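import Mathlib
import Pool.Agent.Lib.MP_823829_an.LA.Stmt
import Pool.Agent.Lib.MP_caab05_ag.GB.Osg

/-! Zero sets of holomorphic functions are covered by countably many immersed hypersurfaces. -/

namespace Pool.Agent.Lib.MP_823829_an.LA

open Set Filter Topology Metric Module

namespace Zero

variable {E : Type} [NormedAddCommGroup E] [NormedSpace ℂ E] [FiniteDimensional ℂ E]

/-- a nonzero linear form is the first coordinate of a coordinate system -/
lemma coord {k : ℕ} (hk : finrank ℂ E = k + 1) (l : E →L[ℂ] ℂ) (hl : l ≠ 0) :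
    ∃ (M : E →L[ℂ] (Fin k → ℂ)) (A : E ≃L[ℂ] ℂ × (Fin k → ℂ)),
      (A : E →L[ℂ] ℂ × (Fin k → ℂ)) = l.prod M := by
  obtain ⟨v₀, hv₀⟩ : ∃ v, l v ≠ 0 := by
    by_contra hc
    push Not at hc
    exact hl (ContinuousLinearMap.ext hc)
  set v : E := (l v₀)⁻¹ • v₀ with hv
  have hlv : l v = 1 := by
    rw [hv, map_smul, smul_eq_mul, inv_mul_cancel₀ hv₀]
  have hsurj : LinearMap.range (l : E →ₗ[ℂ] ℂ) = ⊤ := by
    rw [LinearMap.range_eq_top]
    intro c
    exact ⟨c • v, by simp [hlv]⟩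
  have hker : finrank ℂ (LinearMap.ker (l : E →ₗ[ℂ] ℂ)) = finrank ℂ (Fin k → ℂ) := by
    have h1 := LinearMap.finrank_range_add_finrank_ker (l : E →ₗ[ℂ] ℂ)
    rw [hsurj, finrank_top, finrank_self, hk] at h1
    rw [finrank_fin_fun]
    omega
  let e := LinearEquiv.ofFinrankEq _ _ hker
  let pr : E →ₗ[ℂ] E := LinearMap.id - (l : E →ₗ[ℂ] ℂ).smulRight v
  have hpr : ∀ x, pr x ∈ LinearMap.ker (l : E →ₗ[ℂ] ℂ) := by
    intro x
    simp [pr, hlv]
  let M₀ : E →ₗ[ℂ] (Fin k → ℂ) := e.toLinearMap ∘ₗ pr.codRestrict _ hpr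
  let A₀ : E →ₗ[ℂ] ℂ × (Fin k → ℂ) := (l : E →ₗ[ℂ] ℂ).prod M₀
  have hinj : Function.Injective A₀ := by
    rw [injective_iff_map_eq_zero]
    intro x hx
    have h1 : l x = 0 := congrArg Prod.fst hx
    have h2 : M₀ x = 0 := congrArg Prod.snd hx
    have h3 : pr.codRestrict _ hpr x = 0 := e.map_eq_zero_iff.mp h2
    have h4 : pr x = 0 := congrArg Subtype.val h3
    simpa [pr, h1] using h4
  have hdim : finrank ℂ E = finrank ℂ (ℂ × (Fin k → ℂ)) := by
    rw [finrank_prod, finrank_self, finrank_fin_fun, hk, add_comm]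
  refine ⟨LinearMap.toContinuousLinearMap M₀,
    (LinearMap.linearEquivOfInjective A₀ hinj hdim).toContinuousLinearEquiv, ?_⟩
  ext x <;> rfl

/-- near a smooth point the zero set is an immersed hypersurface -/
lemma loc {k : ℕ} (hk : finrank ℂ E = k + 1) {g : E → ℂ} {U : Set E} (hU : IsOpen U) {p : E}
    (hp : p ∈ U) (hg : AnalyticAt ℂ g p) (hd : fderiv ℂ g p ≠ 0) :
    ∃ (B : Set (Fin k → ℂ)) (φ : (Fin k → ℂ) → E) (V : Set E), Imm φ B ∧ φ '' B ⊆ U ∧
      V ∈ 𝓝 p ∧ ∀ x ∈ V, g x = 0 → x ∈ φ '' B := by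
  haveI : CompleteSpace E := FiniteDimensional.complete ℂ E
  obtain ⟨M, A, hA⟩ := coord hk _ hd
  let Ψ : E → ℂ × (Fin k → ℂ) := fun x => (g x, M x)
  have hc : ContDiffAt ℂ 1 Ψ p := hg.contDiffAt.prodMk M.contDiff.contDiffAt
  have hf : HasFDerivAt Ψ (A : E →L[ℂ] ℂ × (Fin k → ℂ)) p := by
    rw [hA]
    exact hg.differentiableAt.hasFDerivAt.prodMk M.hasFDerivAt
  let H := hc.toOpenPartialHomeomorph Ψ hf one_ne_zero
  have hps : p ∈ H.source := hc.mem_toOpenPartialHomeomorph_source hf one_ne_zero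
  have hpt : Ψ p ∈ H.target := hc.image_mem_toOpenPartialHomeomorph_target hf one_ne_zero
  have hinv : ContDiffAt ℂ 1 H.symm (Ψ p) := hc.to_localInverse hf one_ne_zero
  have hip : H.symm (Ψ p) = p := H.left_inv hps
  have e1 : ∀ᶠ y in 𝓝 (Ψ p), ContDiffAt ℂ 1 H.symm y := hinv.eventually (by simp)
  have e2 : ∀ᶠ y in 𝓝 (Ψ p), H.symm y ∈ U := by
    apply hinv.continuousAt.preimage_mem_nhds
    rw [hip]
    exact hU.mem_nhds hp
  have e3 : ∀ᶠ y in 𝓝 (Ψ p), y ∈ H.target := H.open_target.mem_nhds hpt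
  obtain ⟨W, hW, hWo, hpW⟩ := _root_.eventually_nhds_iff.mp (e1.and (e2.and e3))
  let j : (Fin k → ℂ) →L[ℂ] ℂ × (Fin k → ℂ) := ContinuousLinearMap.inr ℂ ℂ (Fin k → ℂ)
  let φ : (Fin k → ℂ) → E := fun u => H.symm (j u)
  have hBo : IsOpen (j ⁻¹' W) := hWo.preimage j.continuous
  have hφd : ∀ u ∈ j ⁻¹' W, DifferentiableAt ℂ φ u := fun u hu =>
    ((hW _ hu).1.differentiableAt one_ne_zero).comp u j.differentiableAt
  have hMφ : ∀ u ∈ j ⁻¹' W, M (φ u) = u := fun u hu =>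
    congrArg Prod.snd (H.right_inv (hW _ hu).2.2)
  refine ⟨j ⁻¹' W, φ, H.source ∩ Ψ ⁻¹' W, ⟨hBo, fun u hu => (hφd u hu).differentiableWithinAt,
    fun u hu u' hu' h => ?_, fun u hu => ?_⟩, ?_, ?_, ?_⟩
  · rw [← hMφ u hu, ← hMφ u' hu', h]
  · have h1 : HasFDerivAt (fun w => M (φ w)) (M.comp (fderiv ℂ φ u)) u :=
      M.hasFDerivAt.comp u (hφd u hu).hasFDerivAt
    have h2 : HasFDerivAt (fun w => M (φ w)) (ContinuousLinearMap.id ℂ _) u := by
      refine (hasFDerivAt_id u).congr_of_eventuallyEq ?_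
      filter_upwards [hBo.mem_nhds hu] with w hw using hMφ w hw
    have h3 := h1.unique h2
    have h4 : ∀ a, M (fderiv ℂ φ u a) = a := fun a => congrArg (fun L => L a) h3
    intro a b hab
    rw [← h4 a, ← h4 b, hab]
  · rintro _ ⟨u, hu, rfl⟩
    exact (hW _ hu).2.1
  · exact inter_mem (H.open_source.mem_nhds hps)
      (hc.continuousAt.preimage_mem_nhds (hWo.mem_nhds hpW))
  · rintro x ⟨hxs, hxW⟩ hx0
    have hj : j (M x) = Ψ x := by
      simp [j, Ψ, hx0]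
    refine ⟨M x, ?_, ?_⟩
    · show j (M x) ∈ W
      rw [hj]
      exact hxW
    · show H.symm (j (M x)) = x
      rw [hj]
      exact H.left_inv hxs

/-- `S` is covered by countably many immersed pieces inside `U` -/
def Cv (k : ℕ) (U S : Set E) : Prop :=
  ∃ C : Set (Set (Fin k → ℂ) × ((Fin k → ℂ) → E)), C.Countable ∧
    (∀ q ∈ C, Imm q.2 q.1 ∧ q.2 '' q.1 ⊆ U) ∧ ∀ x ∈ S, ∃ q ∈ C, x ∈ q.2 '' q.1

omit [FiniteDimensional ℂ E] in
lemma Cv.iUnion {k : ℕ} {U : Set E} {ι : Type} [Countable ι] {S : ι → Set E}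
    (h : ∀ i, Cv k U (S i)) : Cv k U (⋃ i, S i) := by
  choose C hC hI hS using h
  refine ⟨⋃ i, C i, countable_iUnion hC, ?_, ?_⟩
  · intro q hq
    obtain ⟨i, hi⟩ := mem_iUnion.mp hq
    exact hI i q hi
  · intro x hx
    obtain ⟨i, hi⟩ := mem_iUnion.mp hx
    obtain ⟨q, hq, hxq⟩ := hS i x hi
    exact ⟨q, mem_iUnion.mpr ⟨i, hq⟩, hxq⟩

/-- the smooth part of a zero set -/
lemma smooth {k : ℕ} (hk : finrank ℂ E = k + 1) {g : E → ℂ} {U : Set E} (hU : IsOpen U)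
    (hg : AnalyticOnNhd ℂ g U) : Cv k U {x | x ∈ U ∧ g x = 0 ∧ fderiv ℂ g x ≠ 0} := by
  haveI : ProperSpace E := FiniteDimensional.proper ℂ E
  set S : Set E := {x | x ∈ U ∧ g x = 0 ∧ fderiv ℂ g x ≠ 0} with hS
  have h1 : ∀ p : E, ∃ (B : Set (Fin k → ℂ)) (φ : (Fin k → ℂ) → E) (V : Set E), p ∈ S →
      Imm φ B ∧ φ '' B ⊆ U ∧ V ∈ 𝓝 p ∧ ∀ x ∈ V, g x = 0 → x ∈ φ '' B := by
    intro p
    by_cases hp : p ∈ S
    · obtain ⟨B, φ, V, h⟩ := loc hk hU hp.1 (hg p hp.1) hp.2.2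
      exact ⟨B, φ, V, fun _ => h⟩
    · exact ⟨∅, 0, ∅, fun h => (hp h).elim⟩
  choose B φ V h using h1
  obtain ⟨t, hts, htc, hcov⟩ := TopologicalSpace.countable_cover_nhdsWithin (f := V) (s := S)
    (fun x hx => mem_nhdsWithin_of_mem_nhds (h x hx).2.2.1)
  refine ⟨(fun p => (B p, φ p)) '' t, htc.image _, ?_, ?_⟩
  · rintro _ ⟨p, hp, rfl⟩
    exact ⟨(h p (hts hp)).1, (h p (hts hp)).2.1⟩
  · intro x hx
    obtain ⟨p, hp, hxp⟩ := mem_iUnion₂.mp (hcov hx)
    exact ⟨_, ⟨p, hp, rfl⟩, (h p (hts hp)).2.2.2 x hxp hx.2.1⟩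

omit [FiniteDimensional ℂ E] in
/-- some derivative does not vanish -/
lemma exists_iter {h : E → ℂ} {p : E} (ha : AnalyticAt ℂ h p) (hn : ∃ᶠ y in 𝓝 p, h y ≠ 0) :
    ∃ n, iteratedFDeriv ℂ n h p ≠ 0 := by
  by_contra hc
  push Not at hc
  obtain ⟨q, r, hq⟩ := ha
  refine hn ?_
  have hm : Metric.eball p r ∈ 𝓝 p := Metric.eball_mem_nhds p hq.r_pos
  filter_upwards [hm] with y hy
  have hy' : y - p ∈ Metric.eball (0 : E) r := by
    rw [Metric.mem_eball, edist_zero_right, ← edist_eq_enorm_sub]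
    exact hy
  have h1 := hq.hasSum_iteratedFDeriv hy'
  simp only [hc, ContinuousMultilinearMap.zero_apply, smul_zero, add_sub_cancel] at h1
  exact not_not.mpr (h1.unique hasSum_zero)

end Zero

theorem zeroS : ZeroS := by
  intro E _ _ _ k h U hk hU hd hnz
  have ha : AnalyticOnNhd ℂ h U := MP_caab05_ag.GB.osg E ℂ h U hU hd
  let b := Module.finBasis ℂ E
  let g : (Σ n : ℕ, Fin n → Fin (finrank ℂ E)) → E → ℂ :=
    fun s x => iteratedFDeriv ℂ s.1 h x (fun i => b (s.2 i))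
  have hg : ∀ s, AnalyticOnNhd ℂ (g s) U := fun s x hx =>
    (ContinuousMultilinearMap.apply ℂ (fun _ : Fin s.1 => E) ℂ
      (fun i => b (s.2 i))).analyticAt _ |>.comp (ha.iteratedFDeriv s.1 x hx)
  obtain ⟨C, hC, hI, hS⟩ := Zero.Cv.iUnion (fun s => Zero.smooth hk hU (hg s))
  have hcov : ∀ x ∈ U, h x = 0 → ∃ q ∈ C, x ∈ q.2 '' q.1 := by
    intro p hp h0
    apply hS
    have hex := Zero.exists_iter (ha p hp) (hnz p hp)
    classical
    have hspec := Nat.find_spec hex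
    have hmin := fun m => Nat.find_min hex (m := m)
    generalize Nat.find hex = n at hspec hmin
    cases n with
    | zero =>
      refine (hspec ?_).elim
      ext m
      simp [h0]
    | succ n =>
      have hz : iteratedFDeriv ℂ n h p = 0 := not_not.mp (hmin n (Nat.lt_succ_self n))
      obtain ⟨m, hm⟩ : ∃ m : Fin (n + 1) → Fin (finrank ℂ E),
          iteratedFDeriv ℂ (n + 1) h p (fun i => b (m i)) ≠ 0 := by
        by_contra hc
        push Not at hc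
        apply hspec
        apply ContinuousMultilinearMap.toMultilinearMap_injective
        exact Module.Basis.ext_multilinear (fun _ => b) fun v => hc v
      refine mem_iUnion.mpr ⟨⟨n, Fin.tail m⟩, hp, ?_, ?_⟩
      · simp [g, hz]
      · intro h1
        apply hm
        rw [iteratedFDeriv_succ_apply_left,
          ← fderiv_continuousMultilinear_apply_const_apply
            (ha.iteratedFDeriv n p hp).differentiableAt]
        exact congrArg (fun L => L (b (m 0))) h1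
  have hC' : (insert ((∅ : Set (Fin k → ℂ)), (0 : (Fin k → ℂ) → E)) C).Countable := hC.insert _
  obtain ⟨f, hf⟩ := hC'.exists_eq_range (insert_nonempty _ _)
  have hI' : ∀ j, Imm (f j).2 (f j).1 ∧ (f j).2 '' (f j).1 ⊆ U := by
    intro j
    have hj : f j ∈ insert ((∅ : Set (Fin k → ℂ)), (0 : (Fin k → ℂ) → E)) C := by
      rw [hf]
      exact mem_range_self j
    rcases hj with hj | hj
    · rw [hj]
      exact ⟨⟨isOpen_empty, differentiableOn_empty, injOn_empty _, fun _ hw => hw.elim⟩,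
        by simp⟩
    · exact hI _ hj
  refine ⟨fun j => (f j).1, fun j => (f j).2, fun j => (hI' j).1, fun j => (hI' j).2, ?_⟩
  rintro x ⟨hx, hx0⟩
  obtain ⟨q, hq, hxq⟩ := hcov x hx hx0
  have hq' : q ∈ range f := by
    rw [← hf]
    exact mem_insert_of_mem _ hq
  obtain ⟨j, rfl⟩ := hq'
  exact mem_iUnion.mpr ⟨j, hxq⟩

end Pool.Agent.Lib.MP_823829_an.LA
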