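import Mathlib
import Pool.Agent.Lib.MP_823829_an.LA.Basic
import Pool.Agent.Lib.MP_823829_an.LA.Line
import Pool.Agent.Lib.MP_823829_an.LA.Par
import Pool.Agent.Lib.MP_823829_an.LA.Riem
import Pool.Agent.Lib.MP_823829_an.LA.Thin
import Pool.Agent.Lib.MP_823829_an.LA.Zero
import Pool.Agent.Lib.MP_823829_an.LA.Crit
import Pool.Agent.Lib.MP_823829_an.LA.Strat
import Pool.Agent.Lib.MP_823829_an.LA.WP
import Pool.Agent.Lib.MP_823829_an.LA.Sym
import Pool.Agent.Lib.MP_823829_an.LA.Disc
import Pool.Agent.Lib.MP_823829_an.LA.MonThin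
import Pool.Agent.Lib.MP_823829_an.LA.Cov
import Pool.Agent.Lib.MP_823829_an.LA.MG
import Pool.Agent.Lib.MP_823829_an.LA.Can
import Pool.Agent.Lib.MP_823829_an.LA.Proj1
import Pool.Agent.Lib.MP_823829_an.LA.Proj
import Pool.Agent.Lib.MP_823829_an.LA.BC
import Pool.Agent.Lib.MP_823829_an.LA.Scale
import Pool.Agent.Lib.MP_823829_an.LA.Area
import Pool.Agent.Lib.MP_823829_an.LA.Vol
import Pool.Agent.Lib.MP_823829_an.LA.Graph
import Pool.Agent.Lib.MP_823829_an.LA.Reg
import Pool.Agent.Lib.MP_823829_an.LA.Desc
import Pool.Agent.Lib.MP_823829_an.LA.Diff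

/-! Local analytic geometry: the first layer without hypotheses. -/

namespace Pool.Agent.Lib.MP_823829_an.LA

theorem par : ParS := parS lineS
theorem circ : CircS := circS par
theorem riem : RiemS := riemS circ
theorem conn : ConnS := connS riem
theorem crit : CritS := critS thinS zeroS
theorem rank : RkS := rkS thinS crit
theorem strat : StratS := stratS zeroS
theorem dimc : DimS := dimS thinS strat
theorem wp : WPS := wpS circ
theorem disc : DiscS := discS wp symS
theorem monCov : MonCovS := monCovS disc
theorem cov : CovS := covS thinS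
theorem monThin : MonThinS := monThinS thinS zeroS monCov cov
theorem mg : MGS := mgS symS
theorem ultMG : UltMGS := ultMGS ultS symS mg
theorem can : CanS := canS riem cov mg
theorem proj1 : Proj1S := proj1S wp symS mg
theorem projm : ProjS := projS proj1 symS
theorem bc : BCS := bcS thinS riem conn projm monCov monThin cov mg symS
theorem vol : VolS := volS thinS scaleS spanS areaS bc
theorem graphHol : GraphS := graphS riem bc cov
theorem regAn : RegS := regS thinS zeroS scaleS bc cov conn can mg
theorem desc : DescS := descS thinS zeroS scaleS bc cov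
theorem diffAn : DiffS := diffS thinS zeroS scaleS bc cov conn can mg

end Pool.Agent.Lib.MP_823829_an.LA
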