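import Mathlib
import Pool.Agent.Lib.MP_823829_an.LA.Basic

/-! Local analytic geometry: second layer (pure sets, Bishop, graphs of meromorphic maps). -/

namespace Pool.Agent.Lib.MP_823829_an.LA

open Set Filter Topology Metric MeasureTheory Module
open scoped ENNReal NNReal

universe u

/-! ### Flat part -/

/-- `Y` has dimension bigger than `k` at each of its points in `V`. -/
def Pure {E : Type} [NormedAddCommGroup E] [NormedSpace ℂ E] (k : ℕ) (Y V : Set E) : Prop :=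
  ∀ q ∈ Y ∩ V, ∀ W ∈ 𝓝 q, ¬ Thin k (Y ∩ W)

/-- points of `Y` at which the projection to `T` is not locally injective -/
def NI {T F : Type} [TopologicalSpace T] [TopologicalSpace F] (Y : Set (T × F)) : Set (T × F) :=
  {q | q ∈ Y ∧ ∀ W ∈ 𝓝 q, ¬ InjOn Prod.fst (Y ∩ W)}

def NIS : Prop :=
  ∀ (T F : Type) [NormedAddCommGroup T] [NormedSpace ℂ T] [FiniteDimensional ℂ T]
    [NormedAddCommGroup F] [NormedSpace ℂ F] [FiniteDimensional ℂ F] (Y : Set (T × F))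
    (p : T × F), AnAt Y p → AnAt (NI Y) p

/-- a nowhere dense analytic subset has smaller dimension -/
def NDS : Prop :=
  ∀ (E : Type) [NormedAddCommGroup E] [NormedSpace ℂ E] [FiniteDimensional ℂ E] (k : ℕ)
    (Y Z V : Set E), IsOpen V → AnOn Y V → AnOn Z V → Z ∩ V ⊆ Y → Thin (k + 1) (Y ∩ V) →
    Z ∩ V ⊆ closure (Y \ Z) → Thin k (Z ∩ V)

structure PureS : Prop where
  /-- zero sets are null -/
  null : ∀ {T : Type} [NormedAddCommGroup T] [NormedSpace ℂ T] [FiniteDimensional ℂ T]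
    [MeasurableSpace T] [BorelSpace T] (μ : Measure T) [μ.IsAddHaarMeasure] {δ : T → ℂ}
    {U : Set T}, IsOpen U → DifferentiableOn ℂ δ U → NZ δ U → μ (U ∩ {t | δ t = 0}) = 0
  thinZero : ∀ {T : Type} [NormedAddCommGroup T] [NormedSpace ℂ T] [FiniteDimensional ℂ T]
    {k : ℕ} {δ : T → ℂ} {U : Set T}, finrank ℂ T ≤ k + 1 → IsOpen U → DifferentiableOn ℂ δ U →
    NZ δ U → Thin k (U ∩ {t | δ t = 0})
  equiv : ∀ {E G : Type} [NormedAddCommGroup E] [NormedSpace ℂ E] [NormedAddCommGroup G]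
    [NormedSpace ℂ G] {k : ℕ} {Y V : Set E} (e : E ≃L[ℂ] G), Pure k Y V →
    Pure k (e '' Y) (e '' V)
  inter : ∀ {E : Type} [NormedAddCommGroup E] [NormedSpace ℂ E] {k : ℕ} {Y V O : Set E},
    IsOpen O → Pure k Y V → Pure k (Y ∩ O) V
  ofImm : ∀ {E G : Type} [NormedAddCommGroup E] [NormedSpace ℂ E] [FiniteDimensional ℂ E]
    [NormedAddCommGroup G] [NormedSpace ℂ G] [FiniteDimensional ℂ G] {k : ℕ} {Y V : Set E}
    {g : G → E} {W : Set G}, k < finrank ℂ G → IsOpen W → DifferentiableOn ℂ g W →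
    (∀ w ∈ W, Function.Injective (fderiv ℂ g w)) → g '' W ⊆ Y → Y ∩ V ⊆ closure (g '' W) →
    Pure k Y V
  ofReg : ∀ {T F : Type} [NormedAddCommGroup T] [NormedSpace ℂ T] [FiniteDimensional ℂ T]
    [NormedAddCommGroup F] [NormedSpace ℂ F] [FiniteDimensional ℂ F] {k : ℕ}
    {Y V : Set (T × F)}, k < finrank ℂ T → Y ∩ V ⊆ closure (Reg Y) → Pure k Y V
  toReg : ∀ {T F : Type} [NormedAddCommGroup T] [NormedSpace ℂ T] [FiniteDimensional ℂ T]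
    [NormedAddCommGroup F] [NormedSpace ℂ F] [FiniteDimensional ℂ F] {k : ℕ} {Y : Set (T × F)}
    {U : Set T}, finrank ℂ T = k + 1 → IsOpen U → BdAn Y U → Pure k Y (U ×ˢ univ) →
    ov Y U ⊆ closure (Reg Y)
  ofMG : ∀ {T F : Type} [NormedAddCommGroup T] [NormedSpace ℂ T] [FiniteDimensional ℂ T]
    [NormedAddCommGroup F] [NormedSpace ℂ F] [FiniteDimensional ℂ F] {k d : ℕ}
    {τ : T → Fin d → F} {U : Set T}, k < finrank ℂ T → IsOpen U → MG τ U →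
    Pure k (supp τ) (U ×ˢ univ)
  /-- a countable fibre gives small shells -/
  box : ∀ {T F : Type} [NormedAddCommGroup T] [NormedSpace ℂ T] [FiniteDimensional ℂ T]
    [NormedAddCommGroup F] [NormedSpace ℂ F] [FiniteDimensional ℂ F] {Y V : Set (T × F)}
    {q : T × F}, AnAt Y q → V ∈ 𝓝 q → {y | (q.1, y) ∈ Y ∩ V}.Countable → Box Y q
  /-- the regular part of the closure of the regular part -/
  regClos : ∀ {T F : Type} [NormedAddCommGroup T] [NormedSpace ℂ T]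
    [NormedAddCommGroup F] [NormedSpace ℂ F] {Y V : Set (T × F)}, IsOpen V → AnOn Y V →
    Reg Y ∩ V ⊆ Reg (closure (Reg Y)) ∧ closure (Reg Y) ∩ V ⊆ Y

/-- a pure branched covering is the support of a multigraph -/
def PureMGS : Prop :=
  ∀ (T F : Type) [NormedAddCommGroup T] [NormedSpace ℂ T] [FiniteDimensional ℂ T]
    [NormedAddCommGroup F] [NormedSpace ℂ F] [FiniteDimensional ℂ F] (Y : Set (T × F))
    (U : Set T), IsOpen U → IsPreconnected U → BdAn Y U → ov Y U ⊆ closure (Reg Y) →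
    ∃ (d : ℕ) (τ : T → Fin d → F), MG τ U ∧ ov Y U = ov (supp τ) U ∧
      (∀ t ∈ U, CovAt d Y t → Function.Injective (τ t)) ∧
      ∀ t₀ ∈ U, ∃ (ε : ℝ) (δ : T → ℂ), 0 < ε ∧ ball t₀ ε ⊆ U ∧ DifferentiableOn ℂ δ (ball t₀ ε) ∧
        NZ δ (ball t₀ ε) ∧ Cov d Y (ball t₀ ε ∩ {t | δ t ≠ 0})

/-- mass bounds give a small limit set -/
def MassS : Prop :=
  ∀ (E ι : Type) [MetricSpace E] [MeasurableSpace E] [BorelSpace E] [ProperSpace E]
    (l : Filter ι) [l.NeBot] (Z : ι → Set E) (ν : ι → Measure E) (V : Set E) (s₀ s : ℝ),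
    IsOpen V → 0 ≤ s₀ → s₀ < s →
    (∀ K, IsCompact K → K ⊆ V → ∃ M : ℝ≥0, ∀ᶠ j in l, ν j K ≤ M) →
    (∀ K, IsCompact K → K ⊆ V → ∃ c ρ₀ : ℝ, 0 < c ∧ 0 < ρ₀ ∧ ∀ᶠ j in l, ∀ q ∈ Z j ∩ K,
      ∀ ρ : ℝ, 0 < ρ → ρ ≤ ρ₀ → ENNReal.ofReal (c * ρ ^ s₀) ≤ ν j (ball q ρ)) →
    μH[s] (ulim l Z ∩ V) = 0

/-- Bishop's theorem, geometric core -/
def BishCoreS : Prop :=
  ∀ (E T ι : Type) [NormedAddCommGroup E] [NormedSpace ℂ E] [FiniteDimensional ℂ E]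
    [MeasurableSpace E] [BorelSpace E] [NormedAddCommGroup T] [NormedSpace ℂ T]
    [FiniteDimensional ℂ T] [MeasurableSpace T] [BorelSpace T] (μ : Measure T)
    [μ.IsAddHaarMeasure] (k : ℕ) (l : Ultrafilter ι) (Z : ι → Set E) (V : Set E),
    finrank ℂ T = k + 1 → IsOpen V → (∀ᶠ j in (l : Filter ι), AnOn (Z j) V ∧ Pure k (Z j) V) →
    μH[2 * (finrank ℂ T : ℝ) + 1] (ulim l Z ∩ V) = 0 →
    (∀ (L : E →L[ℂ] T) (K : Set E), IsCompact K → K ⊆ V → ∃ M : ℝ≥0, ∀ᶠ j in (l : Filter ι),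
      ∀ (N : Set T) (d : ℕ), (∀ t ∈ N, (d : ℕ∞) ≤ (Z j ∩ K ∩ L ⁻¹' {t}).encard) →
        d * μ N ≤ M) →
    AnOn (ulim l Z) V ∧ Thin (k + 1) (ulim l Z ∩ V) ∧ Pure k (ulim l Z) V

/-- Bishop's theorem for closures of immersed pieces with bounded volume -/
def BishS : Prop :=
  ∀ (E T ι : Type) [NormedAddCommGroup E] [NormedSpace ℂ E] [FiniteDimensional ℂ E]
    [NormedAddCommGroup T] [NormedSpace ℂ T]
    [FiniteDimensional ℂ T] [MeasurableSpace T] [BorelSpace T] (μ : Measure T)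
    [μ.IsAddHaarMeasure] (k n : ℕ) (l : Ultrafilter ι) (Z : ι → Set E) (V : Set E)
    (g : ι → T → E) (W : ι → Set T) (P : Fin n → E →L[ℂ] T),
    finrank ℂ T = k + 1 → IsOpen V →
    (∀ᶠ j in (l : Filter ι), AnOn (Z j) V ∧ Imm (g j) (W j) ∧ g j '' W j ⊆ Z j ∧
      Z j ∩ V ⊆ closure (g j '' W j) ∧ Thin k ((Z j \ g j '' W j) ∩ V)) →
    (∀ (L : E →L[ℂ] T) (K : Set E), IsCompact K → K ⊆ V → ∃ M : ℝ≥0, ∀ᶠ j in (l : Filter ι),
      ∫⁻ w in W j ∩ g j ⁻¹' K, ‖(L.comp (fderiv ℂ (g j) w)).det‖ₑ ^ 2 ∂μ ≤ M) →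
    (∀ K, IsCompact K → K ⊆ V → ∃ c ρ₀ : ℝ, 0 < c ∧ 0 < ρ₀ ∧ ∀ᶠ j in (l : Filter ι),
      ∀ q ∈ Z j ∩ K, ∀ ρ : ℝ, 0 < ρ → ρ ≤ ρ₀ → ENNReal.ofReal (c * ρ ^ (2 * (k + 1))) ≤
        ∫⁻ w in W j ∩ g j ⁻¹' ball q ρ, ∑ i, ‖((P i).comp (fderiv ℂ (g j) w)).det‖ₑ ^ 2 ∂μ) →
    AnOn (ulim l Z) V ∧ Thin (k + 1) (ulim l Z ∩ V) ∧ Pure k (ulim l Z) V

/-! ### Subsets of `T × X` -/

section
variable {T : Type} [NormedAddCommGroup T] [NormedSpace ℂ T]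
  (F : Type) [NormedAddCommGroup F] [NormedSpace ℂ F]
  {X : Type u} [TopologicalSpace X] [ChartedSpace F X]

/-- the set `Γ` read in the chart at `x₀` -/
def ch (x₀ : X) (Γ : Set (T × X)) : Set (T × F) :=
  {q | q.2 ∈ (chartAt F x₀).target ∧ (q.1, (chartAt F x₀).symm q.2) ∈ Γ}

/-- analytic over `D`, in every preferred chart -/
def AnX (Γ : Set (T × X)) (D : Set T) : Prop :=
  ∀ x₀ : X, AnOn (ch F x₀ Γ) (D ×ˢ (chartAt F x₀).target)

def ThinX (k : ℕ) (Γ : Set (T × X)) : Prop := ∀ x₀ : X, Thin k (ch F x₀ Γ)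

/-- holomorphic on `V`, in every preferred chart -/
def HolX (f : T → X) (V : Set T) : Prop :=
  ContinuousOn f V ∧ ∀ x₀ : X,
    DifferentiableOn ℂ (fun z => chartAt F x₀ (f z)) (V ∩ f ⁻¹' (chartAt F x₀).source)

/-- graph of a meromorphic map on `D` -/
structure GMer (Γ : Set (T × X)) (D : Set T) : Prop where
  sub : Γ ⊆ D ×ˢ univ
  an : AnX F Γ D
  ex : ∃ V : Set T, IsOpen V ∧ V ⊆ D ∧ D ⊆ closure V ∧ (∀ z ∈ V, ∃! x, (z, x) ∈ Γ) ∧
    Γ ⊆ closure (Γ ∩ V ×ˢ univ)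

end

/-- limit of a family of sets along a filter, universe polymorphic version of `ulim` -/
def ulimX {Y : Type u} {ι : Type} [TopologicalSpace Y] (l : Filter ι) (Z : ι → Set Y) : Set Y :=
  {q | ∀ W ∈ 𝓝 q, ∀ᶠ j in l, (W ∩ Z j).Nonempty}

/-- points of `D` with exactly one point in the fibre -/
def one {T : Type} {X : Type u} (Γ : Set (T × X)) (D : Set T) : Set T :=
  {z | z ∈ D ∧ ∃! x, (z, x) ∈ Γ}

/-- graph of `f` over `V` -/
def gr {T : Type} {X : Type u} (f : T → X) (V : Set T) : Set (T × X) :=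
  {q | q.1 ∈ V ∧ q.2 = f q.1}

/-- points near which `Γ` is the graph of a continuous map -/
def RegX {T : Type} {X : Type u} [TopologicalSpace T] [TopologicalSpace X] (Γ : Set (T × X)) :
    Set (T × X) :=
  {q | q ∈ Γ ∧ ∃ (U : Set T) (W : Set X) (s : T → X), IsOpen U ∧ IsOpen W ∧ q.1 ∈ U ∧ q.2 ∈ W ∧
    ContinuousOn s U ∧ MapsTo s U W ∧ ∀ t ∈ U, ∀ y ∈ W, ((t, y) ∈ Γ ↔ y = s t)}

/-- elementary facts -/
structure XBS (T F : Type) (X : Type u) [NormedAddCommGroup T] [NormedSpace ℂ T]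
    [NormedAddCommGroup F] [NormedSpace ℂ F] [TopologicalSpace X] [ChartedSpace F X] : Prop where
  cover : ∃ (n : ℕ) (x : Fin n → X), ∀ y, ∃ i, y ∈ (chartAt F (x i)).source
  chClos : ∀ (x₀ : X) (S : Set (T × X)),
    ch F x₀ (closure S) = closure (ch F x₀ S) ∩ univ ×ˢ (chartAt F x₀).target
  chUlim : ∀ (x₀ : X) {ι : Type} (l : Filter ι) (Z : ι → Set (T × X)),
    ch F x₀ (ulimX l Z) =
      ulim l (fun j => ch F x₀ (Z j)) ∩ univ ×ˢ (chartAt F x₀).target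
  closed : ∀ {Γ : Set (T × X)} {D : Set T}, AnX F Γ D → closure Γ ∩ D ×ˢ univ ⊆ Γ
  usc : ∀ {Γ : Set (T × X)} {D : Set T}, IsOpen D → closure Γ ∩ D ×ˢ univ ⊆ Γ → ∀ z ∈ D,
    IsCompact {x | (z, x) ∈ Γ} ∧ ∀ W : Set X, IsOpen W → {x | (z, x) ∈ Γ} ⊆ W →
      ∀ᶠ z' in 𝓝 z, {x | (z', x) ∈ Γ} ⊆ W
  hol : ∀ {Γ : Set (T × X)} {V : Set T} {f : T → X}, IsOpen V → AnX F Γ V →
    (∀ z ∈ V, ∀ x, ((z, x) ∈ Γ ↔ x = f z)) → HolX F f V
  anGr : ∀ {V : Set T} {f : T → X}, IsOpen V → HolX F f V → AnX F (gr f V) V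
  thinGr : ∀ {V : Set T} {f : T → X}, IsOpen V → HolX F f V → ThinX F (finrank ℂ T) (gr f V)
  union : ∀ {A B : Set (T × X)} {D : Set T}, AnX F A D → AnX F B D → AnX F (A ∪ B) D
  inter : ∀ {A B : Set (T × X)} {D : Set T}, AnX F A D → AnX F B D → AnX F (A ∩ B) D
  congr : ∀ {A B : Set (T × X)} {D : Set T}, IsOpen D → AnX F A D →
    A ∩ D ×ˢ univ = B ∩ D ×ˢ univ → AnX F B D
  diff : ∀ {A B : Set (T × X)} {D : Set T}, AnX F A D → AnX F B D → AnX F (closure (A \ B)) D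
  pre : ∀ {A : Set (T × X)} {V : Set T} {f : T → X}, IsOpen V → AnX F A V → HolX F f V →
    AnOn {z | (z, f z) ∈ A} V
  ident : ∀ {V : Set T} {f g : T → X} {z : T}, IsOpen V → IsPreconnected V → HolX F f V →
    HolX F g V → z ∈ V → f =ᶠ[𝓝 z] g → EqOn f g V
  unc : ∀ {k : ℕ} {Γ : Set (T × X)}, ThinX F (k + 1) Γ →
    Thin k {z | ¬ {x | (z, x) ∈ Γ}.Countable}
  unc0 : ∀ {Γ : Set (T × X)}, ThinX F 0 Γ → Γ.Countable
  proj : ∀ {k : ℕ} {Γ : Set (T × X)}, ThinX F k Γ → Thin k (Prod.fst '' Γ)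
  reg : ∀ {Γ : Set (T × X)} {D : Set T} (x₀ : X), IsOpen D → AnX F Γ D →
    ch F x₀ (RegX Γ) ∩ D ×ˢ univ = Reg (ch F x₀ Γ) ∩ D ×ˢ univ

def XBall : Prop :=
  ∀ (T F : Type) (X : Type u) [NormedAddCommGroup T] [NormedSpace ℂ T] [FiniteDimensional ℂ T]
    [NormedAddCommGroup F] [NormedSpace ℂ F] [FiniteDimensional ℂ F] [TopologicalSpace X]
    [T2Space X] [CompactSpace X] [ChartedSpace F X], XBS T F X

/-- the closure of the part over a dense open set with one point fibres -/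
def ClosS : Prop :=
  ∀ (T F : Type) (X : Type u) [NormedAddCommGroup T] [NormedSpace ℂ T] [FiniteDimensional ℂ T]
    [NormedAddCommGroup F] [NormedSpace ℂ F] [FiniteDimensional ℂ F] [TopologicalSpace X]
    [T2Space X] [CompactSpace X] [ChartedSpace F X] (Y : Set (T × X)) (D V : Set T),
    IsOpen D → AnX F Y D → IsOpen V → V ⊆ D → D ⊆ closure V → (∀ z ∈ V, ∃! x, (z, x) ∈ Y) →
    GMer F (closure (Y ∩ V ×ˢ univ) ∩ D ×ˢ univ) D ∧
      closure (Y ∩ V ×ˢ univ) ∩ D ×ˢ univ ⊆ Y ∧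
      ThinX F (finrank ℂ T) (closure (Y ∩ V ×ˢ univ) ∩ D ×ˢ univ)

/-- an irreducible, generically one to one analytic set is the closure of a graph -/
def OfIrrS : Prop :=
  ∀ (T F : Type) (X : Type u) [NormedAddCommGroup T] [NormedSpace ℂ T] [FiniteDimensional ℂ T]
    [NormedAddCommGroup F] [NormedSpace ℂ F] [FiniteDimensional ℂ F] [TopologicalSpace X]
    [T2Space X] [CompactSpace X] [ChartedSpace F X] (Γ : Set (T × X)) (D V : Set T),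
    IsOpen D → Γ ⊆ D ×ˢ univ → AnX F Γ D → IsOpen V → V ⊆ D → D ⊆ closure V →
    (∀ z ∈ V, ∃! x, (z, x) ∈ Γ) →
    (∀ A B : Set (T × X), AnX F A D → AnX F B D → A ∪ B = Γ → A = Γ ∨ B = Γ) → GMer F Γ D

/-- finite fibres: near a countable fibre a pure set is a finite union of multigraphs; if it is
generically one to one somewhere near, it is a graph -/
def FinS : Prop :=
  ∀ (T F : Type) (X : Type u) [NormedAddCommGroup T] [NormedSpace ℂ T] [FiniteDimensional ℂ T]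
    [NormedAddCommGroup F] [NormedSpace ℂ F] [FiniteDimensional ℂ F] [TopologicalSpace X]
    [T2Space X] [CompactSpace X] [ChartedSpace F X] (Γ : Set (T × X)) (D : Set T) (z : T),
    IsOpen D → AnX F Γ D → z ∈ D → {x | (z, x) ∈ Γ}.Countable →
    (∀ᶠ z' in 𝓝 z, {x | (z', x) ∈ Γ}.Finite) ∧
    (Γ ∩ D ×ˢ univ ⊆ closure (RegX Γ) → z ∈ closure (interior (one Γ D)) →
      z ∈ interior (one Γ D))

/-- structure of the graph of a meromorphic map -/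
structure STS (T F : Type) (X : Type u) [NormedAddCommGroup T] [NormedSpace ℂ T]
    [NormedAddCommGroup F] [NormedSpace ℂ F] [TopologicalSpace X] [ChartedSpace F X]
    (Γ : Set (T × X)) (D : Set T) : Prop where
  op : IsOpen (one Γ D)
  dense : D ⊆ closure (one Γ D)
  clos : Γ = closure (Γ ∩ one Γ D ×ˢ univ) ∩ D ×ˢ univ
  surj : ∀ z ∈ D, ∃ x, (z, x) ∈ Γ
  hol : ∀ f : T → X, (∀ z ∈ one Γ D, (z, f z) ∈ Γ) → HolX F f (one Γ D)
  acc : ∀ q ∈ Γ, q.1 ∉ one Γ D → ∃ᶠ x in 𝓝[≠] q.2, (q.1, x) ∈ Γ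
  unc : ∀ z ∈ D, z ∉ one Γ D → ¬ {x | (z, x) ∈ Γ}.Countable
  thin : ThinX F (finrank ℂ T) Γ
  anSig : AnX F (Γ ∩ (one Γ D)ᶜ ×ˢ univ) D
  thinSig : ∀ k, finrank ℂ T ≤ k + 1 → ThinX F k (Γ ∩ (one Γ D)ᶜ ×ˢ univ)
  thinInd : ∀ k, finrank ℂ T ≤ k + 2 → Thin k (D \ one Γ D)
  low : finrank ℂ T ≤ 1 → one Γ D = D
  pure : ∀ k, k < finrank ℂ T → ∀ x₀ : X, Pure k (ch F x₀ Γ) univ
  conn : ∀ U : Set T, IsOpen U → IsPreconnected U → U ⊆ D → IsPreconnected (U ∩ one Γ D)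

def STall : Prop :=
  ∀ (T F : Type) (X : Type u) [NormedAddCommGroup T] [NormedSpace ℂ T] [FiniteDimensional ℂ T]
    [NormedAddCommGroup F] [NormedSpace ℂ F] [FiniteDimensional ℂ F] [TopologicalSpace X]
    [T2Space X] [CompactSpace X] [ChartedSpace F X] (Γ : Set (T × X)) (D : Set T),
    IsOpen D → GMer F Γ D → STS T F X Γ D

/-- restriction, locality, uniqueness, irreducibility, pull-back -/
structure GMS (T F : Type) (X : Type u) [NormedAddCommGroup T] [NormedSpace ℂ T]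
    [NormedAddCommGroup F] [NormedSpace ℂ F] [TopologicalSpace X] [ChartedSpace F X] : Prop where
  res : ∀ {Γ : Set (T × X)} {D U : Set T}, GMer F Γ D → IsOpen U → U ⊆ D →
    GMer F (Γ ∩ U ×ˢ univ) U
  loc : ∀ {Γ : Set (T × X)} {D : Set T}, Γ ⊆ D ×ˢ univ →
    (∀ z ∈ D, ∃ U, IsOpen U ∧ z ∈ U ∧ U ⊆ D ∧ GMer F (Γ ∩ U ×ˢ univ) U) → GMer F Γ D
  ofHol : ∀ {V : Set T} {f : T → X}, IsOpen V → HolX F f V → GMer F (gr f V) V
  uniq : ∀ {Γ Γ' : Set (T × X)} {D O : Set T}, IsOpen D → IsPreconnected D → GMer F Γ D →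
    GMer F Γ' D → IsOpen O → O.Nonempty → O ⊆ D → Γ ∩ O ×ˢ univ = Γ' ∩ O ×ˢ univ → Γ = Γ'
  irr : ∀ {Γ A B : Set (T × X)} {D : Set T}, IsOpen D → IsPreconnected D → GMer F Γ D →
    AnX F A D → AnX F B D → Γ ⊆ A ∪ B → Γ ⊆ A ∨ Γ ⊆ B
  sub : ∀ {Γ A : Set (T × X)} {D O : Set T}, IsOpen D → IsPreconnected D → GMer F Γ D →
    AnX F A D → IsOpen O → O.Nonempty → O ⊆ D → Γ ∩ O ×ˢ univ ⊆ A → Γ ⊆ A
  pull : ∀ {T' : Type} [NormedAddCommGroup T'] [NormedSpace ℂ T'] [FiniteDimensional ℂ T']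
    {Γ : Set (T × X)} {D : Set T} {D' : Set T'} {φ : T' → T}, IsOpen D → GMer F Γ D → IsOpen D' →
    DifferentiableOn ℂ φ D' → MapsTo φ D' D → D' ⊆ closure (D' ∩ φ ⁻¹' one Γ D) →
    GMer F (closure {q : T' × X | q.1 ∈ D' ∧ φ q.1 ∈ one Γ D ∧ (φ q.1, q.2) ∈ Γ} ∩ D' ×ˢ univ) D'
  equiv : ∀ {T' : Type} [NormedAddCommGroup T'] [NormedSpace ℂ T'] [FiniteDimensional ℂ T']
    {Γ : Set (T × X)} {D : Set T} (e : T' ≃L[ℂ] T) (c : T), GMer F Γ D →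
    GMer F {q : T' × X | (e q.1 + c, q.2) ∈ Γ} {w | e w + c ∈ D}

def GMall : Prop :=
  ∀ (T F : Type) (X : Type u) [NormedAddCommGroup T] [NormedSpace ℂ T] [FiniteDimensional ℂ T]
    [NormedAddCommGroup F] [NormedSpace ℂ F] [FiniteDimensional ℂ F] [TopologicalSpace X]
    [T2Space X] [CompactSpace X] [ChartedSpace F X], GMS T F X

/-- an analytic set of the right dimension which is a graph over an open set contains the graph
of a meromorphic map -/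
def LemMS : Prop :=
  ∀ (T F : Type) (X : Type u) [NormedAddCommGroup T] [NormedSpace ℂ T] [FiniteDimensional ℂ T]
    [NormedAddCommGroup F] [NormedSpace ℂ F] [FiniteDimensional ℂ F] [TopologicalSpace X]
    [T2Space X] [CompactSpace X] [ChartedSpace F X] (G : Set (T × X)) (D O : Set T),
    IsOpen D → IsPreconnected D → AnX F G D → ThinX F (finrank ℂ T) (G ∩ D ×ˢ univ) →
    IsOpen O → O.Nonempty → O ⊆ D → (∀ z ∈ O, ∃! x, (z, x) ∈ G) →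
    GMer F (closure (RegX G) ∩ D ×ˢ univ) D ∧ closure (RegX G) ∩ D ×ˢ univ ⊆ G ∧
      G ∩ O ×ˢ univ ⊆ RegX G

/-- Bishop's theorem for graphs of meromorphic maps -/
def BishXS : Prop :=
  ∀ (T F ι : Type) (X : Type u) [NormedAddCommGroup T] [NormedSpace ℂ T] [FiniteDimensional ℂ T]
    [NormedAddCommGroup F] [NormedSpace ℂ F] [FiniteDimensional ℂ F] [TopologicalSpace X]
    [T2Space X] [CompactSpace X] [ChartedSpace F X] [MeasurableSpace T] [BorelSpace T]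
    (μ : Measure T) [μ.IsAddHaarMeasure] (k n : ℕ) (l : Ultrafilter ι) (Γ : ι → Set (T × X))
    (f : ι → T → X) (D : Set T) (P : Fin n → T × F →L[ℂ] T),
    finrank ℂ T = k + 1 → IsOpen D →
    (∀ᶠ j in (l : Filter ι), GMer F (Γ j) D ∧ ∀ z ∈ one (Γ j) D, (z, f j z) ∈ Γ j) →
    (∀ (x₀ : X) (L : T × F →L[ℂ] T) (K : Set (T × F)), IsCompact K →
      K ⊆ D ×ˢ (chartAt F x₀).target → ∃ M : ℝ≥0, ∀ᶠ j in (l : Filter ι),
      ∫⁻ w in one (Γ j) D ∩ f j ⁻¹' (chartAt F x₀).source ∩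
          (fun w => (w, chartAt F x₀ (f j w))) ⁻¹' K,
        ‖(L.comp (fderiv ℂ (fun w => (w, chartAt F x₀ (f j w))) w)).det‖ₑ ^ 2 ∂μ ≤ M) →
    (∀ (x₀ : X) (K : Set (T × F)), IsCompact K → K ⊆ D ×ˢ (chartAt F x₀).target →
      ∃ c ρ₀ : ℝ, 0 < c ∧ 0 < ρ₀ ∧ ∀ᶠ j in (l : Filter ι), ∀ q ∈ ch F x₀ (Γ j) ∩ K,
      ∀ ρ : ℝ, 0 < ρ → ρ ≤ ρ₀ → ENNReal.ofReal (c * ρ ^ (2 * (k + 1))) ≤
        ∫⁻ w in one (Γ j) D ∩ f j ⁻¹' (chartAt F x₀).source ∩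
            (fun w => (w, chartAt F x₀ (f j w))) ⁻¹' ball q ρ,
          ∑ i, ‖((P i).comp (fderiv ℂ (fun w => (w, chartAt F x₀ (f j w))) w)).det‖ₑ ^ 2 ∂μ) →
    AnX F (ulimX l Γ) D ∧ ThinX F (k + 1) (ulimX l Γ ∩ D ×ˢ univ) ∧
      ∀ x₀ : X, Pure k (ch F x₀ (ulimX l Γ)) (D ×ˢ univ)

end Pool.Agent.Lib.MP_823829_an.LA
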