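import Mathlib
import Pool.Agent.Lib.MP_823829_an.LA.All
import Pool.Agent.Lib.MP_823829_an.LA.Stmt2

/-! Local analytic geometry: pure sets. -/

namespace Pool.Agent.Lib.MP_823829_an.LA

open Set Filter Topology Metric MeasureTheory Module

namespace PureAux

theorem thinZero {T : Type} [NormedAddCommGroup T] [NormedSpace ℂ T] [FiniteDimensional ℂ T]
    {k : ℕ} {δ : T → ℂ} {U : Set T} (hk : finrank ℂ T ≤ k + 1) (hU : IsOpen U)
    (hd : DifferentiableOn ℂ δ U) (hn : NZ δ U) : Thin k (U ∩ {t | δ t = 0}) := by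
  rcases Nat.lt_or_ge k (finrank ℂ T) with h | h
  · obtain ⟨B, φ, h1, -, h3⟩ := zeroS T k δ U (by omega) hU hd hn
    exact ⟨B, φ, fun j => (h1 j).op, fun j => (h1 j).hol, h3⟩
  · refine thinS.mono (thinS.ofImage (φ := id) (W := U) h hU differentiableOn_id) ?_
    intro x hx
    exact ⟨x, hx.1, rfl⟩

theorem null {T : Type} [NormedAddCommGroup T] [NormedSpace ℂ T] [FiniteDimensional ℂ T]
    [MeasurableSpace T] [BorelSpace T] (μ : Measure T) [μ.IsAddHaarMeasure] {δ : T → ℂ}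
    {U : Set T} (hU : IsOpen U) (hd : DifferentiableOn ℂ δ U) (hn : NZ δ U) :
    μ (U ∩ {t | δ t = 0}) = 0 := by
  rcases Nat.eq_zero_or_pos (finrank ℂ T) with h | h
  · have : Subsingleton T := Module.finrank_zero_iff.1 h
    have : U ∩ {t | δ t = 0} = ∅ := by
      refine eq_empty_of_forall_notMem fun x hx => ?_
      obtain ⟨y, hy⟩ := (hn x hx.1).exists
      exact hy (by rw [Subsingleton.elim y x]; exact hx.2)
    rw [this, measure_empty]
  · exact thinS.null μ (thinZero (k := finrank ℂ T - 1) (by omega) hU hd hn) (by omega)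

theorem equiv {E G : Type} [NormedAddCommGroup E] [NormedSpace ℂ E] [NormedAddCommGroup G]
    [NormedSpace ℂ G] {k : ℕ} {Y V : Set E} (e : E ≃L[ℂ] G) (h : Pure k Y V) :
    Pure k (e '' Y) (e '' V) := by
  rintro q ⟨⟨y, hy, rfl⟩, v, hv, hvy⟩ W hW ht
  have hyv : v = y := e.injective hvy
  subst hyv
  refine h v ⟨hy, hv⟩ (e ⁻¹' W) (e.continuous.continuousAt.preimage_mem_nhds hW) ?_
  refine thinS.mono (thinS.image (ψ := e.symm) ht isOpen_univ (subset_univ _)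
    e.symm.differentiable.differentiableOn) ?_
  rintro x ⟨hx, hxW⟩
  exact ⟨e x, ⟨⟨x, hx, rfl⟩, hxW⟩, e.symm_apply_apply x⟩

theorem inter {E : Type} [NormedAddCommGroup E] [NormedSpace ℂ E] {k : ℕ} {Y V O : Set E}
    (hO : IsOpen O) (h : Pure k Y V) : Pure k (Y ∩ O) V := by
  rintro q ⟨⟨hy, ho⟩, hv⟩ W hW ht
  refine h q ⟨hy, hv⟩ (O ∩ W) (inter_mem (hO.mem_nhds ho) hW) ?_
  rwa [← inter_assoc]

theorem ofImm {E G : Type} [NormedAddCommGroup E] [NormedSpace ℂ E] [FiniteDimensional ℂ E]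
    [NormedAddCommGroup G] [NormedSpace ℂ G] [FiniteDimensional ℂ G] {k : ℕ} {Y V : Set E}
    {g : G → E} {W : Set G} (hk : k < finrank ℂ G) (hW : IsOpen W) (hg : DifferentiableOn ℂ g W)
    (hi : ∀ w ∈ W, Function.Injective (fderiv ℂ g w)) (hY : g '' W ⊆ Y)
    (hc : Y ∩ V ⊆ closure (g '' W)) : Pure k Y V := by
  intro q hq W₀ hW₀ ht
  obtain ⟨O, hO, ho, hqO⟩ := _root_.mem_nhds_iff.1 hW₀
  obtain ⟨_, hxO, w, hw, rfl⟩ := _root_.mem_closure_iff.1 (hc hq) O ho hqO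
  refine thinS.notImm (φ := g) (W := W ∩ g ⁻¹' O) (w := w)
    (hg.continuousOn.isOpen_inter_preimage hW ho) ⟨hw, hxO⟩ (hg.mono inter_subset_left)
    (hi w hw) hk (thinS.mono ht ?_)
  rintro _ ⟨z, hz, rfl⟩
  exact ⟨hY ⟨z, hz.1, rfl⟩, hO hz.2⟩

theorem ofReg {T F : Type} [NormedAddCommGroup T] [NormedSpace ℂ T] [FiniteDimensional ℂ T]
    [NormedAddCommGroup F] [NormedSpace ℂ F] [FiniteDimensional ℂ F] {k : ℕ}
    {Y V : Set (T × F)} (hk : k < finrank ℂ T) (hc : Y ∩ V ⊆ closure (Reg Y)) : Pure k Y V := by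
  intro q hq W₀ hW₀ ht
  obtain ⟨O, hO, ho, hqO⟩ := _root_.mem_nhds_iff.1 hW₀
  obtain ⟨p, hpO, hpY, U, W, s, hU, hW, hpU, hpW, hs, hm, hgr⟩ :=
    _root_.mem_closure_iff.1 (hc hq) O ho hqO
  have hg : DifferentiableOn ℂ (fun t => (t, s t)) U := differentiableOn_id.prodMk hs
  have hp : (p.1, s p.1) = p := Prod.ext rfl ((hgr p.1 hpU p.2 hpW).1 hpY).symm
  have hinj : Function.Injective (fderiv ℂ (fun t => (t, s t)) p.1) := by
    have hd : HasFDerivAt (fun t => (t, s t))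
        ((ContinuousLinearMap.id ℂ T).prod (fderiv ℂ s p.1)) p.1 :=
      (hasFDerivAt_id p.1).prodMk (hs.differentiableAt (hU.mem_nhds hpU)).hasFDerivAt
    rw [hd.fderiv]
    intro a b hab
    exact congrArg Prod.fst hab
  refine thinS.notImm (φ := fun t => (t, s t)) (W := U ∩ (fun t => (t, s t)) ⁻¹' O) (w := p.1)
    (hg.continuousOn.isOpen_inter_preimage hU ho) ⟨hpU, ?_⟩ (hg.mono inter_subset_left)
    hinj hk (thinS.mono ht ?_)
  · show (p.1, s p.1) ∈ O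
    rwa [hp]
  · rintro _ ⟨z, hz, rfl⟩
    exact ⟨(hgr z hz.1 (s z) (hm hz.1)).2 rfl, hO hz.2⟩

theorem toReg {T F : Type} [NormedAddCommGroup T] [NormedSpace ℂ T] [FiniteDimensional ℂ T]
    [NormedAddCommGroup F] [NormedSpace ℂ F] [FiniteDimensional ℂ F] {k : ℕ} {Y : Set (T × F)}
    {U : Set T} (hk : finrank ℂ T = k + 1) (hU : IsOpen U) (hb : BdAn Y U)
    (hp : Pure k Y (U ×ˢ univ)) : ov Y U ⊆ closure (Reg Y) := by
  intro q hq
  obtain ⟨-, -, h3, h4⟩ := bc T F Y U hU hb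
  obtain ⟨ε, δ, d, M, hε, hsub, hδ, hn, hcov, -⟩ := h4 q.1 hq.2
  rw [mem_closure_iff_nhds]
  intro W hW
  by_contra hne
  have hB : ball q.1 ε ×ˢ (univ : Set F) ∈ 𝓝 q :=
    (isOpen_ball.prod isOpen_univ).mem_nhds ⟨mem_ball_self hε, trivial⟩
  refine hp q ⟨hq.1, hq.2, trivial⟩ (W ∩ ball q.1 ε ×ˢ univ) (inter_mem hW hB) ?_
  refine thinS.mono (h3 k (ball q.1 ε ∩ {t | δ t = 0}) (inter_subset_left.trans hsub)
    (thinZero hk.le isOpen_ball hδ hn)) ?_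
  rintro x ⟨hxY, hxW, hxB, -⟩
  refine ⟨hxY, hxB, ?_⟩
  by_contra h0
  exact hne ⟨x, hxW, cov.reg (hcov x.1 ⟨hxB, h0⟩) x.2 hxY⟩

theorem ofMG {T F : Type} [NormedAddCommGroup T] [NormedSpace ℂ T] [FiniteDimensional ℂ T]
    [NormedAddCommGroup F] [NormedSpace ℂ F] [FiniteDimensional ℂ F] {k d : ℕ}
    {τ : T → Fin d → F} {U : Set T} (hk : k < finrank ℂ T) (hU : IsOpen U) (hm : MG τ U) :
    Pure k (supp τ) (U ×ˢ univ) := by
  rintro ⟨t₀, y₀⟩ ⟨⟨i, hi⟩, hq, -⟩ W hW ht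
  simp only at hi hq
  subst hi
  obtain ⟨W₁, hW₁, W₂, hW₂, hsub⟩ := mem_nhds_prod_iff.1 hW
  have h1 := mg.lsc hU hm t₀ hq i W₂ hW₂
  have h2 : Thin k (Prod.fst '' (supp τ ∩ W)) :=
    thinS.image ht isOpen_univ (subset_univ _) differentiableOn_fst
  obtain ⟨t, ht1, ⟨j, hj⟩, ht2⟩ := (thinS.dense h2 hk).inter_nhds_nonempty (inter_mem h1 hW₁)
  exact ht1 ⟨(t, τ t j), ⟨⟨j, rfl⟩, hsub ⟨ht2, hj⟩⟩, rfl⟩

theorem box {T F : Type} [NormedAddCommGroup T] [NormedSpace ℂ T] [FiniteDimensional ℂ T]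
    [NormedAddCommGroup F] [NormedSpace ℂ F] [FiniteDimensional ℂ F] {Y V : Set (T × F)}
    {q : T × F} (ha : AnAt Y q) (hV : V ∈ 𝓝 q) (hc : {y | (q.1, y) ∈ Y ∩ V}.Countable) :
    Box Y q := by
  borelize F
  have hn : NullSingletonClass (μH[1] : Measure F) :=
    Measure.nullSingletonClass_hausdorff F one_pos
  refine boxS T F Y q (V ∩ {x | x ∈ closure Y → x ∈ Y}) (inter_mem hV ha.closed_nhds)
    (fun x hx => hx.2) ?_
  have hc' : {y | (q.1, y) ∈ Y ∩ (V ∩ {x | x ∈ closure Y → x ∈ Y})}.Countable :=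
    hc.mono fun y hy => And.intro hy.1 hy.2.1
  exact @Set.Countable.measure_zero _ _ _ hc' _ hn

theorem regClos {T F : Type} [NormedAddCommGroup T] [NormedSpace ℂ T]
    [NormedAddCommGroup F] [NormedSpace ℂ F] {Y V : Set (T × F)} (ha : AnOn Y V) :
    Reg Y ∩ V ⊆ Reg (closure (Reg Y)) ∧ closure (Reg Y) ∩ V ⊆ Y := by
  have hsub : Reg Y ⊆ Y := fun _ hx => hx.1
  refine ⟨?_, fun x hx => (ha x hx.2).mem_of_closure (closure_mono hsub hx.1)⟩
  rintro p ⟨hp, -⟩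
  obtain ⟨-, U, W, s, hU, hW, hpU, hpW, hs, hm, hgr⟩ := id hp
  refine ⟨subset_closure hp, U, W, s, hU, hW, hpU, hpW, hs, hm, fun t ht y hy => ⟨fun h => ?_, ?_⟩⟩
  · have h1 : ∃ᶠ x in 𝓝 (t, y), x ∈ Y := mem_closure_iff_frequently.1 (closure_mono hsub h)
    have h2 : ∀ᶠ x in 𝓝 (t, y), x ∈ U ×ˢ W := (hU.prod hW).mem_nhds ⟨ht, hy⟩
    have h3 : ∃ᶠ x in 𝓝 (t, y), x.2 = s x.1 :=
      (h1.and_eventually h2).mono fun x hx => (hgr x.1 hx.2.1 x.2 hx.2.2).1 hx.1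
    have h4 : ContinuousAt (fun x : T × F => s x.1) (t, y) :=
      ContinuousAt.comp (f := Prod.fst) (x := (t, y))
        (hs.continuousOn.continuousAt (hU.mem_nhds ht)) continuous_fst.continuousAt
    exact tendsto_nhds_unique_of_frequently_eq
      (continuous_snd.continuousAt (x := (t, y))) h4 h3
  · rintro rfl
    exact subset_closure
      ⟨(hgr t ht (s t) hy).2 rfl, U, W, s, hU, hW, ht, hy, hs, hm, hgr⟩

end PureAux

theorem pureS : PureS where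
  null μ _ _ _ := PureAux.null μ
  thinZero := PureAux.thinZero
  equiv := PureAux.equiv
  inter := PureAux.inter
  ofImm := PureAux.ofImm
  ofReg := PureAux.ofReg
  toReg := PureAux.toReg
  ofMG := PureAux.ofMG
  box := PureAux.box
  regClos _ := PureAux.regClos

end Pool.Agent.Lib.MP_823829_an.LA
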