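import Mathlib
import Pool.Agent.Lib.MP_823829_an.LA.All
import Pool.Agent.Lib.MP_823829_an.LA.Stmt2

/-! A pure branched covering is the support of a multigraph. -/

namespace Pool.Agent.Lib.MP_823829_an.LA

open Set Filter Topology Metric MeasureTheory Module

namespace PureMG

variable {T F : Type} [NormedAddCommGroup T] [NormedSpace ℂ T]
  [NormedAddCommGroup F] [NormedSpace ℂ F]

/-- near `t₀` the set `Y` is a covering with `d` sheets off a hypersurface -/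
def Loc (Y : Set (T × F)) (U : Set T) (d : ℕ) (t₀ : T) : Prop :=
  ∃ (ε : ℝ) (δ : T → ℂ), 0 < ε ∧ ball t₀ ε ⊆ U ∧ DifferentiableOn ℂ δ (ball t₀ ε) ∧
    NZ δ (ball t₀ ε) ∧ Cov d Y (ball t₀ ε ∩ {t | δ t ≠ 0})

omit [NormedAddCommGroup F] [NormedSpace ℂ F] in
lemma freq {δ δ' : T → ℂ} {B B' : Set T} (hB : IsOpen B) (hB' : IsOpen B')
    (hδ : DifferentiableOn ℂ δ B) (h : NZ δ B) (h' : NZ δ' B') {t : T} (ht : t ∈ B)
    (ht' : t ∈ B') : ∃ᶠ s in 𝓝 t, (s ∈ B ∧ δ s ≠ 0) ∧ (s ∈ B' ∧ δ' s ≠ 0) := by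
  have := NZ.mul (hB.inter hB') (h.mono inter_subset_left) (h'.mono inter_subset_right)
    (hδ.continuousOn.mono inter_subset_left) t ⟨ht, ht'⟩
  refine (this.and_eventually ((hB.inter hB').mem_nhds ⟨ht, ht'⟩)).mono fun s hs => ?_
  exact ⟨⟨hs.2.1, left_ne_zero_of_mul hs.1⟩, hs.2.2, right_ne_zero_of_mul hs.1⟩

variable {Y : Set (T × F)} {U : Set T}

lemma Loc.uniq {d d' : ℕ} {t : T} (h : Loc Y U d t) (h' : Loc Y U d' t) : d = d' := by
  obtain ⟨ε, δ, hε, -, hδ, hn, hc⟩ := h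
  obtain ⟨ε', δ', hε', -, -, hn', hc'⟩ := h'
  obtain ⟨s, h1, h2⟩ := (freq isOpen_ball isOpen_ball hδ hn hn' (mem_ball_self hε)
    (mem_ball_self hε')).exists
  rw [← (cov.card (hc s h1)).2, ← (cov.card (hc' s h2)).2]

lemma Loc.ev {d : ℕ} {t : T} (h : Loc Y U d t) : ∀ᶠ s in 𝓝 t, Loc Y U d s := by
  obtain ⟨ε, δ, hε, hU, hδ, hn, hc⟩ := h
  filter_upwards [ball_mem_nhds t hε] with s hs
  obtain ⟨r, hr, hsub⟩ := Metric.isOpen_iff.1 isOpen_ball s hs
  exact ⟨r, δ, hr, hsub.trans hU, hδ.mono hsub, hn.mono hsub,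
    hc.mono (inter_subset_inter_left _ hsub)⟩

lemma const (hc : IsPreconnected U) (h : ∀ t ∈ U, ∃ d, Loc Y U d t) :
    ∃ d, ∀ t ∈ U, Loc Y U d t := by
  rcases U.eq_empty_or_nonempty with rfl | ⟨t₀, ht₀⟩
  · exact ⟨0, by simp⟩
  choose! D hD using h
  have hcont : ContinuousOn D U := fun t ht => by
    refine (continuousWithinAt_const (b := D t)).congr_of_eventuallyEq ?_ rfl
    filter_upwards [mem_nhdsWithin_of_mem_nhds (hD t ht).ev, self_mem_nhdsWithin] with s h1 h2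
    exact (hD s h2).uniq h1
  exact ⟨D t₀, fun t ht => hc.constant hcont ht ht₀ ▸ hD t ht⟩

/-- regular points are limits of points off the hypersurface -/
lemma reg_clos {δ : T → ℂ} {B : Set T} (hB : IsOpen B) (hn : NZ δ B) {q : T × F}
    (hq : q ∈ closure (Reg Y)) (hqB : q.1 ∈ B) : q ∈ closure (ov Y (B ∩ {t | δ t ≠ 0})) := by
  have h1 := (hB.preimage continuous_fst).inter_closure (t := Reg Y) ⟨hqB, hq⟩
  refine closure_minimal ?_ isClosed_closure h1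
  rintro r ⟨hrB, hrY, U', W, s, hU', -, h1, h2, hs, hm, H⟩
  have e : r = (r.1, s r.1) := Prod.ext rfl ((H _ h1 _ h2).1 hrY)
  have hc : ContinuousAt (fun t => (t, s t)) r.1 :=
    continuousAt_id.prodMk (hs.continuousOn.continuousAt (hU'.mem_nhds h1))
  rw [e]
  refine mem_closure_of_frequently_of_tendsto ?_ hc
  refine ((hn r.1 hrB).and_eventually (inter_mem (hU'.mem_nhds h1) (hB.mem_nhds hrB))).mono ?_
  rintro t ⟨a, b, c⟩
  exact ⟨(H t b _ (hm b)).2 rfl, c, a⟩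

omit [NormedAddCommGroup F] [NormedSpace ℂ F] in
lemma prod_eq' {d : ℕ} {a b : Fin d → F} (ha : Function.Injective a) (hb : Function.Injective b)
    (h : ∀ y, (∃ i, y = a i) ↔ ∃ i, y = b i) (G : F → ℂ) : ∏ i, G (a i) = ∏ i, G (b i) := by
  classical
  rw [← Finset.prod_image (s := Finset.univ) (g := a) ha.injOn,
    ← Finset.prod_image (s := Finset.univ) (g := b) hb.injOn]
  congr 1
  ext y
  simpa [eq_comm] using h y

end PureMG

open PureMG in
theorem pureMGS : PureMGS := by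
  classical
  intro T F _ _ _ _ _ _ Y U hU hc hY hreg
  obtain ⟨d, hd⟩ := const (Y := Y) hc fun t ht => by
    obtain ⟨ε, δ, d, M, a, b, c, e, f, -⟩ := (bc T F Y U hU hY).2.2.2 t ht
    exact ⟨d, ε, δ, a, b, c, e, f⟩
  obtain ⟨R, hR⟩ := hY.2
  have loc : ∀ t₀ ∈ U, ∃ (ε : ℝ) (δ : T → ℂ) (s : T → Fin d → F), 0 < ε ∧ ball t₀ ε ⊆ U ∧
      DifferentiableOn ℂ δ (ball t₀ ε) ∧ NZ δ (ball t₀ ε) ∧ MG s (ball t₀ ε) ∧
      (∀ t ∈ ball t₀ ε, δ t ≠ 0 → Function.Injective (s t)) ∧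
      ∀ t ∈ ball t₀ ε, ∀ y, ((t, y) ∈ Y ↔ ∃ i, y = s t i) := by
    intro t₀ ht₀
    obtain ⟨ε, δ, hε, hsub, hδ, hn, hC⟩ := hd t₀ ht₀
    obtain ⟨s, h1, -, h2, h3⟩ := can T F d Y δ _ R isOpen_ball hδ hn hC
      fun q hq hqB _ => hR q hq (hsub hqB)
    refine ⟨ε, δ, s, hε, hsub, hδ, hn, h1, fun t ht h => (h2 t ht h).1, fun t ht y => ?_⟩
    constructor
    · intro h
      exact ((Set.ext_iff.1 h3 (t, y)).2
        ⟨reg_clos isOpen_ball hn (hreg ⟨h, hsub ht⟩) ht, ht⟩).1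
    · intro h
      exact (hY.1 (t, y) ⟨hsub ht, trivial⟩).mem_of_closure
        (closure_mono (t := Y) (fun x hx => hx.1) ((Set.ext_iff.1 h3 (t, y)).1 ⟨h, ht⟩).1)
  choose! ε δ s hε hsub hδ hn hs hinj hfib using loc
  refine ⟨d, fun t => s t t, fun ξ w t₀ ht₀ => ?_, ?_, fun t ht hC => ?_, hd⟩
  · have hb := ball_mem_nhds t₀ (hε t₀ ht₀)
    refine (((hs t₀ ht₀ ξ w).differentiableAt hb).congr_of_eventuallyEq ?_).differentiableWithinAt
    filter_upwards [hb] with t ht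
    have htU := hsub t₀ ht₀ ht
    have ht' := mem_ball_self (x := t) (hε t htU)
    refine tendsto_nhds_unique_of_frequently_eq
      ((hs t htU ξ w).continuousOn.continuousAt (isOpen_ball.mem_nhds ht'))
      ((hs t₀ ht₀ ξ w).continuousOn.continuousAt (isOpen_ball.mem_nhds ht)) ?_
    refine (freq isOpen_ball isOpen_ball (hδ t htU) (hn t htU) (hn t₀ ht₀) ht' ht).mono ?_
    rintro u ⟨⟨a, b⟩, c, e⟩
    exact prod_eq' (hinj t htU u a b) (hinj t₀ ht₀ u c e)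
      (fun y => (hfib t htU u a y).symm.trans (hfib t₀ ht₀ u c y)) fun y => w - ξ y
  · ext q
    exact and_congr_left fun hq => hfib q.1 hq q.1 (mem_ball_self (hε _ hq)) q.2
  · have h1 : {y | (t, y) ∈ Y} = ↑(Finset.univ.image (s t t)) := by
      ext y
      simpa [eq_comm] using hfib t ht t (mem_ball_self (hε _ ht)) y
    have h2 := (cov.card hC).2
    rw [h1, ncard_coe_finset] at h2
    have h3 : InjOn (s t t) (Finset.univ : Finset (Fin d)) :=
      Finset.card_image_iff.1 (by simpa using h2)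
    exact fun a b h => h3 (by simp) (by simp) h

end Pool.Agent.Lib.MP_823829_an.LA
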