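import Mathlib
import Pool.Agent.Lib.MP_823829_an.LA.Stmt2

/-! Local analytic geometry: third layer (extension of a meromorphic map near a slice). -/

namespace Pool.Agent.Lib.MP_823829_an.LA

open Set Filter Topology Metric MeasureTheory Module

universe u

section
variable {T : Type} [NormedAddCommGroup T] [NormedSpace ℂ T]
  (F : Type) [NormedAddCommGroup F] [NormedSpace ℂ F]

/-- the transition maps between preferred charts are holomorphic -/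
def Trans (X : Type u) [TopologicalSpace X] [ChartedSpace F X] : Prop :=
  ∀ x₀ x₁ : X, DifferentiableOn ℂ (fun y => chartAt F x₁ ((chartAt F x₀).symm y))
    ((chartAt F x₀).target ∩ (chartAt F x₀).symm ⁻¹' (chartAt F x₁).source)

/-- analytic at one point of `T × X`, in every preferred chart -/
def AnXAt {X : Type u} [TopologicalSpace X] [ChartedSpace F X] (Γ : Set (T × X)) (p : T × X) :
    Prop :=
  ∀ x₀ : X, p.2 ∈ (chartAt F x₀).source → AnAt (ch F x₀ Γ) (p.1, chartAt F x₀ p.2)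

end

structure TrS (T F : Type) (X : Type u) [NormedAddCommGroup T] [NormedSpace ℂ T]
    [NormedAddCommGroup F] [NormedSpace ℂ F] [TopologicalSpace X] [ChartedSpace F X] : Prop where
  iff : ∀ {Γ : Set (T × X)} {D : Set T}, AnX F Γ D ↔ ∀ p : T × X, p.1 ∈ D → AnXAt F Γ p
  congr : ∀ {Γ Γ' : Set (T × X)} {p : T × X}, AnXAt F Γ p → (∀ᶠ q in 𝓝 p, (q ∈ Γ ↔ q ∈ Γ')) →
    AnXAt F Γ' p
  ofChart : Trans F X → ∀ {Γ : Set (T × X)} {p : T × X} (x₀ : X), p.2 ∈ (chartAt F x₀).source →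
    AnAt (ch F x₀ Γ) (p.1, chartAt F x₀ p.2) → AnXAt F Γ p
  ev : Trans F X → ∀ {Γ : Set (T × X)} {p : T × X}, AnXAt F Γ p → ∀ᶠ q in 𝓝 p, AnXAt F Γ q
  holSymm : Trans F X → ∀ {g : T → F} {V : Set T} (x₀ : X), IsOpen V → DifferentiableOn ℂ g V →
    MapsTo g V (chartAt F x₀).target → HolX F (fun z => (chartAt F x₀).symm (g z)) V
  holLoc : ∀ {f : T → X} {V : Set T}, (∀ z ∈ V, ∃ U, IsOpen U ∧ z ∈ U ∧ HolX F f U) → HolX F f V
  holMono : ∀ {f : T → X} {V U : Set T}, HolX F f V → U ⊆ V → HolX F f U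
  holCongr : ∀ {f g : T → X} {V : Set T}, HolX F f V → EqOn g f V → HolX F g V
  holComp : ∀ {T' : Type} [NormedAddCommGroup T'] [NormedSpace ℂ T'] {f : T → X} {V : Set T}
    {φ : T' → T} {V' : Set T'}, HolX F f V → DifferentiableOn ℂ φ V' → MapsTo φ V' V →
    HolX F (fun w => f (φ w)) V'
  thinChart : Trans F X → ∀ {k : ℕ} {A : Set (T × X)} (x₀ : X),
    A ⊆ univ ×ˢ (chartAt F x₀).source → Thin k (ch F x₀ A) → ThinX F k A
  thinLoc : ∀ {k : ℕ} {A : Set (T × X)}, (∀ p ∈ A, ∃ O ∈ 𝓝 p, ThinX F k (A ∩ O)) → ThinX F k A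
  thinMono : ∀ {k : ℕ} {A B : Set (T × X)}, ThinX F k B → A ⊆ B → ThinX F k A

def TrAll : Prop :=
  ∀ (T F : Type) (X : Type u) [NormedAddCommGroup T] [NormedSpace ℂ T] [FiniteDimensional ℂ T]
    [NormedAddCommGroup F] [NormedSpace ℂ F] [FiniteDimensional ℂ F] [TopologicalSpace X]
    [T2Space X] [CompactSpace X] [ChartedSpace F X], TrS T F X

/-- a filter converging to `z₀` which avoids all thin sets -/
structure Big {S : Type} [NormedAddCommGroup S] [NormedSpace ℂ S] (k : ℕ) (l : Filter S)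
    (z₀ : S) : Prop where
  dim : finrank ℂ S = k + 1
  ne : l.NeBot
  le : l ≤ 𝓝 z₀
  sat : ∀ B : Set S, Thin k B → Bᶜ ∈ l

section
variable {S Q : Type} [NormedAddCommGroup S] [NormedSpace ℂ S]
  [NormedAddCommGroup Q] [NormedSpace ℂ Q] (F : Type) [NormedAddCommGroup F] [NormedSpace ℂ F]
  {X : Type u} [TopologicalSpace X] [ChartedSpace F X]

/-- a family of meromorphic graphs which is upper semicontinuous at `z₀` along `l` -/
structure Fam (k : ℕ) (l : Filter S) (z₀ : S) (Z : S → Set (Q × X)) (Δ : Set Q) : Prop where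
  big : Big k l z₀
  dimQ : finrank ℂ Q = 2
  op : IsOpen Δ
  mer₀ : GMer F (Z z₀) Δ
  mer : ∀ᶠ z in l, GMer F (Z z) Δ
  usc : ∀ C : Set (Q × X), IsCompact C → C ⊆ Δ ×ˢ univ → Disjoint C (Z z₀) →
    ∀ᶠ z in l, Disjoint C (Z z)

/-- over `D` the family is given by one holomorphic map -/
def Agr (l : Filter S) (z₀ : S) (Z : S → Set (Q × X)) (ε : ℝ) (D : Set Q) (Φ : S × Q → X) :
    Prop :=
  0 < ε ∧ IsOpen D ∧ HolX F Φ (ball z₀ ε ×ˢ D) ∧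
    ∀ᶠ z in l, ∀ w ∈ D, ∀ x, ((w, x) ∈ Z z ↔ x = Φ (z, w))

/-- the good set -/
def Good (l : Filter S) (z₀ : S) (Z : S → Set (Q × X)) (Δ : Set Q) : Set Q :=
  {w | ∃ (ε : ℝ) (D : Set Q) (Φ : S × Q → X), w ∈ D ∧ D ⊆ Δ ∧ Agr F l z₀ Z ε D Φ}

/-- `M` is a local model of the family on the open set `O` -/
structure ModOn (k : ℕ) (l : Filter S) (z₀ : S) (Z : S → Set (Q × X)) (M O : Set ((S × Q) × X)) :
    Prop where
  op : IsOpen O
  an : ∀ p ∈ O, AnXAt F M p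
  thin : ThinX F (k + 3) (M ∩ O)
  agr : ∀ᶠ z in l, ∀ w x, ((z, w), x) ∈ O → (((z, w), x) ∈ M ↔ (w, x) ∈ Z z)
  det : ∀ a ∈ O, a.1.1 = z₀ → ∀ B : Set ((S × Q) × X), AnXAt F B a → ∀ O' ∈ 𝓝 a,
    (∀ᶠ z in l, ∀ p ∈ O', p.1.1 = z → p ∈ M → p ∈ B) → ∀ᶠ p in 𝓝 a, p ∈ M → p ∈ B

end

/-- uniqueness along a big filter -/
structure UqS : Prop where
  flat : ∀ {S G : Type} [NormedAddCommGroup S] [NormedSpace ℂ S] [FiniteDimensional ℂ S]
    [NormedAddCommGroup G] [NormedSpace ℂ G] [FiniteDimensional ℂ G] {k : ℕ} {l : Filter S}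
    {z₀ : S} {N : Set S} {h : S → G}, Big k l z₀ → IsOpen N → IsPreconnected N → z₀ ∈ N →
    DifferentiableOn ℂ h N → (∀ᶠ z in l, h z = 0) → ∀ z ∈ N, h z = 0
  slice : ∀ {S T : Type} [NormedAddCommGroup S] [NormedSpace ℂ S] [FiniteDimensional ℂ S]
    [NormedAddCommGroup T] [NormedSpace ℂ T] [FiniteDimensional ℂ T] {k : ℕ} {l : Filter S}
    {z₀ : S} {t₀ : T} {ε : ℝ} {δ : S × T → ℂ}, Big k l z₀ → 0 < ε →
    DifferentiableOn ℂ δ (ball (z₀, t₀) ε) → NZ δ (ball (z₀, t₀) ε) →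
    (∀ᶠ z in l, z ∈ ball z₀ ε ∧ NZ (fun t => δ (z, t)) (ball t₀ ε)) ∧
      ∃ t₁ ∈ ball t₀ ε, ∀ᶠ z in l, z ∈ ball z₀ ε ∧ δ (z, t₁) ≠ 0

def UqXS : Prop :=
  ∀ (S F : Type) (X : Type u) [NormedAddCommGroup S] [NormedSpace ℂ S] [FiniteDimensional ℂ S]
    [NormedAddCommGroup F] [NormedSpace ℂ F] [FiniteDimensional ℂ F] [TopologicalSpace X]
    [T2Space X] [CompactSpace X] [ChartedSpace F X] (k : ℕ) (l : Filter S) (z₀ : S) (N : Set S)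
    (f g : S → X), Big k l z₀ → IsOpen N → IsPreconnected N → z₀ ∈ N → HolX F f N → HolX F g N →
    (∀ᶠ z in l, f z = g z) → EqOn f g N

/-- condensation point -/
def CondS : Prop :=
  ∀ (S Q F : Type) (X : Type u) [NormedAddCommGroup S] [NormedSpace ℂ S] [FiniteDimensional ℂ S]
    [NormedAddCommGroup Q] [NormedSpace ℂ Q] [FiniteDimensional ℂ Q]
    [NormedAddCommGroup F] [NormedSpace ℂ F] [FiniteDimensional ℂ F] [TopologicalSpace X]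
    [T2Space X] [CompactSpace X] [ChartedSpace F X] (k : ℕ) (E : Set S) (Z : S → Set (Q × X))
    (Δ : Set Q), finrank ℂ S = k + 1 → finrank ℂ Q = 2 → IsOpen Δ → ¬ Thin k E →
    (∀ z ∈ E, GMer F (Z z) Δ) → ∃ z₀ ∈ E, ∃ l : Filter S, E ∈ l ∧ Fam F k l z₀ Z Δ

/-- a compact set which is not contained in a closed countable set is touched by a disc -/
def SweepS : Prop :=
  ∀ (Q : Type) [NormedAddCommGroup Q] [NormedSpace ℂ Q] [FiniteDimensional ℂ Q] (K A : Set Q),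
    finrank ℂ Q = 2 → IsCompact K → IsClosed A → A.Countable → ¬ K ⊆ A →
    ∃ p ∈ K, p ∉ A ∧ ∃ ψ : ℂ × ℂ → Q, Differentiable ℂ ψ ∧ ψ 0 = p ∧
      Function.Injective (fderiv ℂ ψ 0) ∧
      ∀ η > (0 : ℝ), ∃ r, 0 < r ∧ r < η ∧ ∀ s : ℂ, ‖s‖ = r → ψ (0, s) ∉ K

/-- one holomorphic map near a compact subset of the good set -/
def GlueS : Prop :=
  ∀ (S Q F : Type) (X : Type u) [NormedAddCommGroup S] [NormedSpace ℂ S] [FiniteDimensional ℂ S]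
    [NormedAddCommGroup Q] [NormedSpace ℂ Q] [FiniteDimensional ℂ Q]
    [NormedAddCommGroup F] [NormedSpace ℂ F] [FiniteDimensional ℂ F] [TopologicalSpace X]
    [T2Space X] [CompactSpace X] [Nonempty X] [ChartedSpace F X] (k : ℕ) (l : Filter S) (z₀ : S)
    (Z : S → Set (Q × X)) (Δ : Set Q), Fam F k l z₀ Z Δ →
    (∀ K, IsCompact K → K ⊆ Good F l z₀ Z Δ →
      ∃ (ε : ℝ) (D : Set Q) (Φ : S × Q → X), K ⊆ D ∧ D ⊆ Δ ∧ Agr F l z₀ Z ε D Φ) ∧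
    ∀ (ε : ℝ) (D : Set Q) (Φ : S × Q → X), D ⊆ Δ → Agr F l z₀ Z ε D Φ →
      ∀ w ∈ D, (w, Φ (z₀, w)) ∈ Z z₀

/-- the good set contains the regular set of the central map -/
def E1S : Prop :=
  ∀ (S Q F : Type) (X : Type u) [NormedAddCommGroup S] [NormedSpace ℂ S] [FiniteDimensional ℂ S]
    [NormedAddCommGroup Q] [NormedSpace ℂ Q] [FiniteDimensional ℂ Q]
    [NormedAddCommGroup F] [NormedSpace ℂ F] [FiniteDimensional ℂ F] [TopologicalSpace X]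
    [T2Space X] [CompactSpace X] [ChartedSpace F X] (k : ℕ) (l : Filter S) (z₀ : S)
    (Z : S → Set (Q × X)) (Δ C : Set Q), Trans F X → Fam F k l z₀ Z Δ → IsCompact C → C ⊆ Δ →
    Δ \ C ⊆ Good F l z₀ Z Δ → one (Z z₀) Δ ⊆ Good F l z₀ Z Δ

/-- agreement of a pure branched covering with an analytic set -/
def AgrS : Prop :=
  ∀ (S T G : Type) [NormedAddCommGroup S] [NormedSpace ℂ S] [FiniteDimensional ℂ S]
    [NormedAddCommGroup T] [NormedSpace ℂ T] [FiniteDimensional ℂ T]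
    [NormedAddCommGroup G] [NormedSpace ℂ G] [FiniteDimensional ℂ G] (k : ℕ) (l : Filter S)
    (Y B O : Set ((S × T) × G)) (a : (S × T) × G), Big k l a.1.1 → AnAt Y a → Box Y a →
    (∀ᶠ p in 𝓝 a, p ∈ Y → p ∈ closure (Reg Y)) → AnAt B a → O ∈ 𝓝 a →
    (∀ᶠ z in l, ∀ p ∈ O, p.1.1 = z → p ∈ Y → p ∈ B) → ∀ᶠ p in 𝓝 a, p ∈ Y → p ∈ B

/-- a scale whose base has annuli avoiding the image of a compact curve -/
def Scale2S : Prop :=
  ∀ (E : Type) [NormedAddCommGroup E] [NormedSpace ℂ E] [FiniteDimensional ℂ E] (m : ℕ)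
    (Y V A : Set E) (p : E), finrank ℂ E = 2 + m → AnAt Y p → V ∈ 𝓝 p → Thin 2 (Y ∩ V) →
    IsCompact A → Thin 1 A →
    ∃ e : E ≃L[ℂ] (ℂ × ℂ) × (Fin m → ℂ), Box (e '' Y) (e p) ∧
      Box ((fun x => (e x).1) '' A) (e p).1

/-- the region over which the Cauchy integral is taken -/
def ann (t₀ : ℂ × ℂ) (ε a b : ℝ) : Set (ℂ × ℂ) :=
  ball t₀.1 ε ×ˢ {s | a < dist s t₀.2 ∧ dist s t₀.2 < b}

/-- input of the Cauchy integral step -/
structure CauIn {S G : Type} [NormedAddCommGroup S] [NormedSpace ℂ S] [NormedAddCommGroup G]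
    [NormedSpace ℂ G] (l : Filter S) (z₀ : S) (t₀ : ℂ × ℂ) (ε a b ε₁ : ℝ)
    (Y : S → Set ((ℂ × ℂ) × G)) (A : Set ((S × (ℂ × ℂ)) × G)) : Prop where
  e0 : 0 < ε
  a0 : 0 < a
  ab : a < b
  e1 : 0 < ε₁
  fam : ∀ᶠ z in l, BdAn (Y z) (ball t₀.1 ε ×ˢ ball t₀.2 b) ∧
    ov (Y z) (ball t₀.1 ε ×ˢ ball t₀.2 b) ⊆ closure (Reg (Y z))
  bd : BdAn A (ball z₀ ε₁ ×ˢ ann t₀ ε a b)
  pure : ov A (ball z₀ ε₁ ×ˢ ann t₀ ε a b) ⊆ closure (Reg A)
  agr : ∀ᶠ z in l, ∀ t ∈ ann t₀ ε a b, ∀ y, (((z, t), y) ∈ A ↔ (t, y) ∈ Y z)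

/-- Cauchy integrals of the canonical polynomials -/
def CauS : Prop :=
  ∀ (S G : Type) [NormedAddCommGroup S] [NormedSpace ℂ S] [FiniteDimensional ℂ S]
    [NormedAddCommGroup G] [NormedSpace ℂ G] [FiniteDimensional ℂ G] (k : ℕ) (l : Filter S)
    (z₀ : S) (t₀ : ℂ × ℂ) (ε a b ε₁ : ℝ) (Y : S → Set ((ℂ × ℂ) × G))
    (A : Set ((S × (ℂ × ℂ)) × G)), Big k l z₀ → CauIn l z₀ t₀ ε a b ε₁ Y A →
    ∃ (ε₂ : ℝ) (M : Set ((S × (ℂ × ℂ)) × G)), 0 < ε₂ ∧ ε₂ ≤ ε ∧ ε₂ ≤ b ∧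
      BdAn M (ball (z₀, t₀) ε₂) ∧
      ∀ᶠ z in l, ∀ t ∈ ball t₀ ε₂, ∀ y, (((z, t), y) ∈ M ↔ (t, y) ∈ Y z)

/-- passing to the pure part keeps most slices -/
def PurModS : Prop :=
  ∀ (S T G : Type) [NormedAddCommGroup S] [NormedSpace ℂ S] [FiniteDimensional ℂ S]
    [NormedAddCommGroup T] [NormedSpace ℂ T] [FiniteDimensional ℂ T]
    [NormedAddCommGroup G] [NormedSpace ℂ G] [FiniteDimensional ℂ G] (k : ℕ) (l : Filter S)
    (z₀ : S) (t₀ : T) (ε : ℝ) (Y : S → Set (T × G)) (M : Set ((S × T) × G)), Big k l z₀ → 0 < ε →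
    BdAn M (ball (z₀, t₀) ε) → (∀ᶠ z in l, ov (Y z) (ball t₀ ε) ⊆ closure (Reg (Y z))) →
    (∀ᶠ z in l, ∀ t ∈ ball t₀ ε, ∀ y, (((z, t), y) ∈ M ↔ (t, y) ∈ Y z)) →
    ∃ (ε' : ℝ) (M' : Set ((S × T) × G)), 0 < ε' ∧ ε' ≤ ε ∧ BdAn M' (ball (z₀, t₀) ε') ∧
      ov M' (ball (z₀, t₀) ε') ⊆ closure (Reg M') ∧
      ∀ᶠ z in l, ∀ t ∈ ball t₀ ε', ∀ y, (((z, t), y) ∈ M' ↔ (t, y) ∈ Y z)

/-- preparation of the Cauchy integral step at a point of the central graph -/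
def PrepS : Prop :=
  ∀ (S Q F : Type) (X : Type u) [NormedAddCommGroup S] [NormedSpace ℂ S] [FiniteDimensional ℂ S]
    [NormedAddCommGroup Q] [NormedSpace ℂ Q] [FiniteDimensional ℂ Q]
    [NormedAddCommGroup F] [NormedSpace ℂ F] [FiniteDimensional ℂ F] [TopologicalSpace X]
    [T2Space X] [CompactSpace X] [ChartedSpace F X] (k : ℕ) (l : Filter S) (z₀ : S)
    (Z : S → Set (Q × X)) (Δ : Set Q) (w : Q) (x : X), Fam F k l z₀ Z Δ →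
    one (Z z₀) Δ ⊆ Good F l z₀ Z Δ → w ∈ Δ →
    ∃ (m : ℕ) (e : (Q × F) ≃L[ℂ] (ℂ × ℂ) × (Fin m → ℂ)) (ε a b ε₁ ρ : ℝ)
      (A : Set ((S × (ℂ × ℂ)) × (Fin m → ℂ))), 0 < ρ ∧
      CauIn l z₀ (e (w, chartAt F x x)).1 ε a b ε₁
        (fun z => e '' ch F x (Z z) ∩ univ ×ˢ ball (e (w, chartAt F x x)).2 ρ) A

/-- local models exist -/
def ModS : Prop :=
  ∀ (S Q F : Type) (X : Type u) [NormedAddCommGroup S] [NormedSpace ℂ S] [FiniteDimensional ℂ S]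
    [NormedAddCommGroup Q] [NormedSpace ℂ Q] [FiniteDimensional ℂ Q]
    [NormedAddCommGroup F] [NormedSpace ℂ F] [FiniteDimensional ℂ F] [TopologicalSpace X]
    [T2Space X] [CompactSpace X] [ChartedSpace F X] (k : ℕ) (l : Filter S) (z₀ : S)
    (Z : S → Set (Q × X)) (Δ : Set Q) (w : Q) (x : X), Trans F X → Fam F k l z₀ Z Δ →
    one (Z z₀) Δ ⊆ Good F l z₀ Z Δ → w ∈ Δ →
    ∃ M O : Set ((S × Q) × X), ((z₀, w), x) ∈ O ∧ ModOn F k l z₀ Z M O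

/-- the graph of a holomorphic map which gives the family is a local model -/
def ModGrS : Prop :=
  ∀ (S Q F : Type) (X : Type u) [NormedAddCommGroup S] [NormedSpace ℂ S] [FiniteDimensional ℂ S]
    [NormedAddCommGroup Q] [NormedSpace ℂ Q] [FiniteDimensional ℂ Q]
    [NormedAddCommGroup F] [NormedSpace ℂ F] [FiniteDimensional ℂ F] [TopologicalSpace X]
    [T2Space X] [CompactSpace X] [ChartedSpace F X] (k : ℕ) (l : Filter S) (z₀ : S)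
    (Z : S → Set (Q × X)) (ε : ℝ) (D : Set Q) (Φ : S × Q → X), Big k l z₀ → finrank ℂ Q = 2 →
    Agr F l z₀ Z ε D Φ →
    ModOn F k l z₀ Z (gr Φ (ball z₀ ε ×ˢ D)) ((ball z₀ ε ×ˢ D) ×ˢ univ)

/-- gluing of germs along a compact set -/
def GermS : Prop :=
  ∀ (Y : Type u) [TopologicalSpace Y] [T2Space Y] [LocallyCompactSpace Y] (K : Set Y)
    (M O : Y → Set Y), IsCompact K → (∀ a ∈ K, IsOpen (O a) ∧ a ∈ O a) →
    (∀ a ∈ K, ∀ b ∈ K, ∀ c ∈ K, c ∈ O a → c ∈ O b → ∀ᶠ p in 𝓝 c, (p ∈ M a ↔ p ∈ M b)) →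
    ∃ G : Set Y, ∀ a ∈ K, ∀ᶠ p in 𝓝 a, (p ∈ G ↔ p ∈ M a)

/-- the shell `r < ‖w‖ < ρ` -/
def shell (Q : Type) [NormedAddCommGroup Q] (r ρ : ℝ) : Set Q := {w | r < ‖w‖ ∧ ‖w‖ < ρ}

/-- extension lemma -/
def ExtS : Prop :=
  ∀ (S Q F : Type) (X : Type u) [NormedAddCommGroup S] [NormedSpace ℂ S] [FiniteDimensional ℂ S]
    [NormedAddCommGroup Q] [NormedSpace ℂ Q] [FiniteDimensional ℂ Q]
    [NormedAddCommGroup F] [NormedSpace ℂ F] [FiniteDimensional ℂ F] [TopologicalSpace X]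
    [T2Space X] [CompactSpace X] [ChartedSpace F X] (k : ℕ) (U E : Set S) (r ρ : ℝ)
    (f : S × Q → X), Trans F X → finrank ℂ S = k + 1 → finrank ℂ Q = 2 → IsOpen U → E ⊆ U →
    0 ≤ r → r < ρ → HolX F f (U ×ˢ shell Q r ρ) →
    (∀ z ∈ E, ∃ Z : Set (Q × X), GMer F Z (ball 0 ρ) ∧
      ∀ w ∈ shell Q r ρ, ∀ x, ((w, x) ∈ Z ↔ x = f (z, w))) →
    ¬ Thin k E →
    ∃ z₀ ∈ E, ∃ (N : Set S) (Γ : Set ((S × Q) × X)), IsOpen N ∧ z₀ ∈ N ∧ N ⊆ U ∧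
      GMer F Γ (N ×ˢ ball 0 ρ) ∧ ∀ p ∈ N ×ˢ shell Q r ρ, ∀ x, ((p, x) ∈ Γ ↔ x = f p)

end Pool.Agent.Lib.MP_823829_an.LA
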