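import Mathlib
import Pool.Agent.Lib.MP_823829_an.LA.All
import Pool.Agent.Lib.MP_823829_an.LA.Pure
import Pool.Agent.Lib.MP_823829_an.LA.PureMG
import Pool.Agent.Lib.MP_823829_an.LA.Stmt3

/-! Local analytic geometry: agreement, adapted scales and the pure part of a model. -/

namespace Pool.Agent.Lib.MP_823829_an.LA

open Set Filter Topology Metric MeasureTheory Module

namespace AgrAux

/-- shells are kept by a change of the base and an isometry of the fibre -/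
theorem box_map {T F T' F' : Type} [NormedAddCommGroup T] [NormedAddCommGroup F]
    [NormedAddCommGroup T'] [NormedAddCommGroup F'] {Y : Set (T × F)} {q : T × F} (f : T → T')
    (g : F → F') (h : Box Y q)
    (hf : ∀ ε > (0 : ℝ), ∃ δ > (0 : ℝ), ∀ x, dist (f x) (f q.1) < δ → dist x q.1 < ε)
    (hg : ∀ y, dist (g y) (g q.2) = dist y q.2) :
    Box (Prod.map f g '' Y) (Prod.map f g q) := by
  intro η hη
  obtain ⟨ε, ρ₁, ρ₂, h1, -, h3, h4, h5, h6⟩ := h η hη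
  obtain ⟨δ, hδ, hd⟩ := hf ε h1
  refine ⟨min δ η / 2, ρ₁, ρ₂, by positivity, by linarith [min_le_right δ η], h3, h4, h5, ?_⟩
  rintro _ ⟨x, hx, rfl⟩ a b
  simp only [Prod.map_fst, Prod.map_snd, hg] at a b ⊢
  exact h6 x hx (hd x.1 (by linarith [min_le_left δ η, lt_min hδ hη])).le b

theorem equiv_small {T T' : Type} [NormedAddCommGroup T] [NormedSpace ℂ T]
    [NormedAddCommGroup T'] [NormedSpace ℂ T'] (e : T ≃L[ℂ] T') (t : T) :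
    ∀ ε > (0 : ℝ), ∃ δ > (0 : ℝ), ∀ x, dist (e x) (e t) < δ → dist x t < ε := by
  intro ε hε
  obtain ⟨δ, hδ, h⟩ := Metric.continuousAt_iff.1 (e.symm.continuous.continuousAt (x := e t)) ε hε
  exact ⟨δ, hδ, fun x hx => by simpa using h hx⟩

end AgrAux

theorem agrS (h : UqS) : AgrS := by
  intro S T G _ _ _ _ _ _ _ _ _ k l Y B O a hbig hY hbox hpure hB hO hagr
  have : ProperSpace G := FiniteDimensional.proper ℂ G
  have := hbig.ne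
  obtain ⟨ε, ρ₁, ρ₂, h1, h3, h4, hs, hA, h6, hbd⟩ :=
    hbox.cut hY (inter_mem hO (hB.eventually.and hpure))
  have hsub : ball a.1 ε ×ˢ ball a.2 ρ₂ ⊆ closedBall a.1 ε ×ˢ closedBall a.2 ρ₂ :=
    prod_mono ball_subset_closedBall ball_subset_closedBall
  have hbd' : BdAn ((Y ∩ B) ∩ univ ×ˢ ball a.2 ρ₂) (ball a.1 ε) :=
    cut isOpen_ball isOpen_ball (isCompact_closedBall a.2 ρ₁) (closedBall_subset_ball h4)
      (fun x hx => (hA x (hsub hx)).inter (hs (hsub hx)).2.1)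
      fun x hx hx1 hx2 => (h6 x hx.1 (le_of_lt hx1) (le_of_lt hx2)).le
  obtain ⟨ε₁, δ₁, d₁, -, e1, s1, hδ₁, n1, c1, -⟩ :=
    (bc _ G _ _ isOpen_ball hbd).2.2.2 a.1 (mem_ball_self h1)
  obtain ⟨ε₂, δ₂, d₂, -, e2, -, hδ₂, n2, c2, -⟩ :=
    (bc _ G _ _ isOpen_ball hbd').2.2.2 a.1 (mem_ball_self h1)
  have e0 : 0 < min ε₁ ε₂ := lt_min e1 e2
  have b1 : ball a.1 (min ε₁ ε₂) ⊆ ball a.1 ε₁ := ball_subset_ball (min_le_left _ _)
  have b2 : ball a.1 (min ε₁ ε₂) ⊆ ball a.1 ε₂ := ball_subset_ball (min_le_right _ _)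
  have hδ : DifferentiableOn ℂ (fun t => δ₁ t * δ₂ t) (ball a.1 (min ε₁ ε₂)) :=
    (hδ₁.mono b1).mul (hδ₂.mono b2)
  have hn : NZ (fun t => δ₁ t * δ₂ t) (ball a.1 (min ε₁ ε₂)) :=
    NZ.mul isOpen_ball (n1.mono b1) (n2.mono b2) (hδ₁.mono b1).continuousOn
  have hcard : ∀ t ∈ ball a.1 (min ε₁ ε₂), δ₁ t * δ₂ t ≠ 0 →
      ({y | (t, y) ∈ Y ∩ univ ×ˢ ball a.2 ρ₂}.Finite ∧
        {y | (t, y) ∈ Y ∩ univ ×ˢ ball a.2 ρ₂}.ncard = d₁) ∧
      {y | (t, y) ∈ (Y ∩ B) ∩ univ ×ˢ ball a.2 ρ₂}.ncard = d₂ := fun t ht h0 =>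
    ⟨cov.card (c1 t ⟨b1 ht, left_ne_zero_of_mul h0⟩),
      (cov.card (c2 t ⟨b2 ht, right_ne_zero_of_mul h0⟩)).2⟩
  obtain ⟨-, t₁, ht₁, hz⟩ := h.slice (t₀ := a.1.2) hbig e0 hδ hn
  obtain ⟨z, ⟨hz1, hz2⟩, hz3⟩ := (hz.and hagr).exists
  have hzt : (z, t₁) ∈ ball a.1 (min ε₁ ε₂) := by
    rw [mem_ball, Prod.dist_eq]
    exact max_lt hz1 ht₁
  have hd : d₁ = d₂ := by
    obtain ⟨⟨-, k1⟩, k2⟩ := hcard _ hzt hz2
    rw [← k1, ← k2]
    congr 1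
    ext y
    refine ⟨fun hy => ⟨⟨hy.1, hz3 _ (hs (hsub ⟨s1 (b1 hzt), hy.2.2⟩)).1 rfl hy.1⟩, hy.2⟩,
      fun hy => ⟨hy.1.1, hy.2⟩⟩
  have key : ∀ q ∈ Y, q.1 ∈ ball a.1 (min ε₁ ε₂) → δ₁ q.1 * δ₂ q.1 ≠ 0 → q.2 ∈ ball a.2 ρ₂ →
      q ∈ B := by
    intro q hq hq1 hq0 hq2
    obtain ⟨⟨k0, k1⟩, k2⟩ := hcard _ hq1 hq0
    have k3 : {y | (q.1, y) ∈ (Y ∩ B) ∩ univ ×ˢ ball a.2 ρ₂} =
        {y | (q.1, y) ∈ Y ∩ univ ×ˢ ball a.2 ρ₂} :=
      eq_of_subset_of_ncard_le (fun y hy => ⟨hy.1.1, hy.2⟩) (by rw [k1, k2, hd]) k0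
    exact ((Set.ext_iff.1 k3 q.2).2 ⟨hq, trivial, hq2⟩).1.2
  have hopen : IsOpen (ball a.1 (min ε₁ ε₂) ×ˢ ball a.2 ρ₂) := isOpen_ball.prod isOpen_ball
  filter_upwards [hopen.mem_nhds ⟨mem_ball_self e0, mem_ball_self (h3.trans h4)⟩] with p hp hpY
  have hV := hs (hsub ⟨s1 (b1 hp.1), hp.2⟩)
  have k1 := PureMG.reg_clos isOpen_ball hn (hV.2.2 hpY) hp.1
  refine hV.2.1.mem_of_closure (closure_mono ?_ (hopen.inter_closure ⟨hp, k1⟩))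
  rintro q ⟨hq, hqY, hq1, hq0⟩
  exact key q hqY hq1 hq0 hq.2

theorem scale2S : Scale2S := by
  intro E _ _ _ m Y V A p hd hY hV hth hA hA1
  borelize E
  obtain ⟨L, e, he, hbox⟩ := (scaleS E (ℂ × ℂ) m Y (V ∩ {x | x ∈ closure Y → x ∈ Y}) p
    (by simpa using hd) (inter_mem hV hY.closed_nhds) (fun x hx => hx.2)
    (thinS.haus (thinS.mono hth (inter_subset_inter_right _ inter_subset_left))
      (by simp))).nonempty
  have hA' : IsCompact (L '' A) := hA.image L.continuous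
  have hA1' : Thin 1 (L '' A) :=
    thinS.image hA1 isOpen_univ (subset_univ _) L.differentiable.differentiableOn
  obtain ⟨L', e', -, hbox'⟩ := (scaleS (ℂ × ℂ) ℂ 1 (L '' A) univ (L p) (by simp) univ_mem
    (fun x _ hx => hA'.isClosed.closure_subset hx)
    (thinS.haus (thinS.mono hA1' inter_subset_left) (by simp))).nonempty
  let u : (Fin 1 → ℂ) ≃L[ℂ] ℂ := ContinuousLinearEquiv.funUnique (Fin 1) ℂ ℂ
  let g : (ℂ × ℂ) ≃L[ℂ] (ℂ × ℂ) := e'.trans ((ContinuousLinearEquiv.refl ℂ ℂ).prodCongr u)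
  refine ⟨e.trans (g.prodCongr (ContinuousLinearEquiv.refl ℂ _)), ?_, ?_⟩
  · have := AgrAux.box_map g id hbox (AgrAux.equiv_small g _) fun _ => rfl
    rwa [image_image] at this
  · have hu : ∀ y y' : Fin 1 → ℂ, dist (u y) (u y') = dist y y' := fun y y' => by
      simp [u, dist_pi_def]
    have := AgrAux.box_map id u hbox' (fun ε hε => ⟨ε, hε, fun _ hx => hx⟩) fun _ => hu _ _
    rw [image_image, image_image] at this
    simp only [← he] at this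
    exact this

theorem purModS (h : UqS) : PurModS := by
  intro S T G _ _ _ _ _ _ _ _ _ k l z₀ t₀ ε Y M hbig hε hM hY hagr
  obtain ⟨-, -, h3, h4⟩ := bc _ G M _ isOpen_ball hM
  obtain ⟨ε₁, δ, d, -, e1, -, hδ, hn, hc, -⟩ := h4 (z₀, t₀) (mem_ball_self hε)
  have e0 : 0 < min ε₁ ε := lt_min e1 hε
  have b1 : ball (z₀, t₀) (min ε₁ ε) ⊆ ball (z₀, t₀) ε₁ := ball_subset_ball (min_le_left _ _)
  have b2 : ball (z₀, t₀) (min ε₁ ε) ⊆ ball (z₀, t₀) ε := ball_subset_ball (min_le_right _ _)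
  have b3 : ball t₀ (min ε₁ ε) ⊆ ball t₀ ε := ball_subset_ball (min_le_right _ _)
  have hV : IsOpen (ball (z₀, t₀) ε ×ˢ (univ : Set G)) := isOpen_ball.prod isOpen_univ
  obtain ⟨r1, r2⟩ := pureS.regClos hV hM.1
  have hth : Thin (finrank ℂ (S × T)) (M ∩ ball (z₀, t₀) ε ×ˢ univ) := by
    refine thinS.mono (h3 _ _ Subset.rfl (thinS.mono (thinS.ofImage (φ := id) le_rfl
      (isOpen_ball (x := (z₀, t₀)) (ε := ε)) differentiableOn_id) fun x hx => ⟨x, hx, rfl⟩)) ?_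
    exact fun x hx => ⟨hx.1, hx.2.1⟩
  obtain ⟨R, hR⟩ := hM.2
  refine ⟨min ε₁ ε, closure (Reg M), e0, min_le_right _ _, ⟨fun q hq => ?_, R, fun q hq hq1 => ?_⟩,
    fun q hq => ?_, ?_⟩
  · have hqV : q ∈ ball (z₀, t₀) ε ×ˢ (univ : Set G) := ⟨b2 hq.1, trivial⟩
    exact regAn _ G M _ q (hM.1 q hqV) (hV.mem_nhds hqV) hth
  · exact hR q (r2 ⟨hq, b2 hq1, trivial⟩) (b2 hq1)
  · exact closure_mono r1 (hV.closure_inter ⟨hq.1, b2 hq.2, trivial⟩)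
  · obtain ⟨hz, -⟩ := h.slice hbig e0 (hδ.mono b1) (hn.mono b1)
    filter_upwards [hz, hY, hagr] with z ⟨hz1, hz2⟩ hYz hag t ht y
    have hb : ∀ s ∈ ball t₀ (min ε₁ ε), (z, s) ∈ ball (z₀, t₀) (min ε₁ ε) := fun s hs => by
      rw [mem_ball, Prod.dist_eq]
      exact max_lt hz1 hs
    refine ⟨fun hq => (hag t (b3 ht) y).1 (r2 ⟨hq, b2 (hb t ht), trivial⟩), fun hq => ?_⟩
    have k1 := PureMG.reg_clos (q := (t, y)) isOpen_ball hz2 (hYz ⟨hq, b3 ht⟩) ht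
    refine map_mem_closure (f := fun q : T × G => ((z, q.1), q.2)) (by fun_prop) k1 ?_
    rintro q ⟨hqY, hq1, hq0⟩
    exact cov.reg (hc _ ⟨b1 (hb _ hq1), hq0⟩) _ ((hag _ (b3 hq1) _).2 hqY)

end Pool.Agent.Lib.MP_823829_an.LA
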