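import Mathlib
import Pool.Agent.Lib.MP_823829_an.LA.All
import Pool.Agent.Lib.MP_823829_an.LA.Stmt2

/-! Bishop's theorem for closures of immersed pieces with bounded volume. -/

namespace Pool.Agent.Lib.MP_823829_an.LA

open Set Filter Topology Metric MeasureTheory Module
open scoped ENNReal NNReal

namespace Bish

variable {E T : Type} [NormedAddCommGroup E] [NormedSpace ℂ E] [FiniteDimensional ℂ E]
  [NormedAddCommGroup T] [NormedSpace ℂ T] [FiniteDimensional ℂ T] [MeasurableSpace T]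
  [BorelSpace T]

omit [NormedSpace ℂ E] [FiniteDimensional ℂ E] in
theorem map_eq [MeasurableSpace E] [BorelSpace E] (μ : Measure T) [μ.IsAddHaarMeasure]
    {g : T → E} {W : Set T} (hW : IsOpen W) (hg : ContinuousOn g W) (J : T → ℝ≥0∞) {S : Set E}
    (hS : MeasurableSet S) :
    ((μ.restrict W).withDensity J).map g S = ∫⁻ w in W ∩ g ⁻¹' S, J w ∂μ := by
  haveI : ProperSpace T := FiniteDimensional.proper ℂ T
  have h1 : AEMeasurable g ((μ.restrict W).withDensity J) :=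
    (hg.aemeasurable hW.measurableSet).mono_ac (withDensity_absolutelyContinuous _ _)
  rw [Measure.map_apply_of_aemeasurable h1 hS, withDensity_apply',
    Measure.restrict_restrict' hW.measurableSet, inter_comm]

theorem meas_det (g : T → E) (L : E →L[ℂ] T) :
    Measurable fun w => ‖(L.comp (fderiv ℂ g w)).det‖ₑ ^ 2 := by
  haveI : CompleteSpace E := FiniteDimensional.complete ℂ E
  borelize (T →L[ℂ] E)
  have hc : Continuous fun A : T →L[ℂ] E => (L.comp A).det :=
    ContinuousLinearMap.continuous_det.comp (by fun_prop)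
  exact (hc.measurable.comp (measurable_fderiv ℂ g)).enorm.pow_const 2

omit [NormedSpace ℂ E] [FiniteDimensional ℂ E] [NormedSpace ℂ T] [FiniteDimensional ℂ T] in
theorem meas_pre {g : T → E} {W : Set T} (hW : IsOpen W) (hg : ContinuousOn g W) {K : Set E}
    (hK : IsClosed K) : MeasurableSet (W ∩ g ⁻¹' K) := by
  have h1 : IsOpen (W ∩ g ⁻¹' Kᶜ) := hg.isOpen_inter_preimage hW hK.isOpen_compl
  have e : W ∩ g ⁻¹' K = W \ (W ∩ g ⁻¹' Kᶜ) := by
    ext x
    simp only [mem_inter_iff, mem_preimage, mem_diff, mem_compl_iff]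
    tauto
  rw [e]
  exact hW.measurableSet.diff h1.measurableSet

omit [FiniteDimensional ℂ E] in
theorem deg (μ : Measure T) [μ.IsAddHaarMeasure] {k : ℕ} (hk : finrank ℂ T = k + 1)
    {g : T → E} {W : Set T} (hg : Imm g W) {Z V K : Set E} (hK : IsClosed K) (hKV : K ⊆ V)
    (hT : Thin k ((Z \ g '' W) ∩ V)) (L : E →L[ℂ] T) (N : Set T) (d : ℕ)
    (hd : ∀ t ∈ N, (d : ℕ∞) ≤ (Z ∩ K ∩ L ⁻¹' {t}).encard) :
    d * μ N ≤ ∫⁻ w in W ∩ g ⁻¹' K, ‖(L.comp (fderiv ℂ g w)).det‖ₑ ^ 2 ∂μ := by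
  have hB : μ (L '' ((Z \ g '' W) ∩ V)) = 0 :=
    thinS.null μ (thinS.image hT isOpen_univ (subset_univ _) L.differentiable.differentiableOn)
      (by omega)
  have hA := meas_pre hg.op hg.hol.continuousOn hK
  have hφ : DifferentiableOn ℂ (fun w => L (g w)) W :=
    L.differentiable.comp_differentiableOn hg.hol
  rw [← measure_diff_null (s := N) hB]
  refine (areaS.ge μ (φ := fun w => L (g w)) (A := W ∩ g ⁻¹' K) hg.op hφ hA inter_subset_left
    fun t ht => ?_).trans_eq ?_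
  · refine (hd t ht.1).trans (le_trans (encard_le_encard ?_) (encard_image_le g _))
    rintro x ⟨⟨hxZ, hxK⟩, hxt⟩
    by_cases hx : x ∈ g '' W
    · obtain ⟨w, hw, rfl⟩ := hx
      exact ⟨w, ⟨⟨hw, hxK⟩, hxt⟩, rfl⟩
    · exact absurd ⟨x, ⟨⟨hxZ, hx⟩, hKV hxK⟩, hxt⟩ ht.2
  · refine setLIntegral_congr_fun hA fun w hw => ?_
    have h1 : HasFDerivAt (fun w => L (g w)) (L.comp (fderiv ℂ g w)) w :=
      L.hasFDerivAt.comp w ((hg.hol w hw.1).differentiableAt (hg.op.mem_nhds hw.1)).hasFDerivAt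
    simp only [h1.fderiv]

end Bish

theorem bishS (h1 : PureS) (h2 : MassS) (h3 : BishCoreS) : BishS := by
  intro E T ι _ _ _ _ _ _ _ _ μ _ k n l Z V g W P hk hV hZ hup hlow
  borelize E
  haveI : ProperSpace E := FiniteDimensional.proper ℂ E
  refine h3 E T ι μ k l Z V hk hV ?_ ?_ ?_
  · filter_upwards [hZ] with j hj
    exact ⟨hj.1, h1.ofImm (by omega) hj.2.1.op hj.2.1.hol hj.2.1.imm hj.2.2.1 hj.2.2.2.1⟩
  · refine h2 E ι l Z (fun j => ((μ.restrict (W j)).withDensity fun w =>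
      ∑ i, ‖((P i).comp (fderiv ℂ (g j) w)).det‖ₑ ^ 2).map (g j)) V ((2 * (k + 1) : ℕ) : ℝ) _ hV
      (Nat.cast_nonneg _) (by rw [hk]; push_cast; linarith) ?_ ?_
    · intro K hK hKV
      choose M hM using fun i => hup (P i) K hK hKV
      refine ⟨∑ i, M i, ?_⟩
      filter_upwards [hZ, eventually_all.2 hM] with j hj hMj
      rw [Bish.map_eq μ hj.2.1.op hj.2.1.hol.continuousOn _ hK.measurableSet,
        lintegral_finsetSum _ fun i _ => Bish.meas_det (g j) (P i), ENNReal.coe_finsetSum]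
      exact Finset.sum_le_sum fun i _ => hMj i
    · intro K hK hKV
      obtain ⟨c, ρ₀, hc, hρ₀, h⟩ := hlow K hK hKV
      refine ⟨c, ρ₀, hc, hρ₀, ?_⟩
      filter_upwards [hZ, h] with j hj h q hq ρ hρ hρ'
      rw [Bish.map_eq μ hj.2.1.op hj.2.1.hol.continuousOn _ measurableSet_ball, Real.rpow_natCast]
      exact h q hq ρ hρ hρ'
  · intro L K hK hKV
    obtain ⟨M, hM⟩ := hup L K hK hKV
    refine ⟨M, ?_⟩
    filter_upwards [hZ, hM] with j hj hMj N d hd
    exact (Bish.deg μ hk hj.2.1 hK.isClosed hKV hj.2.2.2.2 L N d hd).trans hMj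

end Pool.Agent.Lib.MP_823829_an.LA
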