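import Mathlib
import Pool.Agent.Lib.MP_823829_an.LA.All
import Pool.Agent.Lib.MP_823829_an.LA.Stmt2

/-! Bishop's theorem, geometric core. -/

namespace Pool.Agent.Lib.MP_823829_an.LA

open Set Filter Topology Metric MeasureTheory Module
open scoped ENNReal NNReal

namespace BishCore

theorem closed_ulim {X ι : Type} [TopologicalSpace X] (l : Filter ι) (Z : ι → Set X) {x : X}
    (hx : x ∈ closure (ulim l Z)) : x ∈ ulim l Z := fun W hW => by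
  obtain ⟨O, hO, ho, hxO⟩ := _root_.mem_nhds_iff.1 hW
  obtain ⟨y, hy, hyZ⟩ := mem_closure_iff.1 hx O ho hxO
  exact hyZ W (mem_of_superset (ho.mem_nhds hy) hO)

theorem ulim_loc {X ι : Type} [TopologicalSpace X] {l : Filter ι} {A B : ι → Set X} {O : Set X}
    {x : X} (hO : O ∈ 𝓝 x) (h : ∀ᶠ j in l, ∀ y ∈ O, y ∈ A j → y ∈ B j) (hx : x ∈ ulim l A) :
    x ∈ ulim l B := fun W hW => by
  filter_upwards [hx _ (inter_mem hW hO), h] with j ⟨y, hy, hyA⟩ hj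
  exact ⟨y, hy.1, hj y hy.2 hyA⟩

theorem miss {X ι : Type} [TopologicalSpace X] (l : Ultrafilter ι) (Z : ι → Set X) {S : Set X}
    (hS : IsCompact S) (h : ∀ x ∈ S, x ∉ ulim l Z) :
    ∀ᶠ j in (l : Filter ι), ∀ x ∈ S, x ∉ Z j := by
  refine hS.induction_on (p := fun s => ∀ᶠ j in (l : Filter ι), ∀ x ∈ s, x ∉ Z j)
    (by simp) (fun s t hst ht => ht.mono fun j hj x hx => hj x (hst hx))
    (fun s t hs ht => (hs.and ht).mono fun j hj x hx => hx.elim (hj.1 x) (hj.2 x)) ?_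
  intro x hx
  have := h x hx
  simp only [ulim, mem_ofPred_eq, not_forall] at this
  obtain ⟨W, hW, hn⟩ := this
  refine ⟨W, mem_nhdsWithin_of_mem_nhds hW, (Ultrafilter.eventually_not.2 hn).mono ?_⟩
  exact fun j hj y hy hyZ => hj ⟨y, hy, hyZ⟩

theorem ulim_image {X Y ι : Type} [TopologicalSpace X] [TopologicalSpace Y] (e : X ≃ₜ Y)
    (l : Filter ι) (Z : ι → Set X) : ulim l (fun j => e '' Z j) = e '' ulim l Z := by
  ext y
  obtain ⟨x, rfl⟩ := e.surjective y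
  rw [e.injective.mem_set_image]
  constructor
  · intro h W hW
    filter_upwards [h (e '' W) (e.isOpenMap.image_mem_nhds hW)] with j hj
    rwa [← image_inter e.injective, image_nonempty] at hj
  · intro h W hW
    filter_upwards [h (e ⁻¹' W) (e.continuous.continuousAt.preimage_mem_nhds hW)] with j hj
    obtain ⟨z, hz, hzZ⟩ := hj
    exact ⟨e z, hz, mem_image_of_mem _ hzZ⟩

theorem thin_open {T : Type} [NormedAddCommGroup T] [NormedSpace ℂ T] [FiniteDimensional ℂ T]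
    {k : ℕ} {U : Set T} (hk : finrank ℂ T ≤ k) (hU : IsOpen U) : Thin k U := by
  simpa using thinS.ofImage (φ := fun x : T => x) hk hU differentiableOn_id

theorem nat_bound {a : ℝ≥0∞} (ha : a ≠ 0) (M : ℝ≥0) : {d : ℕ | d * a ≤ M}.Finite := by
  obtain ⟨D, hD⟩ := ENNReal.exists_nat_mul_gt ha (b := M) ENNReal.coe_ne_top
  refine (finite_lt_nat D).subset fun d hd => ?_
  by_contra hn
  have : (D : ℝ≥0∞) ≤ d := by exact_mod_cast not_lt.1 hn
  exact absurd ((mul_le_mul_left this a).trans hd) (not_le.2 hD)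

variable {T F ι : Type} [NormedAddCommGroup T] [NormedSpace ℂ T] [FiniteDimensional ℂ T]
  [NormedAddCommGroup F] [NormedSpace ℂ F] [FiniteDimensional ℂ F]

omit [FiniteDimensional ℂ F] in
theorem full (h1 : PureS) [MeasurableSpace T] [BorelSpace T] (μ : Measure T) [μ.IsAddHaarMeasure]
    {d : ℕ} {Y : Set (T × F)} {U : Set T}
    (h : ∀ t₀ ∈ U, ∃ (ε : ℝ) (δ : T → ℂ), 0 < ε ∧ ball t₀ ε ⊆ U ∧
      DifferentiableOn ℂ δ (ball t₀ ε) ∧ NZ δ (ball t₀ ε) ∧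
      Cov d Y (ball t₀ ε ∩ {t | δ t ≠ 0})) : μ U ≤ μ {t | t ∈ U ∧ CovAt d Y t} := by
  have h0 : μ {t | t ∈ U ∧ ¬ CovAt d Y t} = 0 := by
    refine measure_null_of_locally_null _ fun x hx => ?_
    obtain ⟨ε, δ, hε, -, hd, hn, hc⟩ := h x hx.1
    refine ⟨ball x ε ∩ {t | δ t = 0}, ?_, h1.null μ isOpen_ball hd hn⟩
    filter_upwards [self_mem_nhdsWithin, mem_nhdsWithin_of_mem_nhds (ball_mem_nhds x hε)]
      with y hy hyb
    exact ⟨hyb, by_contra fun hne => hy.2 (hc y ⟨hyb, hne⟩)⟩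
  calc μ U ≤ μ ({t | t ∈ U ∧ CovAt d Y t} ∪ {t | t ∈ U ∧ ¬ CovAt d Y t}) :=
        measure_mono fun t ht => (em (CovAt d Y t)).imp (fun a => ⟨ht, a⟩) fun a => ⟨ht, a⟩
    _ ≤ _ := (measure_union_le _ _).trans (by rw [h0, add_zero])

theorem core (h1 : PureS) (h2 : PureMGS) [MeasurableSpace T] [BorelSpace T] (μ : Measure T)
    [μ.IsAddHaarMeasure] {k : ℕ} (l : Ultrafilter ι) {Z : ι → Set (T × F)} {V : Set (T × F)}
    {q : T × F} (hT : finrank ℂ T = k + 1) (hV : IsOpen V) (hq : q ∈ V)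
    (hZ : ∀ᶠ j in (l : Filter ι), AnOn (Z j) V ∧ Pure k (Z j) V) (hB : Box (ulim l Z) q)
    (hM : ∀ K : Set (T × F), IsCompact K → K ⊆ V → ∃ M : ℝ≥0, ∀ᶠ j in (l : Filter ι),
      ∀ (N : Set T) (d : ℕ), (∀ t ∈ N, (d : ℕ∞) ≤ (Z j ∩ K ∩ Prod.fst ⁻¹' {t}).encard) →
        d * μ N ≤ M) :
    AnAt (ulim l Z) q ∧ (∃ W ∈ 𝓝 q, Thin (k + 1) (ulim l Z ∩ W)) ∧
      (q ∈ ulim l Z → ∀ W ∈ 𝓝 q, ¬ Thin k (ulim l Z ∩ W)) := by
  have : ProperSpace F := FiniteDimensional.proper ℂ F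
  have : ProperSpace T := FiniteDimensional.proper ℂ T
  obtain ⟨η, hη, hb⟩ := Metric.isOpen_iff.1 hV q hq
  obtain ⟨ε, ρ₁, ρ₂, e1, e2, r1, r2, r3, hs⟩ := hB η hη
  have hK : closedBall q.1 ε ×ˢ closedBall q.2 ρ₂ ⊆ V := fun x hx => hb (by
    rw [mem_ball, Prod.dist_eq]
    exact max_lt (lt_of_le_of_lt hx.1 e2) (lt_of_le_of_lt hx.2 r3))
  have hO : ball q.1 ε ×ˢ ball q.2 ρ₂ ⊆ V :=
    (Set.prod_mono ball_subset_closedBall ball_subset_closedBall).trans hK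
  have hsh := miss l Z (S := closedBall q.1 ε ×ˢ (closedBall q.2 ρ₂ \ ball q.2 ρ₁))
    ((isCompact_closedBall _ _).prod ((isCompact_closedBall _ _).diff isOpen_ball))
    fun x hx hxZ => hx.2.2 (hs x hxZ hx.1 hx.2.1)
  obtain ⟨M, hM⟩ := hM _ ((isCompact_closedBall _ _).prod (isCompact_closedBall _ _)) hK
  have hpos : μ (ball q.1 ε) ≠ 0 := (measure_ball_pos μ _ e1).ne'
  have key : ∀ᶠ j in (l : Filter ι), ∃ d ∈ {d : ℕ | d * μ (ball q.1 ε) ≤ M},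
      ∃ τ : T → Fin d → F, MG τ (ball q.1 ε) ∧
        ov (Z j ∩ univ ×ˢ ball q.2 ρ₂) (ball q.1 ε) = ov (supp τ) (ball q.1 ε) := by
    filter_upwards [hZ, hsh, hM] with j hj hs' hM'
    have hbd : BdAn (Z j ∩ univ ×ˢ ball q.2 ρ₂) (ball q.1 ε) :=
      cut isOpen_ball isOpen_ball (isCompact_closedBall q.2 ρ₁) (closedBall_subset_ball r2)
        (hj.1.mono hO) fun x hx hx1 hx2 => by_contra fun hn => hs' x
          ⟨ball_subset_closedBall hx1, ball_subset_closedBall hx2,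
            fun h' => hn (ball_subset_closedBall h')⟩ hx
    have hp : Pure k (Z j ∩ univ ×ˢ ball q.2 ρ₂) (ball q.1 ε ×ˢ univ) := fun x hx =>
      h1.inter (isOpen_univ.prod isOpen_ball) hj.2 x ⟨hx.1, hO ⟨hx.2.1, hx.1.2.2⟩⟩
    obtain ⟨d, τ, a1, a2, -, a4⟩ := h2 T F _ _ isOpen_ball (convex_ball _ _).isPreconnected hbd
      (h1.toReg hT isOpen_ball hbd hp)
    refine ⟨d, (mul_le_mul_right (full h1 μ a4) _).trans (hM' _ d fun t ht => ?_), τ, a1, a2⟩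
    obtain ⟨c1, c2⟩ := cov.card ht.2
    rw [← c2, c1.cast_ncard_eq, ← (Prod.mk_right_injective t).encard_image]
    refine encard_le_encard ?_
    rintro _ ⟨y, hy, rfl⟩
    exact ⟨⟨hy.1, ball_subset_closedBall ht.1, ball_subset_closedBall hy.2.2⟩, rfl⟩
  obtain ⟨d, -, key⟩ := (Ultrafilter.eventually_exists_mem_iff (nat_bound hpos M)).1 key
  obtain ⟨τ, hτ⟩ := key.choice
  obtain ⟨σ, s1, s2, -, s4⟩ := ultMG T F ι l d τ (ball q.1 ε) (‖q.2‖ + ρ₂) isOpen_ball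
    (hτ.mono fun j hj => ⟨hj.1, fun t ht i => by
      have : (t, τ j t i) ∈ ov (Z j ∩ univ ×ˢ ball q.2 ρ₂) (ball q.1 ε) :=
        hj.2 ▸ ⟨⟨i, rfl⟩, ht⟩
      exact (norm_lt_of_mem_ball this.1.2.2).le⟩)
  have ho : IsOpen (ball q.1 ε ×ˢ ball q.2 ρ₂) := isOpen_ball.prod isOpen_ball
  have hqO : q ∈ ball q.1 ε ×ˢ ball q.2 ρ₂ := ⟨mem_ball_self e1, mem_ball_self (r1.trans r2)⟩
  have heq : ∀ x ∈ ball q.1 ε ×ˢ ball q.2 ρ₂, (x ∈ supp σ ↔ x ∈ ulim l Z) := fun x hx => by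
    have := Set.ext_iff.1 s4 x
    simp only [ov, mem_ofPred_eq, hx.1, and_true] at this
    rw [this]
    refine ⟨ulim_loc (ho.mem_nhds hx) (hτ.mono fun j hj y hy hy' => ?_),
      ulim_loc (ho.mem_nhds hx) (hτ.mono fun j hj y hy hy' => ?_)⟩
    · have : y ∈ ov (Z j ∩ univ ×ˢ ball q.2 ρ₂) (ball q.1 ε) := hj.2 ▸ ⟨hy', hy.1⟩
      exact this.1.1
    · have : y ∈ ov (supp (τ j)) (ball q.1 ε) := hj.2 ▸ ⟨⟨hy', trivial, hy.2⟩, hy.1⟩
      exact this.1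
  have han := mg.an isOpen_ball s1
  refine ⟨(han q ⟨hqO.1, trivial⟩).congr (eventually_of_mem (ho.mem_nhds hqO) heq),
    ⟨_, ho.mem_nhds hqO, thinS.mono ((bc T F (supp σ) _ isOpen_ball ⟨han, ‖q.2‖ + ρ₂, ?_⟩).2.2.1
      (k + 1) _ Subset.rfl (thin_open hT.le isOpen_ball))
      fun x hx => ⟨(heq x hx.2).2 hx.1, hx.2.1⟩⟩, fun hqZ W hW hth => ?_⟩
  · rintro x ⟨i, hi⟩ hx
    exact hi ▸ s2 _ hx i
  · exact h1.ofMG (k := k) (by omega) isOpen_ball s1 q ⟨(heq q hqO).2 hqZ, hqO.1, trivial⟩ _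
      (inter_mem hW (ho.mem_nhds hqO))
      (thinS.mono hth fun x hx => ⟨(heq x hx.2.2).1 hx.1, hx.2.1⟩)

end BishCore

open BishCore in
theorem bishCoreS (h1 : PureS) (h2 : PureMGS) : BishCoreS := by
  intro E T ι _ _ _ _ _ _ _ _ _ _ μ _ k l Z V hT hV hZ hH hM
  have loc : ∀ p ∈ V, AnAt (ulim l Z) p ∧ (∃ W ∈ 𝓝 p, Thin (k + 1) (ulim l Z ∩ W)) ∧
      (p ∈ ulim l Z → ∀ W ∈ 𝓝 p, ¬ Thin k (ulim l Z ∩ W)) := by
    intro p hp
    rcases le_or_gt (finrank ℂ E) k with hE | hE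
    · have h0 : ∀ x ∈ V, x ∉ ulim l Z := fun x hx hxZ => by
        obtain ⟨j, ⟨y, hy, hyZ⟩, -, hj⟩ := ((hxZ V (hV.mem_nhds hx)).and hZ).exists
        exact hj y ⟨hyZ, hy⟩ univ univ_mem
          (thinS.mono (thin_open hE isOpen_univ) (subset_univ _))
      exact ⟨anAt_of_eventually_notMem (eventually_of_mem (hV.mem_nhds hp) h0),
        ⟨V, hV.mem_nhds hp, thinS.mono (thinS.empty _) fun x hx => h0 x hx.2 hx.1⟩,
        fun h => absurd h (h0 p hp)⟩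
    obtain ⟨L, e, he, hB⟩ := (scaleS E T (finrank ℂ E - (k + 1)) (ulim l Z) V p (by omega)
      (hV.mem_nhds hp) (fun x _ hx => closed_ulim _ _ hx) hH).nonempty
    have hu : ulim l (fun j => e '' Z j) = e '' ulim l Z := ulim_image e.toHomeomorph _ Z
    obtain ⟨c1, ⟨W, hW, c2⟩, c3⟩ := core h1 h2 μ l (Z := fun j => e '' Z j) (V := e '' V)
      (q := e p) hT (e.toHomeomorph.isOpenMap V hV) (mem_image_of_mem _ hp)
      (hZ.mono fun j hj => ⟨by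
        rintro _ ⟨x, hx, rfl⟩
        exact (hj.1 x hx).image_equiv e, h1.equiv e hj.2⟩) (hu ▸ hB) fun K hK hKV => by
        obtain ⟨M, hM⟩ := hM L (e ⁻¹' K) (e.toHomeomorph.isCompact_preimage.2 hK)
          fun x hx => e.injective.mem_set_image.1 (hKV hx)
        refine ⟨M, hM.mono fun j hj N d hd => hj N d fun t ht => (hd t ht).trans ?_⟩
        rw [← e.injective.encard_image (Z j ∩ e ⁻¹' K ∩ L ⁻¹' {t})]
        refine encard_le_encard ?_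
        rintro _ ⟨⟨⟨x, hx, rfl⟩, hxK⟩, hxt⟩
        exact ⟨x, ⟨⟨hx, hxK⟩, (he x).symm.trans hxt⟩, rfl⟩
    rw [hu] at c1 c2 c3
    refine ⟨c1.of_image_equiv e, ⟨e ⁻¹' W, e.continuous.continuousAt.preimage_mem_nhds hW,
      thinS.mono (thinS.image c2 isOpen_univ (subset_univ _) e.symm.differentiableOn)
        fun x hx => ⟨e x, ⟨mem_image_of_mem _ hx.1, hx.2⟩, by simp⟩⟩, fun hpZ W' hW' hth => ?_⟩
    refine c3 (mem_image_of_mem _ hpZ) (e '' W') (e.toHomeomorph.isOpenMap.image_mem_nhds hW') ?_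
    rw [← image_inter e.injective]
    exact thinS.image hth isOpen_univ (subset_univ _) e.differentiableOn
  refine ⟨fun p hp => (loc p hp).1, thinS.loc fun p hp => ?_, fun p hp => (loc p hp.2).2.2 hp.1⟩
  obtain ⟨W, hW, h⟩ := (loc p hp.2).2.1
  exact ⟨W, hW, thinS.mono h fun x hx => ⟨hx.1.1, hx.2⟩⟩

end Pool.Agent.Lib.MP_823829_an.LA
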