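import Mathlib
import Pool.Agent.Lib.MP_823829_an.LA.All
import Pool.Agent.Lib.MP_823829_an.LA.Stmt2

/-! Bishop's theorem for graphs of meromorphic maps. -/

namespace Pool.Agent.Lib.MP_823829_an.LA

open Set Filter Topology Metric MeasureTheory Module
open scoped ENNReal NNReal

universe u

namespace BishX

variable {T F : Type} {X : Type u} [NormedAddCommGroup T] [NormedSpace ℂ T]
  [NormedAddCommGroup F] [NormedSpace ℂ F] [TopologicalSpace X] [ChartedSpace F X]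

theorem imm {f : T → X} {V : Set T} (hV : IsOpen V) (hf : HolX F f V) (x₀ : X) :
    Imm (fun w => (w, chartAt F x₀ (f w))) (V ∩ f ⁻¹' (chartAt F x₀).source) := by
  have ho : IsOpen (V ∩ f ⁻¹' (chartAt F x₀).source) :=
    hf.1.isOpen_inter_preimage hV (chartAt F x₀).open_source
  refine ⟨ho, differentiableOn_id.prodMk (hf.2 x₀), fun a _ b _ h => congrArg Prod.fst h,
    fun w hw a b h => ?_⟩
  have h1 : HasFDerivAt (fun w => (w, chartAt F x₀ (f w))) _ w := (hasFDerivAt_id w).prodMk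
    ((hf.2 x₀).differentiableAt (ho.mem_nhds hw)).hasFDerivAt
  rw [h1.fderiv] at h
  exact congrArg Prod.fst h

omit [NormedAddCommGroup T] [NormedSpace ℂ T] [NormedSpace ℂ F] in
theorem ch_sub {Γ : Set (T × X)} {D : Set T} {f : T → X}
    (hf : ∀ z ∈ one Γ D, (z, f z) ∈ Γ) (x₀ : X) {q : T × F} (hq : q ∈ ch F x₀ Γ)
    (h1 : q.1 ∈ one Γ D) : q ∈ (fun w => (w, chartAt F x₀ (f w))) ''
      (one Γ D ∩ f ⁻¹' (chartAt F x₀).source) := by
  have e : (chartAt F x₀).symm q.2 = f q.1 := h1.2.unique hq.2 (hf _ h1)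
  refine ⟨q.1, ⟨h1, ?_⟩, Prod.ext rfl ?_⟩
  · rw [mem_preimage, ← e]
    exact (chartAt F x₀).map_target hq.1
  · change chartAt F x₀ (f q.1) = q.2
    rw [← e, (chartAt F x₀).right_inv hq.1]

end BishX

theorem bishXS (h : XBall.{u}) (h1 : STall.{u}) (h2 : BishS) : BishXS.{u} := by
  intro T F ι X _ _ _ _ _ _ _ _ _ _ _ _ μ _ k n l Γ f D P hk hD hΓ hup hlo
  have xb := h T F X
  have key := fun x₀ : X => h2 (T × F) T ι μ k n l (fun j => ch F x₀ (Γ j))
    (D ×ˢ (chartAt F x₀).target) (fun j w => (w, chartAt F x₀ (f j w)))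
    (fun j => one (Γ j) D ∩ f j ⁻¹' (chartAt F x₀).source) P hk
    (hD.prod (chartAt F x₀).open_target) (hΓ.mono fun j hj => by
      have st := h1 T F X (Γ j) D hD hj.1
      refine ⟨hj.1.an x₀, BishX.imm st.op (st.hol _ hj.2) x₀, ?_, fun q hq => ?_,
        thinS.mono (st.thinSig k hk.le x₀) fun q hq =>
          ⟨hq.1.1.1, hq.1.1.2, fun h0 => hq.1.2 (BishX.ch_sub hj.2 x₀ hq.1.1 h0), mem_univ _⟩⟩
      · rintro _ ⟨w, hw, rfl⟩
        refine ⟨(chartAt F x₀).map_source hw.2, ?_⟩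
        rw [(chartAt F x₀).left_inv hw.2]
        exact hj.2 w hw.1
      · have h3 : q ∈ ch F x₀ (closure (Γ j ∩ one (Γ j) D ×ˢ univ)) :=
          ⟨hq.1.1, (st.clos.subset hq.1.2).1⟩
        rw [xb.chClos] at h3
        exact closure_mono (fun a ha => BishX.ch_sub hj.2 x₀ ⟨ha.1, ha.2.1⟩ ha.2.2.1) h3.1)
    (hup x₀) (hlo x₀)
  have ho : ∀ x₀ : X, IsOpen ((univ : Set T) ×ˢ (chartAt F x₀).target) := fun x₀ =>
    isOpen_univ.prod (chartAt F x₀).open_target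
  refine ⟨fun x₀ p hp => ?_, fun x₀ => thinS.mono (key x₀).2.1 fun q hq => ?_,
    fun x₀ q hq W hW ht => ?_⟩
  · rw [xb.chUlim]
    exact ((key x₀).1 p hp).inter_open ((ho x₀).mem_nhds ⟨mem_univ _, hp.2⟩)
  · have h3 : q ∈ ch F x₀ (ulimX l Γ) := ⟨hq.1, hq.2.1⟩
    rw [xb.chUlim] at h3
    exact ⟨h3.1, hq.2.2.1, hq.1⟩
  · rw [xb.chUlim] at hq ht
    rw [inter_assoc] at ht
    exact (key x₀).2.2 q ⟨hq.1.1, hq.2.1, hq.1.2.2⟩ _ (inter_mem ((ho x₀).mem_nhds hq.1.2) hW) ht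

end Pool.Agent.Lib.MP_823829_an.LA
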