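import Mathlib
import Pool.Agent.Lib.MP_823829_an.LA.All
import Pool.Agent.Lib.MP_823829_an.LA.Stmt2

/-! The closure of a holomorphic graph inside an analytic set is analytic. -/

namespace Pool.Agent.Lib.MP_823829_an.LA

open Set Filter Topology Metric MeasureTheory Module

universe u

namespace Clos

section flat
variable {T F : Type} [NormedAddCommGroup T] [NormedSpace ℂ T]
  [NormedAddCommGroup F] [NormedSpace ℂ F]

/-- the regular part only depends on the germ -/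
theorem reg_congr {Z Z' O : Set (T × F)} {q : T × F} (hq : q ∈ Reg Z) (hO : O ∈ 𝓝 q)
    (h : ∀ x ∈ O, (x ∈ Z ↔ x ∈ Z')) : q ∈ Reg Z' := by
  obtain ⟨hqZ, U, W, s, hU, hW, hqU, hqW, hs, hm, hZ⟩ := hq
  obtain ⟨U1, W1, hU1, hq1, hW1, hq2, hsub⟩ := mem_nhds_prod_iff'.1 (show O ∈ 𝓝 (q.1, q.2) from hO)
  have hqs : q.2 = s q.1 := (hZ q.1 hqU q.2 hqW).1 hqZ
  refine ⟨(h q (mem_of_mem_nhds hO)).1 hqZ, U1 ∩ (U ∩ s ⁻¹' W1), W ∩ W1, s,
    hU1.inter (hs.continuousOn.isOpen_inter_preimage hU hW1), hW.inter hW1,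
    ⟨hq1, hqU, by simpa [← hqs] using hq2⟩, ⟨hqW, hq2⟩,
    hs.mono fun t ht => ht.2.1, fun t ht => ⟨hm ht.2.1, ht.2.2⟩, fun t ht y hy => ?_⟩
  rw [← h (t, y) (hsub ⟨ht.1, hy.2⟩)]
  exact hZ t ht.2.1 y hy.1

/-- a regular point is a limit of points over a dense set -/
theorem reg_closure {Z : Set (T × F)} {V : Set T} {q : T × F} (hq : q ∈ Reg Z)
    (hV : q.1 ∈ closure V) : q ∈ closure (Z ∩ V ×ˢ univ) := by
  obtain ⟨hqZ, U, W, s, hU, -, hqU, hqW, hs, hm, hZ⟩ := hq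
  have hqs : q.2 = s q.1 := (hZ q.1 hqU q.2 hqW).1 hqZ
  have h1 : q.1 ∈ closure (U ∩ V) := hU.inter_closure ⟨hqU, hV⟩
  have h2 : ContinuousAt (fun t => (t, s t)) q.1 :=
    continuousAt_id.prodMk (hs.continuousOn.continuousAt (hU.mem_nhds hqU))
  have h3 := mem_closure_image h2 h1
  have h4 : (q.1, s q.1) = q := Prod.ext rfl hqs.symm
  rw [h4] at h3
  refine closure_mono ?_ h3
  rintro _ ⟨t, ht, rfl⟩
  exact ⟨(hZ t ht.1 _ (hm ht.1)).2 rfl, ht.2, trivial⟩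

variable [FiniteDimensional ℂ T] [FiniteDimensional ℂ F]

theorem flat {Z : Set (T × F)} {D V : Set T} {p : T × F} (hD : IsOpen D) (hV : IsOpen V)
    (hDV : D ⊆ closure V) (hp : p.1 ∈ D) (hZ : AnAt Z p) (hr : Z ∩ V ×ˢ univ ⊆ Reg Z)
    (ht : Thin (finrank ℂ T) (Z ∩ V ×ˢ univ)) :
    AnAt (closure (Z ∩ V ×ˢ univ)) p ∧
      ∃ W ∈ 𝓝 p, Thin (finrank ℂ T) (closure (Z ∩ V ×ˢ univ) ∩ W) := by
  have hVo : IsOpen (V ×ˢ (univ : Set F)) := hV.prod isOpen_univ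
  obtain ⟨Y', W, hW, hY', hsub, hG, hthin⟩ := desc (T × F) (finrank ℂ T) Z (Z ∩ V ×ˢ univ) p hZ
    inter_subset_left
    (fun q hq => by filter_upwards [hVo.mem_nhds hq.2] with x hx hxZ using ⟨hxZ, hx⟩) ht
  obtain ⟨W0, hW0, hW0o, hpW0⟩ := _root_.mem_nhds_iff.1
    (inter_mem hW ((hD.prod (isOpen_univ (X := F))).mem_nhds ⟨hp, trivial⟩))
  have h1 : W0 ∩ (Z ∩ V ×ˢ univ) ⊆ Reg Y' := fun q hq =>
    reg_congr (hr hq.2) ((hW0o.inter hVo).mem_nhds ⟨hq.1, hq.2.2⟩) fun x hx =>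
      ⟨fun hxZ => hG ⟨⟨hxZ, hx.2⟩, (hW0 hx.1).1⟩, fun hx' => hsub hx'⟩
  have h2 : W0 ∩ Reg Y' ⊆ closure (Z ∩ V ×ˢ univ) := fun q hq =>
    closure_mono (inter_subset_inter_left _ hsub) (reg_closure hq.2 (hDV (hW0 hq.1).2.1))
  refine ⟨(regAn T F Y' W p hY' hW hthin).congr ?_, W0 ∩ {x | x ∈ closure Y' → x ∈ Y'},
    inter_mem (hW0o.mem_nhds hpW0) hY'.closed_nhds, thinS.mono hthin fun x hx => ?_⟩
  · filter_upwards [hW0o.mem_nhds hpW0] with x hx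
    exact ⟨fun h => closure_minimal h2 isClosed_closure (hW0o.inter_closure ⟨hx, h⟩),
      fun h => closure_mono h1 (hW0o.inter_closure ⟨hx, h⟩)⟩
  · exact ⟨hx.2.2 (closure_mono (fun y hy => (h1 hy).1) (hW0o.inter_closure ⟨hx.2.1, hx.1⟩)),
      (hW0 hx.2.1).1⟩

end flat

section chart
variable {T : Type} [NormedAddCommGroup T] [NormedSpace ℂ T]
  {F : Type} [NormedAddCommGroup F] [NormedSpace ℂ F]
  {X : Type u} [TopologicalSpace X] [ChartedSpace F X]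

omit [NormedAddCommGroup T] [NormedSpace ℂ T] [NormedSpace ℂ F] in
theorem ch_inter (x₀ : X) (Y : Set (T × X)) (V : Set T) :
    ch F x₀ (Y ∩ V ×ˢ univ) = ch F x₀ Y ∩ V ×ˢ univ := by
  ext q
  simp only [ch, mem_inter_iff, mem_prod, mem_univ, and_true, Set.mem_ofPred_eq, and_assoc]

theorem ch_reg (x₀ : X) {Y : Set (T × X)} {V : Set T} {f : T → X} (hV : IsOpen V)
    (hf : HolX F f V) (hY : ∀ z ∈ V, ∀ x, ((z, x) ∈ Y ↔ x = f z)) :
    ch F x₀ Y ∩ V ×ˢ univ ⊆ Reg (ch F x₀ Y) := by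
  rintro q ⟨hq, hqV, -⟩
  have h1 : (chartAt F x₀).symm q.2 = f q.1 := (hY _ hqV _).1 hq.2
  refine ⟨hq, V ∩ f ⁻¹' (chartAt F x₀).source, (chartAt F x₀).target,
    fun z => chartAt F x₀ (f z), hf.1.isOpen_inter_preimage hV (chartAt F x₀).open_source,
    (chartAt F x₀).open_target, ⟨hqV, ?_⟩, hq.1, hf.2 x₀,
    fun t ht => (chartAt F x₀).map_source ht.2, fun t ht y hy => ?_⟩
  · show f q.1 ∈ (chartAt F x₀).source
    rw [← h1]
    exact (chartAt F x₀).map_target hq.1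
  · constructor
    · rintro ⟨-, h2⟩
      have h3 : (chartAt F x₀).symm y = f t := (hY _ ht.1 _).1 h2
      show y = chartAt F x₀ (f t)
      rw [← h3, (chartAt F x₀).right_inv hy]
    · rintro rfl
      exact ⟨hy, (hY _ ht.1 _).2 ((chartAt F x₀).left_inv ht.2)⟩

end chart

end Clos

theorem closS (h : XBall.{u}) : ClosS.{u} := by
  intro T F X _ _ _ _ _ _ _ _ _ _ Y D V hD hY hV hVD hDV h1
  have hx := h T F X
  have hsub : closure (Y ∩ V ×ˢ univ) ∩ D ×ˢ univ ⊆ Y := fun q hq =>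
    hx.closed hY ⟨closure_mono inter_subset_left hq.1, hq.2⟩
  have key : ∀ (x₀ : X) (p : T × F), p.1 ∈ D → p.2 ∈ (chartAt F x₀).target →
      AnAt (closure (ch F x₀ Y ∩ V ×ˢ univ)) p ∧
      ∃ W ∈ 𝓝 p, Thin (finrank ℂ T) (closure (ch F x₀ Y ∩ V ×ˢ univ) ∩ W) := by
    intro x₀ p hp1 hp2
    have : Nonempty X := ⟨x₀⟩
    choose! f hf hf' using h1
    have hYf : ∀ z ∈ V, ∀ x, ((z, x) ∈ Y ↔ x = f z) := fun z hz x =>
      ⟨hf' z hz x, fun hx' => hx' ▸ hf z hz⟩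
    have hol : HolX F f V := hx.hol hV (fun x₁ => (hY x₁).mono (prod_mono hVD Subset.rfl)) hYf
    refine Clos.flat hD hV hDV hp1 (hY x₀ p ⟨hp1, hp2⟩) (Clos.ch_reg x₀ hV hol hYf) ?_
    rw [← Clos.ch_inter]
    refine thinS.mono (hx.thinGr hV hol x₀) ?_
    rintro q ⟨hq1, hq2, hq3, -⟩
    exact ⟨hq1, hq3, (hYf _ hq3 _).1 hq2⟩
  have hch : ∀ x₀ : X, ch F x₀ (closure (Y ∩ V ×ˢ univ) ∩ D ×ˢ univ) =
      closure (ch F x₀ Y ∩ V ×ˢ univ) ∩ D ×ˢ (chartAt F x₀).target := fun x₀ => by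
    rw [Clos.ch_inter, hx.chClos, Clos.ch_inter, inter_assoc, prod_inter_prod, univ_inter,
      inter_univ]
  refine ⟨⟨inter_subset_right, fun x₀ p hp => ?_, V, hV, hVD, hDV, fun z hz => ?_, ?_⟩, hsub,
    fun x₀ => ?_⟩
  · rw [hch]
    exact (key x₀ p hp.1 hp.2).1.inter_open ((hD.prod (chartAt F x₀).open_target).mem_nhds hp)
  · obtain ⟨x, hx1, hx2⟩ := h1 z hz
    exact ⟨x, ⟨subset_closure ⟨hx1, hz, trivial⟩, hVD hz, trivial⟩, fun y hy => hx2 y (hsub hy)⟩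
  · refine inter_subset_left.trans (closure_mono fun q hq => ?_)
    exact ⟨⟨subset_closure hq, hVD hq.2.1, trivial⟩, hq.2⟩
  · rw [hch]
    refine thinS.loc fun p hp => ?_
    obtain ⟨W, hW, ht⟩ := (key x₀ p hp.2.1 hp.2.2).2
    exact ⟨W, hW, thinS.mono ht (inter_subset_inter_left _ inter_subset_left)⟩

theorem ofIrrS (h : XBall.{u}) (h1 : ClosS.{u}) : OfIrrS.{u} := by
  intro T F X _ _ _ _ _ _ _ _ _ _ Γ D V hD hΓ han hV hVD hDV hone hirr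
  have hx := h T F X
  obtain ⟨hA, hAΓ, -⟩ := h1 T F X Γ D V hD han hV hVD hDV hone
  set A := closure (Γ ∩ V ×ˢ univ) ∩ D ×ˢ univ with hAdef
  have hB : AnX F (closure (Γ \ A) ∩ D ×ˢ univ) D :=
    hx.congr hD (hx.diff han hA.an) (by rw [inter_assoc, inter_self])
  have hU : A ∪ closure (Γ \ A) ∩ D ×ˢ univ = Γ := by
    refine Subset.antisymm (union_subset hAΓ fun q hq =>
      hx.closed han ⟨closure_mono sdiff_subset hq.1, hq.2⟩) fun q hq => ?_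
    by_cases hqA : q ∈ A
    · exact Or.inl hqA
    · exact Or.inr ⟨subset_closure ⟨hq, hqA⟩, hΓ hq⟩
  rcases hirr _ _ hA.an hB hU with hE | hE
  · exact hE ▸ hA
  have hV0 : V = ∅ := by
    refine eq_empty_of_forall_notMem fun z hz => ?_
    obtain ⟨x, hzx, -⟩ := hone z hz
    have h2 : (z, x) ∈ closure (Γ \ A) := (hE.ge hzx).1
    obtain ⟨q, hq1, hq2, hq3⟩ := _root_.mem_closure_iff.1 h2 (V ×ˢ univ) (hV.prod isOpen_univ)
      ⟨hz, trivial⟩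
    exact hq3 ⟨subset_closure ⟨hq2, hq1⟩, hΓ hq2⟩
  have hE' : A = Γ := by
    refine Subset.antisymm hAΓ fun q hq => ?_
    have := hDV (hΓ hq).1
    rw [hV0, closure_empty] at this
    exact this.elim
  exact hE' ▸ hA

end Pool.Agent.Lib.MP_823829_an.LA
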