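import Mathlib
import Pool.Agent.Lib.MP_823829_an.LA.All
import Pool.Agent.Lib.MP_823829_an.LA.Stmt2

/-! Finite fibres of analytic subsets of `T × X` near a countable fibre. -/

namespace Pool.Agent.Lib.MP_823829_an.LA

open Set Filter Topology Metric MeasureTheory Module

universe u

namespace FinAux

theorem reg_inter {T F : Type} [NormedAddCommGroup T] [NormedSpace ℂ T]
    [NormedAddCommGroup F] [NormedSpace ℂ F] {Y : Set (T × F)} {W : Set F} (hW : IsOpen W)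
    {q : T × F} (hq : q ∈ Reg Y) (hqW : q.2 ∈ W) : q ∈ Reg (Y ∩ univ ×ˢ W) := by
  obtain ⟨hqY, U, W', s, hU, hW', hq1, hq2, hs, hm, hiff⟩ := hq
  have hs1 : q.2 = s q.1 := (hiff q.1 hq1 q.2 hq2).1 hqY
  refine ⟨⟨hqY, mem_univ _, hqW⟩, U ∩ s ⁻¹' W, W' ∩ W, s,
    hs.continuousOn.isOpen_inter_preimage hU hW, hW'.inter hW, ⟨hq1, ?_⟩, ⟨hq2, hqW⟩,
    hs.mono inter_subset_left, fun t ht => ⟨hm ht.1, ht.2⟩, fun t ht y hy => ?_⟩
  · show s q.1 ∈ W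
    rw [← hs1]; exact hqW
  · rw [← hiff t ht.1 y hy.1]
    exact ⟨fun h => h.1, fun h => ⟨h, mem_univ _, hy.2⟩⟩

section
variable {T F : Type} {X : Type u} [NormedAddCommGroup T] [NormedSpace ℂ T]
  [FiniteDimensional ℂ T] [NormedAddCommGroup F] [NormedSpace ℂ F] [FiniteDimensional ℂ F]
  [TopologicalSpace X] [ChartedSpace F X] {Γ : Set (T × X)} {D : Set T} {z : T}

/-- a bounded piece of `Γ` near a point of a countable fibre -/
theorem piece (h1 : PureS) (hD : IsOpen D) (hΓ : AnX F Γ D) (hz : z ∈ D)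
    (hc : {x | (z, x) ∈ Γ}.Countable) (x : X) {O : Set X} (hO : IsOpen O) (hx : x ∈ O) :
    ∃ ε ρ : ℝ, 0 < ε ∧ 0 < ρ ∧ ball z ε ⊆ D ∧
      ball (chartAt F x x) ρ ⊆ (chartAt F x).target ∩ (chartAt F x).symm ⁻¹' O ∧
      BdAn (ch F x Γ ∩ univ ×ˢ ball (chartAt F x x) ρ) (ball z ε) := by
  have hxs : x ∈ (chartAt F x).source := mem_chart_source F x
  have hxt : chartAt F x x ∈ (chartAt F x).target := (chartAt F x).map_source hxs
  have han : AnAt (ch F x Γ) (z, chartAt F x x) := hΓ x _ ⟨hz, hxt⟩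
  have hbox : Box (ch F x Γ) (z, chartAt F x x) := by
    refine h1.box han univ_mem ((hc.image (chartAt F x)).mono fun y hy => ?_)
    exact ⟨(chartAt F x).symm y, hy.1.2, (chartAt F x).right_inv hy.1.1⟩
  have hop : IsOpen ((chartAt F x).target ∩ (chartAt F x).symm ⁻¹' O) :=
    (chartAt F x).continuousOn_symm.isOpen_inter_preimage (chartAt F x).open_target hO
  have hV : D ×ˢ ((chartAt F x).target ∩ (chartAt F x).symm ⁻¹' O) ∈ 𝓝 (z, chartAt F x x) := by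
    refine (hD.prod hop).mem_nhds ⟨hz, hxt, ?_⟩
    show (chartAt F x).symm (chartAt F x x) ∈ O
    rw [(chartAt F x).left_inv hxs]; exact hx
  obtain ⟨ε, ρ₁, ρ₂, hε, hρ₁, hρ, hsub, -, -, hbd⟩ := hbox.cut han hV
  have hρ₂ : 0 < ρ₂ := hρ₁.trans hρ
  refine ⟨ε, ρ₂, hε, hρ₂, fun t ht => ?_, fun y hy => ?_, hbd⟩
  · exact (hsub (a := (t, chartAt F x x))
      ⟨ball_subset_closedBall ht, mem_closedBall_self hρ₂.le⟩).1
  · exact (hsub (a := (z, y)) ⟨mem_closedBall_self hε.le, ball_subset_closedBall hy⟩).2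

/-- finite fibres of a piece -/
theorem piece_fin (h1 : PureS) (hD : IsOpen D) (hΓ : AnX F Γ D) (hz : z ∈ D)
    (hc : {x | (z, x) ∈ Γ}.Countable) (x : X) :
    ∃ W : Set X, IsOpen W ∧ x ∈ W ∧ ∀ᶠ t in 𝓝 z, ({x' | (t, x') ∈ Γ} ∩ W).Finite := by
  obtain ⟨ε, ρ, hε, hρ, -, -, hbd⟩ := piece h1 hD hΓ hz hc x isOpen_univ (mem_univ x)
  have hxs : x ∈ (chartAt F x).source := mem_chart_source F x
  refine ⟨(chartAt F x).source ∩ chartAt F x ⁻¹' ball (chartAt F x x) ρ,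
    (chartAt F x).continuousOn.isOpen_inter_preimage (chartAt F x).open_source isOpen_ball,
    ⟨hxs, mem_ball_self hρ⟩, ?_⟩
  filter_upwards [ball_mem_nhds z hε] with t ht
  have hf := (bc T F _ _ isOpen_ball hbd).1 t ht
  refine (hf.image (chartAt F x).symm).subset fun x' hx' => ?_
  refine ⟨chartAt F x x', ⟨⟨(chartAt F x).map_source hx'.2.1, ?_⟩, mem_univ _, hx'.2.2⟩,
    (chartAt F x).left_inv hx'.2.1⟩
  show (t, (chartAt F x).symm (chartAt F x x')) ∈ Γ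
  rw [(chartAt F x).left_inv hx'.2.1]; exact hx'.1

/-- a pure piece has nonempty fibres, which are points if this is so on an open set -/
theorem piece_mg (hb : XBS T F X) (h1 : PureS) (h2 : PureMGS) (hD : IsOpen D) (hΓ : AnX F Γ D)
    (hz : z ∈ D) (hc : {x | (z, x) ∈ Γ}.Countable)
    (hr : Γ ∩ D ×ˢ univ ⊆ closure (RegX Γ)) (hcl : z ∈ closure (interior (one Γ D)))
    {x : X} (hxΓ : (z, x) ∈ Γ) {O : Set X} (hO : IsOpen O) (hx : x ∈ O) :
    ∃ W : Set X, IsOpen W ∧ x ∈ W ∧ W ⊆ O ∧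
      ∀ᶠ t in 𝓝 z, ∃! x', x' ∈ W ∧ (t, x') ∈ Γ := by
  obtain ⟨ε, ρ, hε, hρ, hsD, hsT, hbd⟩ := piece h1 hD hΓ hz hc x hO hx
  have hxs : x ∈ (chartAt F x).source := mem_chart_source F x
  have hxt : chartAt F x x ∈ (chartAt F x).target := (chartAt F x).map_source hxs
  set c := chartAt F x with hcdef
  set P : Set (T × F) := ch F x Γ ∩ univ ×ˢ ball (c x) ρ with hP
  have hpure : ov P (ball z ε) ⊆ closure (Reg P) := by
    rintro q ⟨⟨hq, -, hq2⟩, hq1⟩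
    have e1 : q ∈ ch F x (closure (RegX Γ)) := ⟨hq.1, hr ⟨hq.2, hsD hq1, mem_univ _⟩⟩
    rw [hb.chClos] at e1
    have e2 : q ∈ closure ((D ×ˢ ball (c x) ρ) ∩ ch F x (RegX Γ)) :=
      (hD.prod isOpen_ball).inter_closure ⟨⟨hsD hq1, hq2⟩, e1.1⟩
    refine closure_mono (fun p hp => ?_) e2
    have e3 : p ∈ ch F x (RegX Γ) ∩ D ×ˢ univ := ⟨hp.2, hp.1.1, mem_univ _⟩
    rw [hb.reg x hD hΓ] at e3
    exact reg_inter isOpen_ball e3.1 hp.1.2
  obtain ⟨d, τ, -, hov, hinj, hloc⟩ :=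
    h2 T F P (ball z ε) isOpen_ball (convex_ball z ε).isPreconnected hbd hpure
  have hmem : ∀ t ∈ ball z ε, ∀ y, ((t, y) ∈ P ↔ ∃ i, y = τ t i) := by
    intro t ht y
    have := Set.ext_iff.1 hov (t, y)
    exact ⟨fun h => (this.1 ⟨h, ht⟩).1, fun h => (this.2 ⟨h, ht⟩).1⟩
  have hzP : (z, c x) ∈ P := by
    refine ⟨⟨hxt, ?_⟩, mem_univ _, mem_ball_self hρ⟩
    show (z, c.symm (c x)) ∈ Γ
    rw [c.left_inv hxs]; exact hxΓ
  obtain ⟨i₀, -⟩ := (hmem z (mem_ball_self hε) _).1 hzP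
  obtain ⟨t₁, ht₁, ht₁'⟩ := mem_closure_iff.1 hcl _ isOpen_ball (mem_ball_self hε)
  obtain ⟨ε', δ, hε', hs', -, hnz, hcov⟩ := hloc t₁ ht₁
  obtain ⟨t₂, ht₂, hδ⟩ := hnz.exists (mem_ball_self hε')
    (inter_mem (ball_mem_nhds t₁ hε') (isOpen_interior.mem_nhds ht₁'))
  have hsub : ∀ i, i = i₀ := by
    intro i
    apply hinj t₂ (hs' ht₂.1) (hcov t₂ ⟨ht₂.1, hδ⟩)
    have a1 : (t₂, τ t₂ i) ∈ P := (hmem t₂ (hs' ht₂.1) _).2 ⟨i, rfl⟩
    have a2 : (t₂, τ t₂ i₀) ∈ P := (hmem t₂ (hs' ht₂.1) _).2 ⟨i₀, rfl⟩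
    have a3 : c.symm (τ t₂ i) = c.symm (τ t₂ i₀) :=
      (interior_subset ht₂.2).2.unique a1.1.2 a2.1.2
    exact c.symm.injOn a1.1.1 a2.1.1 a3
  refine ⟨c.source ∩ c ⁻¹' ball (c x) ρ,
    c.continuousOn.isOpen_inter_preimage c.open_source isOpen_ball,
    ⟨hxs, mem_ball_self hρ⟩, fun x' hx' => ?_, ?_⟩
  · have : c.symm (c x') ∈ O := (hsT hx'.2).2
    rwa [c.left_inv hx'.1] at this
  · filter_upwards [ball_mem_nhds z hε] with t ht
    have a2 : (t, τ t i₀) ∈ P := (hmem t ht _).2 ⟨i₀, rfl⟩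
    refine ⟨c.symm (τ t i₀), ⟨⟨c.map_target a2.1.1, ?_⟩, a2.1.2⟩, fun x' hx' => ?_⟩
    · show c (c.symm (τ t i₀)) ∈ ball (c x) ρ
      rw [c.right_inv a2.1.1]; exact a2.2.2
    · have a1 : (t, c x') ∈ P := by
        refine ⟨⟨c.map_source hx'.1.1, ?_⟩, mem_univ _, hx'.1.2⟩
        show (t, c.symm (c x')) ∈ Γ
        rw [c.left_inv hx'.1.1]; exact hx'.2
      obtain ⟨i, hi⟩ := (hmem t ht _).1 a1
      rw [← hsub i, ← hi, c.left_inv hx'.1.1]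

end

end FinAux

theorem finS (h : XBall.{u}) (h1 : PureS) (h2 : PureMGS) : FinS.{u} := by
  intro T F X _ _ _ _ _ _ _ _ _ _ Γ D z hD hΓ hz hc
  have hb := h T F X
  obtain ⟨hK, husc⟩ := hb.usc hD (hb.closed hΓ) z hz
  constructor
  · choose W hW hxW hfin using FinAux.piece_fin h1 hD hΓ hz hc
    obtain ⟨s, hs⟩ := hK.elim_finite_subcover W hW fun x _ => mem_iUnion.2 ⟨x, hxW x⟩
    have e1 := husc _ (isOpen_biUnion fun x _ => hW x) hs
    have e2 : ∀ᶠ t in 𝓝 z, ∀ x ∈ s, ({x' | (t, x') ∈ Γ} ∩ W x).Finite :=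
      (eventually_all_finset s).2 fun x _ => hfin x
    filter_upwards [e1, e2] with t a1 a2
    refine (s.finite_toSet.biUnion a2).subset fun x' hx' => ?_
    obtain ⟨x, hx, hx2⟩ := mem_iUnion₂.1 (a1 hx')
    exact mem_iUnion₂.2 ⟨x, hx, hx', hx2⟩
  · intro hr hcl
    have hfr : ∃ᶠ t in 𝓝 z, t ∈ one Γ D :=
      mem_closure_iff_frequently.1 (closure_mono interior_subset hcl)
    have hne : ∃ x, (z, x) ∈ Γ := by
      by_contra hn
      have e1 := husc ∅ isOpen_empty fun x hx => hn ⟨x, hx⟩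
      obtain ⟨t, ⟨-, x, hx, -⟩, ht⟩ := (hfr.and_eventually e1).exists
      exact ht hx
    obtain ⟨x, hx⟩ := hne
    have huniq : ∀ x', (z, x') ∈ Γ → x' = x := by
      intro x' hx'
      by_contra hne
      obtain ⟨O', O, hO', hO, hxO', hxO, hdis⟩ := t2_separation hne
      obtain ⟨W, -, -, hWO, hW⟩ := FinAux.piece_mg hb h1 h2 hD hΓ hz hc hr hcl hx hO hxO
      obtain ⟨W', -, -, hWO', hW'⟩ := FinAux.piece_mg hb h1 h2 hD hΓ hz hc hr hcl hx' hO' hxO'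
      obtain ⟨t, ht, ⟨a, ha, -⟩, ⟨a', ha', -⟩⟩ := (hfr.and_eventually (hW.and hW')).exists
      have : a' = a := ht.2.unique ha'.2 ha.2
      exact Set.disjoint_left.1 hdis (hWO' ha'.1) (this ▸ hWO ha.1)
    obtain ⟨W, hWo, hxW, -, hW⟩ :=
      FinAux.piece_mg hb h1 h2 hD hΓ hz hc hr hcl hx isOpen_univ (mem_univ x)
    have e1 := husc W hWo fun x' hx' => by rw [huniq x' hx']; exact hxW
    rw [mem_interior_iff_mem_nhds]
    filter_upwards [e1, hW, hD.mem_nhds hz] with t a1 a2 a3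
    obtain ⟨a, ha, hau⟩ := a2
    exact ⟨a3, a, ha.2, fun y hy => hau y ⟨a1 hy, hy⟩⟩

end Pool.Agent.Lib.MP_823829_an.LA
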