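import Mathlib
import Pool.Agent.Lib.MP_823829_an.LA.All
import Pool.Agent.Lib.MP_823829_an.LA.Stmt2

/-! Graphs of meromorphic maps: restriction, locality, uniqueness, irreducibility, pull-back. -/

namespace Pool.Agent.Lib.MP_823829_an.LA

open Set Filter Topology Metric

universe u

namespace GMerAux

variable {T F : Type} {X : Type u} [NormedAddCommGroup T] [NormedSpace ℂ T]
  [NormedAddCommGroup F] [NormedSpace ℂ F] [TopologicalSpace X] [ChartedSpace F X]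

theorem anX_mono {Γ : Set (T × X)} {D U : Set T} (h : AnX F Γ D) (hU : U ⊆ D) : AnX F Γ U :=
  fun x₀ => (h x₀).mono (prod_mono hU subset_rfl)

theorem anX_inter {Γ : Set (T × X)} {U : Set T} (hU : IsOpen U) (h : AnX F Γ U) :
    AnX F (Γ ∩ U ×ˢ univ) U := by
  intro x₀ p hp
  refine (h x₀ p hp).congr ?_
  filter_upwards [(hU.prod isOpen_univ).mem_nhds (⟨hp.1, trivial⟩ : p ∈ U ×ˢ (univ : Set F))]
    with q hq
  exact ⟨fun h1 => ⟨h1.1, h1.2, hq.1, trivial⟩, fun h1 => ⟨h1.1, h1.2.1⟩⟩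

theorem res {Γ : Set (T × X)} {D U : Set T} (h : GMer F Γ D) (hU : IsOpen U) (hUD : U ⊆ D) :
    GMer F (Γ ∩ U ×ˢ univ) U := by
  obtain ⟨V, hV, -, hDV, h1, hc⟩ := h.ex
  refine ⟨inter_subset_right, anX_inter hU (anX_mono h.an hUD), U ∩ V, hU.inter hV,
    inter_subset_left, fun z hz => hU.inter_closure ⟨hz, hDV (hUD hz)⟩, ?_, ?_⟩
  · rintro z ⟨hzU, hzV⟩
    obtain ⟨x, hx, hu⟩ := h1 z hzV
    exact ⟨x, ⟨hx, hzU, trivial⟩, fun y hy => hu y hy.1⟩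
  · rintro q ⟨hq, hqU⟩
    have := (hU.prod (isOpen_univ (X := X))).inter_closure ⟨hqU, hc hq⟩
    refine closure_mono ?_ this
    rintro p ⟨hp1, hp2, hp3⟩
    exact ⟨⟨hp2, hp1⟩, ⟨hp1.1, hp3.1⟩, trivial⟩

theorem loc {Γ : Set (T × X)} {D : Set T} (hs : Γ ⊆ D ×ˢ univ)
    (h : ∀ z ∈ D, ∃ U, IsOpen U ∧ z ∈ U ∧ U ⊆ D ∧ GMer F (Γ ∩ U ×ˢ univ) U) : GMer F Γ D := by
  have key : ∀ z ∈ D, ∃ U V : Set T, z ∈ U ∧ V ⊆ interior (one Γ D) ∧ U ⊆ closure V ∧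
      Γ ∩ U ×ˢ univ ⊆ closure (Γ ∩ V ×ˢ univ) := by
    intro z hz
    obtain ⟨U, -, hzU, hUD, hG⟩ := h z hz
    obtain ⟨V, hV, hVU, hUV, h1, hc⟩ := hG.ex
    refine ⟨U, V, hzU, interior_maximal (fun w hw => ⟨hUD (hVU hw), ?_⟩) hV, hUV,
      hc.trans (closure_mono fun p hp => ⟨hp.1.1, hp.2⟩)⟩
    obtain ⟨x, hx, hu⟩ := h1 w hw
    exact ⟨x, hx.1, fun y hy => hu y ⟨hy, hVU hw, trivial⟩⟩
  refine ⟨hs, ?_, interior (one Γ D), isOpen_interior, fun z hz => (interior_subset hz).1, ?_,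
    fun z hz => (interior_subset hz).2, ?_⟩
  · intro x₀ p hp
    obtain ⟨U, hU, hzU, -, hG⟩ := h p.1 hp.1
    refine (hG.an x₀ p ⟨hzU, hp.2⟩).congr ?_
    filter_upwards [(hU.prod isOpen_univ).mem_nhds (⟨hzU, trivial⟩ : p ∈ U ×ˢ (univ : Set F))]
      with q hq
    exact ⟨fun h1 => ⟨h1.1, h1.2.1⟩, fun h1 => ⟨h1.1, h1.2, hq.1, trivial⟩⟩
  · intro z hz
    obtain ⟨U, V, hzU, hV, hUV, -⟩ := key z hz
    exact closure_mono hV (hUV hzU)
  · intro q hq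
    obtain ⟨U, V, hzU, hV, -, hc⟩ := key q.1 (hs hq).1
    exact closure_mono (inter_subset_inter_right _ (prod_mono hV subset_rfl))
      (hc ⟨hq, hzU, trivial⟩)

theorem ofHol (hx : XBS T F X) {V : Set T} {f : T → X} (hV : IsOpen V) (hf : HolX F f V) :
    GMer F (gr f V) V :=
  ⟨fun _ hq => ⟨hq.1, trivial⟩, hx.anGr hV hf, V, hV, subset_rfl, subset_closure,
    fun z hz => ⟨f z, ⟨hz, rfl⟩, fun _ hy => hy.2⟩,
    fun _ hq => subset_closure ⟨hq, hq.1, trivial⟩⟩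

/-- a section of the graph over the points with one point fibres -/
theorem sec {T : Type} {X : Type u} {Γ : Set (T × X)} {D : Set T} (x₀ : X) :
    ∃ f : T → X, ∀ z ∈ one Γ D, (z, f z) ∈ Γ := by
  classical
  refine ⟨fun z => if h : ∃ x, (z, x) ∈ Γ then h.choose else x₀, fun z hz => ?_⟩
  have h : ∃ x, (z, x) ∈ Γ := hz.2.exists
  simp only [dif_pos h]
  exact h.choose_spec

/-- if the section lies in `A` then so does the graph -/
theorem sub_of_sec (hx : XBS T F X) {Γ A : Set (T × X)} {D : Set T} (hS : STS T F X Γ D)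
    (hA : AnX F A D) {f : T → X} (hf : ∀ z ∈ one Γ D, (z, f z) ∈ Γ)
    (h : one Γ D ⊆ {z | (z, f z) ∈ A}) : Γ ⊆ A := by
  have h1 : Γ ∩ one Γ D ×ˢ univ ⊆ A := by
    rintro ⟨z, x⟩ ⟨hq, hz, -⟩
    have : x = f z := hz.2.unique hq (hf z hz)
    subst this
    exact h hz
  intro q hq
  rw [hS.clos] at hq
  exact hx.closed hA ⟨closure_mono h1 hq.1, hq.2⟩

theorem conn_one {Γ : Set (T × X)} {D : Set T} (hS : STS T F X Γ D) (hD : IsOpen D)
    (hc : IsPreconnected D) : IsPreconnected (one Γ D) := by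
  have := hS.conn D hD hc subset_rfl
  rwa [inter_eq_right.2 fun z hz => hz.1] at this

theorem sub [FiniteDimensional ℂ T] (hx : XBS T F X) {Γ A : Set (T × X)} {D O : Set T}
    (hS : STS T F X Γ D) (hD : IsOpen D) (hc : IsPreconnected D) (hA : AnX F A D)
    (hO : IsOpen O) (hne : O.Nonempty) (hOD : O ⊆ D) (h : Γ ∩ O ×ˢ univ ⊆ A) : Γ ⊆ A := by
  obtain ⟨z₀, hz₀⟩ := hne
  obtain ⟨x₀, -⟩ := hS.surj z₀ (hOD hz₀)
  obtain ⟨f, hf⟩ := sec (Γ := Γ) (D := D) x₀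
  obtain ⟨z₁, hz₁O, hz₁⟩ := mem_closure_iff.1 (hS.dense (hOD hz₀)) O hO hz₀
  refine sub_of_sec hx hS hA hf ?_
  refine (hx.pre hS.op (anX_mono hA fun z hz => hz.1) (hS.hol f hf)).subset_of_mem_nhds
    (conn_one hS hD hc) hz₁ ?_
  filter_upwards [hO.mem_nhds hz₁O, hS.op.mem_nhds hz₁] with z h1 h2
  exact h ⟨hf z h2, h1, trivial⟩

theorem irr [FiniteDimensional ℂ T] (hx : XBS T F X) {Γ A B : Set (T × X)} {D : Set T}
    (hS : STS T F X Γ D) (hD : IsOpen D) (hc : IsPreconnected D) (hA : AnX F A D)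
    (hB : AnX F B D) (h : Γ ⊆ A ∪ B) : Γ ⊆ A ∨ Γ ⊆ B := by
  rcases Γ.eq_empty_or_nonempty with rfl | ⟨q, -⟩
  · exact Or.inl (empty_subset _)
  obtain ⟨f, hf⟩ := sec (Γ := Γ) (D := D) q.2
  have hh := hS.hol f hf
  rcases AnOn.irr (hx.pre hS.op (anX_mono hA fun z hz => hz.1) hh)
    (hx.pre hS.op (anX_mono hB fun z hz => hz.1) hh) hS.op (conn_one hS hD hc)
    (fun z hz => h (hf z hz)) with h1 | h1
  · exact Or.inl (sub_of_sec hx hS hA hf h1)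
  · exact Or.inr (sub_of_sec hx hS hB hf h1)

/-- the pull-back of an analytic set -/
theorem anX_pull {T' : Type} [NormedAddCommGroup T'] [NormedSpace ℂ T'] {Γ : Set (T × X)}
    {D : Set T} {D' W : Set T'} {φ : T' → T} (h : AnX F Γ D) (hW : IsOpen W) (hD' : D' ⊆ W)
    (hφ : DifferentiableOn ℂ φ W) (hm : MapsTo φ D' D) :
    AnX F {q : T' × X | (φ q.1, q.2) ∈ Γ} D' := by
  intro x₀ p hp
  have h1 : AnAt (ch F x₀ Γ) ((fun q : T' × F => (φ q.1, q.2)) p) := h x₀ _ ⟨hm hp.1, hp.2⟩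
  have h2 : DifferentiableOn ℂ (fun q : T' × F => φ q.1) (W ×ˢ univ) :=
    hφ.comp differentiableOn_fst fun q hq => hq.1
  have h3 : DifferentiableOn ℂ (fun q : T' × F => (φ q.1, q.2)) (W ×ˢ univ) :=
    h2.prodMk differentiableOn_snd
  exact AnAt.preimage (φ := fun q : T' × F => (φ q.1, q.2)) h1 (hW.prod isOpen_univ)
    ⟨hD' hp.1, trivial⟩ h3

theorem equiv {T' : Type} [NormedAddCommGroup T'] [NormedSpace ℂ T'] {Γ : Set (T × X)}
    {D : Set T} (e : T' ≃L[ℂ] T) (c : T) (h : GMer F Γ D) :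
    GMer F {q : T' × X | (e q.1 + c, q.2) ∈ Γ} {w | e w + c ∈ D} := by
  obtain ⟨V, hV, hVD, hDV, h1, hc⟩ := h.ex
  let ψ : T' ≃ₜ T := e.toHomeomorph.trans (Homeomorph.addRight c)
  let Ψ : T' × X ≃ₜ T × X := ψ.prodCongr (Homeomorph.refl X)
  refine ⟨fun q hq => ⟨(h.sub hq).1, trivial⟩,
    anX_pull (φ := fun w => e w + c) (W := univ) h.an isOpen_univ (subset_univ _) (by fun_prop)
      fun w hw => hw,
    ψ ⁻¹' V, hV.preimage ψ.continuous, fun w hw => hVD hw, ?_, fun w hw => h1 _ hw, ?_⟩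
  · intro w hw
    rw [← ψ.preimage_closure]
    exact hDV hw
  · intro q hq
    have h2 : q ∈ Ψ ⁻¹' closure (Γ ∩ V ×ˢ univ) := hc hq
    rw [Ψ.preimage_closure] at h2
    exact h2

end GMerAux

open GMerAux in
theorem gmAll (h : XBall.{u}) (h1 : ClosS.{u}) (h2 : STall.{u}) : GMall.{u} := by
  intro T F X _ _ _ _ _ _ _ _ _ _
  have hx := h T F X
  refine ⟨res, loc, ofHol hx, ?_, ?_, ?_, ?_, ?_⟩
  · intro Γ Γ' D O hD hc hΓ hΓ' hO hne hOD he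
    exact (sub hx (h2 T F X Γ D hD hΓ) hD hc hΓ'.an hO hne hOD
      (he.subset.trans inter_subset_left)).antisymm
      (sub hx (h2 T F X Γ' D hD hΓ') hD hc hΓ.an hO hne hOD
        (he.symm.subset.trans inter_subset_left))
  · intro Γ A B D hD hc hΓ hA hB hs
    exact irr hx (h2 T F X Γ D hD hΓ) hD hc hA hB hs
  · intro Γ A D O hD hc hΓ hA hO hne hOD hs
    exact sub hx (h2 T F X Γ D hD hΓ) hD hc hA hO hne hOD hs
  · intro T' _ _ _ Γ D D' φ hD hΓ hD' hφ hm hd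
    have hS := h2 T F X Γ D hD hΓ
    have h3 := (h1 T' F X {q : T' × X | (φ q.1, q.2) ∈ Γ} D' (D' ∩ φ ⁻¹' one Γ D) hD'
      (anX_pull hΓ.an hD' subset_rfl hφ hm)
      (hφ.continuousOn.isOpen_inter_preimage hD' hS.op) inter_subset_left hd
      fun z hz => hz.2.2).1
    have he : {q : T' × X | q.1 ∈ D' ∧ φ q.1 ∈ one Γ D ∧ (φ q.1, q.2) ∈ Γ} =
        {q : T' × X | (φ q.1, q.2) ∈ Γ} ∩ (D' ∩ φ ⁻¹' one Γ D) ×ˢ univ := by
      ext q
      exact ⟨fun hq => ⟨hq.2.2, ⟨hq.1, hq.2.1⟩, trivial⟩, fun hq => ⟨hq.2.1.1, hq.2.1.2, hq.1⟩⟩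
    rw [he]
    exact h3
  · intro T' _ _ _ Γ D e c hΓ
    exact equiv e c hΓ

end Pool.Agent.Lib.MP_823829_an.LA
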