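import Mathlib
import Pool.Agent.Lib.MP_823829_an.LA.All
import Pool.Agent.Lib.MP_823829_an.LA.Stmt2
import Pool.Agent.Lib.MP_823829_an.GM.Sep

/-! An analytic set which is a graph over an open set contains a meromorphic graph. -/

namespace Pool.Agent.Lib.MP_823829_an.LA

open Set Filter Topology Metric MeasureTheory Module

universe u

namespace LemM

section Top

variable {T : Type} {X : Type u} [TopologicalSpace T] [TopologicalSpace X]

lemma reg_sub (G : Set (T × X)) : RegX G ⊆ G := fun _ hq => hq.1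

/-- the regular part of an intermediate set -/
lemma reg_reg {G Γ : Set (T × X)} {D : Set T} (hD : IsOpen D) (h1 : Γ ⊆ G)
    (h2 : RegX G ∩ D ×ˢ univ ⊆ Γ) : RegX G ∩ D ×ˢ univ ⊆ RegX Γ := by
  rintro q ⟨hq, hqD⟩
  obtain ⟨-, U, W, s, hU, hW, hq1, hq2, hs, hm, hG⟩ := id hq
  refine ⟨h2 ⟨hq, hqD⟩, U ∩ D, W, s, hU.inter hD, hW, ⟨hq1, hqD.1⟩, hq2,
    hs.mono inter_subset_left, hm.mono_left inter_subset_left, fun t ht y hy => ⟨fun h => ?_, ?_⟩⟩
  · exact (hG t ht.1 y hy).1 (h1 h)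
  · intro h
    exact h2 ⟨⟨(hG t ht.1 y hy).2 h, U, W, s, hU, hW, ht.1, hy, hs, hm, hG⟩, ht.2, trivial⟩

/-- a regular point over the closure of `V` is a limit of points over `V` -/
lemma reg_lim {Γ : Set (T × X)} {V : Set T} {q : T × X} (hq : q ∈ RegX Γ)
    (hV : q.1 ∈ closure V) : q ∈ closure (Γ ∩ V ×ˢ univ) := by
  obtain ⟨hqΓ, U, W, s, hU, hW, hq1, hq2, hs, hm, hG⟩ := hq
  have h1 : q = (q.1, s q.1) := Prod.ext rfl ((hG q.1 hq1 q.2 hq2).1 hqΓ)
  have h2 : ContinuousWithinAt (fun t => (t, s t)) (U ∩ V) q.1 :=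
    (continuousWithinAt_id.prodMk (hs q.1 hq1)).mono inter_subset_left
  have h3 := h2.mem_closure_image (hU.inter_closure ⟨hq1, hV⟩)
  rw [h1]
  refine closure_mono ?_ h3
  rintro _ ⟨t, ht, rfl⟩
  exact ⟨(hG t ht.1 _ (hm ht.1)).2 rfl, ht.2, trivial⟩

lemma clos_congr {Y : Type} [TopologicalSpace Y] {A B V : Set Y} (hV : IsOpen V)
    (h : A ∩ V = B ∩ V) {x : Y} (hx : x ∈ V) (hA : x ∈ closure A) : x ∈ closure B := by
  have h1 := hV.closure_inter ⟨hA, hx⟩
  rw [h] at h1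
  exact closure_mono inter_subset_left h1

end Top

variable {T F : Type} {X : Type u} [NormedAddCommGroup T] [NormedSpace ℂ T]
  [NormedAddCommGroup F] [NormedSpace ℂ F] [TopologicalSpace X] [ChartedSpace F X]

omit [NormedAddCommGroup T] [NormedSpace ℂ T] [NormedSpace ℂ F] in
lemma ch_inter (x₀ : X) (A : Set (T × X)) (D : Set T) :
    ch F x₀ (A ∩ D ×ˢ univ) = ch F x₀ A ∩ D ×ˢ univ := by
  ext q
  simp only [ch, mem_inter_iff, mem_prod, mem_univ, and_true, mem_ofPred_eq, and_assoc]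

lemma an_mono {G : Set (T × X)} {D O : Set T} (h : AnX F G D) (hO : O ⊆ D) : AnX F G O :=
  fun x₀ => (h x₀).mono (prod_mono hO Subset.rfl)

variable [FiniteDimensional ℂ T] [FiniteDimensional ℂ F]

lemma an_clos (h : XBS T F X) {G : Set (T × X)} {D : Set T} (hD : IsOpen D) (hG : AnX F G D)
    (hT : ThinX F (finrank ℂ T) (G ∩ D ×ˢ univ)) :
    AnX F (closure (RegX G) ∩ D ×ˢ univ) D := by
  intro x₀ p hp
  have hDo : IsOpen (D ×ˢ (univ : Set F)) := hD.prod isOpen_univ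
  have h1 := regAn T F (ch F x₀ G) (D ×ˢ univ) p (hG x₀ p hp) (hDo.mem_nhds ⟨hp.1, trivial⟩)
    (by rw [← ch_inter]; exact hT x₀)
  refine h1.congr ?_
  filter_upwards [(hD.prod (chartAt F x₀).open_target).mem_nhds hp] with x hx
  have h2 := h.reg x₀ hD hG
  rw [ch_inter, h.chClos]
  exact ⟨fun h3 => ⟨⟨clos_congr hDo h2.symm ⟨hx.1, trivial⟩ h3, trivial, hx.2⟩, hx.1, trivial⟩,
    fun h3 => clos_congr hDo h2 ⟨hx.1, trivial⟩ h3.1.1⟩

omit [FiniteDimensional ℂ F] in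
/-- off a small set the fibres are countable -/
lemma exists_small (h : XBS T F X) {G : Set (T × X)} {D : Set T} (hD : IsOpen D)
    (hc : IsPreconnected D) (hT : ThinX F (finrank ℂ T) (G ∩ D ×ˢ univ))
    (hf : ∀ z ∈ D, {x | (z, x) ∈ G}.Countable → ∀ᶠ z' in 𝓝 z, {x | (z', x) ∈ G}.Finite) :
    ∃ P : Set T, Dense Pᶜ ∧ IsPreconnected (D \ P) ∧
      ∀ z ∈ D \ P, {x | (z, x) ∈ G}.Countable := by
  have h0 : ∀ z ∈ D, {x | (z, x) ∈ G ∩ D ×ˢ univ} = {x | (z, x) ∈ G} := by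
    intro z hz
    ext x
    simp [hz]
  rcases hn : finrank ℂ T with _ | k
  · rw [hn] at hT
    refine ⟨∅, by simp, by simpa using hc, fun z hz => ?_⟩
    rw [← h0 z hz.1]
    exact (h.unc0 hT).preimage (Prod.mk_right_injective z)
  · rw [hn] at hT
    have h1 := h.unc hT
    have h2 : ∀ z ∈ D \ {z | ¬ {x | (z, x) ∈ G ∩ D ×ˢ univ}.Countable},
        {x | (z, x) ∈ G}.Countable := by
      intro z hz
      rw [← h0 z hz.1]
      exact not_not.1 hz.2
    refine ⟨_, thinS.dense h1 (by omega), ?_, h2⟩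
    let : MeasurableSpace T := borel T
    have : BorelSpace T := ⟨rfl⟩
    refine GM.isPreconnected_diff_of_isOpen (s := 2 * (k : ℝ) + 1) (by positivity) ?_
      (thinS.haus h1 (by linarith)) hD hc ?_
    · rw [finrank_real_of_complex, hn]
      push_cast
      linarith
    · refine isOpen_iff_mem_nhds.2 fun z hz => ?_
      filter_upwards [hf z hz.1 (h2 z hz), hD.mem_nhds hz.1] with z' h3 h4
      refine ⟨h4, not_not.2 ?_⟩
      rw [h0 z' h4]
      exact h3.countable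

end LemM

open LemM

theorem lemMS (h : XBall.{u}) (_h1 : PureS) (h5 : FinS.{u}) : LemMS.{u} := by
  intro T F X _ _ _ _ _ _ _ _ _ _ G D O hD hc hG hT hO hne hOD h1
  have hx := h T F X
  have hDo : IsOpen (D ×ˢ (univ : Set X)) := hD.prod isOpen_univ
  set Γ := closure (RegX G) ∩ D ×ˢ univ with hΓ
  have hΓG : Γ ⊆ G := fun q hq => hx.closed hG ⟨closure_mono (reg_sub G) hq.1, hq.2⟩
  have hOR : G ∩ O ×ˢ univ ⊆ RegX G := by
    obtain ⟨z₀, hz₀⟩ := hne
    obtain ⟨x₀, -⟩ := h1 z₀ hz₀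
    have h2 : ∀ z : T, ∃ y : X, z ∈ O → ∀ x, ((z, x) ∈ G ↔ x = y) := by
      intro z
      by_cases hz : z ∈ O
      · obtain ⟨y, hy, hu⟩ := h1 z hz
        exact ⟨y, fun _ x => ⟨hu x, fun h3 => h3 ▸ hy⟩⟩
      · exact ⟨x₀, fun h3 => (hz h3).elim⟩
    choose f hf using h2
    have h3 := hx.hol hO (an_mono hG hOD) hf
    rintro q ⟨hq, hqO⟩
    exact ⟨hq, O, univ, f, hO, isOpen_univ, hqO.1, trivial, h3.1, mapsTo_univ _ _,
      fun t ht y _ => hf t ht y⟩
  have han : AnX F Γ D := an_clos hx hD hG hT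
  have hR : RegX G ∩ D ×ˢ univ ⊆ RegX Γ :=
    reg_reg hD hΓG fun q hq => ⟨subset_closure hq.1, hq.2⟩
  have hΓR : Γ ⊆ closure (RegX Γ) := fun q hq => closure_mono hR (hDo.closure_inter hq)
  obtain ⟨P, hP1, hP2, hP3⟩ := exists_small hx hD hc hT
    fun z hz h2 => (h5 T F X G D z hD hG hz h2).1
  have hOV : O ⊆ interior (one Γ D) := by
    refine interior_maximal (fun z hz => ⟨hOD hz, ?_⟩) hO
    obtain ⟨y, hy, hu⟩ := h1 z hz
    exact ⟨y, ⟨subset_closure (hOR ⟨hy, hz, trivial⟩), hOD hz, trivial⟩,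
      fun x h2 => hu x (hΓG h2)⟩
  have hDV : D \ P ⊆ interior (one Γ D) := by
    refine hP2.subset_of_closure_inter_subset isOpen_interior ?_ fun z hz => ?_
    · obtain ⟨z, hz1, hz2⟩ := hP1.inter_open_nonempty O hO hne
      exact ⟨z, ⟨hOD hz1, hz2⟩, hOV hz1⟩
    · exact (h5 T F X Γ D z hD han hz.2.1 ((hP3 z hz.2).mono fun x h2 => hΓG h2)).2
        (fun q hq => hΓR hq.1) hz.1
  have hDc : D ⊆ closure (interior (one Γ D)) :=
    (hP1.open_subset_closure_inter hD).trans (closure_mono hDV)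
  refine ⟨⟨inter_subset_right, han, interior (one Γ D), isOpen_interior,
    fun z hz => (interior_subset hz).1, hDc, fun z hz => (interior_subset hz).2, fun q hq => ?_⟩,
    hΓG, hOR⟩
  exact closure_minimal (fun q' hq' => reg_lim hq' (hDc hq'.1.2.1)) isClosed_closure (hΓR hq)

end Pool.Agent.Lib.MP_823829_an.LA
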