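import Pool.Agent.Lib.MP_823829_an.LA.Stmt2

/-! Mass bounds give a small limit set. -/

namespace Pool.Agent.Lib.MP_823829_an.LA

open Set Filter Topology Metric MeasureTheory
open scoped ENNReal NNReal

namespace Mass

variable {E : Type} [MetricSpace E]

lemma pack (A : Set E) (δ B : ℝ)
    (h : ∀ S : Finset E, ↑S ⊆ A → (S : Set E).Pairwise (fun a b => δ ≤ dist a b) → S.card ≤ B) :
    ∃ S : Finset E, S.card ≤ B ∧ ∀ a ∈ A, ∃ p ∈ S, a = p ∨ dist a p < δ := by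
  classical
  obtain ⟨S, h1, h2, h3⟩ := Nat.sSup_mem (s := {n | ∃ S : Finset E, ↑S ⊆ A ∧
    (S : Set E).Pairwise (fun a b => δ ≤ dist a b) ∧ S.card = n}) ⟨0, ∅, by simp⟩
    ⟨⌊B⌋₊, by rintro _ ⟨S, h1, h2, rfl⟩; exact Nat.le_floor (h S h1 h2)⟩
  refine ⟨S, h S h1 h2, fun a ha => ?_⟩
  by_contra hn
  push Not at hn
  have h4 : a ∉ S := fun h => (hn a h).1 rfl
  have h5 : (insert a S).card ≤ S.card := h3 ▸ le_csSup
    ⟨⌊B⌋₊, by rintro _ ⟨S, h1, h2, rfl⟩; exact Nat.le_floor (h S h1 h2)⟩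
    ⟨insert a S, by rw [Finset.coe_insert]; exact insert_subset ha h1, by
      rw [Finset.coe_insert]
      exact h2.insert fun b hb _ => ⟨(hn b hb).2, dist_comm a b ▸ (hn b hb).2⟩, rfl⟩
  rw [Finset.card_insert_of_notMem h4] at h5
  omega

variable [MeasurableSpace E] [BorelSpace E]

lemma fin_of_pack (A : Set E) {s C r : ℝ} (hs : 0 ≤ s) (hr : 0 < r)
    (h : ∀ ρ, 0 < ρ → ρ ≤ r → ∀ S : Finset E, ↑S ⊆ A →
      (S : Set E).Pairwise (fun a b => 4 * ρ ≤ dist a b) → S.card ≤ C / ρ ^ s) :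
    μH[s] A ≠ ∞ := by
  have h1 : ∀ ρ : ℝ, ∃ S : Finset E, 0 < ρ → ρ ≤ r → S.card ≤ C / ρ ^ s ∧
      ∀ a ∈ A, ∃ p ∈ S, a = p ∨ dist a p < 4 * ρ := fun ρ => by
    by_cases h0 : 0 < ρ ∧ ρ ≤ r
    · obtain ⟨S, hS⟩ := pack A _ _ (h ρ h0.1 h0.2)
      exact ⟨S, fun _ _ => hS⟩
    · exact ⟨∅, fun a b => absurd ⟨a, b⟩ h0⟩
  choose S hS using h1
  have h2 : ∀ᶠ ρ in 𝓝[>] (0 : ℝ), 0 < ρ ∧ ρ ≤ r := Ioc_mem_nhdsGT hr
  have h3 : ∀ (ρ : ℝ) (p : E), ediam (closedBall p (4 * ρ)) ≤ ENNReal.ofReal (8 * ρ) :=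
    fun ρ p => ediam_le_of_forall_dist_le fun a ha b hb => by
      linarith [dist_triangle_right a b p, mem_closedBall.1 ha, mem_closedBall.1 hb]
  have h4 : Tendsto (fun ρ : ℝ => ENNReal.ofReal (8 * ρ)) (𝓝[>] 0) (𝓝 0) := by
    have : Continuous fun ρ : ℝ => ENNReal.ofReal (8 * ρ) :=
      ENNReal.continuous_ofReal.comp (by fun_prop)
    simpa using (this.tendsto 0).mono_left nhdsWithin_le_nhds
  refine ne_top_of_le_ne_top (ENNReal.ofReal_ne_top (r := C * 8 ^ s))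
    ((Measure.hausdorffMeasure_le_liminf_sum (ι := fun ρ => S ρ) s A _ h4
      (fun ρ p => closedBall p (4 * ρ)) (Eventually.of_forall fun ρ p => h3 ρ p)
      (h2.mono fun ρ hρ a ha => ?_)).trans
      (liminf_le_of_frequently_le' (h2.mono fun ρ hρ => ?_).frequently))
  · obtain ⟨p, hp, e⟩ := (hS ρ hρ.1 hρ.2).2 a ha
    refine mem_iUnion.2 ⟨⟨p, hp⟩, ?_⟩
    rcases e with rfl | e
    · exact mem_closedBall_self (by linarith [hρ.1])
    · exact e.le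
  · have h0 := hρ.1
    refine (Finset.sum_le_card_nsmul _ _ (ENNReal.ofReal (8 * ρ) ^ s) fun (p : S ρ) _ =>
      ENNReal.rpow_le_rpow (h3 ρ p) hs).trans ?_
    rw [Finset.card_univ, Fintype.card_coe, nsmul_eq_mul,
      ENNReal.ofReal_rpow_of_pos (by positivity), ← ENNReal.ofReal_natCast,
      ← ENNReal.ofReal_mul (by positivity), Real.mul_rpow (by norm_num) h0.le]
    refine ENNReal.ofReal_le_ofReal ?_
    have h5 := (le_div_iff₀ (by positivity)).1 (hS ρ hρ.1 hρ.2).1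
    have h6 : (0 : ℝ) ≤ 8 ^ s := by positivity
    nlinarith

end Mass

theorem massS : MassS := by
  intro E ι _ _ _ _ l _ Z ν V s₀ s hV h0 h1 h2 h3
  refine measure_null_of_locally_null _ fun x hx => ?_
  obtain ⟨r, r0, hr⟩ : ∃ r > 0, closedBall x (2 * r) ⊆ V := by
    obtain ⟨r, r0, hr⟩ := nhds_basis_closedBall.mem_iff.1 (hV.mem_nhds hx.2)
    exact ⟨r / 2, by positivity, by rwa [mul_div_cancel₀ _ two_ne_zero]⟩
  obtain ⟨M, hM⟩ := h2 _ (isCompact_closedBall _ _) hr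
  obtain ⟨c, ρ₀, c0, p0, hc⟩ := h3 _ (isCompact_closedBall _ _) hr
  refine ⟨ulim l Z ∩ V ∩ closedBall x r, inter_mem_nhdsWithin _ (closedBall_mem_nhds x r0),
    (Measure.hausdorffMeasure_zero_or_top h1 _).resolve_right (Mass.fin_of_pack _ (C := M / c) h0
      (lt_min p0 (half_pos r0)) fun ρ a0 a1 S a2 a3 => ?_)⟩
  have b1 := a1.trans (min_le_left _ _)
  have b2 := a1.trans (min_le_right _ _)
  have b3 : ∀ᶠ j in l, ∀ p ∈ S, (ball p ρ ∩ Z j).Nonempty :=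
    (eventually_all_finset S).2 fun p hp => (a2 hp).1.1 _ (ball_mem_nhds p a0)
  obtain ⟨j, c1, c2, c3⟩ := (hM.and (hc.and b3)).exists
  have b4 : ∀ p ∈ S, ball p (2 * ρ) ⊆ closedBall x (2 * r) := fun p hp y hy => by
    have := mem_closedBall.1 (a2 hp).2
    rw [mem_ball] at hy
    rw [mem_closedBall]
    linarith [dist_triangle y p x]
  have b5 : ∀ p ∈ S, ENNReal.ofReal (c * ρ ^ s₀) ≤ ν j (ball p (2 * ρ)) := fun p hp => by
    obtain ⟨q, q1, q2⟩ := c3 p hp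
    exact (c2 q ⟨q2, b4 p hp (ball_subset_ball (by linarith) q1)⟩ ρ a0 b1).trans
      (measure_mono (ball_subset_ball' (by linarith [mem_ball.1 q1])))
  have b6 := (Finset.card_nsmul_le_sum _ _ _ b5).trans
    ((measure_biUnion_finset (μ := ν j) (fun a ha b hb hab => ball_disjoint_ball (by
      linarith [a3 ha hb hab])) fun p _ => measurableSet_ball).ge.trans
      ((measure_mono (iUnion₂_subset b4)).trans c1))
  rw [nsmul_eq_mul, ← ENNReal.ofReal_natCast, ← ENNReal.ofReal_mul (by positivity),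
    ← ENNReal.ofReal_coe_nnreal] at b6
  rw [div_div, le_div_iff₀ (by positivity)]
  exact (ENNReal.ofReal_le_ofReal_iff M.2).1 b6

end Pool.Agent.Lib.MP_823829_an.LA
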