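import Mathlib
import Pool.Agent.Lib.MP_823829_an.LA.All
import Pool.Agent.Lib.MP_823829_an.LA.Stmt2

/-! The non injectivity locus of a projection; nowhere dense analytic subsets. -/

namespace Pool.Agent.Lib.MP_823829_an.LA

open Set Filter Topology Metric MeasureTheory Module

theorem niS : NIS := by
  intro T F _ _ _ _ _ _ Y p hY
  let a : T × F × F → T × F := fun x => (x.1, x.2.1)
  let b : T × F × F → T × F := fun x => (x.1, x.2.2)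
  let c : T × F → T × F × F := fun q => (q.1, q.2, q.2)
  have ha : Differentiable ℂ a := by fun_prop
  have hb : Differentiable ℂ b := by fun_prop
  have hc : Differentiable ℂ c := by fun_prop
  have h1 : AnAt (a ⁻¹' Y ∩ b ⁻¹' Y) (c p) :=
    (AnAt.preimage' (φ := a) (q := c p) hY ha).inter (AnAt.preimage' (φ := b) (q := c p) hY hb)
  have h2 : AnAt {x : T × F × F | x.2.1 = x.2.2} (c p) :=
    anAt_zero (V := univ) (f := fun x : T × F × F => x.2.1 - x.2.2) isOpen_univ trivial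
      (by fun_prop) fun x _ => by simp [sub_eq_zero]
  have h3 := hY.inter ((diffAn _ _ _ _ h1 h2).preimage' hc)
  refine h3.congr (Eventually.of_forall fun q => and_congr_right fun _ => ?_)
  rw [mem_preimage]
  constructor
  · intro h W hW hinj
    have hN : a ⁻¹' W ∩ b ⁻¹' W ∈ 𝓝 (c q) :=
      inter_mem (ha.continuous.continuousAt.preimage_mem_nhds hW)
        (hb.continuous.continuousAt.preimage_mem_nhds hW)
    obtain ⟨x, ⟨x1, x2⟩, ⟨x3, x4⟩, x5⟩ := mem_closure_iff_nhds.1 h _ hN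
    exact x5 (congrArg Prod.snd (hinj ⟨x3, x1⟩ ⟨x4, x2⟩ rfl))
  · intro h
    rw [Metric.mem_closure_iff]
    intro ε hε
    have h4 := h (ball q ε) (ball_mem_nhds q hε)
    simp only [InjOn, not_forall] at h4
    obtain ⟨u, ⟨u1, u2⟩, v, ⟨v1, v2⟩, huv, hne⟩ := h4
    refine ⟨(u.1, u.2, v.2), ⟨⟨u1, ?_⟩, fun h5 => hne (Prod.ext huv h5)⟩, ?_⟩
    · change (u.1, v.2) ∈ Y
      rw [huv]
      exact v1
    · rw [mem_ball', Prod.dist_eq, max_lt_iff] at u2 v2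
      simp only [c, Prod.dist_eq, max_lt_iff]
      exact ⟨u2.1, u2.2, v2.2⟩

namespace NI

/-- two graphs through one point, one inside the other, agree near the point -/
theorem reg_eq {T F : Type} [NormedAddCommGroup T] [NormedSpace ℂ T] [NormedAddCommGroup F]
    [NormedSpace ℂ F] {Y Z : Set (T × F)} {x : T × F} {U : Set T} (hU : U ∈ 𝓝 x.1)
    (hZY : ∀ q ∈ Z, q.1 ∈ U → q ∈ Y) (hY : x ∈ Reg Y) (hZ : x ∈ Reg Z) :
    ∀ᶠ q in 𝓝 x, q ∈ Y → q ∈ Z := by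
  obtain ⟨-, U₁, W₁, s₁, hU₁, hW₁, x1, x2, -, -, e₁⟩ := hY
  obtain ⟨hx, U₂, W₂, s₂, hU₂, hW₂, x3, x4, hs₂, m₂, e₂⟩ := hZ
  have hx2 : x.2 = s₂ x.1 := (e₂ _ x3 _ x4).1 hx
  have hcont : ContinuousAt s₂ x.1 := hs₂.continuousOn.continuousAt (hU₂.mem_nhds x3)
  have h1 : ∀ᶠ t in 𝓝 x.1, s₂ t ∈ W₁ := hcont.preimage_mem_nhds (hW₁.mem_nhds (hx2 ▸ x2))
  have h2 : ∀ᶠ t in 𝓝 x.1, t ∈ U₁ ∧ t ∈ U₂ ∧ s₂ t = s₁ t := by
    filter_upwards [h1, hU, hU₁.mem_nhds x1, hU₂.mem_nhds x3] with t t1 t2 t3 t4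
    exact ⟨t3, t4, (e₁ t t3 _ t1).1 (hZY _ ((e₂ t t4 _ (m₂ t4)).2 rfl) t2)⟩
  filter_upwards [continuous_fst.continuousAt.eventually h2,
    continuous_snd.continuousAt.preimage_mem_nhds (hW₁.mem_nhds x2),
    continuous_snd.continuousAt.preimage_mem_nhds (hW₂.mem_nhds x4)] with q q1 q2 q3 hq
  exact (e₂ q.1 q1.2.1 q.2 q3).2 (((e₁ q.1 q1.1 q.2 q2).1 hq).trans q1.2.2.symm)

end NI

theorem ndS : NDS := by
  intro E _ _ _ k Y Z V hV hY hZ hZY hYt hd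
  rcases le_or_gt (finrank ℂ E) k with hk | hk
  · exact thinS.mono (thinS.ofImage (φ := (id : E → E)) (W := univ) hk isOpen_univ
      differentiableOn_id) (by simp)
  refine thinS.loc fun p hp => ?_
  borelize E
  obtain ⟨m, hm⟩ := Nat.exists_eq_add_of_le (Nat.succ_le_of_lt hk)
  have hT : finrank ℂ (Fin (k + 1) → ℂ) = k + 1 := by simp
  have hYp := hY p hp.2
  have hnull : μH[2 * (finrank ℂ (Fin (k + 1) → ℂ) : ℝ) + 1]
      (Y ∩ (V ∩ {x | x ∈ closure Y → x ∈ Y})) = 0 := by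
    refine thinS.haus (thinS.mono hYt (inter_subset_inter_right _ inter_subset_left)) ?_
    rw [hT]
    linarith
  obtain ⟨L, e, -, hB⟩ := (scaleS E (Fin (k + 1) → ℂ) m Y (V ∩ {x | x ∈ closure Y → x ∈ Y}) p
    (by rw [hT, hm]) (inter_mem (hV.mem_nhds hp.2) hYp.closed_nhds) (fun x hx => hx.2)
    hnull).nonempty
  have heV : e '' V ∈ 𝓝 (e p) :=
    (e.toHomeomorph.isOpenMap V hV).mem_nhds (mem_image_of_mem _ hp.2)
  obtain ⟨ε, ρ₁, ρ₂, hε, hρ₁, h12, hsub, -, hsh, hbY⟩ := hB.cut (hYp.image_equiv e) heV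
  have hin : ∀ x : (Fin (k + 1) → ℂ) × (Fin m → ℂ), x.1 ∈ ball (e p).1 ε → x.2 ∈ ball (e p).2 ρ₂ →
      x ∈ e '' V := fun x h1 h2 => hsub ⟨ball_subset_closedBall h1, ball_subset_closedBall h2⟩
  have hZY' : ∀ x ∈ e '' Z, x.1 ∈ ball (e p).1 ε → x.2 ∈ ball (e p).2 ρ₂ → x ∈ e '' Y := by
    rintro _ ⟨z, hz, rfl⟩ h1 h2
    obtain ⟨v, hv, hvz⟩ := hin _ h1 h2
    rw [e.injective hvz] at hv
    exact mem_image_of_mem _ (hZY ⟨hz, hv⟩)
  have hbZ : BdAn (e '' Z ∩ univ ×ˢ ball (e p).2 ρ₂) (ball (e p).1 ε) := by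
    refine cut (K := closedBall (e p).2 ρ₁) isOpen_ball isOpen_ball (isCompact_closedBall _ _)
      (closedBall_subset_ball h12) (fun x hx => ?_) fun x hx h1 h2 => ?_
    · obtain ⟨v, hv, rfl⟩ := hin x hx.1 hx.2
      exact (hZ v hv).image_equiv e
    · exact (hsh x (hZY' x hx h1 h2) (mem_ball.1 h1).le (mem_ball.1 h2).le).le
  obtain ⟨-, -, -, hcY⟩ := bc _ _ _ _ isOpen_ball hbY
  obtain ⟨-, -, hth, hcZ⟩ := bc _ _ _ _ isOpen_ball hbZ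
  obtain ⟨ε₁, δ₁, d₁, -, hε₁, hs₁, hδ₁, hn₁, hC₁, -⟩ := hcY (e p).1 (mem_ball_self hε)
  obtain ⟨ε₂, δ₂, d₂, -, hε₂, -, hδ₂, hn₂, hC₂, -⟩ := hcZ (e p).1 (mem_ball_self hε)
  set B := ball (e p).1 ε₁ ∩ ball (e p).1 ε₂ with hBdef
  have hBo : IsOpen B := isOpen_ball.inter isOpen_ball
  have hδ : DifferentiableOn ℂ (fun t => δ₁ t * δ₂ t) B :=
    (hδ₁.mono inter_subset_left).mul (hδ₂.mono inter_subset_right)
  have hn : NZ (fun t => δ₁ t * δ₂ t) B := NZ.mul hBo (hn₁.mono inter_subset_left)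
    (hn₂.mono inter_subset_right) (hδ₁.mono inter_subset_left).continuousOn
  obtain ⟨D, φ, hφ, -, hcover⟩ := zeroS _ k _ _ hT hBo hδ hn
  have hS : Thin k (B ∩ {t | δ₁ t * δ₂ t = 0}) :=
    ⟨D, φ, fun j => (hφ j).op, fun j => (hφ j).hol, hcover⟩
  have hS' := thinS.image (hth k _ (fun t ht => hs₁ ht.1.1) hS) isOpen_univ (subset_univ _)
    e.symm.differentiableOn
  refine ⟨e ⁻¹' (B ×ˢ ball (e p).2 ρ₂), ((hBo.prod isOpen_ball).preimage e.continuous).mem_nhds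
    ⟨⟨mem_ball_self hε₁, mem_ball_self hε₂⟩, mem_ball_self (hρ₁.trans h12)⟩,
    thinS.mono hS' ?_⟩
  rintro z ⟨hz, z1, z2⟩
  have hzZ : e z ∈ e '' Z ∩ univ ×ˢ ball (e p).2 ρ₂ := ⟨mem_image_of_mem _ hz.1, trivial, z2⟩
  refine ⟨e z, ⟨hzZ, z1, ?_⟩, by simp⟩
  by_contra hne
  have hne' := mul_ne_zero_iff.1 hne
  have r₁ := cov.reg (hC₁ (e z).1 ⟨z1.1, hne'.1⟩) (e z).2
    ⟨mem_image_of_mem _ (hZY hz), trivial, z2⟩
  have r₂ := cov.reg (hC₂ (e z).1 ⟨z1.2, hne'.2⟩) (e z).2 hzZ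
  have key := NI.reg_eq (x := e z) (Y := e '' Y ∩ univ ×ˢ ball (e p).2 ρ₂)
    (Z := e '' Z ∩ univ ×ˢ ball (e p).2 ρ₂) (isOpen_ball.mem_nhds (hs₁ z1.1))
    (fun q hq h1 => ⟨hZY' q hq.1 h1 hq.2.2, hq.2⟩) r₁ r₂
  have k1 := e.continuous.continuousAt.eventually key
  have k2 : ∀ᶠ x in 𝓝 z, (e x).2 ∈ ball (e p).2 ρ₂ :=
    (continuous_snd.comp e.continuous).continuousAt.preimage_mem_nhds (isOpen_ball.mem_nhds z2)
  obtain ⟨x, hx, x1, x2⟩ :=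
    ((mem_closure_iff_frequently.1 (hd hz)).and_eventually (k1.and k2)).exists
  obtain ⟨w, hw, hwx⟩ := (x1 ⟨mem_image_of_mem _ hx.1, trivial, x2⟩).1
  exact hx.2 (e.injective hwx ▸ hw)

end Pool.Agent.Lib.MP_823829_an.LA
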