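import Mathlib
import Pool.Agent.Lib.MP_823829_an.LA.All
import Pool.Agent.Lib.MP_823829_an.LA.Stmt2

/-! Elementary facts on subsets of `T × X` read in charts. -/

namespace Pool.Agent.Lib.MP_823829_an.LA

open Set Filter Topology Module

universe u

namespace XB

section top
variable {T : Type} (F : Type) {X : Type u} [TopologicalSpace F] [TopologicalSpace X]
  [ChartedSpace F X]

/-- back from the chart -/
def bk (x₀ : X) (q : T × F) : T × X := (q.1, (chartAt F x₀).symm q.2)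

theorem cover [CompactSpace X] :
    ∃ (n : ℕ) (x : Fin n → X), ∀ y, ∃ i, y ∈ (chartAt F (x i)).source := by
  obtain ⟨t, -, ht⟩ := isCompact_univ.elim_nhds_subcover (fun x : X => (chartAt F x).source)
    fun x _ => chart_source_mem_nhds F x
  refine ⟨t.card, fun i => t.equivFin.symm i, fun y => ?_⟩
  obtain ⟨x, hx, hy⟩ := mem_iUnion₂.1 (ht (mem_univ y))
  exact ⟨t.equivFin ⟨x, hx⟩, by simpa using hy⟩

variable [TopologicalSpace T]

theorem map_bk (x₀ : X) {q : T × F} (hq : q.2 ∈ (chartAt F x₀).target) :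
    map (bk F x₀) (𝓝 q) = 𝓝 (bk F x₀ q) :=
  ((OpenPartialHomeomorph.refl T).prod (chartAt F x₀)).symm.map_nhds_eq (x := q) ⟨trivial, hq⟩

theorem tgt (x₀ : X) {q : T × F} (hq : q.2 ∈ (chartAt F x₀).target) :
    ∀ᶠ y in 𝓝 q, y.2 ∈ (chartAt F x₀).target :=
  continuous_snd.continuousAt.eventually ((chartAt F x₀).open_target.mem_nhds hq)

theorem usc [CompactSpace X] {Γ : Set (T × X)} {D : Set T}
    (h : closure Γ ∩ D ×ˢ univ ⊆ Γ) (z : T) (hz : z ∈ D) :
    IsCompact {x | (z, x) ∈ Γ} ∧ ∀ W : Set X, IsOpen W → {x | (z, x) ∈ Γ} ⊆ W →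
      ∀ᶠ z' in 𝓝 z, {x | (z', x) ∈ Γ} ⊆ W := by
  have he : {x | (z, x) ∈ Γ} = (fun x => (z, x)) ⁻¹' closure Γ :=
    Subset.antisymm (fun x hx => subset_closure hx) fun x hx => h ⟨hx, hz, trivial⟩
  refine ⟨?_, fun W hW hs => ?_⟩
  · rw [he]
    exact (isClosed_closure.preimage (by fun_prop)).isCompact
  · have h1 : IsClosed (Prod.fst '' (closure Γ ∩ univ ×ˢ Wᶜ)) :=
      isClosedMap_fst_of_compactSpace _
        (isClosed_closure.inter (isClosed_univ.prod hW.isClosed_compl))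
    have h2 : z ∉ Prod.fst '' (closure Γ ∩ univ ×ˢ Wᶜ) := by
      rintro ⟨⟨a, x⟩, ⟨h3, -, h4⟩, rfl⟩
      exact h4 (hs (h ⟨h3, hz, trivial⟩))
    filter_upwards [h1.isOpen_compl.mem_nhds h2] with z' hz' x hx
    by_contra hn
    exact hz' ⟨(z', x), ⟨subset_closure hx, trivial, hn⟩, rfl⟩

end top

variable {T : Type} [NormedAddCommGroup T] [NormedSpace ℂ T]
  {F : Type} [NormedAddCommGroup F] [NormedSpace ℂ F]
  {X : Type u} [TopologicalSpace X] [ChartedSpace F X]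

omit [NormedAddCommGroup T] [NormedSpace ℂ T] [NormedSpace ℂ F] in
theorem mem_ch {x₀ : X} {Γ : Set (T × X)} {z : T} {x : X} (hx : x ∈ (chartAt F x₀).source) :
    (z, chartAt F x₀ x) ∈ ch F x₀ Γ ↔ (z, x) ∈ Γ := by
  simp only [ch, mem_ofPred_eq, (chartAt F x₀).left_inv hx, (chartAt F x₀).map_source hx, true_and]

omit [NormedSpace ℂ F] in
theorem symm_eq {x₀ x : X} {y : F} (hx : x ∈ (chartAt F x₀).source)
    (hy : y ∈ (chartAt F x₀).target) : (chartAt F x₀).symm y = x ↔ y = chartAt F x₀ x :=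
  ⟨fun h => by rw [← h, (chartAt F x₀).right_inv hy], fun h => by
    rw [h, (chartAt F x₀).left_inv hx]⟩

omit [NormedSpace ℂ T] [NormedSpace ℂ F] in
theorem chClos (x₀ : X) (S : Set (T × X)) :
    ch F x₀ (closure S) = closure (ch F x₀ S) ∩ univ ×ˢ (chartAt F x₀).target := by
  ext q
  have key : q.2 ∈ (chartAt F x₀).target →
      (bk F x₀ q ∈ closure S ↔ q ∈ closure (ch F x₀ S)) := fun hq => by
    rw [mem_closure_iff_frequently, mem_closure_iff_frequently, ← map_bk F x₀ hq, frequently_map]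
    refine frequently_congr ?_
    filter_upwards [tgt F x₀ hq] with y hy
    exact ⟨fun h => ⟨hy, h⟩, fun h => h.2⟩
  exact ⟨fun h => ⟨(key h.1).1 h.2, trivial, h.1⟩, fun h => ⟨h.2.2, (key h.2.2).2 h.1⟩⟩

omit [NormedSpace ℂ T] [NormedSpace ℂ F] in
theorem chUlim (x₀ : X) {ι : Type} (l : Filter ι) (Z : ι → Set (T × X)) :
    ch F x₀ (ulimX l Z) =
      ulim l (fun j => ch F x₀ (Z j)) ∩ univ ×ˢ (chartAt F x₀).target := by
  ext q
  constructor
  · rintro ⟨hq, h⟩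
    refine ⟨fun W hW => ?_, trivial, hq⟩
    have h1 : bk F x₀ '' (W ∩ {y | y.2 ∈ (chartAt F x₀).target}) ∈ 𝓝 (bk F x₀ q) := by
      rw [← map_bk F x₀ hq]
      exact image_mem_map (inter_mem hW (tgt F x₀ hq))
    filter_upwards [h _ h1] with j hj
    obtain ⟨_, ⟨y, ⟨hy, hy'⟩, rfl⟩, h2⟩ := hj
    exact ⟨y, hy, hy', h2⟩
  · rintro ⟨h, -, hq⟩
    refine ⟨hq, fun W hW => ?_⟩
    have h1 : bk F x₀ ⁻¹' W ∈ 𝓝 q := by
      rw [← mem_map, map_bk F x₀ hq]; exact hW
    filter_upwards [h _ h1] with j hj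
    obtain ⟨y, hy, hy'⟩ := hj
    exact ⟨bk F x₀ y, hy, hy'.2⟩

theorem closed {Γ : Set (T × X)} {D : Set T} (h : AnX F Γ D) : closure Γ ∩ D ×ˢ univ ⊆ Γ := by
  rintro ⟨z, x⟩ ⟨h1, h2, -⟩
  have hx := mem_chart_source F x
  have h3 := (mem_ch (F := F) hx).2 h1
  rw [chClos] at h3
  exact (mem_ch hx).1 ((h x _ ⟨h2, h3.2.2⟩).mem_of_closure h3.1)

theorem opn {V : Set T} {f : T → X} (hV : IsOpen V) (hf : HolX F f V) (x₀ : X) :
    IsOpen (V ∩ f ⁻¹' (chartAt F x₀).source) :=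
  hf.1.isOpen_inter_preimage hV (chartAt F x₀).open_source

theorem union {A B : Set (T × X)} {D : Set T} (hA : AnX F A D) (hB : AnX F B D) :
    AnX F (A ∪ B) D := fun x₀ p hp =>
  ((hA x₀ p hp).union (hB x₀ p hp)).congr (Eventually.of_forall fun _ => and_or_left.symm)

theorem inter {A B : Set (T × X)} {D : Set T} (hA : AnX F A D) (hB : AnX F B D) :
    AnX F (A ∩ B) D := fun x₀ p hp =>
  ((hA x₀ p hp).inter (hB x₀ p hp)).congr (Eventually.of_forall fun _ => and_and_left.symm)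

theorem congr {A B : Set (T × X)} {D : Set T} (hD : IsOpen D) (hA : AnX F A D)
    (h : A ∩ D ×ˢ univ = B ∩ D ×ˢ univ) : AnX F B D := fun x₀ p hp => by
  refine (hA x₀ p hp).congr ?_
  filter_upwards [continuous_fst.continuousAt.eventually (hD.mem_nhds hp.1)] with q hq
  have h1 := Set.ext_iff.1 h (bk F x₀ q)
  have h2 : bk F x₀ q ∈ D ×ˢ (univ : Set X) := ⟨hq, trivial⟩
  simp only [mem_inter_iff, h2, and_true] at h1
  exact and_congr_right fun _ => h1

theorem pre {A : Set (T × X)} {V : Set T} {f : T → X} (hV : IsOpen V) (hA : AnX F A V)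
    (hf : HolX F f V) : AnOn {z | (z, f z) ∈ A} V := fun z hz => by
  have hs := mem_chart_source F (f z)
  have h1 := (hA (f z) (z, chartAt F (f z) (f z)) ⟨hz, (chartAt F (f z)).map_source hs⟩).preimage
    (φ := fun w => (w, chartAt F (f z) (f w))) (opn hV hf (f z)) ⟨hz, hs⟩
    (differentiableOn_id.prodMk (hf.2 (f z)))
  refine h1.congr ?_
  filter_upwards [(opn hV hf (f z)).mem_nhds ⟨hz, hs⟩] with w hw
  exact mem_ch hw.2

theorem unc0 [CompactSpace X] {Γ : Set (T × X)} (h : ThinX F 0 Γ) : Γ.Countable := by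
  obtain ⟨n, x, hx⟩ := cover F (X := X)
  refine (countable_iUnion fun i => (thinS.zero.1 (h (x i))).image (bk F (x i))).mono ?_
  rintro ⟨z, y⟩ hy
  obtain ⟨i, hi⟩ := hx y
  exact mem_iUnion.2 ⟨i, _, (mem_ch hi).2 hy, Prod.ext rfl ((chartAt F (x i)).left_inv hi)⟩

theorem proj [CompactSpace X] {k : ℕ} {Γ : Set (T × X)} (h : ThinX F k Γ) :
    Thin k (Prod.fst '' Γ) := by
  obtain ⟨n, x, hx⟩ := cover F (X := X)
  refine thinS.mono (thinS.iUnion fun i => thinS.image (ψ := Prod.fst) (h (x i)) isOpen_univ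
    (subset_univ _) differentiableOn_fst) ?_
  rintro _ ⟨⟨z, y⟩, hy, rfl⟩
  obtain ⟨i, hi⟩ := hx y
  exact mem_iUnion.2 ⟨i, _, (mem_ch hi).2 hy, rfl⟩

theorem anGr [FiniteDimensional ℂ F] [T2Space X] {V : Set T} {f : T → X} (hV : IsOpen V)
    (hf : HolX F f V) : AnX F (gr f V) V := fun x₀ p hp => by
  by_cases hs : f p.1 ∈ (chartAt F x₀).source
  · refine anAt_zero (V := (V ∩ f ⁻¹' (chartAt F x₀).source) ×ˢ (chartAt F x₀).target)
      (f := fun q => q.2 - chartAt F x₀ (f q.1)) ((opn hV hf x₀).prod (chartAt F x₀).open_target)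
      ⟨⟨hp.1, hs⟩, hp.2⟩
      (differentiableOn_snd.sub ((hf.2 x₀).comp differentiableOn_fst fun q hq => hq.1))
      fun q hq => ?_
    rw [sub_eq_zero, ← symm_eq hq.1.2 hq.2]
    exact ⟨fun h => h.2.2, fun h => ⟨hq.2, hq.1.1, h⟩⟩
  · have h1 : ContinuousAt (fun q : T × F => ((chartAt F x₀).symm q.2, f q.1)) p :=
      (((chartAt F x₀).continuousAt_symm hp.2).comp continuous_snd.continuousAt).prodMk
        ((hf.1.continuousAt (hV.mem_nhds hp.1)).comp continuous_fst.continuousAt)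
    have h2 : ((chartAt F x₀).symm p.2, f p.1) ∈ (diagonal X)ᶜ := fun h =>
      hs (by rw [← show (chartAt F x₀).symm p.2 = f p.1 from h]; exact (chartAt F x₀).map_target hp.2)
    refine anAt_of_eventually_notMem ?_
    filter_upwards [h1.eventually (isClosed_diagonal.isOpen_compl.mem_nhds h2)] with q hq h
    exact hq h.2.2

variable [FiniteDimensional ℂ T]

theorem thinGr {V : Set T} {f : T → X} (hV : IsOpen V) (hf : HolX F f V) :
    ThinX F (finrank ℂ T) (gr f V) := fun x₀ => by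
  refine thinS.mono (thinS.ofImage (φ := fun w => (w, chartAt F x₀ (f w))) le_rfl (opn hV hf x₀)
    (differentiableOn_id.prodMk (hf.2 x₀))) ?_
  rintro ⟨z, y⟩ ⟨h1, h2, h3⟩
  have hs : f z ∈ (chartAt F x₀).source := by
    rw [← show (chartAt F x₀).symm y = f z from h3]; exact (chartAt F x₀).map_target h1
  exact ⟨z, ⟨h2, hs⟩, Prod.ext rfl ((symm_eq hs h1).1 h3).symm⟩

variable [FiniteDimensional ℂ F]

theorem hol [CompactSpace X] {Γ : Set (T × X)} {V : Set T} {f : T → X} (hV : IsOpen V)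
    (hA : AnX F Γ V) (h : ∀ z ∈ V, ∀ x, ((z, x) ∈ Γ ↔ x = f z)) : HolX F f V := by
  have hc : ContinuousOn f V := fun z hz => by
    refine (ContinuousAt.continuousWithinAt (tendsto_nhds.2 fun W hW hz' => ?_))
    filter_upwards [(usc (closed hA) z hz).2 W hW fun x hx => ((h z hz x).1 hx).symm ▸ hz',
      hV.mem_nhds hz] with z' h1 h2
    exact h1 ((h z' h2 _).2 rfl)
  refine ⟨hc, fun x₀ => graphHol T F (ch F x₀ Γ) _ (chartAt F x₀).target _
    (hc.isOpen_inter_preimage hV (chartAt F x₀).open_source) (chartAt F x₀).open_target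
    ((chartAt F x₀).continuousOn.comp (hc.mono inter_subset_left) fun t ht => ht.2)
    (fun t ht => (chartAt F x₀).map_source ht.2)
    ((hA x₀).mono (prod_mono inter_subset_left Subset.rfl)) fun t ht y hy => ?_⟩
  rw [← symm_eq ht.2 hy, ← h t ht.1]
  exact ⟨fun h => h.2, fun h => ⟨hy, h⟩⟩

theorem diff {A B : Set (T × X)} {D : Set T} (hA : AnX F A D) (hB : AnX F B D) :
    AnX F (closure (A \ B)) D := fun x₀ p hp => by
  have he : ch F x₀ (A \ B) = ch F x₀ A \ ch F x₀ B :=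
    Set.ext fun q => ⟨fun h => ⟨⟨h.1, h.2.1⟩, fun h' => h.2.2 h'.2⟩,
      fun h => ⟨h.1.1, h.1.2, fun h' => h.2 ⟨h.1.1, h'⟩⟩⟩
  rw [chClos, he]
  exact (diffAn _ _ _ p (hA x₀ p hp) (hB x₀ p hp)).inter_open
    ((isOpen_univ.prod (chartAt F x₀).open_target).mem_nhds ⟨trivial, hp.2⟩)

theorem ident [T2Space X] {V : Set T} {f g : T → X} {z : T} (hV : IsOpen V)
    (hc : IsPreconnected V) (hf : HolX F f V) (hg : HolX F g V) (hz : z ∈ V)
    (h : f =ᶠ[𝓝 z] g) : EqOn f g V := fun w hw => by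
  refine ((pre hV (anGr hV hg) hf).subset_of_mem_nhds hc hz ?_ hw).2
  filter_upwards [h, hV.mem_nhds hz] with t h1 h2
  exact ⟨h2, h1⟩

theorem unc [CompactSpace X] {k : ℕ} {Γ : Set (T × X)} (h : ThinX F (k + 1) Γ) :
    Thin k {z | ¬ {x | (z, x) ∈ Γ}.Countable} := by
  obtain ⟨n, x, hx⟩ := cover F (X := X)
  refine thinS.mono (thinS.iUnion fun i => rank (T × F) T k Prod.fst _ univ (h (x i)) isOpen_univ
    (subset_univ _) differentiableOn_fst) fun z hz => ?_
  by_contra hn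
  simp only [mem_iUnion, mem_ofPred_eq, not_exists, not_not] at hn
  refine hz ((countable_iUnion fun i =>
    (hn i).image fun q => (chartAt F (x i)).symm q.2).mono fun y hy => ?_)
  obtain ⟨i, hi⟩ := hx y
  exact mem_iUnion.2 ⟨i, _, ⟨(mem_ch hi).2 hy, rfl⟩, (chartAt F (x i)).left_inv hi⟩

theorem reg {Γ : Set (T × X)} {D : Set T} (x₀ : X) (hD : IsOpen D) (hA : AnX F Γ D) :
    ch F x₀ (RegX Γ) ∩ D ×ˢ univ = Reg (ch F x₀ Γ) ∩ D ×ˢ univ := by
  ext q
  refine and_congr_left fun hqD => ⟨?_, ?_⟩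
  · rintro ⟨hq, hΓ, U, W, s, hU, hW, h1, h2, hs, hm, hi⟩
    have hU' : IsOpen (U ∩ s ⁻¹' (chartAt F x₀).source ∩ D) :=
      (hs.isOpen_inter_preimage hU (chartAt F x₀).open_source).inter hD
    have hW' : IsOpen ((chartAt F x₀).target ∩ (chartAt F x₀).symm ⁻¹' W) :=
      (chartAt F x₀).isOpen_inter_preimage_symm hW
    have h3 : s q.1 ∈ (chartAt F x₀).source := by
      rw [← show (chartAt F x₀).symm q.2 = s q.1 from (hi _ h1 _ h2).1 hΓ]
      exact (chartAt F x₀).map_target hq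
    have hm' : MapsTo (fun t => chartAt F x₀ (s t)) (U ∩ s ⁻¹' (chartAt F x₀).source ∩ D)
        ((chartAt F x₀).target ∩ (chartAt F x₀).symm ⁻¹' W) := fun t ht =>
      ⟨(chartAt F x₀).map_source ht.1.2, by
        rw [mem_preimage, (chartAt F x₀).left_inv ht.1.2]; exact hm ht.1.1⟩
    have hi' : ∀ t ∈ U ∩ s ⁻¹' (chartAt F x₀).source ∩ D,
        ∀ y ∈ (chartAt F x₀).target ∩ (chartAt F x₀).symm ⁻¹' W,
          ((t, y) ∈ ch F x₀ Γ ↔ y = chartAt F x₀ (s t)) := fun t ht y hy => by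
      rw [← symm_eq ht.1.2 hy.1, ← hi t ht.1.1 _ hy.2]
      exact ⟨fun h => h.2, fun h => ⟨hy.1, h⟩⟩
    exact ⟨⟨hq, hΓ⟩, _, _, _, hU', hW', ⟨⟨h1, h3⟩, hqD.1⟩, ⟨hq, h2⟩,
      graphHol T F (ch F x₀ Γ) _ _ _ hU' hW'
        ((chartAt F x₀).continuousOn.comp (hs.mono fun t ht => ht.1.1) fun t ht => ht.1.2) hm'
        ((hA x₀).mono (prod_mono inter_subset_right inter_subset_left)) hi', hm', hi'⟩
  · rintro ⟨⟨hq, hΓ⟩, U, W, s, hU, hW, h1, h2, hs, hm, hi⟩
    have ht : MapsTo s U (chartAt F x₀).target := fun t ht => ((hi t ht _ (hm ht)).2 rfl).1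
    refine ⟨hq, hΓ, U, (chartAt F x₀).source ∩ chartAt F x₀ ⁻¹' W,
      fun t => (chartAt F x₀).symm (s t), hU, (chartAt F x₀).isOpen_inter_preimage hW, h1,
      ⟨(chartAt F x₀).map_target hq, ?_⟩,
      (chartAt F x₀).continuousOn_symm.comp hs.continuousOn ht,
      fun t h => ⟨(chartAt F x₀).map_target (ht h), ?_⟩, fun t h y hy => ?_⟩
    · rw [mem_preimage, (chartAt F x₀).right_inv hq]; exact h2
    · rw [mem_preimage, (chartAt F x₀).right_inv (ht h)]; exact hm h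
    · rw [← mem_ch (F := F) hy.1, hi t h _ hy.2, eq_comm, ← symm_eq hy.1 (ht h), eq_comm]

end XB

theorem xbAll : XBall.{u} := fun _ F _ _ _ _ _ _ _ _ _ _ _ =>
  { cover := XB.cover F
    chClos := XB.chClos
    chUlim := XB.chUlim
    closed := XB.closed
    usc := fun _ h => XB.usc h
    hol := XB.hol
    anGr := XB.anGr
    thinGr := XB.thinGr
    union := XB.union
    inter := XB.inter
    congr := XB.congr
    diff := XB.diff
    pre := XB.pre
    ident := XB.ident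
    unc := XB.unc
    unc0 := XB.unc0
    proj := XB.proj
    reg := XB.reg }

end Pool.Agent.Lib.MP_823829_an.LA
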