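import Mathlib
import Pool.Agent.Lib.MP_823829_an.LA.All
import Pool.Agent.Lib.MP_823829_an.LA.Stmt2
import Pool.Agent.Lib.MP_823829_an.LA.NI
import Pool.Agent.Lib.MP_823829_an.LA.Pure
import Pool.Agent.Lib.MP_823829_an.LA.PureMG
import Pool.Agent.Lib.MP_823829_an.LA.Mass
import Pool.Agent.Lib.MP_823829_an.LA.BishCore
import Pool.Agent.Lib.MP_823829_an.LA.Bish
import Pool.Agent.Lib.MP_823829_an.LA.XB
import Pool.Agent.Lib.MP_823829_an.LA.Clos
import Pool.Agent.Lib.MP_823829_an.LA.Fin
import Pool.Agent.Lib.MP_823829_an.LA.ST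
import Pool.Agent.Lib.MP_823829_an.LA.GMer
import Pool.Agent.Lib.MP_823829_an.LA.LemM
import Pool.Agent.Lib.MP_823829_an.LA.BishX

/-! Local analytic geometry: the second layer without hypotheses. -/

namespace Pool.Agent.Lib.MP_823829_an.LA

universe u

theorem bishCore : BishCoreS := bishCoreS pureS pureMGS
theorem bish : BishS := bishS pureS massS bishCore
theorem clos : ClosS.{u} := closS xbAll
theorem ofIrr : OfIrrS.{u} := ofIrrS xbAll clos
theorem finFib : FinS.{u} := finS xbAll pureS pureMGS
theorem st : STall.{u} := stAll xbAll pureS niS ndS clos finFib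
theorem gm : GMall.{u} := gmAll xbAll clos st
theorem lemM : LemMS.{u} := lemMS xbAll pureS finFib
theorem bishX : BishXS.{u} := bishXS xbAll st bish

end Pool.Agent.Lib.MP_823829_an.LA
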