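import Mathlib
import Pool.Agent.Lib.MP_823829_an.LA.All
import Pool.Agent.Lib.MP_823829_an.LA.PureMG
import Pool.Agent.Lib.MP_823829_an.LA.Stmt3

/-! Cauchy integrals of the canonical polynomials. -/

namespace Pool.Agent.Lib.MP_823829_an.LA

open Set Filter Topology Metric Module

namespace Cau

theorem ring_open (c : ℂ) (a b : ℝ) : IsOpen {s : ℂ | a < dist s c ∧ dist s c < b} :=
  isOpen_Ioo.preimage (f := fun s : ℂ => dist s c) (by fun_prop)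

theorem ring_conn (c : ℂ) {a b : ℝ} (ha : 0 < a) :
    IsPreconnected {s : ℂ | a < dist s c ∧ dist s c < b} := by
  have e : {s : ℂ | a < dist s c ∧ dist s c < b} =
      (fun p : ℝ × ℝ => c + p.1 * Complex.exp (p.2 * Complex.I)) '' (Ioo a b ×ˢ univ) := by
    ext s
    constructor
    · intro hs
      refine ⟨(dist s c, Complex.arg (s - c)), ⟨hs, mem_univ _⟩, ?_⟩
      simp only [dist_eq_norm, Complex.norm_mul_exp_arg_mul_I]
      ring
    · rintro ⟨p, ⟨hp, -⟩, rfl⟩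
      have h0 : 0 ≤ p.1 := (ha.trans hp.1).le
      simp only [mem_setOf_eq, dist_eq_norm, add_sub_cancel_left, norm_mul, Complex.norm_real,
        Complex.norm_exp_ofReal_mul_I, mul_one, Real.norm_of_nonneg h0]
      exact hp
  rw [e]
  exact (isPreconnected_Ioo.prod isPreconnected_univ).image _ (by fun_prop)

theorem ann_open (t₀ : ℂ × ℂ) (ε a b : ℝ) : IsOpen (ann t₀ ε a b) :=
  isOpen_ball.prod (ring_open _ _ _)

theorem ann_conn (t₀ : ℂ × ℂ) (ε : ℝ) {a b : ℝ} (ha : 0 < a) : IsPreconnected (ann t₀ ε a b) :=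
  (convex_ball _ _).isPreconnected.prod (ring_conn _ ha)

theorem ann_sub (t₀ : ℂ × ℂ) (ε a b : ℝ) : ann t₀ ε a b ⊆ ball t₀.1 ε ×ˢ ball t₀.2 b :=
  fun _ ht => ⟨ht.1, ht.2.2⟩

theorem ann_ne (t₀ : ℂ × ℂ) {ε a b : ℝ} (hε : 0 < ε) (ha : 0 < a) (hab : a < b) :
    (ann t₀ ε a b).Nonempty := by
  refine ⟨(t₀.1, t₀.2 + ((a + b) / 2 : ℝ)), mem_ball_self hε, ?_⟩
  have h0 : 0 ≤ (a + b) / 2 := by linarith
  simp only [mem_setOf_eq, dist_eq_norm, add_sub_cancel_left, Complex.norm_real,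
    Real.norm_of_nonneg h0]
  constructor <;> linarith

theorem coeff_uniq {d : ℕ} {c c' : Fin d → ℂ}
    (h : ∀ w : ℂ, w ^ d + ∑ k : Fin d, c k * w ^ (k : ℕ) =
      w ^ d + ∑ k : Fin d, c' k * w ^ (k : ℕ)) (k : Fin d) : c k = c' k := by
  have key : ∀ e : Fin d → ℂ,
      (∑ j : Fin d, Polynomial.monomial (j : ℕ) (e j)).coeff (k : ℕ) = e k := by
    intro e
    rw [Polynomial.finsetSum_coeff, Finset.sum_eq_single k]
    · simp
    · intro j _ hj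
      rw [Polynomial.coeff_monomial, if_neg fun hh => hj (Fin.ext hh)]
    · simp
  have e : (∑ j : Fin d, Polynomial.monomial (j : ℕ) (c j)) =
      ∑ j : Fin d, Polynomial.monomial (j : ℕ) (c' j) := by
    refine Polynomial.funext fun w => ?_
    simp only [Polynomial.eval_finsetSum, Polynomial.eval_monomial]
    exact add_left_cancel (h w)
  rw [← key c, ← key c', e]

variable {S G : Type} [NormedAddCommGroup S] [NormedSpace ℂ S] [FiniteDimensional ℂ S]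
  [NormedAddCommGroup G] [NormedSpace ℂ G] [FiniteDimensional ℂ G]

theorem cauchy {N : Set S} (hN : IsOpen N) {t₀ : ℂ × ℂ} {ε a b b' : ℝ} (ha : 0 < a) (h1 : a < b')
    (h2 : b' < b) {c : S × (ℂ × ℂ) → ℂ} (hc : DifferentiableOn ℂ c (N ×ˢ ann t₀ ε a b)) :
    ∃ ct : S × (ℂ × ℂ) → ℂ, DifferentiableOn ℂ ct (N ×ˢ (ball t₀.1 ε ×ˢ ball t₀.2 b')) ∧
      ∀ (z : S) (c' : ℂ × ℂ → ℂ), DifferentiableOn ℂ c' (ball t₀.1 ε ×ˢ ball t₀.2 b) →
        (∀ t ∈ ann t₀ ε a b, c (z, t) = c' t) →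
        ∀ t ∈ ball t₀.1 ε ×ˢ ball t₀.2 b', ct (z, t) = c' t := by
  have hb' : 0 < b' := ha.trans h1
  have hφ : Differentiable ℂ fun p : (S × (ℂ × ℂ)) × ℂ => (p.1.1, (p.1.2.1, p.2)) := by fun_prop
  refine ⟨fun q => (2 * Real.pi * Complex.I : ℂ)⁻¹ •
    ∮ σ in C(t₀.2, b'), (σ - q.2.2)⁻¹ • c (q.1, (q.2.1, σ)), ?_, ?_⟩
  · refine DifferentiableOn.fun_const_smul ?_ (2 * Real.pi * Complex.I : ℂ)⁻¹
    refine circ (S × (ℂ × ℂ)) (fun p => (p.2 - p.1.2.2)⁻¹ • c (p.1.1, (p.1.2.1, p.2)))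
      ((fun p : (S × (ℂ × ℂ)) × ℂ => (p.1.1, (p.1.2.1, p.2))) ⁻¹' (N ×ˢ ann t₀ ε a b) ∩
        {p | p.2 - p.1.2.2 ≠ 0}) _ t₀.2 b'
      (((hN.prod (ann_open _ _ _ _)).preimage hφ.continuous).inter
        (isOpen_ne_fun (by fun_prop) continuous_const))
      (hN.prod (isOpen_ball.prod isOpen_ball)) hb' ?_ ?_
    · rintro p ⟨⟨hp1, hp2, hp3⟩, hp4⟩
      have h5 : dist p.2 t₀.2 = b' := hp4
      refine ⟨⟨hp1, hp2, ?_⟩, fun h0 => ?_⟩
      · exact ⟨by simp only [h5]; exact h1, by simp only [h5]; exact h2⟩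
      · have h6 : dist p.1.2.2 t₀.2 < b' := hp3
        rw [← sub_eq_zero.1 h0, h5] at h6
        exact lt_irrefl _ h6
    · have hs : Differentiable ℂ fun p : (S × (ℂ × ℂ)) × ℂ => p.2 - p.1.2.2 := by fun_prop
      exact (hs.differentiableOn.inv fun p hp => hp.2).smul
        (hc.comp hφ.differentiableOn fun p hp => hp.1)
  · intro z c' hc' he t ht
    have h3 : (∮ σ in C(t₀.2, b'), (σ - t.2)⁻¹ • c (z, (t.1, σ))) =
        ∮ σ in C(t₀.2, b'), (σ - t.2)⁻¹ • c' (t.1, σ) := by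
      refine circleIntegral.integral_congr hb'.le fun σ hσ => ?_
      have h5 : dist σ t₀.2 = b' := hσ
      have : (t.1, σ) ∈ ann t₀ ε a b :=
        ⟨ht.1, by simp only [h5]; exact h1, by simp only [h5]; exact h2⟩
      simp only [he _ this]
    have h4 : DifferentiableOn ℂ (fun σ => c' (t.1, σ)) (closedBall t₀.2 b') :=
      hc'.comp (by fun_prop) fun σ hσ => ⟨ht.1, closedBall_subset_ball h2 hσ⟩
    simp only [h3]
    rw [h4.circleIntegral_sub_inv_smul ht.2, inv_smul_smul₀ Complex.two_pi_I_ne_zero]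

omit [FiniteDimensional ℂ S] in
theorem slice {N : Set S} {t₀ : ℂ × ℂ} {ε a b : ℝ} (ha : 0 < a) {Y : Set ((ℂ × ℂ) × G)}
    {A : Set ((S × (ℂ × ℂ)) × G)} {d : ℕ} {τ : S × (ℂ × ℂ) → Fin d → G} {z : S} (hz : z ∈ N)
    (hτ : MG τ (N ×ˢ ann t₀ ε a b))
    (hA : ov A (N ×ˢ ann t₀ ε a b) = ov (supp τ) (N ×ˢ ann t₀ ε a b))
    (hi : ∀ q ∈ N ×ˢ ann t₀ ε a b, CovAt d A q → Function.Injective (τ q))
    (hY : BdAn Y (ball t₀.1 ε ×ˢ ball t₀.2 b))
    (hp : ov Y (ball t₀.1 ε ×ˢ ball t₀.2 b) ⊆ closure (Reg Y))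
    (he : ∀ t ∈ ann t₀ ε a b, ∀ y, (((z, t), y) ∈ A ↔ (t, y) ∈ Y))
    {t₁ : ℂ × ℂ} (ht₁ : t₁ ∈ ann t₀ ε a b) (hc : CovAt d A (z, t₁)) :
    ∃ τ' : ℂ × ℂ → Fin d → G, MG τ' (ball t₀.1 ε ×ˢ ball t₀.2 b) ∧
      (∀ t ∈ ball t₀.1 ε ×ˢ ball t₀.2 b, ∀ y, ((t, y) ∈ Y ↔ ∃ i, y = τ' t i)) ∧
      ∀ (ξ : G →L[ℂ] ℂ) (w : ℂ), ∀ t ∈ ann t₀ ε a b,
        ∏ i, (w - ξ (τ (z, t) i)) = ∏ i, (w - ξ (τ' t i)) := by
  obtain ⟨d', τ', hτ', hY', hi', hl⟩ := pureMGS (ℂ × ℂ) G Y _ (isOpen_ball.prod isOpen_ball)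
    ((convex_ball _ _).prod (convex_ball _ _)).isPreconnected hY hp
  have f1 : ∀ t ∈ ball t₀.1 ε ×ˢ ball t₀.2 b, ∀ y, ((t, y) ∈ Y ↔ ∃ i, y = τ' t i) := by
    intro t ht y
    constructor
    · intro h
      have : (t, y) ∈ ov Y (ball t₀.1 ε ×ˢ ball t₀.2 b) := ⟨h, ht⟩
      rw [hY'] at this
      exact this.1
    · intro h
      have : (t, y) ∈ ov (supp τ') (ball t₀.1 ε ×ˢ ball t₀.2 b) := ⟨h, ht⟩
      rw [← hY'] at this
      exact this.1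
  have f2 : ∀ t ∈ ann t₀ ε a b, ∀ y, ((t, y) ∈ Y ↔ ∃ i, y = τ (z, t) i) := by
    intro t ht y
    rw [← he t ht]
    constructor
    · intro h
      have : ((z, t), y) ∈ ov A (N ×ˢ ann t₀ ε a b) := ⟨h, hz, ht⟩
      rw [hA] at this
      exact this.1
    · intro h
      have : ((z, t), y) ∈ ov (supp τ) (N ×ˢ ann t₀ ε a b) := ⟨h, hz, ht⟩
      rw [← hA] at this
      exact this.1
  have hcont : Continuous fun t : ℂ × ℂ => (z, t) := by fun_prop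
  have e1 : ∀ᶠ t in 𝓝 t₁, t ∈ ann t₀ ε a b ∧ CovAt d A (z, t) :=
    ((ann_open _ _ _ _).eventually_mem ht₁).and (hcont.continuousAt.eventually hc.eventually)
  obtain ⟨η, δ, hη, -, -, hnz, hcov⟩ := hl t₁ (ann_sub _ _ _ _ ht₁)
  obtain ⟨t₂, ⟨h21, h22⟩, h23⟩ := hnz.exists (mem_ball_self hη)
    (inter_mem (ball_mem_nhds t₁ hη) e1)
  have c2 : CovAt d' Y t₂ := hcov t₂ ⟨h21, h23⟩
  obtain rfl : d' = d := by
    rw [← (cov.card c2).2, ← (cov.card h22.2).2]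
    congr 1
    ext y
    exact (he t₂ h22.1 y).symm
  refine ⟨τ', hτ', f1, fun ξ w t ht => ?_⟩
  have e2 : ∀ᶠ t in 𝓝 t₂, ∏ i, (w - ξ (τ (z, t) i)) - ∏ i, (w - ξ (τ' t i)) = 0 := by
    filter_upwards [(ann_open _ _ _ _).eventually_mem h22.1,
      hcont.continuousAt.eventually h22.2.eventually, c2.eventually] with u u1 u2 u3
    rw [sub_eq_zero]
    exact Cov.prod_eq (hi _ ⟨hz, u1⟩ u2) (hi' u (ann_sub _ _ _ _ u1) u3)
      (fun y => (f2 u u1 y).symm.trans (f1 u (ann_sub _ _ _ _ u1) y)) fun y => w - ξ y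
  have hd : DifferentiableOn ℂ
      (fun t => ∏ i, (w - ξ (τ (z, t) i)) - ∏ i, (w - ξ (τ' t i))) (ann t₀ ε a b) :=
    ((hτ ξ w).comp (f := fun t : ℂ × ℂ => (z, t)) (by fun_prop) fun u hu => ⟨hz, hu⟩).sub
      ((hτ' ξ w).mono (ann_sub _ _ _ _))
  exact sub_eq_zero.1 (eqOn_zero (ann_open _ _ _ _) (ann_conn _ _ ha) hd h22.1 e2 t ht)

theorem bound {d n : ℕ} {ξ : Fin n → G →L[ℂ] ℂ}
    (h : ∀ v : Fin d → G, (∀ i, v i ≠ 0) → ∃ j, ∀ i, ξ j (v i) ≠ 0) (R : Fin n → ℝ) :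
    ∃ C : ℝ, ∀ y : G, (∀ j, ∃ _ : Fin d, ‖ξ j y‖ ≤ R j) → ‖y‖ ≤ C := by
  rcases d with _ | d
  · obtain ⟨j, -⟩ := h Fin.elim0 fun i => i.elim0
    exact ⟨0, fun y hy => (hy j).elim fun i _ => i.elim0⟩
  · have hk : LinearMap.ker (ContinuousLinearMap.pi ξ).toLinearMap = ⊥ := by
      rw [LinearMap.ker_eq_bot']
      intro y hy
      by_contra h0
      obtain ⟨j, hj⟩ := h (fun _ => y) fun _ => h0
      exact hj 0 (congrFun hy j)
    obtain ⟨K, -, hK⟩ := LinearMap.exists_antilipschitzWith _ hk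
    refine ⟨K * ‖R‖, fun y hy => ?_⟩
    have h1 := hK.le_mul_norm (map_zero _) y
    refine h1.trans (mul_le_mul_of_nonneg_left ?_ K.2)
    refine (pi_norm_le_iff_of_nonneg (norm_nonneg _)).2 fun j => ?_
    obtain ⟨_, hj⟩ := hy j
    exact hj.trans ((le_abs_self _).trans (norm_le_pi_norm R j))

end Cau

theorem cauS (h : UqS) : CauS := by
  intro S G _ _ _ _ _ _ k l z₀ t₀ ε a b ε₁ Y A hl H
  obtain ⟨d, τ, hτ, hA, hi, hloc⟩ := pureMGS (S × (ℂ × ℂ)) G A _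
    (isOpen_ball.prod (Cau.ann_open _ _ _ _))
    ((convex_ball _ _).isPreconnected.prod (Cau.ann_conn _ _ H.a0)) H.bd H.pure
  obtain ⟨t', ht'⟩ := Cau.ann_ne t₀ H.e0 H.a0 H.ab
  obtain ⟨η, δ, hη, hsub, hδ, hnz, hcov⟩ := hloc (z₀, t') ⟨mem_ball_self H.e1, ht'⟩
  obtain ⟨-, t₁, ht₁, hev⟩ := h.slice hl hη hδ hnz
  obtain ⟨n, ξ, hξ⟩ := mg.det G d
  choose c hc hcp using fun j => symS.coeff (hτ (ξ j))
  have h1 : a < (a + b) / 2 := by linarith [H.ab]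
  have h2 : (a + b) / 2 < b := by linarith [H.ab]
  choose ct hct hcte using fun j k => Cau.cauchy isOpen_ball H.a0 h1 h2 (hc j k)
  choose r hr using fun j => symS.roots (ct j)
  set N : Set (S × (ℂ × ℂ)) := ball z₀ ε₁ ×ˢ (ball t₀.1 ε ×ˢ ball t₀.2 ((a + b) / 2)) with hN
  have hNo : IsOpen N := isOpen_ball.prod (isOpen_ball.prod isOpen_ball)
  have hN0 : (z₀, t₀) ∈ N :=
    ⟨mem_ball_self H.e1, mem_ball_self H.e0, mem_ball_self (H.a0.trans h1)⟩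
  have hM : ∀ j, Mon (r j) N := by
    intro j w
    simp only [hr]
    exact (differentiableOn_const _).add
      (DifferentiableOn.fun_sum fun k _ => (hct j k).mul (differentiableOn_const _))
  choose R hR using fun j => symS.bdd hNo (hM j) _ hN0
  obtain ⟨C, hC⟩ := Cau.bound hξ R
  obtain ⟨ρ, hρ, hball⟩ := Metric.mem_nhds_iff.1
    (inter_mem (hNo.mem_nhds hN0) (eventually_all.2 hR))
  have hb : 0 < b := H.a0.trans H.ab
  have hle : min ρ (min ε b) ≤ ρ := min_le_left _ _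
  refine ⟨min ρ (min ε b), {p | ∀ j, ∏ i, (ξ j p.2 - r j p.1 i) = 0},
    lt_min hρ (lt_min H.e0 hb), (min_le_right _ _).trans (min_le_left _ _),
    (min_le_right _ _).trans (min_le_right _ _), ⟨?_, C, ?_⟩, ?_⟩
  · intro p hp
    refine ⟨N ×ˢ univ, n, fun p j => ∏ i, (ξ j p.2 - r j p.1 i), hNo.prod isOpen_univ,
      ⟨(hball (ball_subset_ball hle hp.1)).1, mem_univ _⟩, ?_, fun x _ => funext_iff.symm⟩
    refine differentiableOn_pi.2 fun j => ?_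
    exact (symS.joint (hM j)).comp (f := fun p : (S × (ℂ × ℂ)) × G => (p.1, ξ j p.2))
      (by fun_prop) fun x hx => ⟨hx.1, mem_univ _⟩
  · intro q hq hq'
    refine hC _ fun j => ?_
    obtain ⟨i, -, hi⟩ := Finset.prod_eq_zero_iff.1 (hq j)
    refine ⟨i, ?_⟩
    rw [sub_eq_zero.1 hi]
    exact (hball (ball_subset_ball hle hq')).2 j i
  · filter_upwards [hev, H.fam, H.agr] with z hz hf hagr t ht y
    have hzt : (z, t₁) ∈ ball (z₀, t') η := by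
      rw [← ball_prod_same]
      exact ⟨hz.1, ht₁⟩
    obtain ⟨τ', hτ', hY, hP⟩ := Cau.slice H.a0 (hsub hzt).1 hτ hA hi hf.1 hf.2 hagr
      (hsub hzt).2 (hcov _ ⟨hzt, hz.2⟩)
    have ht' : t ∈ ball t₀.1 ε ×ˢ ball t₀.2 ((a + b) / 2) := by
      have : (z₀, t) ∈ ball (z₀, t₀) ρ := by
        rw [← ball_prod_same]
        exact ⟨mem_ball_self hρ, ball_subset_ball hle ht⟩
      exact (hball this).1.2
    have ht'' : t ∈ ball t₀.1 ε ×ˢ ball t₀.2 b := ⟨ht'.1, ball_subset_ball h2.le ht'.2⟩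
    have key : ∀ j w, ∏ i, (w - r j (z, t) i) = ∏ i, (w - ξ j (τ' t i)) := by
      intro j w
      obtain ⟨c', hc', hcp'⟩ := symS.coeff (hτ' (ξ j))
      rw [hr, hcp']
      congr 1
      refine Finset.sum_congr rfl fun k _ => ?_
      rw [hcte j k z (c' k) (hc' k) (fun u hu => ?_) t ht']
      refine Cau.coeff_uniq (c := fun k => c j k (z, u)) (c' := fun k => c' k u) (fun w => ?_) k
      rw [← hcp, ← hcp']
      exact hP (ξ j) w u hu
    rw [hY t ht'']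
    simp only [mem_setOf_eq, key]
    constructor
    · intro h0
      by_contra hn
      obtain ⟨j, hj⟩ := hξ (fun i => y - τ' t i) fun i h3 => hn ⟨i, sub_eq_zero.1 h3⟩
      obtain ⟨i, -, hi⟩ := Finset.prod_eq_zero_iff.1 (h0 j)
      exact hj i (by rw [map_sub]; exact hi)
    · rintro ⟨i, rfl⟩ j
      exact Finset.prod_eq_zero (Finset.mem_univ i) (sub_self _)

end Pool.Agent.Lib.MP_823829_an.LA
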