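import Mathlib
import Pool.Agent.Lib.MP_823829_an.LA.Thin
import Pool.Agent.Lib.MP_823829_an.LA.Stmt3

/-! Condensation points of a family of meromorphic graphs. -/

namespace Pool.Agent.Lib.MP_823829_an.LA

open Set Filter Topology Module

universe u

namespace Cond

theorem basis_nat (Y : Type u) [TopologicalSpace Y] [SecondCountableTopology Y] :
    ∃ b : ℕ → Set Y, (∀ n, IsOpen (b n)) ∧ ∀ y, ∀ U ∈ 𝓝 y, ∃ n, y ∈ b n ∧ b n ⊆ U := by
  obtain ⟨b, hb⟩ := ((TopologicalSpace.countable_countableBasis Y).insert ∅).exists_eq_range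
    (insert_nonempty _ _)
  refine ⟨b, fun n => ?_, fun y U hU => ?_⟩
  · rcases (hb ▸ mem_range_self n : b n ∈ insert ∅ (TopologicalSpace.countableBasis Y)) with h | h
    · rw [h]; exact isOpen_empty
    · exact TopologicalSpace.isOpen_of_mem_countableBasis h
  · obtain ⟨V, hV, h1, h2⟩ := (TopologicalSpace.isBasis_countableBasis Y).mem_nhds_iff.1 hU
    obtain ⟨n, rfl⟩ : V ∈ range b := hb ▸ mem_insert_of_mem _ hV
    exact ⟨n, h1, h2⟩

/-- a point of a set which is not thin, and a filter which respects countably many properties of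
the point -/
theorem filter {S ι : Type} [NormedAddCommGroup S] [NormedSpace ℂ S] [Countable ι] {k : ℕ}
    {E : Set S} (hE : ¬ Thin k E) (A : ι → Set S) :
    ∃ z₀ ∈ E, ∃ l : Filter S, l.NeBot ∧ E ∈ l ∧ (∀ i, z₀ ∈ A i → A i ∈ l) ∧
      ∀ B : Set S, Thin k B → Bᶜ ∈ l := by
  classical
  have h1 : Thin k (⋃ s : {s : Finset ι // Thin k (E ∩ ⋂ i ∈ s, A i)}, E ∩ ⋂ i ∈ s.1, A i) :=
    thinS.iUnion fun s => s.2
  obtain ⟨z₀, hz, hn⟩ := not_subset.1 (mt (thinS.mono h1) hE)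
  let l : Filter S :=
    { sets := {W | ∃ s : Finset ι, (∀ i ∈ s, z₀ ∈ A i) ∧ Thin k ((E ∩ ⋂ i ∈ s, A i) \ W)}
      univ_sets := ⟨∅, by simp, by simpa using thinS.empty k⟩
      sets_of_superset := fun ⟨s, h1, h2⟩ h => ⟨s, h1, thinS.mono h2 (sdiff_subset_sdiff_right h)⟩
      inter_sets := fun {W W'} ⟨s, h1, h2⟩ ⟨t, h3, h4⟩ =>
        ⟨s ∪ t, fun i hi => (Finset.mem_union.1 hi).elim (h1 i) (h3 i),
          thinS.mono (thinS.union h2 h4) fun z hz => by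
            simp only [mem_union, Set.mem_sdiff, mem_inter_iff, mem_iInter, Finset.mem_union] at hz ⊢
            by_cases hW : z ∈ W
            · exact Or.inr ⟨⟨hz.1.1, fun i hi => hz.1.2 i (Or.inr hi)⟩, fun h => hz.2 ⟨hW, h⟩⟩
            · exact Or.inl ⟨⟨hz.1.1, fun i hi => hz.1.2 i (Or.inl hi)⟩, hW⟩⟩ }
  refine ⟨z₀, hz, l, ⟨fun h => ?_⟩, ⟨∅, by simp, thinS.mono (thinS.empty k) fun z h => h.2 h.1.1⟩,
    fun i hi => ⟨{i}, by simpa using hi, thinS.mono (thinS.empty k) fun z h => h.2 ?_⟩,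
    fun B hB => ⟨∅, by simp, thinS.mono hB fun z h => not_not.1 h.2⟩⟩
  · obtain ⟨s, h2, h3⟩ : (∅ : Set S) ∈ l := empty_mem_iff_bot.2 h
    rw [sdiff_empty] at h3
    exact hn (mem_iUnion.2 ⟨⟨s, h3⟩, hz, mem_iInter₂.2 h2⟩)
  · exact mem_iInter₂.1 h.1.2 i (Finset.mem_singleton_self i)

end Cond

theorem condS (xb : XBall.{u}) : CondS.{u} := by
  intro S Q F X _ _ _ _ _ _ _ _ _ _ _ _ _ k E Z Δ hS hQ hΔ hE hZ
  have := FiniteDimensional.proper ℂ S
  have := FiniteDimensional.proper ℂ Q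
  have := FiniteDimensional.proper ℂ F
  have := ChartedSpace.secondCountable_of_sigmaCompact F X
  obtain ⟨N, -, hN⟩ := Cond.basis_nat S
  obtain ⟨V, hV, hV'⟩ := Cond.basis_nat (Q × X)
  obtain ⟨z₀, hz, l, hl, hEl, hA, hB⟩ := Cond.filter hE
    (Sum.elim N fun n => {z | Disjoint (V n) (Z z)})
  refine ⟨z₀, hz, l, hEl, ⟨hS, hl, fun U hU => ?_, hB⟩, hQ, hΔ, hZ z₀ hz,
    mem_of_superset hEl hZ, fun C hC hCΔ hd => ?_⟩
  · obtain ⟨n, h1, h2⟩ := hN z₀ U hU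
    exact mem_of_superset (hA (Sum.inl n) h1) h2
  · have h1 : C ⊆ ⋃ n : {n // Disjoint (V n) (Z z₀)}, V n := fun c hc => by
      have h2 : c ∉ closure (Z z₀) := fun h =>
        disjoint_left.1 hd hc ((xb Q F X).closed (hZ z₀ hz).an ⟨h, hCΔ hc⟩)
      obtain ⟨n, h3, h4⟩ := hV' c _ (isClosed_closure.isOpen_compl.mem_nhds h2)
      exact mem_iUnion.2 ⟨⟨n, disjoint_left.2 fun p hp h => h4 hp (subset_closure h)⟩, h3⟩
    obtain ⟨t, ht⟩ := hC.elim_finite_subcover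
      (fun n : {n // Disjoint (V n) (Z z₀)} => V n) (fun n => hV n.1) h1
    have h3 : ∀ᶠ z in l, ∀ n ∈ t, Disjoint (V n.1) (Z z) :=
      (eventually_all_finset t).2 fun n _ => hA (Sum.inr n.1) n.2
    filter_upwards [h3] with z h4
    refine disjoint_left.2 fun c hc h => ?_
    obtain ⟨n, hn, h5⟩ := mem_iUnion₂.1 (ht hc)
    exact disjoint_left.1 (h4 n hn) h5 h

end Pool.Agent.Lib.MP_823829_an.LA
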