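import Mathlib
import Pool.Agent.Lib.MP_823829_an.LA.All
import Pool.Agent.Lib.MP_823829_an.LA.Stmt3

/-! The good set contains the regular set of the central map. -/

namespace Pool.Agent.Lib.MP_823829_an.LA

open Set Filter Topology Metric Module

universe u

namespace E1

/-- Cauchy integral with parameters -/
lemma cauchy {T F : Type} [NormedAddCommGroup T] [NormedSpace ℂ T] [FiniteDimensional ℂ T]
    [NormedAddCommGroup F] [NormedSpace ℂ F] [FiniteDimensional ℂ F] {Ψ : T × ℂ → F}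
    {W : Set (T × ℂ)} {N : Set T} {r : ℝ} (hW : IsOpen W) (hN : IsOpen N) (hr : 0 < r)
    (hNW : N ×ˢ sphere (0 : ℂ) r ⊆ W) (hΨ : DifferentiableOn ℂ Ψ W) :
    ∃ a : T × ℂ → F, DifferentiableOn ℂ a (N ×ˢ ball 0 r) ∧ ∀ t ∈ N, ∀ g : ℂ → F,
      DifferentiableOn ℂ g (closedBall 0 r) → (∀ σ ∈ sphere (0 : ℂ) r, Ψ (t, σ) = g σ) →
      ∀ s ∈ ball (0 : ℂ) r, a (t, s) = g s := by
  let e : F ≃L[ℂ] (Fin (finrank ℂ F) → ℂ) := ContinuousLinearEquiv.ofFinrankEq (by simp)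
  refine ⟨fun q => e.symm fun i => (2 * Real.pi * Complex.I)⁻¹ *
    ∮ σ in C(0, r), (σ - q.2)⁻¹ * e (Ψ (q.1, σ)) i, ?_, fun t ht g hg h s hs => ?_⟩
  · refine e.symm.differentiable.comp_differentiableOn (differentiableOn_pi.2 fun i => ?_)
    refine (differentiableOn_const _).mul ?_
    have h1 : Continuous fun q : (T × ℂ) × ℂ => (q.1.1, q.2) := by fun_prop
    refine circ (T × ℂ) (fun q => (q.2 - q.1.2)⁻¹ * e (Ψ (q.1.1, q.2)) i)
      ((fun q : (T × ℂ) × ℂ => (q.1.1, q.2)) ⁻¹' W ∩ {q | q.2 - q.1.2 ≠ 0}) _ 0 r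
      ((hW.preimage h1).inter (isOpen_ne_fun (by fun_prop) continuous_const))
      (hN.prod isOpen_ball) hr ?_ ?_
    · rintro ⟨⟨t, s⟩, σ⟩ ⟨⟨ht, hs⟩, hσ⟩
      refine ⟨hNW ⟨ht, hσ⟩, fun h0 => ?_⟩
      have h2 : σ = s := sub_eq_zero.1 h0
      subst h2
      exact (mem_ball.1 hs).ne (mem_sphere.1 hσ)
    · refine DifferentiableOn.mul (DifferentiableOn.inv (by fun_prop) fun q hq => hq.2) ?_
      have h2 : DifferentiableOn ℂ (fun q : (T × ℂ) × ℂ => Ψ (q.1.1, q.2))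
          ((fun q : (T × ℂ) × ℂ => (q.1.1, q.2)) ⁻¹' W ∩ {q | q.2 - q.1.2 ≠ 0}) :=
        hΨ.comp (by fun_prop) fun q hq => hq.1
      exact differentiableOn_pi.1 (e.differentiable.comp_differentiableOn h2) i
  · rw [ContinuousLinearEquiv.symm_apply_eq]
    funext i
    have h1 : DifferentiableOn ℂ (fun σ => e (g σ) i) (closedBall 0 r) :=
      differentiableOn_pi.1 (e.differentiable.comp_differentiableOn hg) i
    have h2 := h1.circleIntegral_sub_inv_smul hs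
    have h3 : (∮ σ in C(0, r), (σ - s)⁻¹ * e (Ψ (t, σ)) i)
        = ∮ σ in C(0, r), (σ - s)⁻¹ • e (g σ) i :=
      circleIntegral.integral_congr hr.le fun σ hσ => by simp only [h σ hσ, smul_eq_mul]
    change _ * (∮ σ in C(0, r), (σ - s)⁻¹ * e (Ψ (t, σ)) i) = _
    rw [h3, h2, smul_eq_mul, inv_mul_cancel_left₀ Complex.two_pi_I_ne_zero]

/-- a local right inverse -/
lemma locInv {P Q : Type} [NormedAddCommGroup P] [NormedSpace ℂ P] [FiniteDimensional ℂ P]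
    [NormedAddCommGroup Q] [NormedSpace ℂ Q] [FiniteDimensional ℂ Q] {ψ : P → Q} {a : P}
    (hd : finrank ℂ P = finrank ℂ Q) (hψ : Differentiable ℂ ψ)
    (hi : Function.Injective (fderiv ℂ ψ a)) :
    ∃ (θ : Q → P) (D : Set Q), IsOpen D ∧ ψ a ∈ D ∧ DifferentiableOn ℂ θ D ∧
      (∀ w ∈ D, ψ (θ w) = w) ∧ θ (ψ a) = a := by
  have : CompleteSpace P := FiniteDimensional.complete ℂ P
  have : CompleteSpace Q := FiniteDimensional.complete ℂ Q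
  let e : P ≃L[ℂ] Q :=
    (LinearMap.linearEquivOfInjective (fderiv ℂ ψ a : P →ₗ[ℂ] Q) hi hd).toContinuousLinearEquiv
  have h1 : ContDiffAt ℂ 1 ψ a := (ana isOpen_univ hψ.differentiableOn a trivial).contDiffAt
  have h2 : HasFDerivAt ψ (e : P →L[ℂ] Q) a :=
    (hψ a).hasFDerivAt.congr_fderiv (ContinuousLinearMap.ext fun x => rfl)
  have h3 : ∀ᶠ w in 𝓝 (ψ a), ContDiffAt ℂ 1 (h1.localInverse h2 one_ne_zero) w :=
    (h1.to_localInverse h2 one_ne_zero).eventually (by simp)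
  have h4 : ∀ᶠ w in 𝓝 (ψ a), ψ (h1.localInverse h2 one_ne_zero w) = w :=
    (h1.hasStrictFDerivAt' h2 one_ne_zero).eventually_right_inverse
  obtain ⟨D, hD, hDo, haD⟩ := _root_.mem_nhds_iff.1 (h3.and h4)
  exact ⟨_, D, hDo, haD,
    fun w hw => ((hD hw).1.differentiableAt one_ne_zero).differentiableWithinAt,
    fun w hw => (hD hw).2, h1.localInverse_apply_image h2 one_ne_zero⟩

variable {S Q F : Type} {X : Type u} [NormedAddCommGroup S] [NormedSpace ℂ S]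
  [NormedAddCommGroup Q] [NormedSpace ℂ Q] [NormedAddCommGroup F] [NormedSpace ℂ F]
  [TopologicalSpace X] [ChartedSpace F X]

lemma good_open (l : Filter S) (z₀ : S) (Z : S → Set (Q × X)) (Δ : Set Q) :
    IsOpen (Good F l z₀ Z Δ) := by
  refine isOpen_iff_mem_nhds.2 ?_
  rintro w ⟨ε, D, Φ, hw, hD, hA⟩
  filter_upwards [hA.2.1.mem_nhds hw] with w' hw' using ⟨ε, D, Φ, hw', hD, hA⟩

omit [NormedAddCommGroup Q] [NormedSpace ℂ Q] [TopologicalSpace X] in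
lemma exists_sec [Nonempty X] (Γ : Set (Q × X)) (Δ : Set Q) :
    ∃ f : Q → X, ∀ w ∈ one Γ Δ, ∀ x, ((w, x) ∈ Γ ↔ x = f w) := by
  have h : ∀ w : Q, ∃ y : X, w ∈ one Γ Δ → ∀ x, ((w, x) ∈ Γ ↔ x = y) := by
    intro w
    by_cases hw : w ∈ one Γ Δ
    · obtain ⟨y, hy, hu⟩ := hw.2
      exact ⟨y, fun _ x => ⟨hu x, fun h3 => h3 ▸ hy⟩⟩
    · exact ⟨Classical.arbitrary X, fun h3 => (hw h3).elim⟩
  choose f hf using h
  exact ⟨f, hf⟩

/-- a meromorphic graph which stays in a small ball of a chart is a holomorphic graph -/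
lemma graph_of_small [FiniteDimensional ℂ Q] [FiniteDimensional ℂ F] {Γ : Set (Q × X)}
    {Δ U : Set Q} (hs : STS Q F X Γ Δ) (hm : GMer F Γ Δ) (hU : IsOpen U) (hUΔ : U ⊆ Δ) (x₀ : X)
    {ρ : ℝ} (hρ : closedBall (chartAt F x₀ x₀) ρ ⊆ (chartAt F x₀).target)
    (h : ∀ w ∈ U, ∀ x, (w, x) ∈ Γ →
      x ∈ (chartAt F x₀).source ∧ chartAt F x₀ x ∈ closedBall (chartAt F x₀ x₀) ρ) :
    ∃ g : Q → F, DifferentiableOn ℂ g U ∧ ∀ w ∈ U, g w ∈ closedBall (chartAt F x₀ x₀) ρ ∧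
      ∀ x, ((w, x) ∈ Γ ↔ x = (chartAt F x₀).symm (g w)) := by
  have : Nonempty X := ⟨x₀⟩
  have : ProperSpace F := FiniteDimensional.proper ℂ F
  set c := chartAt F x₀ with hc
  have h1 : BdAn (ch F x₀ Γ ∩ univ ×ˢ c.target) U := by
    refine cut hU c.open_target (isCompact_closedBall (c x₀) ρ) hρ
      ((hm.an x₀).mono (prod_mono hUΔ Subset.rfl)) fun q hq hq1 hq2 => ?_
    have h2 := (h q.1 hq1 _ hq.2).2
    rwa [c.right_inv hq2] at h2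
  have h2 : U ⊆ one Γ Δ := by
    intro w hw
    by_contra hn
    refine hs.unc w (hUΔ hw) hn ((((bc Q F _ U hU h1).1 w hw).image c.symm).countable.mono ?_)
    intro x hx
    have h3 := (h w hw x hx).1
    refine ⟨c x, ⟨⟨c.map_source h3, ?_⟩, trivial, c.map_source h3⟩, c.left_inv h3⟩
    change (w, c.symm (c x)) ∈ Γ
    rwa [c.left_inv h3]
  obtain ⟨f, hf⟩ := exists_sec Γ Δ
  have h3 := hs.hol f fun w hw => (hf w hw _).2 rfl
  have h4 : ∀ w ∈ U, f w ∈ c.source ∧ c (f w) ∈ closedBall (c x₀) ρ := fun w hw =>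
    h w hw _ ((hf w (h2 hw) _).2 rfl)
  refine ⟨fun w => c (f w), (h3.2 x₀).mono fun w hw => ⟨h2 hw, (h4 w hw).1⟩,
    fun w hw => ⟨(h4 w hw).2, fun x => ?_⟩⟩
  rw [c.left_inv (h4 w hw).1]
  exact hf w (h2 hw) x

end E1

open E1

theorem e1S (_xb : XBall.{u}) (st : STall.{u}) (tr : TrAll.{u}) (_h1 : UqS) (h2 : SweepS)
    (h3 : GlueS.{u}) : E1S.{u} := by
  intro S Q F X _ _ _ _ _ _ _ _ _ _ _ _ _ k l z₀ Z Δ C hT hF hC hCΔ hG w₀ hw₀
  by_contra hn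
  have : ProperSpace Q := FiniteDimensional.proper ℂ Q
  have hl := hF.big.ne
  have s₀ := st Q F X (Z z₀) Δ hF.op hF.mer₀
  have hgo := good_open (F := F) l z₀ Z Δ
  have hw₀C : w₀ ∈ C := by
    by_contra h
    exact hn (hG ⟨hw₀.1, h⟩)
  obtain ⟨p, hpK, hpA, ψ, hψ, hψ0, hψi, hψr⟩ := h2 Q (C \ Good F l z₀ Z Δ) (C \ one (Z z₀) Δ)
    hF.dimQ (hC.diff hgo) (hC.diff s₀.op).isClosed
    ((thinS.zero.1 (s₀.thinInd 0 (by rw [hF.dimQ]))).mono (sdiff_subset_sdiff_left hCΔ))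
    fun h => (h ⟨hw₀C, hn⟩).2 hw₀
  have hp : p ∈ one (Z z₀) Δ := by
    by_contra h
    exact hpA ⟨hpK.1, h⟩
  apply hpK.2
  obtain ⟨x₁, -⟩ := hp.2
  have : Nonempty X := ⟨x₁⟩
  obtain ⟨f₀, hf₀⟩ := exists_sec (Z z₀) Δ
  have hf₀h := s₀.hol f₀ fun w hw => (hf₀ w hw _).2 rfl
  set x₀ := f₀ p with hx₀
  set c := chartAt F x₀ with hc
  obtain ⟨ρ, hρ, hρt⟩ : ∃ ρ > 0, closedBall (c x₀) ρ ⊆ c.target :=
    Metric.nhds_basis_closedBall.mem_iff.1 (c.open_target.mem_nhds (mem_chart_target F x₀))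
  set O : Set X := c.source ∩ c ⁻¹' ball (c x₀) ρ with hO
  have hOo : IsOpen O := c.isOpen_inter_preimage isOpen_ball
  have hxO : x₀ ∈ O := ⟨mem_chart_source F x₀, mem_ball_self hρ⟩
  obtain ⟨β, hβ, hβs⟩ : ∃ β > 0, closedBall p β ⊆ one (Z z₀) Δ ∩ f₀ ⁻¹' O :=
    Metric.nhds_basis_closedBall.mem_iff.1
      ((hf₀h.1.isOpen_inter_preimage s₀.op hOo).mem_nhds ⟨hp, hxO⟩)
  have hβΔ : ball p β ⊆ Δ := fun w hw => (hβs (ball_subset_closedBall hw)).1.1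
  have husc := hF.usc (closedBall p β ×ˢ Oᶜ)
    ((isCompact_closedBall p β).prod hOo.isClosed_compl.isCompact)
    (fun q hq => ⟨(hβs hq.1).1.1, trivial⟩)
    (Set.disjoint_left.2 fun q hq hqZ => hq.2 (by
      rw [(hf₀ q.1 (hβs hq.1).1 q.2).1 hqZ]
      exact (hβs hq.1).2))
  have hA : ∀ᶠ z in l, ∃ g : Q → F, DifferentiableOn ℂ g (ball p β) ∧
      ∀ w ∈ ball p β, g w ∈ closedBall (c x₀) ρ ∧ ∀ x, ((w, x) ∈ Z z ↔ x = c.symm (g w)) := by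
    filter_upwards [husc, hF.mer] with z hz hm
    refine graph_of_small (st Q F X (Z z) Δ hF.op hm) hm isOpen_ball hβΔ x₀ hρt fun w hw x hx => ?_
    have h4 : x ∈ O := by
      by_contra h5
      exact Set.disjoint_left.1 hz
        (show (w, x) ∈ closedBall p β ×ˢ Oᶜ from ⟨ball_subset_closedBall hw, h5⟩) hx
    exact ⟨h4.1, ball_subset_closedBall h4.2⟩
  obtain ⟨θ, D', hD'o, hpD', hθ, hψθ, hθp⟩ := locInv (a := 0) (by simp [hF.dimQ]) hψ hψi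
  rw [hψ0] at hpD' hθp
  obtain ⟨η, hη, hηs⟩ : ∃ η > 0, ball (0 : ℂ × ℂ) η ⊆ ψ ⁻¹' ball p β :=
    Metric.mem_nhds_iff.1 (hψ.continuous.continuousAt.preimage_mem_nhds
      (by rw [hψ0]; exact ball_mem_nhds p hβ))
  obtain ⟨r, hr, hrη, hrK⟩ := hψr η hη
  have hin : ∀ τ ∈ ball (0 : ℂ) η, ∀ σ ∈ closedBall (0 : ℂ) r, ψ (τ, σ) ∈ ball p β := by
    intro τ hτ σ hσ
    refine hηs ?_
    have h4 : (τ, σ) ∈ ball (0 : ℂ) η ×ˢ ball (0 : ℂ) η := ⟨hτ, closedBall_subset_ball hrη hσ⟩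
    rwa [ball_prod_same] at h4
  obtain ⟨hg1, hg2⟩ := h3 S Q F X k l z₀ Z Δ hF
  obtain ⟨ε, D, Φ, hKD, hDΔ, hΦ⟩ := hg1 ((fun σ => ψ (0, σ)) '' sphere (0 : ℂ) r)
    ((isCompact_sphere 0 r).image (hψ.continuous.comp (by fun_prop))) (by
      rintro _ ⟨σ, hσ, rfl⟩
      by_contra h4
      have h5 := hβΔ (hin 0 (mem_ball_self hη) σ (sphere_subset_closedBall hσ))
      refine hrK σ (by simpa using hσ) ⟨?_, h4⟩
      by_contra h6
      exact h4 (hG ⟨h5, h6⟩))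
  have hι : Differentiable ℂ fun q : (S × ℂ) × ℂ => (q.1.1, ψ (q.1.2, q.2)) :=
    (by fun_prop : Differentiable ℂ fun q : (S × ℂ) × ℂ => q.1.1).prodMk (hψ.comp (by fun_prop))
  set W : Set ((S × ℂ) × ℂ) := (fun q : (S × ℂ) × ℂ => (q.1.1, ψ (q.1.2, q.2))) ⁻¹'
    (ball z₀ ε ×ˢ D ∩ Φ ⁻¹' c.source) with hW
  have hWo : IsOpen W := (hΦ.2.2.1.1.isOpen_inter_preimage (isOpen_ball.prod hΦ.2.1)
    c.open_source).preimage hι.continuous
  have hΨ : DifferentiableOn ℂ (fun q : (S × ℂ) × ℂ => c (Φ (q.1.1, ψ (q.1.2, q.2)))) W :=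
    (hΦ.2.2.1.2 x₀).comp hι.differentiableOn fun q hq => hq
  obtain ⟨N, V, hNo, -, hN, hV, hNV⟩ := generalized_tube_lemma
    (isCompact_singleton (x := ((z₀, 0) : S × ℂ))) (isCompact_sphere (0 : ℂ) r) hWo (by
      rintro ⟨t, σ⟩ ⟨ht, hσ⟩
      have h4 : t = (z₀, 0) := ht
      subst h4
      have h5 : ψ (0, σ) ∈ D := hKD ⟨σ, hσ, rfl⟩
      have h6 := hβs (ball_subset_closedBall
        (hin 0 (mem_ball_self hη) σ (sphere_subset_closedBall hσ)))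
      refine ⟨⟨mem_ball_self hΦ.1, h5⟩, ?_⟩
      change Φ (z₀, ψ (0, σ)) ∈ c.source
      rw [(hf₀ _ h6.1 _).1 (hg2 ε D Φ hDΔ hΦ _ h5)]
      exact h6.2.1)
  have hNW : N ×ˢ sphere (0 : ℂ) r ⊆ W := (prod_mono Subset.rfl hV).trans hNV
  have hzN : ((z₀, 0) : S × ℂ) ∈ N := hN rfl
  obtain ⟨a, ha, hac⟩ := cauchy hWo hNo hr hNW hΨ
  have hB : ∀ᶠ z in l, ∃ g : Q → F,
      (∀ w ∈ ball p β, g w ∈ closedBall (c x₀) ρ ∧ ∀ x, ((w, x) ∈ Z z ↔ x = c.symm (g w))) ∧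
      ∀ τ ∈ ball (0 : ℂ) η, (z, τ) ∈ N → ∀ s ∈ ball (0 : ℂ) r, a ((z, τ), s) = g (ψ (τ, s)) := by
    filter_upwards [hA, hΦ.2.2.2] with z ⟨g, hg, hgZ⟩ hz
    refine ⟨g, hgZ, fun τ hτ hzτ => hac (z, τ) hzτ (fun σ => g (ψ (τ, σ)))
      (hg.comp (hψ.comp (by fun_prop)).differentiableOn fun σ hσ => hin τ hτ σ hσ)
      fun σ hσ => ?_⟩
    have h4 := hNW (⟨hzτ, hσ⟩ : ((z, τ), σ) ∈ N ×ˢ sphere (0 : ℂ) r)
    have h5 := hgZ _ (hin τ hτ σ (sphere_subset_closedBall hσ))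
    change c (Φ (z, ψ (τ, σ))) = _
    rw [(h5.2 _).1 ((hz _ h4.1.2 _).2 rfl), c.right_inv (hρt h5.1)]
  have hNo' : IsOpen (N ×ˢ ball (0 : ℂ) r) := hNo.prod isOpen_ball
  have h0 : (((z₀, 0), 0) : (S × ℂ) × ℂ) ∈ N ×ˢ ball (0 : ℂ) r := ⟨hzN, mem_ball_self hr⟩
  have ha0 : a ((z₀, 0), 0) ∈ c.target := by
    refine hρt (isClosed_closedBall.mem_of_tendsto (b := l)
      (f := fun z => a ((z, 0), 0)) ?_ ?_)
    · have h4 : ContinuousAt (fun z : S => (((z, 0), 0) : (S × ℂ) × ℂ)) z₀ := by fun_prop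
      exact (ContinuousAt.comp (f := fun z : S => (((z, 0), 0) : (S × ℂ) × ℂ))
        (ha.continuousOn.continuousAt (hNo'.mem_nhds h0)) h4).tendsto.mono_left hF.big.le
    · have h4 : ContinuousAt (fun z : S => ((z, 0) : S × ℂ)) z₀ := by fun_prop
      filter_upwards [hB, hF.big.le (h4.preimage_mem_nhds (hNo.mem_nhds hzN))]
        with z ⟨g, hgZ, hga⟩ hz
      rw [hga 0 (mem_ball_self hη) hz 0 (mem_ball_self hr)]
      exact (hgZ _ (hin 0 (mem_ball_self hη) 0 (mem_closedBall_self hr.le))).1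
  set κ : S × Q → (S × ℂ) × ℂ := fun q => ((q.1, (θ q.2).1), (θ q.2).2) with hκ
  have hκd : DifferentiableOn ℂ κ (univ ×ˢ D') := by
    have h4 : DifferentiableOn ℂ (fun q : S × Q => θ q.2) (univ ×ˢ D') :=
      hθ.comp differentiableOn_snd fun q hq => hq.2
    exact (differentiableOn_fst.prodMk h4.fst).prodMk h4.snd
  have hκ0 : κ (z₀, p) = ((z₀, 0), 0) := by simp [hκ, hθp]
  have hR : IsOpen ((N ×ˢ ball (0 : ℂ) r ∩ a ⁻¹' c.target) ∩ {t | t.1.2 ∈ ball (0 : ℂ) η}) :=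
    (ha.continuousOn.isOpen_inter_preimage hNo' c.open_target).inter
      (isOpen_ball.preimage (by fun_prop))
  have hR' := hκd.continuousOn.isOpen_inter_preimage (isOpen_univ.prod hD'o) hR
  obtain ⟨U₁, U₂, hU₁, hU₂, hz₁, hp₂, hU⟩ := isOpen_prod_iff.1 hR' z₀ p
    ⟨⟨trivial, hpD'⟩, by rw [mem_preimage, hκ0]; exact ⟨⟨h0, ha0⟩, mem_ball_self hη⟩⟩
  obtain ⟨ε', hε', hε's⟩ := Metric.isOpen_iff.1 hU₁ z₀ hz₁
  have hsub : ball z₀ ε' ×ˢ (U₂ ∩ ball p β) ⊆ U₁ ×ˢ U₂ := prod_mono hε's inter_subset_left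
  refine ⟨ε', U₂ ∩ ball p β, fun q => c.symm (a (κ q)), ⟨hp₂, mem_ball_self hβ⟩,
    inter_subset_right.trans hβΔ, hε', hU₂.inter isOpen_ball, ?_, ?_⟩
  · refine (tr (S × Q) F X).holSymm hT x₀ (isOpen_ball.prod (hU₂.inter isOpen_ball)) ?_
      fun q hq => (hU (hsub hq)).2.1.2
    exact ha.comp (hκd.mono fun q hq => (hU (hsub hq)).1) fun q hq => (hU (hsub hq)).2.1.1
  · filter_upwards [hB, hF.big.le (ball_mem_nhds z₀ hε')] with z ⟨g, hgZ, hga⟩ hz w hw x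
    have h4 := hU (hsub (⟨hz, hw⟩ : (z, w) ∈ ball z₀ ε' ×ˢ (U₂ ∩ ball p β)))
    have h5 : a (κ (z, w)) = g w := by
      have h6 := hga (θ w).1 h4.2.2 h4.2.1.1.1 (θ w).2 h4.2.1.1.2
      rw [Prod.mk.eta, hψθ w h4.1.2] at h6
      exact h6
    rw [h5]
    exact (hgZ w hw.2).2 x

end Pool.Agent.Lib.MP_823829_an.LA
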