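import Mathlib
import Pool.Agent.Lib.MP_823829_an.LA.All2
import Pool.Agent.Lib.MP_823829_an.LA.Stmt3

/-! The extension lemma: assembly. -/

namespace Pool.Agent.Lib.MP_823829_an.LA

open Set Filter Topology Metric Module

universe u

theorem isOpen_shell {Q : Type} [NormedAddCommGroup Q] (r ρ : ℝ) : IsOpen (shell Q r ρ) :=
  (isOpen_lt continuous_const continuous_norm).inter (isOpen_lt continuous_norm continuous_const)

theorem isPreconnected_shell {Q : Type} [NormedAddCommGroup Q] [NormedSpace ℂ Q]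
    [FiniteDimensional ℂ Q] (hQ : 1 ≤ finrank ℂ Q) {r ρ : ℝ} (hr : 0 ≤ r) :
    IsPreconnected (shell Q r ρ) := by
  have h1 : 1 < Module.rank ℝ Q := by
    rw [← finrank_eq_rank, finrank_real_of_complex]
    exact_mod_cast (by omega : 1 < 2 * finrank ℂ Q)
  have h2 : shell Q r ρ = (fun p : ℝ × Q => p.1 • p.2) '' (Ioo r ρ ×ˢ sphere (0 : Q) 1) := by
    ext w
    constructor
    · intro hw
      have h0 : 0 < ‖w‖ := hr.trans_lt hw.1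
      exact ⟨(‖w‖, ‖w‖⁻¹ • w), ⟨hw, by simp [norm_smul, h0.ne']⟩, by simp [smul_smul, h0.ne']⟩
    · rintro ⟨p, ⟨h3, h4⟩, rfl⟩
      have h5 : ‖p.1 • p.2‖ = p.1 := by
        rw [norm_smul, mem_sphere_zero_iff_norm.1 h4, mul_one,
          Real.norm_of_nonneg (hr.trans h3.1.le)]
      exact ⟨h5.symm ▸ h3.1, h5.symm ▸ h3.2⟩
  rw [h2]
  exact (isPreconnected_Ioo.prod (isConnected_sphere h1 0 zero_le_one).isPreconnected).image _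
    (by fun_prop)

namespace Ext

variable {S Q F : Type} {X : Type u} [NormedAddCommGroup S] [NormedSpace ℂ S]
  [NormedAddCommGroup Q] [NormedSpace ℂ Q] [NormedAddCommGroup F] [NormedSpace ℂ F]
  [TopologicalSpace X] [ChartedSpace F X]

lemma sub {k : ℕ} {l : Filter S} {z₀ : S} {Z : S → Set (Q × X)} {M O M' O' : Set ((S × Q) × X)}
    (h : ModOn F k l z₀ Z M O) (h' : ModOn F k l z₀ Z M' O') {c : (S × Q) × X} (hc : c ∈ O)
    (hc' : c ∈ O') (h0 : c.1.1 = z₀) : ∀ᶠ p in 𝓝 c, p ∈ M → p ∈ M' := by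
  refine h.det c hc h0 M' (h'.an c hc') (O ∩ O') ((h.op.inter h'.op).mem_nhds ⟨hc, hc'⟩) ?_
  filter_upwards [h.agr, h'.agr] with z h1 h2
  rintro ⟨⟨z', w⟩, x⟩ hp rfl hM
  exact (h2 w x hp.2).2 ((h1 w x hp.1).1 hM)

lemma agree {k : ℕ} {l : Filter S} {z₀ : S} {Z : S → Set (Q × X)} {M O M' O' : Set ((S × Q) × X)}
    (h : ModOn F k l z₀ Z M O) (h' : ModOn F k l z₀ Z M' O') {c : (S × Q) × X} (hc : c ∈ O)
    (hc' : c ∈ O') (h0 : c.1.1 = z₀) : ∀ᶠ p in 𝓝 c, (p ∈ M ↔ p ∈ M') :=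
  ((sub h h' hc hc' h0).and (sub h' h hc' hc h0)).mono fun _ hp => ⟨hp.1, hp.2⟩

/-- tube lemma in the form needed -/
lemma tube {A B : Type*} [TopologicalSpace A] [TopologicalSpace B] [CompactSpace B] {K : Set A}
    (hK : IsCompact K) {P : A × B → Prop} (h : ∀ a ∈ K, ∀ x, ∀ᶠ p in 𝓝 (a, x), P p) :
    ∃ u, IsOpen u ∧ K ⊆ u ∧ ∀ a ∈ u, ∀ x, P (a, x) := by
  obtain ⟨u, v, hu, -, h1, h2, h3⟩ := generalized_tube_lemma hK (isCompact_univ (X := B))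
    (n := interior {p | P p}) isOpen_interior
    fun p hp => mem_interior_iff_mem_nhds.2 (h p.1 hp.1 p.2)
  exact ⟨u, hu, h1, fun a ha x => interior_subset (h3 (mk_mem_prod ha (h2 (mem_univ x))))⟩

end Ext

open Ext in
theorem extS (tr : TrAll.{u}) (hC : CondS.{u}) (hE1 : E1S.{u}) (hM : ModS.{u})
    (hG : ModGrS.{u}) (hg : GermS.{u}) : ExtS.{u} := by
  intro S Q F X _ _ _ _ _ _ _ _ _ _ _ _ _ k U E r ρ f hT hS hQ hU hEU hr hrρ hf hE hthin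
  have : ProperSpace Q := FiniteDimensional.proper ℂ Q
  have : ProperSpace S := FiniteDimensional.proper ℂ S
  have t := tr (S × Q) F X
  have g := gm (S × Q) F X
  choose! Z hZ1 hZ2 using hE
  obtain ⟨z₀, hz₀, l, hEl, fam⟩ := hC S Q F X k E Z (ball 0 ρ) hS hQ isOpen_ball hthin hZ1
  obtain ⟨ε₀, hε₀, hb₀⟩ := Metric.isOpen_iff.1 hU z₀ (hEU hz₀)
  have hA : Agr F l z₀ Z ε₀ (shell Q r ρ) f :=
    ⟨hε₀, isOpen_shell r ρ, t.holMono hf (prod_mono hb₀ Subset.rfl), mem_of_superset hEl hZ2⟩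
  have hone := hE1 S Q F X k l z₀ Z (ball 0 ρ) (closedBall 0 r) hT fam (isCompact_closedBall _ _)
    (closedBall_subset_ball hrρ) fun w hw => ⟨ε₀, shell Q r ρ, f,
      ⟨by simpa using hw.2, by simpa using hw.1⟩, fun w hw => mem_ball_zero_iff.2 hw.2, hA⟩
  choose! M O hO hMO using fun w (hw : w ∈ ball (0 : Q) ρ) x =>
    hM S Q F X k l z₀ Z _ w x hT fam hone hw
  set r' := (r + ρ) / 2 with hr'
  have h1 : r < r' := by linarith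
  have h2 : r' < ρ := by linarith
  have hK : IsCompact (({z₀} : Set S) ×ˢ closedBall (0 : Q) r') :=
    isCompact_singleton.prod (isCompact_closedBall _ _)
  have hcb : closedBall (0 : Q) r' ⊆ ball 0 ρ := closedBall_subset_ball h2
  have hO' : ∀ a ∈ (({z₀} : Set S) ×ˢ closedBall (0 : Q) r') ×ˢ (univ : Set X),
      a ∈ O a.1.2 a.2 := by
    rintro ⟨⟨z, w⟩, x⟩ ⟨⟨rfl, hw⟩, -⟩
    exact hO w (hcb hw) x
  obtain ⟨G, hGM⟩ := hg ((S × Q) × X) _ (fun a => M a.1.2 a.2) (fun a => O a.1.2 a.2)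
    (hK.prod isCompact_univ) (fun a ha => ⟨(hMO _ (hcb ha.1.2) _).op, hO' a ha⟩)
    fun a ha b hb c hc h3 h4 => agree (hMO _ (hcb ha.1.2) _) (hMO _ (hcb hb.1.2) _) h3 h4 hc.1.1
  obtain ⟨u, hu, hKu, hP⟩ := tube hK (B := X)
    (P := fun p => AnXAt F G p ∧ ∃ O' ∈ 𝓝 p, ThinX F (k + 3) (G ∩ O')) fun a ha x => by
      have h3 := hGM (a, x) ⟨ha, trivial⟩
      have h4 := hMO _ (hcb ha.2) x
      have h5 := hO' (a, x) ⟨ha, trivial⟩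
      filter_upwards [h3.eventually_nhds, h4.op.mem_nhds h5] with p h6 h7
      exact ⟨t.congr (h4.an p h7) (h6.mono fun q hq => hq.symm), _,
        inter_mem h6 (h4.op.mem_nhds h7), t.thinMono h4.thin fun q hq => ⟨hq.2.1.1 hq.1, hq.2.2⟩⟩
  obtain ⟨u₁, v₁, hu₁, -, h3, h4, h5⟩ := generalized_tube_lemma isCompact_singleton
    (isCompact_closedBall (0 : Q) r') hu hKu
  obtain ⟨ε, hε, hb⟩ := Metric.isOpen_iff.1 (hu₁.inter isOpen_ball) z₀ ⟨h3 rfl, mem_ball_self hε₀⟩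
  set D : Set (S × Q) := ball z₀ ε ×ˢ ball 0 r' with hD
  have hDu : D ⊆ u := fun p hp => h5 ⟨(hb hp.1).1, h4 (ball_subset_closedBall hp.2)⟩
  have hDo : IsOpen D := isOpen_ball.prod isOpen_ball
  have hrk : finrank ℂ (S × Q) = k + 3 := by rw [finrank_prod, hS, hQ]
  have : Nontrivial Q := Module.nontrivial_of_finrank_pos (R := ℂ) (by omega)
  obtain ⟨w₁, hw₁⟩ := exists_norm_eq Q (c := (r + r') / 2) (by linarith)
  have hw₁s : w₁ ∈ shell Q r ρ := ⟨by linarith, by linarith⟩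
  have hw₁b : w₁ ∈ ball (0 : Q) r' := by rw [mem_ball_zero_iff]; linarith
  obtain ⟨u₂, hu₂, h6, h7⟩ := tube (isCompact_singleton (x := (z₀, w₁))) (B := X)
    (P := fun p => p ∈ G ↔ p ∈ gr f (ball z₀ ε₀ ×ˢ shell Q r ρ)) (by
      rintro _ rfl x
      have ha : ((z₀, w₁), x) ∈ (({z₀} : Set S) ×ˢ closedBall (0 : Q) r') ×ˢ (univ : Set X) :=
        ⟨⟨rfl, ball_subset_closedBall hw₁b⟩, trivial⟩
      filter_upwards [hGM _ ha, agree (hMO _ (hcb ha.1.2) x)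
        (hG S Q F X k l z₀ Z ε₀ _ f fam.big hQ hA) (hO' _ ha)
        ⟨⟨mem_ball_self hε₀, hw₁s⟩, trivial⟩ rfl] with p h8 h9 using h8.trans h9)
  set D₁ : Set (S × Q) := ball z₀ ε ×ˢ shell Q r r' with hD₁
  set D₂ : Set (S × Q) := ball z₀ ε ×ˢ shell Q r ρ with hD₂
  have hD₁o : IsOpen D₁ := isOpen_ball.prod (isOpen_shell _ _)
  have hD₂o : IsOpen D₂ := isOpen_ball.prod (isOpen_shell _ _)
  have h12 : D₁ ⊆ D₂ := fun p hp => ⟨hp.1, hp.2.1, hp.2.2.trans h2⟩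
  have h1D : D₁ ⊆ D := fun p hp => ⟨hp.1, mem_ball_zero_iff.2 hp.2.2⟩
  have hf₂ : HolX F f D₂ := t.holMono hf (prod_mono (fun z hz => hb₀ (hb hz).2) Subset.rfl)
  have hGO : ∀ p ∈ u₂ ∩ D₁, ∀ x, ((p, x) ∈ G ↔ x = f p) := fun p hp x =>
    (h7 p hp.1 x).trans ⟨fun h => h.2, fun h => ⟨⟨(hb hp.2.1).2, (h12 hp.2).2⟩, h⟩⟩
  have hne : (u₂ ∩ D₁).Nonempty := ⟨(z₀, w₁), h6 rfl, mem_ball_self hε, by linarith, by linarith⟩
  obtain ⟨m1, m2, m3⟩ := lemM (S × Q) F X G D (u₂ ∩ D₁) hDo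
    ((convex_ball _ _).prod (convex_ball _ _)).isPreconnected
    (t.iff.2 fun p hp => (hP p.1 (hDu hp) p.2).1)
    (hrk ▸ t.thinLoc fun p hp => by
      obtain ⟨O', h8, h9⟩ := (hP p.1 (hDu hp.2.1) p.2).2
      exact ⟨O', h8, t.thinMono h9 fun q hq => ⟨hq.1.1, hq.2⟩⟩)
    (hu₂.inter hD₁o) hne (inter_subset_right.trans h1D)
    fun p hp => ⟨f p, (hGO p hp _).2 rfl, fun x hx => (hGO p hp x).1 hx⟩
  set Γ₀ := closure (RegX G) ∩ D ×ˢ univ with hΓ₀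
  have heq : Γ₀ ∩ D₁ ×ˢ univ = gr f D₁ := by
    refine g.uniq hD₁o ((convex_ball _ _).isPreconnected.prod (isPreconnected_shell (by omega) hr))
      (g.res m1 hD₁o h1D) (g.ofHol hD₁o (t.holMono hf₂ h12)) (hu₂.inter hD₁o) hne
      inter_subset_right (Set.ext fun q => ⟨fun hq => ?_, fun hq => ?_⟩)
    · exact ⟨⟨hq.1.2.1, (hGO q.1 hq.2.1 q.2).1 (m2 hq.1.1)⟩, hq.2⟩
    · exact ⟨⟨⟨subset_closure (m3 ⟨(hGO q.1 hq.2.1 q.2).2 hq.1.2, hq.2⟩), h1D hq.1.1, trivial⟩,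
        hq.1.1, trivial⟩, hq.2⟩
  have e1 : (Γ₀ ∪ gr f D₂) ∩ D ×ˢ univ = Γ₀ := by
    refine Subset.antisymm (fun q hq => hq.1.elim id fun h => ?_)
      fun q hq => ⟨Or.inl hq, hq.2⟩
    have : q ∈ gr f D₁ := ⟨⟨h.1.1, h.1.2.1, mem_ball_zero_iff.1 hq.2.1.2⟩, h.2⟩
    exact (heq ▸ this : q ∈ Γ₀ ∩ D₁ ×ˢ univ).1
  have e2 : (Γ₀ ∪ gr f D₂) ∩ D₂ ×ˢ univ = gr f D₂ := by
    refine Subset.antisymm (fun q hq => hq.1.elim (fun h => ?_) id)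
      fun q hq => ⟨Or.inr hq, hq.1, trivial⟩
    have : q ∈ Γ₀ ∩ D₁ ×ˢ univ :=
      ⟨h, ⟨hq.2.1.1, hq.2.1.2.1, mem_ball_zero_iff.1 h.2.1.2⟩, trivial⟩
    exact ⟨hq.2.1, (heq ▸ this : q ∈ gr f D₁).2⟩
  refine ⟨z₀, hz₀, ball z₀ ε, Γ₀ ∪ gr f D₂, isOpen_ball, mem_ball_self hε,
    fun z hz => hb₀ (hb hz).2, g.loc ?_ fun p hp => ?_, fun p hp x => ?_⟩
  · rintro q (hq | hq)
    · exact ⟨⟨hq.2.1.1, ball_subset_ball h2.le hq.2.1.2⟩, trivial⟩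
    · exact ⟨⟨hq.1.1, mem_ball_zero_iff.2 hq.1.2.2⟩, trivial⟩
  · by_cases h : ‖p.2‖ < r'
    · exact ⟨D, hDo, ⟨hp.1, mem_ball_zero_iff.2 h⟩, prod_mono Subset.rfl (ball_subset_ball h2.le),
        e1.symm ▸ m1⟩
    · exact ⟨D₂, hD₂o, ⟨hp.1, by linarith, mem_ball_zero_iff.1 hp.2⟩,
        fun q hq => ⟨hq.1, mem_ball_zero_iff.2 hq.2.2⟩, e2.symm ▸ g.ofHol hD₂o hf₂⟩
  · exact ⟨fun h => (e2 ▸ (⟨h, hp, trivial⟩ : (p, x) ∈ (Γ₀ ∪ gr f D₂) ∩ D₂ ×ˢ univ) :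
      (p, x) ∈ gr f D₂).2, fun h => Or.inr ⟨hp, h⟩⟩

end Pool.Agent.Lib.MP_823829_an.LA
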