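import Mathlib
import Pool.Agent.Lib.MP_823829_an.LA.Stmt3

/-! Gluing of the holomorphic maps which give a family over the good set. -/

namespace Pool.Agent.Lib.MP_823829_an.LA

open Set Filter Topology Metric

universe u

namespace Glue

variable {S Q F : Type} {X : Type u} [NormedAddCommGroup S] [NormedSpace ℂ S]
  [FiniteDimensional ℂ S] [NormedAddCommGroup Q] [NormedSpace ℂ Q] [FiniteDimensional ℂ Q]
  [NormedAddCommGroup F] [NormedSpace ℂ F] [FiniteDimensional ℂ F] [TopologicalSpace X]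
  [T2Space X] [CompactSpace X] [ChartedSpace F X]

/-- two maps which give the family agree over the common part of their domains -/
theorem overlap (tr : TrAll.{u}) (h : UqXS.{u}) {k : ℕ} {l : Filter S} {z₀ : S}
    {Z : S → Set (Q × X)} (hb : Big k l z₀) {ε₁ ε₂ : ℝ} {D₁ D₂ : Set Q} {Φ₁ Φ₂ : S × Q → X}
    (h₁ : Agr F l z₀ Z ε₁ D₁ Φ₁) (h₂ : Agr F l z₀ Z ε₂ D₂ Φ₂) {w : Q} (hw₁ : w ∈ D₁)
    (hw₂ : w ∈ D₂) {z : S} (hz : z ∈ ball z₀ (min ε₁ ε₂)) : Φ₁ (z, w) = Φ₂ (z, w) := by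
  have hφ : DifferentiableOn ℂ (fun z : S => (z, w)) (ball z₀ (min ε₁ ε₂)) :=
    (differentiable_id.prodMk (differentiable_const w)).differentiableOn
  have a₁ : HolX F (fun z : S => Φ₁ (z, w)) (ball z₀ (min ε₁ ε₂)) :=
    (tr (S × Q) F X).holComp h₁.2.2.1 hφ
      (fun y hy => ⟨ball_subset_ball (min_le_left _ _) hy, hw₁⟩)
  have a₂ : HolX F (fun z : S => Φ₂ (z, w)) (ball z₀ (min ε₁ ε₂)) :=
    (tr (S × Q) F X).holComp h₂.2.2.1 hφ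
      (fun y hy => ⟨ball_subset_ball (min_le_right _ _) hy, hw₂⟩)
  have e : ∀ᶠ y in l, (fun z : S => Φ₁ (z, w)) y = (fun z : S => Φ₂ (z, w)) y := by
    filter_upwards [h₁.2.2.2, h₂.2.2.2] with y hy₁ hy₂
    exact (hy₂ w hw₂ _).1 ((hy₁ w hw₁ _).2 rfl)
  exact h S F X k l z₀ (ball z₀ (min ε₁ ε₂)) _ _ hb isOpen_ball (convex_ball _ _).isPreconnected
    (mem_ball_self (lt_min h₁.1 h₂.1)) a₁ a₂ e hz

/-- gluing of two maps -/
theorem two (tr : TrAll.{u}) (h : UqXS.{u}) {k : ℕ} {l : Filter S} {z₀ : S}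
    {Z : S → Set (Q × X)} (hb : Big k l z₀) {ε₁ ε₂ : ℝ} {D₁ D₂ : Set Q} {Φ₁ Φ₂ : S × Q → X}
    (h₁ : Agr F l z₀ Z ε₁ D₁ Φ₁) (h₂ : Agr F l z₀ Z ε₂ D₂ Φ₂) :
    ∃ Φ : S × Q → X, Agr F l z₀ Z (min ε₁ ε₂) (D₁ ∪ D₂) Φ := by
  classical
  refine ⟨fun p => if p.2 ∈ D₁ then Φ₁ p else Φ₂ p, lt_min h₁.1 h₂.1, h₁.2.1.union h₂.2.1, ?_, ?_⟩
  · refine (tr (S × Q) F X).holLoc ?_
    rintro p ⟨hp, hp₁ | hp₂⟩
    · refine ⟨ball z₀ (min ε₁ ε₂) ×ˢ D₁, isOpen_ball.prod h₁.2.1, ⟨hp, hp₁⟩, ?_⟩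
      refine (tr (S × Q) F X).holCongr ((tr (S × Q) F X).holMono h₁.2.2.1
        (prod_mono (ball_subset_ball (min_le_left _ _)) Subset.rfl)) ?_
      intro q hq
      exact if_pos hq.2
    · refine ⟨ball z₀ (min ε₁ ε₂) ×ˢ D₂, isOpen_ball.prod h₂.2.1, ⟨hp, hp₂⟩, ?_⟩
      refine (tr (S × Q) F X).holCongr ((tr (S × Q) F X).holMono h₂.2.2.1
        (prod_mono (ball_subset_ball (min_le_right _ _)) Subset.rfl)) ?_
      intro q hq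
      by_cases hq₁ : q.2 ∈ D₁
      · exact (if_pos hq₁).trans (overlap tr h hb h₁ h₂ hq₁ hq.2 hq.1)
      · exact if_neg hq₁
  · filter_upwards [h₁.2.2.2, h₂.2.2.2] with y hy₁ hy₂ w hw x
    by_cases hw₁ : w ∈ D₁
    · simp only [hw₁, if_true]
      exact hy₁ w hw₁ x
    · simp only [hw₁, if_false]
      exact hy₂ w (hw.resolve_left hw₁) x

omit [FiniteDimensional ℂ S] in
/-- the central slice of a map which gives the family lies in the central graph -/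
theorem center (xb : XBall.{u}) {k : ℕ} {l : Filter S} {z₀ : S} {Z : S → Set (Q × X)}
    {Δ : Set Q} (hf : Fam F k l z₀ Z Δ) {ε : ℝ} {D : Set Q} {Φ : S × Q → X} (hD : D ⊆ Δ)
    (ha : Agr F l z₀ Z ε D Φ) {w : Q} (hw : w ∈ D) : (w, Φ (z₀, w)) ∈ Z z₀ := by
  by_contra hn
  have hcl : (w, Φ (z₀, w)) ∉ closure (Z z₀) := fun hc =>
    hn ((xb Q F X).closed hf.mer₀.an ⟨hc, hD hw, mem_univ _⟩)
  have hop : IsOpen {x : X | (w, x) ∉ closure (Z z₀)} :=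
    isClosed_closure.isOpen_compl.preimage (Continuous.prodMk_right w)
  obtain ⟨N, hN, hNs, hNc⟩ := local_compact_nhds (hop.mem_nhds hcl)
  have hC : IsCompact (({w} : Set Q) ×ˢ N) := isCompact_singleton.prod hNc
  have hCs : ({w} : Set Q) ×ˢ N ⊆ Δ ×ˢ univ :=
    prod_mono (singleton_subset_iff.2 (hD hw)) (subset_univ _)
  have hCd : Disjoint (({w} : Set Q) ×ˢ N) (Z z₀) := by
    refine Set.disjoint_left.2 ?_
    rintro ⟨w', x⟩ ⟨hw', hx⟩ hz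
    have : w' = w := hw'
    subst this
    exact hNs hx (subset_closure hz)
  have hc : ContinuousAt Φ (z₀, w) :=
    ha.2.2.1.1.continuousAt ((isOpen_ball.prod ha.2.1).mem_nhds ⟨mem_ball_self ha.1, hw⟩)
  have hc' : ContinuousAt (fun z : S => Φ (z, w)) z₀ :=
    ContinuousAt.comp (f := fun z : S => (z, w)) hc (Continuous.prodMk_left w).continuousAt
  have e₁ : ∀ᶠ z in l, Φ (z, w) ∈ N := hf.big.le (hc' hN)
  have := hf.big.ne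
  obtain ⟨z, hz₁, hz₂, hz₃⟩ := (e₁.and ((hf.usc _ hC hCs hCd).and ha.2.2.2)).exists
  exact Set.disjoint_left.1 hz₂ (show (w, Φ (z, w)) ∈ ({w} : Set Q) ×ˢ N from ⟨rfl, hz₁⟩)
    ((hz₃ w hw _).2 rfl)

end Glue

theorem glueS (xb : XBall.{u}) (tr : TrAll.{u}) (h : UqXS.{u}) : GlueS.{u} := by
  intro S Q F X _ _ _ _ _ _ _ _ _ _ _ _ _ _ k l z₀ Z Δ hf
  refine ⟨fun K hK hKG => ?_, fun ε D Φ hD ha w hw => Glue.center xb hf hD ha hw⟩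
  refine hK.induction_on
    (p := fun K => ∃ (ε : ℝ) (D : Set Q) (Φ : S × Q → X), K ⊆ D ∧ D ⊆ Δ ∧ Agr F l z₀ Z ε D Φ)
    ?_ ?_ ?_ ?_
  · refine ⟨1, ∅, fun _ => Classical.arbitrary X, Subset.rfl, empty_subset _, one_pos,
      isOpen_empty, ?_, Eventually.of_forall fun z w hw => hw.elim⟩
    refine (tr (S × Q) F X).holLoc ?_
    rintro p ⟨_, hp⟩
    exact hp.elim
  · rintro s t hst ⟨ε, D, Φ, h₁, h₂, h₃⟩
    exact ⟨ε, D, Φ, hst.trans h₁, h₂, h₃⟩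
  · rintro s t ⟨ε₁, D₁, Φ₁, a₁, a₂, a₃⟩ ⟨ε₂, D₂, Φ₂, b₁, b₂, b₃⟩
    obtain ⟨Φ, hΦ⟩ := Glue.two tr h hf.big a₃ b₃
    exact ⟨_, D₁ ∪ D₂, Φ, union_subset_union a₁ b₁, union_subset a₂ b₂, hΦ⟩
  · intro w hw
    obtain ⟨ε, D, Φ, h₁, h₂, h₃⟩ := hKG hw
    exact ⟨D, mem_nhdsWithin_of_mem_nhds (h₃.2.1.mem_nhds h₁), ε, D, Φ, Subset.rfl, h₂, h₃⟩

end Pool.Agent.Lib.MP_823829_an.LA
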