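import Mathlib
import Pool.Agent.Lib.MP_823829_an.LA.All
import Pool.Agent.Lib.MP_823829_an.LA.Pure
import Pool.Agent.Lib.MP_823829_an.LA.Stmt3

/-! Preparation of the Cauchy integral step. -/

namespace Pool.Agent.Lib.MP_823829_an.LA

open Set Filter Topology Metric MeasureTheory Module

universe u

namespace Prep

lemma pure_mono {E : Type} [NormedAddCommGroup E] [NormedSpace ℂ E] {k : ℕ} {Y V V' : Set E}
    (h : Pure k Y V) (hV : V' ⊆ V) : Pure k Y V' := fun q hq => h q ⟨hq.1, hV hq.2⟩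

lemma compact_inter {E : Type} [NormedAddCommGroup E] [NormedSpace ℂ E] {Y K : Set E}
    (hK : IsCompact K) (h : AnOn Y K) : IsCompact (Y ∩ K) := by
  refine hK.of_isClosed_subset (isClosed_of_closure_subset fun q hq => ?_) inter_subset_right
  have h1 : q ∈ K := closure_minimal inter_subset_right hK.isClosed hq
  exact ⟨(h q h1).mem_of_closure (closure_mono inter_subset_left hq), h1⟩

section
variable {T F : Type} [NormedAddCommGroup T] [NormedSpace ℂ T] [NormedAddCommGroup F]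
  [NormedSpace ℂ F] {X : Type u} [TopologicalSpace X] [ChartedSpace F X]

/-- the graph of a holomorphic map consists of regular points -/
lemma gr_reg {f : T → X} {V : Set T} (hV : IsOpen V) (hf : HolX F f V) (x : X) :
    ch F x (gr f V) ⊆ Reg (ch F x (gr f V)) := by
  intro q hq
  have hs : f q.1 ∈ (chartAt F x).source := by
    have := (chartAt F x).map_target hq.1
    rwa [show (chartAt F x).symm q.2 = f q.1 from hq.2.2] at this
  refine ⟨hq, V ∩ f ⁻¹' (chartAt F x).source, (chartAt F x).target, fun z => chartAt F x (f z),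
    hf.1.isOpen_inter_preimage hV (chartAt F x).open_source, (chartAt F x).open_target,
    ⟨hq.2.1, hs⟩, hq.1, hf.2 x, fun z hz => (chartAt F x).map_source hz.2, fun t ht y hy => ?_⟩
  constructor
  · intro h
    have : (chartAt F x).symm y = f t := h.2.2
    simp only [← this, (chartAt F x).right_inv hy]
  · rintro rfl
    exact ⟨hy, ht.1, (chartAt F x).left_inv ht.2⟩

end

section
variable {S Q F : Type} [NormedAddCommGroup S] [NormedSpace ℂ S] [NormedAddCommGroup Q]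
  [NormedSpace ℂ Q] [NormedAddCommGroup F] [NormedSpace ℂ F] {X : Type u} [TopologicalSpace X]
  [ChartedSpace F X] {T G : Type} [NormedAddCommGroup T] [NormedSpace ℂ T]
  [NormedAddCommGroup G] [NormedSpace ℂ G]

lemma mem_img {E E' : Type} [NormedAddCommGroup E] [NormedSpace ℂ E] [NormedAddCommGroup E']
    [NormedSpace ℂ E'] (e : E ≃L[ℂ] E') (A : Set E) (v : E') : v ∈ e '' A ↔ e.symm v ∈ A := by
  rw [e.image_eq_preimage_symm]; rfl

/-- upper semicontinuity read in a chart and in linear coordinates -/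
lemma usc' {k : ℕ} {l : Filter S} {z₀ : S} {Z : S → Set (Q × X)} {Δ : Set Q}
    (h : Fam F k l z₀ Z Δ) (x : X) (e : (Q × F) ≃L[ℂ] T × G) {C : Set (T × G)}
    (hC : IsCompact C) (hW : ∀ v ∈ C, e.symm v ∈ Δ ×ˢ (chartAt F x).target)
    (h0 : ∀ v ∈ C, v ∉ e '' ch F x (Z z₀)) : ∀ᶠ z in l, ∀ v ∈ C, v ∉ e '' ch F x (Z z) := by
  have hc : ContinuousOn (fun v : T × G => ((e.symm v).1, (chartAt F x).symm (e.symm v).2)) C :=
    ContinuousOn.prodMk (by fun_prop)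
      ((chartAt F x).continuousOn_symm.comp (by fun_prop) fun v hv => (hW v hv).2)
  have := h.usc _ (hC.image_of_continuousOn hc)
    (by rintro _ ⟨v, hv, rfl⟩; exact ⟨(hW v hv).1, trivial⟩)
    (disjoint_left.2 (by
      rintro _ ⟨v, hv, rfl⟩ hz
      exact h0 v hv ((mem_img e _ v).2 ⟨(hW v hv).2, hz⟩)))
  filter_upwards [this] with z hz v hv hv'
  exact disjoint_left.1 hz (mem_image_of_mem _ hv) ((mem_img e _ v).1 hv').2

variable (S) in
/-- the linear coordinates with a parameter -/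
def eh (e : (Q × F) ≃L[ℂ] T × G) : ((S × Q) × F) ≃L[ℂ] (S × T) × G :=
  (ContinuousLinearEquiv.prodAssoc ℂ S Q F).trans
    (((ContinuousLinearEquiv.refl ℂ S).prodCongr e).trans
      (ContinuousLinearEquiv.prodAssoc ℂ S T G).symm)

lemma eh_symm (e : (Q × F) ≃L[ℂ] T × G) (P : (S × T) × G) :
    (eh S e).symm P = ((P.1.1, (e.symm (P.1.2, P.2)).1), (e.symm (P.1.2, P.2)).2) := rfl

end

end Prep

open Prep in
theorem prepS (xb : XBall.{u}) (st : STall.{u}) (h1 : Scale2S) (h3 : GlueS.{u}) : PrepS.{u} := by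
  intro S Q F X _ _ _ _ _ _ _ _ _ _ _ _ _ k l z₀ Z Δ w x hF hgood hw
  have : Nonempty X := ⟨x⟩
  have : ProperSpace Q := FiniteDimensional.proper ℂ Q
  have : ProperSpace (Q × F) := FiniteDimensional.proper ℂ (Q × F)
  have s0 := st Q F X (Z z₀) Δ hF.op hF.mer₀
  set c := chartAt F x with hc
  set p : Q × F := (w, c x) with hp
  have hpW : p ∈ Δ ×ˢ c.target := ⟨hw, mem_chart_target F x⟩
  obtain ⟨η, hη, hball⟩ := nhds_basis_closedBall.mem_iff.1
    ((hF.op.prod c.open_target).mem_nhds hpW)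
  have hA0 : IsCompact (ch F x (Z z₀ ∩ (one (Z z₀) Δ)ᶜ ×ˢ univ) ∩ closedBall p η) :=
    compact_inter (isCompact_closedBall p η) ((s0.anSig x).mono hball)
  obtain ⟨e, hB1, hB2⟩ := h1 (Q × F) (finrank ℂ F) (ch F x (Z z₀)) univ _ p
    (by rw [finrank_prod, hF.dimQ]) (hF.mer₀.an x p hpW) univ_mem
    (by simpa [hF.dimQ] using s0.thin x) hA0
    (thinS.mono (s0.thinSig 1 hF.dimQ.le x) inter_subset_left)
  set t₀ := (e p).1 with ht₀
  set y₀ := (e p).2 with hy₀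
  obtain ⟨ε₀, ρ₁, ρ, hε₀, hρ₁, hρ, hV, hAn, hbox, -⟩ :=
    hB1.cut ((hF.mer₀.an x p hpW).image_equiv e) (V := e '' closedBall p η)
      (e.toHomeomorph.isOpenMap.image_mem_nhds (closedBall_mem_nhds p hη))
  rw [← ht₀, ← hy₀] at hV hAn hbox
  obtain ⟨ε, a, b, hε, hεε, ha, hab, hbε, hbox2⟩ := hB2 ε₀ hε₀
  have hin : ∀ v ∈ closedBall t₀ ε₀ ×ˢ closedBall y₀ ρ, e.symm v ∈ Δ ×ˢ c.target :=
    fun v hv => hball ((mem_img e _ v).1 (hV hv))
  set Rb : Set (ℂ × ℂ) := {t | dist t.1 t₀.1 ≤ ε ∧ a ≤ dist t.2 t₀.2 ∧ dist t.2 t₀.2 ≤ b}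
    with hRb
  have hRs : Rb ⊆ closedBall t₀ ε₀ := fun t ht => by
    rw [mem_closedBall, Prod.dist_eq]
    exact max_le (ht.1.trans hεε.le) (ht.2.2.trans hbε.le)
  have hRc : IsCompact Rb := by
    refine (isCompact_closedBall t₀ ε₀).of_isClosed_subset ?_ hRs
    have c1 : Continuous fun t : ℂ × ℂ => dist t.1 t₀.1 := by fun_prop
    have c2 : Continuous fun t : ℂ × ℂ => dist t.2 t₀.2 := by fun_prop
    exact (isClosed_le c1 continuous_const).inter
      ((isClosed_le continuous_const c2).inter (isClosed_le c2 continuous_const))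
  have hann : ann t₀ ε a b ⊆ Rb := fun t ht => ⟨le_of_lt ht.1, ht.2.1.le, ht.2.2.le⟩
  have hanno : IsOpen (ann t₀ ε a b) := by
    have c2 : Continuous fun s : ℂ => dist s t₀.2 := by fun_prop
    exact isOpen_ball.prod ((isOpen_lt continuous_const c2).inter (isOpen_lt c2 continuous_const))
  set Bx := Rb ×ˢ closedBall y₀ ρ with hBx
  have hBs : Bx ⊆ closedBall t₀ ε₀ ×ˢ closedBall y₀ ρ := prod_mono hRs Subset.rfl
  have hBc : IsCompact Bx := hRc.prod (isCompact_closedBall _ _)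
  have hπ : Continuous fun v : (ℂ × ℂ) × (Fin (finrank ℂ F) → ℂ) => (e.symm v).1 := by fun_prop
  have hKc : IsCompact ((fun v => (e.symm v).1) '' (e '' ch F x (Z z₀) ∩ Bx)) :=
    (compact_inter hBc (hAn.mono hBs)).image hπ
  have hKone : (fun v => (e.symm v).1) '' (e '' ch F x (Z z₀) ∩ Bx) ⊆ one (Z z₀) Δ := by
    rintro _ ⟨v, ⟨hv, hvB⟩, rfl⟩
    by_contra hn
    have h1 := (mem_img e _ v).1 hv
    have h2 := hbox2 v.1 ⟨e.symm v, ⟨⟨h1.1, h1.2, hn, trivial⟩,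
      (mem_img e _ v).1 (hV (hBs hvB))⟩, by simp⟩ hvB.1.1 hvB.1.2.2
    exact lt_irrefl _ (h2.trans_le hvB.1.2.1)
  obtain ⟨g1, g2⟩ := h3 S Q F X k l z₀ Z Δ hF
  obtain ⟨ε', D, Φ, hKD, hDΔ, hAg⟩ := g1 _ hKc (hKone.trans hgood)
  have g3 := g2 ε' D Φ hDΔ hAg
  obtain ⟨hε', hDo, hΦ, hagr⟩ := hAg
  obtain ⟨D', hD'o, hKD', hD'D, -⟩ := exists_open_between_and_isCompact_closure hKc hDo hKD
  have hV0 : IsOpen (ball z₀ ε' ×ˢ D) := isOpen_ball.prod hDo
  set Gr := eh S e '' ch F x (gr Φ (ball z₀ ε' ×ˢ D)) with hGr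
  have mGr : ∀ z (v : (ℂ × ℂ) × (Fin (finrank ℂ F) → ℂ)), ((z, v.1), v.2) ∈ Gr ↔
      (e.symm v).2 ∈ c.target ∧ (z ∈ ball z₀ ε' ∧ (e.symm v).1 ∈ D) ∧
        c.symm (e.symm v).2 = Φ (z, (e.symm v).1) := fun z v => mem_img _ _ _
  have aGr : ∀ z ∈ ball z₀ ε', ∀ v ∈ Bx, (e.symm v).1 ∈ D → AnAt Gr ((z, v.1), v.2) := by
    intro z hz v hv hD
    have := ((xb (S × Q) F X).anGr hV0 hΦ x ((eh S e).symm ((z, v.1), v.2))
      ⟨⟨hz, hD⟩, (hin v (hBs hv)).2⟩).image_equiv (eh S e)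
    rwa [ContinuousLinearEquiv.apply_symm_apply] at this
  set C₁ := Bx ∩ ({v | (e.symm v).1 ∈ closure D'} ∩
    ({v | (e.symm v).1 ∈ D'ᶜ} ∪ {v | ρ₁ ≤ dist v.2 y₀})) with hC₁
  have hC₁c : IsCompact C₁ := hBc.inter_right ((isClosed_closure.preimage hπ).inter
    ((hD'o.isClosed_compl.preimage hπ).union (isClosed_le continuous_const (by fun_prop))))
  have htube : ∀ᶠ z in 𝓝 z₀, ∀ v ∈ C₁, ((z, v.1), v.2) ∉ Gr := by
    refine hC₁c.eventually_forall_of_forall_eventually (P := fun z v => ((z, v.1), v.2) ∉ Gr)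
      fun v hv => ?_
    have hn : ((z₀, v.1), v.2) ∉ Gr := by
      intro h
      obtain ⟨h1, ⟨-, h2⟩, h3⟩ := (mGr z₀ v).1 h
      have h4 : v ∈ e '' ch F x (Z z₀) := (mem_img e _ v).2 ⟨h1, h3 ▸ g3 _ h2⟩
      rcases hv.2.2 with h5 | h5
      · exact h5 (hKD' ⟨v, ⟨h4, hv.1⟩, rfl⟩)
      · exact lt_irrefl _ ((hbox v h4 (hRs hv.1.1) hv.1.2).trans_le h5)
    have hcont : Continuous fun q : S × ((ℂ × ℂ) × (Fin (finrank ℂ F) → ℂ)) =>
        ((q.1, q.2.1), q.2.2) := by fun_prop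
    exact (hcont.tendsto (z₀, v)).eventually
      ((aGr z₀ (mem_ball_self hε') v hv.1 (hD'D hv.2.1)).eventually_notMem hn)
  obtain ⟨ε₁, hε₁, hsm⟩ := Metric.eventually_nhds_iff_ball.1
    (htube.and (ball_mem_nhds z₀ hε'))
  set O : Set ((S × (ℂ × ℂ)) × (Fin (finrank ℂ F) → ℂ)) :=
    {P | (e.symm (P.1.2, P.2)).1 ∈ D'} ∩ {P | P.2 ∈ ball y₀ ρ} with hO
  have hπ' : Continuous fun P : (S × (ℂ × ℂ)) × (Fin (finrank ℂ F) → ℂ) =>
      (e.symm (P.1.2, P.2)).1 := by fun_prop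
  have hOo : IsOpen O := (hD'o.preimage hπ').inter (isOpen_ball.preimage continuous_snd)
  have hUo : IsOpen (ball z₀ ε₁ ×ˢ ann t₀ ε a b) := isOpen_ball.prod hanno
  have hbd : BdAn (Gr ∩ O) (ball z₀ ε₁ ×ˢ ann t₀ ε a b) := by
    refine ⟨?_, ‖y₀‖ + ρ, fun q hq _ => norm_le_norm_add_const_of_dist_le (le_of_lt hq.2.2)⟩
    rintro ⟨⟨z, t⟩, y⟩ ⟨⟨hz, ht⟩, -⟩
    by_cases hP : ((z, t), y) ∈ O
    · exact (aGr z (hsm z hz).2 (t, y) ⟨hann ht, ball_subset_closedBall hP.2⟩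
        (hD'D (subset_closure hP.1))).inter_open (hOo.mem_nhds hP)
    · refine anAt_of_notMem_closure fun hcl => ?_
      have h1 := (hUo.preimage continuous_fst).inter_closure (t := Gr ∩ O) ⟨⟨hz, ht⟩, hcl⟩
      have h2 : Prod.fst ⁻¹' (ball z₀ ε₁ ×ˢ ann t₀ ε a b) ∩ (Gr ∩ O) ⊆
          {P | (e.symm (P.1.2, P.2)).1 ∈ closure D'} ∩ {P | dist P.2 y₀ ≤ ρ₁} := by
        rintro ⟨⟨z', t'⟩, y'⟩ ⟨⟨hz', ht'⟩, hG, hO'⟩
        refine ⟨subset_closure hO'.1, show dist y' y₀ ≤ ρ₁ from le_of_not_gt fun hlt => ?_⟩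
        exact (hsm z' hz').1 (t', y') ⟨⟨hann ht', ball_subset_closedBall hO'.2⟩,
          subset_closure hO'.1, Or.inr hlt.le⟩ hG
      obtain ⟨h3, h4⟩ := closure_minimal h2 ((isClosed_closure.preimage hπ').inter
        (isClosed_le (by fun_prop) continuous_const)) h1
      have h5 : dist y y₀ < ρ := lt_of_le_of_lt h4 hρ
      have h6 : (t, y) ∈ Bx := ⟨hann ht, h5.le⟩
      exact (hsm z hz).1 (t, y) ⟨h6, h3, Or.inl fun h => hP ⟨h, h5⟩⟩
        ((aGr z (hsm z hz).2 (t, y) h6 (hD'D h3)).mem_of_closure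
          (closure_mono inter_subset_left hcl))
  refine ⟨finrank ℂ F, e, ε, a, b, ε₁, ρ, Gr ∩ O, hρ₁.trans hρ, hε, ha, hab, hε₁, ?_, hbd, ?_, ?_⟩
  · have hU : ball t₀.1 ε ×ˢ ball t₀.2 b ⊆ closedBall t₀ ε₀ := fun t ht => by
      rw [mem_closedBall, Prod.dist_eq]
      exact max_le ((le_of_lt ht.1).trans hεε.le) ((le_of_lt ht.2).trans hbε.le)
    have hsh := usc' hF x e (C := (closedBall t₀ ε₀ ×ˢ closedBall y₀ ρ) ∩ {v | ρ₁ ≤ dist v.2 y₀})
      (((isCompact_closedBall _ _).prod (isCompact_closedBall _ _)).inter_right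
        (isClosed_le continuous_const (by fun_prop)))
      (fun v hv => hin v hv.1)
      (fun v hv h => lt_irrefl _ ((hbox v h hv.1.1 hv.1.2).trans_le hv.2))
    filter_upwards [hsh, hF.mer] with z h1 h2
    have hb : BdAn (e '' ch F x (Z z) ∩ univ ×ˢ ball y₀ ρ) (ball t₀.1 ε ×ˢ ball t₀.2 b) := by
      refine cut (isOpen_ball.prod isOpen_ball) isOpen_ball (isCompact_closedBall y₀ ρ₁)
        (closedBall_subset_ball hρ) (fun v hv => ?_) fun v hv h3 h4 => ?_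
      · have := (h2.an x _ (hin v ⟨hU hv.1, ball_subset_closedBall hv.2⟩)).image_equiv e
        rwa [ContinuousLinearEquiv.apply_symm_apply] at this
      · exact show dist v.2 y₀ ≤ ρ₁ from le_of_not_gt fun hlt =>
          h1 v ⟨⟨hU h3, ball_subset_closedBall h4⟩, hlt.le⟩ hv
    refine ⟨hb, pureS.toReg (k := 1) (by simp) (isOpen_ball.prod isOpen_ball) hb ?_⟩
    refine pure_mono (pureS.inter (isOpen_univ.prod isOpen_ball)
      (pureS.equiv e ((st Q F X (Z z) Δ hF.op h2).pure 1 (by simp [hF.dimQ]) x))) ?_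
    exact fun v _ => (mem_img e _ v).2 trivial
  · refine pureS.toReg (k := k + 2) (by simp [finrank_prod, hF.big.dim]) hUo hbd ?_
    refine pure_mono (pureS.inter hOo (pureS.equiv (eh S e) (pureS.ofReg (V := univ)
      (by simp [finrank_prod, hF.big.dim, hF.dimQ]) ?_))) ?_
    · exact fun q hq => subset_closure (gr_reg hV0 hΦ x hq.1)
    · exact fun v _ => (mem_img _ _ v).2 trivial
  · have hsh := usc' hF x e (C := Bx ∩ {v | (e.symm v).1 ∈ D'ᶜ})
      (hBc.inter_right (hD'o.isClosed_compl.preimage hπ)) (fun v hv => hin v (hBs hv.1))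
      (fun v hv h => hv.2 (hKD' ⟨v, ⟨h, hv.1⟩, rfl⟩))
    filter_upwards [hsh, hagr, hF.big.le (ball_mem_nhds z₀ hε')] with z h1 h2 h3 t ht y
    constructor
    · rintro ⟨hG, hO'⟩
      obtain ⟨h4, ⟨-, h5⟩, h6⟩ := (mGr z (t, y)).1 hG
      exact ⟨(mem_img e _ _).2 ⟨h4, (h2 _ h5 _).2 h6⟩, trivial, hO'.2⟩
    · rintro ⟨h4, -, h5⟩
      have h6 : (e.symm (t, y)).1 ∈ D' := by
        by_contra hn
        exact h1 (t, y) ⟨⟨hann ht, ball_subset_closedBall h5⟩, hn⟩ h4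
      have h7 := (mem_img e _ _).1 h4
      have h8 := hD'D (subset_closure h6)
      exact ⟨(mGr z (t, y)).2 ⟨h7.1, ⟨h3, h8⟩, (h2 _ h8 _).1 h7.2⟩, h6, h5⟩

end Pool.Agent.Lib.MP_823829_an.LA
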