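import Mathlib
import Pool.Agent.Lib.MP_823829_an.LA.Stmt3

/-! A compact set which is not contained in a closed countable set is touched by a disc. -/

namespace Pool.Agent.Lib.MP_823829_an.LA

open Set Filter Topology Metric Module

namespace Sweep

/-- the conclusion at the point `p` -/
def Tch {Q : Type} [NormedAddCommGroup Q] [NormedSpace ℂ Q] (K : Set Q) (p : Q) : Prop :=
  ∃ ψ : ℂ × ℂ → Q, Differentiable ℂ ψ ∧ ψ 0 = p ∧ Function.Injective (fderiv ℂ ψ 0) ∧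
    ∀ η > (0 : ℝ), ∃ r, 0 < r ∧ r < η ∧ ∀ s : ℂ, ‖s‖ = r → ψ (0, s) ∉ K

theorem tch_countable {K : Set (ℂ × ℂ)} (h : (Prod.fst '' K).Countable) (p : ℂ × ℂ) : Tch K p := by
  have hd : ∀ x, HasFDerivAt (fun x : ℂ × ℂ => p + (x.2, x.1))
      ((ContinuousLinearMap.snd ℂ ℂ ℂ).prod (ContinuousLinearMap.fst ℂ ℂ ℂ)) x := fun x =>
    (hasFDerivAt_snd.prodMk hasFDerivAt_fst).const_add p
  refine ⟨fun x => p + (x.2, x.1), fun x => (hd x).differentiableAt, by simp, ?_, fun η hη => ?_⟩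
  · rw [(hd 0).fderiv]
    intro a b hab
    simp only [ContinuousLinearMap.prod_apply, Prod.mk.injEq] at hab
    exact Prod.ext hab.2 hab.1
  · have hc : ((fun y : ℂ => ‖y - p.1‖) '' (Prod.fst '' K)).Countable := h.image _
    have hn : ¬ Ioo (0 : ℝ) η ⊆ (fun y : ℂ => ‖y - p.1‖) '' (Prod.fst '' K) := fun hs => by
      have h0 := (hc.mono hs).measure_zero MeasureTheory.volume
      rw [Real.volume_Ioo, ENNReal.ofReal_eq_zero] at h0
      linarith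
    obtain ⟨r, hr, hr'⟩ := not_subset.1 hn
    refine ⟨r, hr.1, hr.2, fun s hs hK => hr' ⟨p.1 + s, ⟨_, hK, rfl⟩, by simpa using hs⟩⟩

theorem tch_min {K : Set (ℂ × ℂ)} {p : ℂ × ℂ} {t₁ : ℂ} (hne : p.1 ≠ t₁)
    (hmin : ∀ q ∈ K, ‖p.1 - t₁‖ * Real.exp (-‖p.2‖ ^ 2) ≤ ‖q.1 - t₁‖ * Real.exp (-‖q.2‖ ^ 2)) :
    Tch K p := by
  set c : ℂ := 2 * (starRingEnd ℂ) p.2 with hc
  have h1 : HasFDerivAt (fun x : ℂ × ℂ => Complex.exp (c * x.2))
      (Complex.exp (c * (0 : ℂ × ℂ).2) • (c • ContinuousLinearMap.snd ℂ ℂ ℂ)) 0 :=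
    (hasFDerivAt_snd.const_mul c).cexp
  have h2 : HasFDerivAt (fun x : ℂ × ℂ => p.1 - t₁ + x.1) (ContinuousLinearMap.fst ℂ ℂ ℂ) 0 :=
    hasFDerivAt_fst.const_add _
  have h3 := ((h2.mul h1).const_add t₁).prodMk (hasFDerivAt_snd.const_add p.2)
  refine ⟨fun x => (t₁ + (p.1 - t₁ + x.1) * Complex.exp (c * x.2), p.2 + x.2), by fun_prop,
    by simp, ?_, fun η hη => ⟨η / 2, by positivity, by linarith, fun s hs hK => ?_⟩⟩
  · have h4 := h3.fderiv
    simp only [Pi.mul_apply] at h4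
    rw [h4]
    intro a b hab
    simp at hab
    obtain ⟨h5, h6⟩ := hab
    rw [h6] at h5
    exact Prod.ext (add_left_cancel h5) h6
  · have h5 := hmin _ hK
    simp only [add_zero, add_sub_cancel_left, norm_mul, Complex.norm_exp] at h5
    have h6 : ‖p.2 + s‖ ^ 2 = ‖p.2‖ ^ 2 + (c * s).re + ‖s‖ ^ 2 := by
      simp only [hc, Complex.sq_norm, Complex.normSq_apply, Complex.add_re, Complex.add_im,
        Complex.mul_re, Complex.mul_im, Complex.conj_re, Complex.conj_im, Complex.re_ofNat,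
        Complex.im_ofNat]
      ring
    rw [mul_assoc, ← Real.exp_add, h6] at h5
    have h7 := Real.exp_le_exp.1 (le_of_mul_le_mul_left h5 (norm_pos_iff.2 (sub_ne_zero.2 hne)))
    have h8 : 0 < ‖s‖ ^ 2 := by rw [hs]; positivity
    linarith

theorem exists_frontier {Y B : Set ℂ} (hY : IsCompact Y) (hB : B.Countable) (hBY : B ⊆ Y)
    (hn : ¬ Y.Countable) : ∃ t ∈ Y, t ∉ B ∧ t ∈ closure Yᶜ := by
  by_contra h
  push Not at h
  have hc := (hB.isConnected_compl_of_one_lt_rank (by simp)).isPreconnected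
  have h1 : Bᶜ ⊆ interior Y ∪ Yᶜ := fun t ht => by
    by_cases hy : t ∈ Y
    · left
      have := h t hy ht
      rwa [closure_compl, mem_compl_iff, not_not] at this
    · exact Or.inr hy
  obtain ⟨t, ht, ht'⟩ : ∃ t ∈ Y, t ∉ B := not_subset.1 fun hs => hn (hB.mono hs)
  have h2 : Bᶜ ⊆ interior Y := hc.subset_left_of_subset_union isOpen_interior
    hY.isClosed.isOpen_compl (disjoint_compl_right.mono_left interior_subset) h1
    ⟨t, ht', (h1 ht').resolve_right (not_not.2 ht)⟩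
  refine hY.ne_univ (eq_univ_of_forall fun x => ?_)
  by_cases hx : x ∈ B
  · exact hBY hx
  · exact interior_subset (h2 hx)

theorem plane {K A : Set (ℂ × ℂ)} (hK : IsCompact K) (hA : IsClosed A) (hc : A.Countable)
    (h : ¬ K ⊆ A) : ∃ p ∈ K, p ∉ A ∧ Tch K p := by
  by_cases hY : (Prod.fst '' K).Countable
  · obtain ⟨p, hp, hp'⟩ := not_subset.1 h
    exact ⟨p, hp, hp', tch_countable hY p⟩
  have hB : IsCompact (Prod.fst '' (K ∩ A)) := (hK.inter_right hA).image continuous_fst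
  obtain ⟨t, ⟨q, hq, rfl⟩, ht, ht'⟩ := exists_frontier (hK.image continuous_fst)
    ((hc.mono inter_subset_right).image Prod.fst) (image_mono inter_subset_left) hY
  obtain ⟨δ, hδ, hb⟩ := Metric.isOpen_iff.1 hB.isClosed.isOpen_compl _ ht
  obtain ⟨R, hR⟩ := hK.exists_bound_of_continuousOn (f := fun x : ℂ × ℂ => ‖x.2‖ ^ 2)
    (by fun_prop)
  obtain ⟨t₁, h1, h2⟩ := Metric.mem_closure_iff.1 ht' (min (δ / 2) (δ / 2 * Real.exp (-R)))
    (by positivity)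
  obtain ⟨p, hp, hmin⟩ := hK.exists_isMinOn ⟨q, hq⟩
    (f := fun x : ℂ × ℂ => ‖x.1 - t₁‖ * Real.exp (-‖x.2‖ ^ 2)) (by fun_prop)
  refine ⟨p, hp, fun hpA => ?_, tch_min (fun e => h1 ⟨p, hp, e⟩) fun x hx => hmin hx⟩
  refine hb (a := p.1) ?_ ⟨p, ⟨hp, hpA⟩, rfl⟩
  rw [dist_eq_norm, lt_min_iff] at h2
  have h3 : ‖p.1 - t₁‖ * Real.exp (-‖p.2‖ ^ 2) ≤ ‖q.1 - t₁‖ * Real.exp (-‖q.2‖ ^ 2) := hmin hq
  have h4 : Real.exp (-‖q.2‖ ^ 2) ≤ 1 := Real.exp_le_one_iff.2 (neg_nonpos.2 (by positivity))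
  have h5 : Real.exp (-R) ≤ Real.exp (-‖p.2‖ ^ 2) :=
    Real.exp_le_exp.2 (neg_le_neg ((le_abs_self _).trans (hR p hp)))
  have h6 : ‖p.1 - t₁‖ * Real.exp (-R) < δ / 2 * Real.exp (-R) :=
    ((mul_le_mul_of_nonneg_left h5 (norm_nonneg _)).trans
      (h3.trans (mul_le_of_le_one_right (norm_nonneg _) h4))).trans_lt h2.2
  have h7 := lt_of_mul_lt_mul_right h6 (Real.exp_pos _).le
  rw [mem_ball, dist_eq_norm]
  calc ‖p.1 - q.1‖ = ‖(p.1 - t₁) - (q.1 - t₁)‖ := by congr 1; ring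
    _ ≤ ‖p.1 - t₁‖ + ‖q.1 - t₁‖ := norm_sub_le _ _
    _ < δ := by linarith [h2.1]

end Sweep

theorem sweepS : SweepS := by
  intro Q _ _ _ K A hQ hK hA hc h
  let e : Q ≃L[ℂ] ℂ × ℂ := .ofFinrankEq (by simp [hQ])
  obtain ⟨_, ⟨p, hp, rfl⟩, hp', ψ, h1, h2, h3, h4⟩ := Sweep.plane (hK.image e.continuous)
    (e.toHomeomorph.isClosedMap _ hA) (hc.image e)
    (fun hs => h ((image_subset_image_iff e.injective).1 hs))
  refine ⟨p, hp, fun hpA => hp' ⟨p, hpA, rfl⟩, e.symm ∘ ψ, e.symm.differentiable.comp h1,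
    by simp [h2], ?_, fun η hη => ?_⟩
  · rw [e.symm.comp_fderiv]
    exact e.symm.injective.comp h3
  · obtain ⟨r, hr, hr', H⟩ := h4 η hη
    exact ⟨r, hr, hr', fun s hs hs' => H s hs ⟨_, hs', by simp⟩⟩

end Pool.Agent.Lib.MP_823829_an.LA
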