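import Mathlib
import Pool.Agent.Lib.MP_823829_an.LA.Basic
import Pool.Agent.Lib.MP_823829_an.LA.Thin
import Pool.Agent.Lib.MP_823829_an.LA.Stmt3

/-! Local analytic geometry: elementary facts on charts. -/

namespace Pool.Agent.Lib.MP_823829_an.LA

open Set Filter Topology Metric

universe u

namespace Tr

variable {T F : Type} {X : Type u} [NormedAddCommGroup T] [NormedSpace ℂ T]
  [NormedAddCommGroup F] [NormedSpace ℂ F] [TopologicalSpace X] [ChartedSpace F X]

/-- domain of the transition map -/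
def dom (T : Type) (F : Type) [TopologicalSpace F] {X : Type u} [TopologicalSpace X]
    [ChartedSpace F X] (x₀ x₁ : X) : Set (T × F) :=
  univ ×ˢ ((chartAt F x₀).target ∩ (chartAt F x₀).symm ⁻¹' (chartAt F x₁).source)

/-- the transition map -/
def tm (T : Type) (F : Type) [TopologicalSpace F] {X : Type u} [TopologicalSpace X]
    [ChartedSpace F X] (x₀ x₁ : X) (q : T × F) : T × F :=
  (q.1, chartAt F x₁ ((chartAt F x₀).symm q.2))

omit [NormedSpace ℂ T] [NormedSpace ℂ F] in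
theorem isOpen_dom (x₀ x₁ : X) : IsOpen (dom T F x₀ x₁) :=
  isOpen_univ.prod ((chartAt F x₀).isOpen_inter_preimage_symm (chartAt F x₁).open_source)

theorem diff_tm (h : Trans F X) (x₀ x₁ : X) :
    DifferentiableOn ℂ (tm T F x₀ x₁) (dom T F x₀ x₁) :=
  differentiableOn_fst.prodMk ((h x₀ x₁).comp differentiableOn_snd fun _ hq => hq.2)

omit [NormedSpace ℂ T] [NormedSpace ℂ F] in
theorem tendsto_symm {p : T × X} (x₀ : X) (hp : p.2 ∈ (chartAt F x₀).source) :
    Tendsto (fun q : T × F => (q.1, (chartAt F x₀).symm q.2)) (𝓝 (p.1, chartAt F x₀ p.2))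
      (𝓝 p) := by
  have h1 : ContinuousAt (chartAt F x₀).symm (chartAt F x₀ p.2) :=
    (chartAt F x₀).continuousAt_symm ((chartAt F x₀).map_source hp)
  have h2 : ContinuousAt (fun q : T × F => (q.1, (chartAt F x₀).symm q.2))
      (p.1, chartAt F x₀ p.2) :=
    continuousAt_fst.prodMk (ContinuousAt.comp (f := Prod.snd) h1 continuousAt_snd)
  have h3 := h2.tendsto
  simp only [(chartAt F x₀).left_inv hp] at h3
  exact h3

omit [NormedSpace ℂ T] [NormedSpace ℂ F] in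
theorem tendsto_chart {p : T × X} (x₀ : X) (hp : p.2 ∈ (chartAt F x₀).source) :
    Tendsto (fun q : T × X => (q.1, chartAt F x₀ q.2)) (𝓝 p) (𝓝 (p.1, chartAt F x₀ p.2)) :=
  (continuousAt_fst.prodMk (ContinuousAt.comp (f := Prod.snd) ((chartAt F x₀).continuousAt hp)
    continuousAt_snd)).tendsto

theorem iff {Γ : Set (T × X)} {D : Set T} :
    AnX F Γ D ↔ ∀ p : T × X, p.1 ∈ D → AnXAt F Γ p := by
  constructor
  · intro h p hp x₀ hx
    exact h x₀ _ ⟨hp, (chartAt F x₀).map_source hx⟩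
  · intro h x₀ q hq
    have h1 := h (q.1, (chartAt F x₀).symm q.2) hq.1 x₀ ((chartAt F x₀).map_target hq.2)
    simpa only [(chartAt F x₀).right_inv hq.2] using h1

theorem congr {Γ Γ' : Set (T × X)} {p : T × X} (h : AnXAt F Γ p)
    (he : ∀ᶠ q in 𝓝 p, (q ∈ Γ ↔ q ∈ Γ')) : AnXAt F Γ' p := by
  intro x₀ hx
  refine (h x₀ hx).congr ?_
  filter_upwards [(tendsto_symm x₀ hx).eventually he] with q hq
  exact and_congr_right fun _ => hq

theorem ofChart (ht : Trans F X) {Γ : Set (T × X)} {p : T × X} (x₀ : X)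
    (hp : p.2 ∈ (chartAt F x₀).source) (h : AnAt (ch F x₀ Γ) (p.1, chartAt F x₀ p.2)) :
    AnXAt F Γ p := by
  intro x₁ hx
  have hd : (p.1, chartAt F x₁ p.2) ∈ dom T F x₁ x₀ :=
    ⟨trivial, (chartAt F x₁).map_source hx, by
      simpa only [mem_preimage, (chartAt F x₁).left_inv hx] using hp⟩
  have h1 : AnAt (ch F x₀ Γ) (tm T F x₁ x₀ (p.1, chartAt F x₁ p.2)) := by
    simpa only [tm, (chartAt F x₁).left_inv hx] using h
  refine (h1.preimage (isOpen_dom x₁ x₀) hd (diff_tm ht x₁ x₀)).congr ?_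
  filter_upwards [(isOpen_dom x₁ x₀).mem_nhds hd] with q hq
  have h2 : (chartAt F x₁).symm q.2 ∈ (chartAt F x₀).source := hq.2.2
  simp only [mem_preimage, ch, tm, mem_ofPred_eq, (chartAt F x₀).left_inv h2]
  exact ⟨fun h3 => ⟨hq.2.1, h3.2⟩, fun h3 => ⟨(chartAt F x₀).map_source h2, h3.2⟩⟩

theorem ev (ht : Trans F X) {Γ : Set (T × X)} {p : T × X} (h : AnXAt F Γ p) :
    ∀ᶠ q in 𝓝 p, AnXAt F Γ q := by
  have hp := mem_chart_source F p.2
  have h1 := (tendsto_chart p.2 hp).eventually (h p.2 hp).eventually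
  have h2 : ∀ᶠ q : T × X in 𝓝 p, q.2 ∈ (chartAt F p.2).source :=
    continuousAt_snd.eventually (chart_source_mem_nhds F p.2)
  filter_upwards [h1, h2] with q h3 h4 using ofChart ht p.2 h4 h3

theorem holSymm (ht : Trans F X) {g : T → F} {V : Set T} (x₀ : X) (hg : DifferentiableOn ℂ g V)
    (hm : MapsTo g V (chartAt F x₀).target) :
    HolX F (fun z => (chartAt F x₀).symm (g z)) V :=
  ⟨(chartAt F x₀).continuousOn_symm.comp hg.continuousOn hm, fun x₁ =>
    (ht x₀ x₁).comp (hg.mono inter_subset_left) fun _ hz => ⟨hm hz.1, hz.2⟩⟩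

theorem holLoc {f : T → X} {V : Set T} (h : ∀ z ∈ V, ∃ U, IsOpen U ∧ z ∈ U ∧ HolX F f U) :
    HolX F f V := by
  refine ⟨fun z hz => ?_, fun x₀ z hz => ?_⟩
  · obtain ⟨U, hU, hzU, hf⟩ := h z hz
    exact (hf.1.continuousAt (hU.mem_nhds hzU)).continuousWithinAt
  · obtain ⟨U, hU, hzU, hf⟩ := h z hz.1
    have ho := hf.1.isOpen_inter_preimage hU (chartAt F x₀).open_source
    exact ((hf.2 x₀).differentiableAt (ho.mem_nhds ⟨hzU, hz.2⟩)).differentiableWithinAt

theorem holMono {f : T → X} {V U : Set T} (h : HolX F f V) (hU : U ⊆ V) : HolX F f U :=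
  ⟨h.1.mono hU, fun x₀ => (h.2 x₀).mono (inter_subset_inter_left _ hU)⟩

theorem holCongr {f g : T → X} {V : Set T} (h : HolX F f V) (he : EqOn g f V) : HolX F g V :=
  ⟨h.1.congr he, fun x₀ =>
    ((h.2 x₀).mono fun z hz => ⟨hz.1, by simpa only [mem_preimage, he hz.1] using hz.2⟩).congr
      fun z hz => by rw [he hz.1]⟩

theorem holComp {T' : Type} [NormedAddCommGroup T'] [NormedSpace ℂ T'] {f : T → X} {V : Set T}
    {φ : T' → T} {V' : Set T'} (h : HolX F f V) (hφ : DifferentiableOn ℂ φ V')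
    (hm : MapsTo φ V' V) : HolX F (fun w => f (φ w)) V' :=
  ⟨h.1.comp hφ.continuousOn hm, fun x₀ =>
    (h.2 x₀).comp (hφ.mono inter_subset_left) fun _ hz => ⟨hm hz.1, hz.2⟩⟩

theorem thinChart (ht : Trans F X) {k : ℕ} {A : Set (T × X)} (x₀ : X)
    (hA : A ⊆ univ ×ˢ (chartAt F x₀).source) (h : Thin k (ch F x₀ A)) : ThinX F k A := by
  intro x₁
  have h1 := thinS.image (thinS.mono h (inter_subset_left (t := dom T F x₀ x₁)))
    (isOpen_dom x₀ x₁) inter_subset_right (diff_tm ht x₀ x₁)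
  refine thinS.mono h1 fun q hq => ?_
  have h2 : (chartAt F x₁).symm q.2 ∈ (chartAt F x₀).source := (hA hq.2).2
  refine ⟨(q.1, chartAt F x₀ ((chartAt F x₁).symm q.2)),
    ⟨⟨(chartAt F x₀).map_source h2, ?_⟩, trivial, (chartAt F x₀).map_source h2, ?_⟩, ?_⟩
  · simpa only [(chartAt F x₀).left_inv h2] using hq.2
  · simpa only [mem_preimage, (chartAt F x₀).left_inv h2] using (chartAt F x₁).map_target hq.1
  · simp only [tm, (chartAt F x₀).left_inv h2, (chartAt F x₁).right_inv hq.1]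

theorem thinLoc [FiniteDimensional ℂ T] [FiniteDimensional ℂ F] {k : ℕ} {A : Set (T × X)}
    (h : ∀ p ∈ A, ∃ O ∈ 𝓝 p, ThinX F k (A ∩ O)) : ThinX F k A := by
  intro x₀
  refine thinS.loc fun q hq => ?_
  obtain ⟨O, hO, hT⟩ := h _ hq.2
  have h1 := tendsto_symm (p := (q.1, (chartAt F x₀).symm q.2)) x₀
    ((chartAt F x₀).map_target hq.1)
  simp only [(chartAt F x₀).right_inv hq.1] at h1
  exact ⟨_, h1 hO, thinS.mono (hT x₀) fun y hy => ⟨hy.1.1, hy.1.2, hy.2⟩⟩

theorem thinMono {k : ℕ} {A B : Set (T × X)} (h : ThinX F k B) (hA : A ⊆ B) : ThinX F k A :=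
  fun x₀ => thinS.mono (h x₀) fun _ hq => ⟨hq.1, hA hq.2⟩

end Tr

theorem trAll : TrAll.{u} := by
  intro T F X _ _ _ _ _ _ _ _ _ _
  exact ⟨Tr.iff, Tr.congr, fun ht _ _ x₀ => Tr.ofChart ht x₀, fun ht _ _ => Tr.ev ht,
    fun ht _ _ x₀ _ => Tr.holSymm ht x₀, Tr.holLoc, Tr.holMono, Tr.holCongr, Tr.holComp,
    fun ht _ _ x₀ => Tr.thinChart ht x₀, Tr.thinLoc, Tr.thinMono⟩

end Pool.Agent.Lib.MP_823829_an.LA
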