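import Mathlib
import Pool.Agent.Lib.MP_823829_an.LA.Pure
import Pool.Agent.Lib.MP_823829_an.LA.Stmt3

/-! Local analytic geometry: uniqueness along a big filter, gluing of germs. -/

namespace Pool.Agent.Lib.MP_823829_an.LA

open Set Filter Topology Metric MeasureTheory Module

universe u

namespace UqAux

theorem ne_ev {S : Type} [NormedAddCommGroup S] [NormedSpace ℂ S] [FiniteDimensional ℂ S]
    {k : ℕ} {l : Filter S} {z₀ : S} {N : Set S} {δ : S → ℂ} (hb : Big k l z₀) (hN : IsOpen N)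
    (hc : IsPreconnected N) (h0 : z₀ ∈ N) (hd : DifferentiableOn ℂ δ N) {z₁ : S} (h1 : z₁ ∈ N)
    (hne : δ z₁ ≠ 0) : ∀ᶠ z in l, z ∈ N ∧ δ z ≠ 0 := by
  have ht := pureS.thinZero (k := k) hb.dim.le hN hd (nz_of_ne hN hc hd h1 hne)
  filter_upwards [hb.sat _ ht, hb.le (hN.mem_nhds h0)] with z hz hzN
  exact ⟨hzN, fun h => hz ⟨hzN, h⟩⟩

theorem flat {S G : Type} [NormedAddCommGroup S] [NormedSpace ℂ S] [FiniteDimensional ℂ S]
    [NormedAddCommGroup G] [NormedSpace ℂ G] {k : ℕ} {l : Filter S}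
    {z₀ : S} {N : Set S} {h : S → G} (hb : Big k l z₀) (hN : IsOpen N) (hc : IsPreconnected N)
    (h0 : z₀ ∈ N) (hd : DifferentiableOn ℂ h N) (he : ∀ᶠ z in l, h z = 0) :
    ∀ z ∈ N, h z = 0 := by
  intro z₁ h1
  by_contra hne
  obtain ⟨ξ, hξ⟩ := SeparatingDual.exists_ne_zero (R := ℂ) hne
  have := hb.ne
  obtain ⟨z, hz, hz0⟩ := ((ne_ev (δ := fun z => ξ (h z)) hb hN hc h0
    (ξ.differentiable.comp_differentiableOn hd) h1 hξ).and he).exists
  exact hz.2 (by rw [hz0, map_zero])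

theorem slice {S T : Type} [NormedAddCommGroup S] [NormedSpace ℂ S] [FiniteDimensional ℂ S]
    [NormedAddCommGroup T] [NormedSpace ℂ T] [FiniteDimensional ℂ T] {k : ℕ} {l : Filter S}
    {z₀ : S} {t₀ : T} {ε : ℝ} {δ : S × T → ℂ} (hb : Big k l z₀) (hε : 0 < ε)
    (hd : DifferentiableOn ℂ δ (ball (z₀, t₀) ε)) (hn : NZ δ (ball (z₀, t₀) ε)) :
    (∀ᶠ z in l, z ∈ ball z₀ ε ∧ NZ (fun t => δ (z, t)) (ball t₀ ε)) ∧
      ∃ t₁ ∈ ball t₀ ε, ∀ᶠ z in l, z ∈ ball z₀ ε ∧ δ (z, t₁) ≠ 0 := by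
  obtain ⟨⟨z₁, t₁⟩, h1, hne⟩ := hn.exists (mem_ball_self hε) (ball_mem_nhds _ hε)
  rw [← ball_prod_same] at h1 hd
  have hev : ∀ᶠ z in l, z ∈ ball z₀ ε ∧ δ (z, t₁) ≠ 0 :=
    ne_ev (δ := fun z => δ (z, t₁)) hb isOpen_ball (convex_ball _ _).isPreconnected
      (mem_ball_self hε)
      (hd.comp (f := fun z => (z, t₁)) (by fun_prop) fun z hz => ⟨hz, h1.2⟩) h1.1 hne
  refine ⟨hev.mono fun z hz => ⟨hz.1, ?_⟩, t₁, h1.2, hev⟩
  exact nz_of_ne isOpen_ball (convex_ball _ _).isPreconnected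
    (hd.comp (f := fun t => (z, t)) (by fun_prop) fun t ht => ⟨hz.1, ht⟩) h1.2 hz.2

end UqAux

theorem uqS : UqS where
  flat := UqAux.flat
  slice := UqAux.slice

theorem uqXS (xb : XBall.{u}) (h : UqS) : UqXS.{u} := by
  intro S F X _ _ _ _ _ _ _ _ _ _ k l z₀ N f g hb hN hc h0 hf hg he
  have := hb.ne
  have cf : ContinuousAt f z₀ := hf.1.continuousAt (hN.mem_nhds h0)
  have cg : ContinuousAt g z₀ := hg.1.continuousAt (hN.mem_nhds h0)
  have h00 : f z₀ = g z₀ :=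
    tendsto_nhds_unique_of_eventuallyEq (cf.tendsto.mono_left hb.le) (cg.tendsto.mono_left hb.le) he
  set c := chartAt F (f z₀) with hcdef
  have hs : c.source ∈ 𝓝 (f z₀) := chart_source_mem_nhds F (f z₀)
  have hW : N ∩ (f ⁻¹' c.source ∩ g ⁻¹' c.source) ∈ 𝓝 z₀ :=
    inter_mem (hN.mem_nhds h0) (inter_mem (cf hs) (cg (h00 ▸ hs)))
  obtain ⟨r, hr, hball⟩ := Metric.mem_nhds_iff.1 hW
  have hz := h.flat (h := fun z => c (f z) - c (g z)) hb isOpen_ball
    (convex_ball z₀ r).isPreconnected (mem_ball_self hr)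
    (((hf.2 (f z₀)).mono fun z hz => ⟨(hball hz).1, (hball hz).2.1⟩).sub
      ((hg.2 (f z₀)).mono fun z hz => ⟨(hball hz).1, (hball hz).2.2⟩))
    (he.mono fun z hz => by rw [hz, sub_self])
  refine (xb S F X).ident hN hc hf hg h0 ?_
  filter_upwards [ball_mem_nhds z₀ hr] with z hzb
  exact c.injOn (hball hzb).2.1 (hball hzb).2.2 (sub_eq_zero.1 (hz z hzb))

theorem germS : GermS.{u} := by
  intro Y _ _ _ K M O hK hO hM
  have hex : ∀ a : Y, ∃ C : Set Y, a ∈ K → IsCompact C ∧ a ∈ interior C ∧ C ⊆ O a := by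
    intro a
    by_cases ha : a ∈ K
    · obtain ⟨C, h⟩ := exists_compact_subset (hO a ha).1 (hO a ha).2
      exact ⟨C, fun _ => h⟩
    · exact ⟨∅, fun h => absurd h ha⟩
  choose C hC using hex
  obtain ⟨t, htK, hcov⟩ := hK.elim_nhds_subcover (fun a => interior (C a))
    fun a ha => isOpen_interior.mem_nhds (hC a ha).2.1
  refine ⟨⋃ i ∈ t, M i ∩ interior (C i), fun a ha => ?_⟩
  have h1 : ∀ i ∈ t, ∀ᶠ p in 𝓝 a, p ∈ interior (C i) → (p ∈ M i ↔ p ∈ M a) := by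
    intro i hi
    by_cases hai : a ∈ C i
    · exact (hM i (htK i hi) a ha a ha ((hC i (htK i hi)).2.2 hai) (hO a ha).2).mono
        fun p hp _ => hp
    · filter_upwards [(hC i (htK i hi)).1.isClosed.isOpen_compl.mem_nhds hai] with p hp hp'
      exact absurd (interior_subset hp') hp
  obtain ⟨i₀, hi₀, hai₀⟩ := mem_iUnion₂.1 (hcov ha)
  filter_upwards [(eventually_all_finset t).2 h1, isOpen_interior.mem_nhds hai₀] with p hp hp0
  constructor
  · intro hpG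
    obtain ⟨i, hi, hpi⟩ := mem_iUnion₂.1 hpG
    exact (hp i hi hpi.2).1 hpi.1
  · intro hpM
    exact mem_iUnion₂.2 ⟨i₀, hi₀, (hp i₀ hi₀ hp0).2 hpM, hp0⟩

theorem modGrS (xb : XBall.{u}) (tr : TrAll.{u}) (h : UqS) : ModGrS.{u} := by
  intro S Q F X _ _ _ _ _ _ _ _ _ _ _ _ _ k l z₀ Z ε D Φ hb hQ hA
  obtain ⟨hε, hD, hΦ, hag⟩ := hA
  have hV : IsOpen (ball z₀ ε ×ˢ D) := isOpen_ball.prod hD
  refine ⟨hV.prod isOpen_univ, fun p hp => ?_, ?_, ?_, ?_⟩
  · exact (tr (S × Q) F X).iff.1 ((xb (S × Q) F X).anGr hV hΦ) p hp.1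
  · have ht := (xb (S × Q) F X).thinGr hV hΦ
    have e : finrank ℂ (S × Q) = k + 3 := by rw [finrank_prod, hb.dim, hQ]
    rw [e] at ht
    exact (tr (S × Q) F X).thinMono ht inter_subset_left
  · filter_upwards [hag] with z hz w x hO
    rw [hz w hO.1.2 x]
    exact ⟨fun hm => hm.2, fun hx => ⟨hO.1, hx⟩⟩
  · rintro ⟨⟨z, w⟩, x⟩ ha rfl B hB O' hO' hev
    have cΦ : ContinuousAt Φ (z, w) := hΦ.1.continuousAt (hV.mem_nhds ha.1)
    by_cases hx : x = Φ (z, w)
    · subst hx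
      set c := chartAt F (Φ (z, w)) with hcdef
      have hsrc : Φ (z, w) ∈ c.source := mem_chart_source F _
      obtain ⟨V, r, f, hVo, hpV, hf, hBV⟩ := hB (Φ (z, w)) hsrc
      have cc : ContinuousAt (fun v : S × Q => (v, c (Φ v))) (z, w) :=
        continuousAt_id.prodMk ((c.continuousAt hsrc).comp cΦ)
      have cg : ContinuousAt (fun v : S × Q => (v, Φ v)) (z, w) := continuousAt_id.prodMk cΦ
      have hW : (ball z ε ×ˢ D ∩ Φ ⁻¹' c.source) ∩
          ((fun v : S × Q => (v, c (Φ v))) ⁻¹' V ∩ (fun v : S × Q => (v, Φ v)) ⁻¹' O') ∈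
            𝓝 (z, w) :=
        inter_mem (inter_mem (hV.mem_nhds ha.1) (cΦ (c.open_source.mem_nhds hsrc)))
          (inter_mem (cc (hVo.mem_nhds hpV)) (cg hO'))
      obtain ⟨η, hη, hball⟩ := Metric.mem_nhds_iff.1 hW
      have hdiff : DifferentiableOn ℂ (fun v : S × Q => f (v, c (Φ v))) (ball (z, w) η) :=
        hf.comp (differentiableOn_id.prodMk ((hΦ.2 (Φ (z, w))).mono fun v hv => (hball hv).1))
          fun v hv => (hball hv).2.1
      have hiff : ∀ v ∈ ball (z, w) η, ((v, Φ v) ∈ B ↔ f (v, c (Φ v)) = 0) := by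
        intro v hv
        rw [← hBV _ (hball hv).2.1]
        have hl : c.symm (c (Φ v)) = Φ v := c.left_inv (hball hv).1.2
        constructor
        · intro hvB
          exact ⟨c.map_source (hball hv).1.2, by rw [hl]; exact hvB⟩
        · intro hvB
          have := hvB.2
          rwa [hl] at this
      have hall : ∀ v ∈ ball (z, w) η, (v, Φ v) ∈ B := by
        rintro ⟨z', w'⟩ hv
        rw [hiff _ hv]
        rw [← ball_prod_same] at hv hdiff
        refine h.flat (h := fun s => f ((s, w'), c (Φ (s, w')))) hb isOpen_ball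
          (convex_ball z η).isPreconnected (mem_ball_self hη)
          (hdiff.comp (f := fun s => (s, w')) (by fun_prop) fun s hs => ⟨hs, hv.2⟩) ?_ z' hv.1
        filter_upwards [hev, hb.le (ball_mem_nhds z hη)] with s hs hsb
        have hm : (s, w') ∈ ball (z, w) η := by
          rw [← ball_prod_same]; exact ⟨hsb, hv.2⟩
        exact (hiff _ hm).1 (hs ((s, w'), Φ (s, w')) (hball hm).2.2 rfl ⟨(hball hm).1.1, rfl⟩)
      have hn : ∀ᶠ p : (S × Q) × X in 𝓝 ((z, w), Φ (z, w)), p.1 ∈ ball (z, w) η :=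
        continuousAt_fst (ball_mem_nhds _ hη)
      filter_upwards [hn] with p hp hpM
      have := hall p.1 hp
      rwa [← hpM.2] at this
    · have cg : ContinuousAt (fun p : (S × Q) × X => (p.2, Φ p.1)) ((z, w), x) :=
        continuousAt_snd.prodMk (ContinuousAt.comp (g := Φ) (f := Prod.fst) cΦ continuousAt_fst)
      have hn : ∀ᶠ p : (S × Q) × X in 𝓝 ((z, w), x), p.2 ≠ Φ p.1 :=
        cg ((isOpen_ne_fun continuous_fst continuous_snd).mem_nhds hx)
      filter_upwards [hn] with p hp hpM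
      exact absurd hpM.2 hp

end Pool.Agent.Lib.MP_823829_an.LA
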