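import Mathlib
import Pool.Agent.Lib.MP_823829_an.LA.All2
import Pool.Agent.Lib.MP_823829_an.LA.Stmt3
import Pool.Agent.Lib.MP_823829_an.LA.Tr
import Pool.Agent.Lib.MP_823829_an.LA.Uq
import Pool.Agent.Lib.MP_823829_an.LA.Cond
import Pool.Agent.Lib.MP_823829_an.LA.Sweep
import Pool.Agent.Lib.MP_823829_an.LA.Glue
import Pool.Agent.Lib.MP_823829_an.LA.E1
import Pool.Agent.Lib.MP_823829_an.LA.Agr
import Pool.Agent.Lib.MP_823829_an.LA.Cau
import Pool.Agent.Lib.MP_823829_an.LA.Prep
import Pool.Agent.Lib.MP_823829_an.LA.Mod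
import Pool.Agent.Lib.MP_823829_an.LA.Ext

/-! Local analytic geometry: the third layer without hypotheses. -/

namespace Pool.Agent.Lib.MP_823829_an.LA

universe u

theorem uqX : UqXS.{u} := uqXS xbAll uqS
theorem glue : GlueS.{u} := glueS xbAll trAll uqX

/-- The extension lemma. -/
theorem ext : ExtS.{u} :=
  extS trAll (condS xbAll) (e1S xbAll st trAll uqS sweepS glue)
    (modS trAll (prepS xbAll st scale2S glue) (cauS uqS) (purModS uqS) (agrS uqS))
    (modGrS xbAll trAll uqS) germS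

end Pool.Agent.Lib.MP_823829_an.LA
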