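import Mathlib
import Pool.Agent.Lib.MP_823829_an.LA.Stmt

/-! The closure of a difference of analytic sets is analytic. -/

namespace Pool.Agent.Lib.MP_823829_an.LA

open Set Filter Topology Metric MeasureTheory Module

namespace Diff

section
variable {E : Type} [NormedAddCommGroup E] [NormedSpace ℂ E] {Y Z : Set E} {p : E}

lemma mk' {ι : Type} [Fintype ι] {V : Set E} (f : E → ι → ℂ) (hV : IsOpen V) (hp : p ∈ V)
    (hf : ∀ i, DifferentiableOn ℂ (fun x => f x i) V) (h : ∀ x ∈ V, x ∈ Y ↔ ∀ i, f x i = 0) :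
    AnAt Y p := by
  refine ⟨V, Fintype.card ι, fun x j => f x ((Fintype.equivFin ι).symm j), hV, hp,
    differentiableOn_pi.2 fun j => hf _, fun x hx => ?_⟩
  rw [h x hx, funext_iff]
  exact ⟨fun H j => H _, fun H i => by simpa using H (Fintype.equivFin ι i)⟩

lemma congr' (h : AnAt Y p) (e : ∀ᶠ x in 𝓝 p, x ∈ Z ↔ x ∈ Y) : AnAt Z p := by
  obtain ⟨V, r, f, hV, hp, hf, H⟩ := h
  obtain ⟨W, hW, hWo, hpW⟩ := _root_.eventually_nhds_iff.1 e
  exact ⟨V ∩ W, r, f, hV.inter hWo, ⟨hp, hpW⟩, hf.mono inter_subset_left,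
    fun x hx => (hW x hx.2).trans (H x hx.1)⟩

lemma ev (h : AnAt Y p) : ∀ᶠ x in 𝓝 p, AnAt Y x := by
  obtain ⟨V, r, f, hV, hp, hf, H⟩ := h
  filter_upwards [hV.mem_nhds hp] with x hx using ⟨V, r, f, hV, hx, hf, H⟩

lemma of_not (h : ∀ᶠ x in 𝓝 p, x ∉ Y) : AnAt Y p := by
  refine congr' (Y := ∅) (mk' (ι := Unit) (fun _ _ => 1) isOpen_univ (mem_univ _)
    (fun _ => differentiableOn_const _) (by simp)) ?_
  filter_upwards [h] with x hx using by simpa using hx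

lemma union' (h : AnAt Y p) (h' : AnAt Z p) : AnAt (Y ∪ Z) p := by
  obtain ⟨V, r, f, hV, hp, hf, H⟩ := h
  obtain ⟨V', r', f', hV', hp', hf', H'⟩ := h'
  refine mk' (ι := Fin r × Fin r') (fun x i => f x i.1 * f' x i.2) (hV.inter hV') ⟨hp, hp'⟩
    (fun i => ((differentiableOn_pi.1 hf i.1).mono inter_subset_left).mul
      ((differentiableOn_pi.1 hf' i.2).mono inter_subset_right)) fun x hx => ?_
  rw [mem_union, H x hx.1, H' x hx.2]
  constructor
  · rintro (h | h) i <;> simp [h]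
  · intro h
    by_contra hc
    push Not at hc
    obtain ⟨i, hi⟩ := Function.ne_iff.1 hc.1
    obtain ⟨j, hj⟩ := Function.ne_iff.1 hc.2
    exact mul_ne_zero hi hj (h (i, j))

lemma inter_zero (h : AnAt Y p) {g : E → ℂ} {W : Set E} (hW : IsOpen W) (hpW : p ∈ W)
    (hg : DifferentiableOn ℂ g W) : AnAt (Y ∩ {x | g x = 0}) p := by
  obtain ⟨V, r, f, hV, hp, hf, H⟩ := h
  refine mk' (ι := Option (Fin r)) (fun x i => i.elim (g x) (f x)) (hV.inter hW) ⟨hp, hpW⟩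
    (fun i => ?_) fun x hx => ?_
  · cases i with
    | none => exact hg.mono inter_subset_right
    | some i => exact (differentiableOn_pi.1 hf i).mono inter_subset_left
  · rw [mem_inter_iff, H x hx.1, Option.forall, funext_iff]
    exact and_comm

lemma closed_near (h : AnAt Y p) : ∀ᶠ x in 𝓝 p, x ∈ closure Y → x ∈ Y := by
  obtain ⟨V, r, f, hV, hp, hf, H⟩ := h
  filter_upwards [hV.mem_nhds hp] with x hx hc
  rw [H x hx]
  have hcont : ContinuousAt f x := hf.continuousOn.continuousAt (hV.mem_nhds hx)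
  have : ∃ᶠ y in 𝓝 x, f y ∈ ({0} : Set (Fin r → ℂ)) :=
    ((mem_closure_iff_frequently.1 hc).and_eventually (hV.mem_nhds hx)).mono
      fun y hy => (H y hy.2).1 hy.1
  simpa using mem_closure_of_frequently_of_tendsto this hcont

lemma pre {G : Type} [NormedAddCommGroup G] [NormedSpace ℂ G] (e : G →L[ℂ] E) {x : G}
    (h : AnAt Y (e x)) : AnAt (e ⁻¹' Y) x := by
  obtain ⟨V, r, f, hV, hp, hf, H⟩ := h
  exact ⟨e ⁻¹' V, r, f ∘ e, hV.preimage e.continuous, hp,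
    hf.comp e.differentiableOn (mapsTo_preimage _ _), fun y hy => H _ hy⟩

lemma img {G : Type} [NormedAddCommGroup G] [NormedSpace ℂ G] (e : E ≃L[ℂ] G)
    (h : AnAt Y p) : AnAt (e '' Y) (e p) := by
  rw [e.image_eq_preimage_symm]
  exact pre (e.symm : G →L[ℂ] E) (by simpa using h)

end

/-- One step: split off the part of top dimension. -/
lemma step (h1 : ZeroS) (h3 : BCS) (h4 : CovS) (h5 : ConnS) (h6 : CanS) (h7 : MGS)
    {T F : Type} [NormedAddCommGroup T] [NormedSpace ℂ T] [FiniteDimensional ℂ T]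
    [NormedAddCommGroup F] [NormedSpace ℂ F] [FiniteDimensional ℂ F] {Y Z : Set (T × F)}
    {q : T × F} (hY : AnAt Y q) (hZ : AnAt Z q) (hB : Box Y q) :
    ∃ (Y' V : Set (T × F)), V ∈ 𝓝 q ∧ AnAt Y' q ∧
      (∀ k, finrank ℂ T = k + 1 → Thin k (Y' ∩ V)) ∧ (finrank ℂ T = 0 → Y' ∩ V = ∅) ∧
      (AnAt (closure (Y' \ Z)) q → AnAt (closure (Y \ Z)) q) := by
  obtain ⟨η, hη, hball⟩ := Metric.eventually_nhds_iff.1 ((ev hY).and (ev hZ))
  obtain ⟨ε, ρ₁, ρ₂, hε, hεη, hρ₁, hρ, hρη, hbox⟩ := hB η hη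
  set Y₀ : Set (T × F) := Y ∩ {x | dist x.2 q.2 < ρ₂} with hY₀
  have hnear : ∀ x : T × F, x.1 ∈ ball q.1 ε → dist x.2 q.2 < ρ₂ → dist x q < η := by
    intro x h1 h2
    rw [Prod.dist_eq]
    exact max_lt ((mem_ball.1 h1).trans hεη) (h2.trans hρη)
  have hcd : Continuous fun x : T × F => dist x.2 q.2 := by fun_prop
  have hop : IsOpen {x : T × F | dist x.2 q.2 < ρ₂} := isOpen_lt hcd continuous_const
  have hbd : BdAn Y₀ (ball q.1 ε) := by
    refine ⟨fun x hx => ?_, ‖q.2‖ + ρ₂, fun x hx _ => ?_⟩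
    · by_cases h : dist x.2 q.2 < ρ₂
      · refine congr' (hball (hnear x hx.1 h)).1 ?_
        filter_upwards [hop.mem_nhds h] with y hy using ⟨fun H => H.1, fun H => ⟨H, hy⟩⟩
      · refine of_not ?_
        have h2 : x ∈ {x : T × F | ρ₁ < dist x.2 q.2} := hρ.trans_le (not_lt.1 h)
        filter_upwards [(isOpen_lt continuous_const hcd).mem_nhds h2,
          (isOpen_ball.prod isOpen_univ).mem_nhds hx] with y hy hy' H
        exact lt_asymm hy (hbox y H.1 (mem_ball.1 hy'.1).le (le_of_lt H.2))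
    · have := norm_le_norm_add_const_of_dist_le (le_of_lt hx.2)
      exact this
  obtain ⟨-, -, hthin, hcov⟩ := h3 T F Y₀ _ isOpen_ball hbd
  obtain ⟨ε', δ, d, M, hε', hsub, hδ, hnz, hC, -⟩ := hcov q.1 (mem_ball_self hε)
  set B := ball q.1 ε' with hBdef
  set N := B ∩ {t | δ t ≠ 0} with hN
  have hNo : IsOpen N := hδ.continuousOn.isOpen_inter_preimage isOpen_ball isOpen_compl_singleton
  have hNc : IsPreconnected N :=
    h5 T δ B isOpen_ball (convex_ball _ _).isPreconnected hδ hnz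
  set P : Set (T × F) := {x | ¬ ∀ᶠ y in 𝓝 x, y ∈ Y₀ → y ∈ Z} with hP
  have hZo : AnOn Z (ov Y₀ N) := fun x hx => (hball (hnear x (hsub hx.2.1) hx.1.2)).2
  obtain ⟨e, he⟩ := h4.const hNc (h4.sel (P := P) hNo hC fun x hx hxN =>
    (h4.full hNo hC hZo x hx hxN).mono fun y hy hyY => not_congr (hy hyY))
  obtain ⟨R, hR⟩ := hbd.2
  obtain ⟨τ, hτ, -, -, hsupp⟩ := h6 T F e (Y₀ ∩ P) δ B R isOpen_ball hδ hnz he
    fun x hx hxB _ => hR x hx.1 (hsub hxB)
  have hqB : q ∈ B ×ˢ (univ : Set F) := ⟨mem_ball_self hε', trivial⟩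
  have hBo : IsOpen (B ×ˢ (univ : Set F)) := isOpen_ball.prod isOpen_univ
  have hq2 : q ∈ {x : T × F | dist x.2 q.2 < ρ₂} := by simpa using hρ₁.trans hρ
  refine ⟨Y₀ ∩ {x | δ x.1 = 0}, B ×ˢ univ, hBo.mem_nhds hqB,
    inter_zero (hbd.1 q ⟨mem_ball_self hε, trivial⟩) hBo hqB
      (hδ.comp differentiableOn_fst fun x hx => hx.1), fun k hk => ?_, fun h0 => ?_, fun IH => ?_⟩
  · obtain ⟨B', φ, hφ, -, hc⟩ := h1 T k δ B hk isOpen_ball hδ hnz
    obtain ⟨B'', ψ, a, b, c⟩ := hthin k (B ∩ {t | δ t = 0}) (fun t ht => hsub ht.1)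
      ⟨B', φ, fun j => (hφ j).op, fun j => (hφ j).hol, hc⟩
    exact ⟨B'', ψ, a, b, fun x hx => c ⟨hx.1.1, hx.2.1, hx.1.2⟩⟩
  · have : Subsingleton T := Module.finrank_zero_iff.1 h0
    refine eq_empty_of_forall_notMem fun x hx => ?_
    obtain ⟨y, hy⟩ := (hnz x.1 hx.2.1).exists
    exact hy (Subsingleton.elim x.1 y ▸ hx.1.2)
  · refine congr' (union' (h7.an isOpen_ball hτ q hqB) IH) ?_
    filter_upwards [(hBo.inter hop).mem_nhds ⟨hqB, hq2⟩] with x hx
    constructor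
    · intro hc
      have h2 := (hBo.inter hop).inter_closure ⟨hx, hc⟩
      have h3 : B ×ˢ (univ : Set F) ∩ {x : T × F | dist x.2 q.2 < ρ₂} ∩ (Y \ Z) ⊆
          ov (Y₀ ∩ P) N ∪ (Y₀ ∩ {x | δ x.1 = 0}) \ Z := by
        rintro y ⟨⟨hy1, hy2⟩, hy3, hy4⟩
        by_cases hd : δ y.1 = 0
        · exact Or.inr ⟨⟨⟨hy3, hy2⟩, hd⟩, hy4⟩
        · exact Or.inl ⟨⟨⟨hy3, hy2⟩, fun H => hy4 (H.self_of_nhds ⟨hy3, hy2⟩)⟩, hy1.1, hd⟩
      have h4 := closure_mono h3 h2
      rw [closure_union] at h4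
      refine h4.imp (fun H => ?_) id
      exact (hsupp.symm.subset ⟨H, hx.1.1⟩).1
    · rintro (H | H)
      · refine closure_minimal (fun y hy => ?_) isClosed_closure (hsupp.subset ⟨H, hx.1.1⟩).1
        refine mem_closure_iff_frequently.2 ((not_eventually.1 hy.1.2).mono fun z hz => ?_)
        push Not at hz
        exact ⟨hz.1.1, hz.2⟩
      · exact closure_mono (t := Y \ Z) (fun y hy => ⟨hy.1.1.1, hy.2⟩) H

/-- Reduction to a set of smaller dimension in a space of the same dimension. -/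
lemma red (h0 : ThinS) (h1 : ZeroS) (h2 : ScaleS) (h3 : BCS) (h4 : CovS) (h5 : ConnS) (h6 : CanS)
    (h7 : MGS) (l : ℕ)
    (IH : ∀ (E : Type) [NormedAddCommGroup E] [NormedSpace ℂ E] [FiniteDimensional ℂ E]
      (Y Z V : Set E) (p : E), AnAt Y p → AnAt Z p → V ∈ 𝓝 p → l ≤ finrank ℂ E →
      (∀ k, l = k + 1 → Thin k (Y ∩ V)) → (l = 0 → Y ∩ V = ∅) → AnAt (closure (Y \ Z)) p)
    (E : Type) [NormedAddCommGroup E] [NormedSpace ℂ E] [FiniteDimensional ℂ E]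
    (Y Z V : Set E) (p : E) (hY : AnAt Y p) (hZ : AnAt Z p) (hV : V ∈ 𝓝 p) (hl : l ≤ finrank ℂ E)
    (hT : Thin l (Y ∩ V)) : AnAt (closure (Y \ Z)) p := by
  borelize E
  obtain ⟨m, hm⟩ := Nat.exists_eq_add_of_le hl
  have hfin : finrank ℂ (Fin l → ℂ) = l := by simp
  obtain ⟨L, e, -, hB⟩ := (h2 E (Fin l → ℂ) m Y (V ∩ {x | x ∈ closure Y → x ∈ Y}) p
    (by rw [hfin, hm]) (inter_mem hV (closed_near hY)) (fun x hx => hx.2)
    (h0.haus (h0.mono hT (inter_subset_inter_right _ inter_subset_left))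
      (by rw [hfin]; linarith))).nonempty
  obtain ⟨Y', V', hV', hY', a, b, c⟩ := step h1 h3 h4 h5 h6 h7 (img e hY) (img e hZ) hB
  rw [hfin] at a b
  have := pre (e : E →L[ℂ] (Fin l → ℂ) × (Fin m → ℂ))
    (c (IH _ Y' (e '' Z) V' (e p) hY' (img e hZ) hV' (by simp) a b))
  convert this using 1
  rw [← image_sdiff e.injective]
  change _ = e.toHomeomorph ⁻¹' closure (e.toHomeomorph '' (Y \ Z))
  rw [Homeomorph.preimage_closure, e.toHomeomorph.preimage_image]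

end Diff

open Diff in
theorem diffS (h0 : ThinS) (h1 : ZeroS) (h2 : ScaleS) (h3 : BCS) (h4 : CovS) (h5 : ConnS)
    (h6 : CanS) (h7 : MGS) : DiffS := by
  have main : ∀ (l : ℕ) (E : Type) [NormedAddCommGroup E] [NormedSpace ℂ E]
      [FiniteDimensional ℂ E] (Y Z V : Set E) (p : E), AnAt Y p → AnAt Z p → V ∈ 𝓝 p →
      l ≤ finrank ℂ E → Thin l (Y ∩ V) → AnAt (closure (Y \ Z)) p := by
    intro l
    induction l with
    | zero =>
      refine red h0 h1 h2 h3 h4 h5 h6 h7 0 fun E _ _ _ Y Z V p _ _ hV _ _ h => of_not ?_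
      filter_upwards [eventually_mem_nhds_iff.2 hV] with x hx hc
      obtain ⟨y, hy⟩ := mem_closure_iff_nhds.1 hc V hx
      exact (h rfl).subset ⟨hy.2.1, hy.1⟩
    | succ k ih =>
      exact red h0 h1 h2 h3 h4 h5 h6 h7 (k + 1) fun E _ _ _ Y Z V p hY hZ hV hl h _ =>
        ih E Y Z V p hY hZ hV (by omega) (h k rfl)
  intro E _ _ _ Y Z p hY hZ
  refine main (finrank ℂ E) E Y Z univ p hY hZ univ_mem le_rfl ?_
  exact h0.mono (h0.ofImage (φ := id) le_rfl isOpen_univ differentiableOn_id) (by simp)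

end Pool.Agent.Lib.MP_823829_an.LA
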