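import Mathlib
import Pool.Agent.Lib.MP_823829_an.LA.All
import Pool.Agent.Lib.MP_823829_an.LA.Pure
import Pool.Agent.Lib.MP_823829_an.LA.Stmt3

/-! Local analytic geometry: existence of local models. -/

namespace Pool.Agent.Lib.MP_823829_an.LA

open Set Filter Topology Metric Module

universe u

namespace ModAux

variable {T F H : Type} [NormedAddCommGroup T] [NormedSpace ℂ T] [NormedAddCommGroup F]
  [NormedSpace ℂ F] [NormedAddCommGroup H] [NormedSpace ℂ H]
  {X : Type u} [TopologicalSpace X] [ChartedSpace F X]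

/-- a set of the model space moved to `T × X` -/
def lift (x : X) (E : (T × F) ≃L[ℂ] H) (N : Set H) : Set (T × X) :=
  {p | p.2 ∈ (chartAt F x).source ∧ E (p.1, chartAt F x p.2) ∈ N}

theorem ch_lift (x : X) (E : (T × F) ≃L[ℂ] H) (N : Set H) :
    ch F x (lift x E N) = E ⁻¹' N ∩ univ ×ˢ (chartAt F x).target := by
  ext q
  constructor
  · rintro ⟨h1, -, h2⟩
    rw [(chartAt F x).right_inv h1] at h2
    exact ⟨h2, trivial, h1⟩
  · rintro ⟨h1, -, h2⟩
    refine ⟨h2, (chartAt F x).map_target h2, ?_⟩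
    rw [(chartAt F x).right_inv h2]
    exact h1

theorem contOn (x : X) (E : (T × F) ≃L[ℂ] H) :
    ContinuousOn (fun p : T × X => E (p.1, chartAt F x p.2)) (univ ×ˢ (chartAt F x).source) :=
  E.continuous.comp_continuousOn (continuousOn_fst.prodMk
    ((chartAt F x).continuousOn.comp continuousOn_snd fun _ hp => hp.2))

theorem isOpen_lift (x : X) (E : (T × F) ≃L[ℂ] H) {N : Set H} (hN : IsOpen N) :
    IsOpen (lift x E N) := by
  convert (contOn x E).isOpen_inter_preimage (isOpen_univ.prod (chartAt F x).open_source) hN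
    using 1
  ext p
  simp [lift]

omit [NormedSpace ℂ T] [NormedSpace ℂ F] in
theorem ch_mem_nhds (x : X) {O : Set (T × X)} {a : T × X} (ha : a.2 ∈ (chartAt F x).source)
    (hO : O ∈ 𝓝 a) : {q : T × F | q.2 ∈ (chartAt F x).target ∧
      (q.1, (chartAt F x).symm q.2) ∈ O} ∈ 𝓝 (a.1, chartAt F x a.2) := by
  have h1 := (chartAt F x).map_source ha
  have h2 : ContinuousAt (fun q : T × F => (q.1, (chartAt F x).symm q.2))
      (a.1, chartAt F x a.2) :=
    continuousAt_fst.prodMk (ContinuousAt.comp (f := Prod.snd)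
      ((chartAt F x).continuousAt_symm h1) continuousAt_snd)
  have h3 : O ∈ 𝓝 ((fun q : T × F => (q.1, (chartAt F x).symm q.2)) (a.1, chartAt F x a.2)) := by
    simpa only [(chartAt F x).left_inv ha] using hO
  exact inter_mem (continuousAt_snd.preimage_mem_nhds ((chartAt F x).open_target.mem_nhds h1))
    (h2.preimage_mem_nhds h3)

end ModAux

open ModAux in
theorem modS (tr : TrAll.{u}) (h1 : PrepS.{u}) (h2 : CauS) (h3 : PurModS) (h4 : AgrS) :
    ModS.{u} := by
  intro S Q F X _ _ _ _ _ _ _ _ _ _ _ _ _ k l z₀ Z Δ w x hT hF hG hw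
  obtain ⟨m, e, ε, a, b, ε₁, ρ, A, hρ, hC⟩ := h1 S Q F X k l z₀ Z Δ w x hF hG hw
  obtain ⟨ε₂, M₀, e0, e1, e2, hM₀, ag₀⟩ := h2 _ _ k l z₀ _ ε a b ε₁ _ A hF.big hC
  obtain ⟨ε', M', e3, -, hM, hp, ag⟩ := h3 _ _ _ k l z₀ _ ε₂ _ M₀ hF.big e0 hM₀
    (hC.fam.mono fun z hz q hq => hz.2 ⟨hq.1, by
      have := hq.2
      rw [← ball_prod_same] at this
      exact ⟨ball_subset_ball e1 this.1, ball_subset_ball e2 this.2⟩⟩) ag₀
  set p₀ := e (w, chartAt F x x) with hp₀
  let E : ((S × Q) × F) ≃L[ℂ] (S × (ℂ × ℂ)) × (Fin m → ℂ) :=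
    ((ContinuousLinearEquiv.prodAssoc ℂ S Q F).trans
      ((ContinuousLinearEquiv.refl ℂ S).prodCongr e)).trans
      (ContinuousLinearEquiv.prodAssoc ℂ S (ℂ × ℂ) (Fin m → ℂ)).symm
  have hE : ∀ q : (S × Q) × F, E q = ((q.1.1, (e (q.1.2, q.2)).1), (e (q.1.2, q.2)).2) :=
    fun _ => rfl
  have t := tr (S × Q) F X
  obtain ⟨b1, -, b3, -⟩ := bc _ _ M' _ isOpen_ball hM
  refine ⟨lift x E M', lift x E (ball (z₀, p₀.1) ε' ×ˢ ball p₀.2 ρ),
    ⟨mem_chart_source F x, mem_ball_self e3, mem_ball_self hρ⟩,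
    isOpen_lift x E (isOpen_ball.prod isOpen_ball), fun p hp' => ?_, ?_, ?_, ?_⟩
  · refine t.ofChart hT x hp'.1 ?_
    rw [ch_lift]
    exact ((hM.1 _ ⟨hp'.2.1, trivial⟩).preimage' E.differentiable).inter_open
      ((isOpen_univ.prod (chartAt F x).open_target).mem_nhds
        ⟨trivial, (chartAt F x).map_source hp'.1⟩)
  · refine t.thinChart hT x (fun p hp' => ⟨trivial, hp'.1.1⟩) ?_
    have hb : Thin (k + 3) (ball (z₀, p₀.1) ε') := by
      have := thinS.ofImage (k := k + 3) (φ := id) (W := ball (z₀, p₀.1) ε')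
        (by simp [finrank_prod, hF.big.dim]) isOpen_ball differentiableOn_id
      rwa [image_id] at this
    refine thinS.mono (thinS.image (b3 _ _ Subset.rfl hb) isOpen_univ (subset_univ _)
      E.symm.differentiable.differentiableOn) fun q hq => ?_
    have q1 : q ∈ ch F x (lift x E M') := ⟨hq.1, hq.2.1⟩
    have q2 : q ∈ ch F x (lift x E (ball (z₀, p₀.1) ε' ×ˢ ball p₀.2 ρ)) := ⟨hq.1, hq.2.2⟩
    rw [ch_lift] at q1 q2
    exact ⟨E q, ⟨q1.1, q2.1.1⟩, E.symm_apply_apply q⟩
  · filter_upwards [ag] with z hz w' x' hO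
    obtain ⟨o1, o2, o3⟩ := hO
    rw [hE, ← ball_prod_same] at o2
    rw [hE] at o3
    have key := hz _ o2.2 (e (w', chartAt F x x')).2
    constructor
    · rintro ⟨-, hm⟩
      obtain ⟨⟨q, hq, hq'⟩, -⟩ := key.1 hm
      obtain rfl : q = (w', chartAt F x x') := e.injective hq'
      simpa only [(chartAt F x).left_inv o1] using hq.2
    · intro hm
      refine ⟨o1, key.2 ⟨⟨(w', chartAt F x x'), ⟨(chartAt F x).map_source o1, ?_⟩, rfl⟩,
        trivial, o3⟩⟩
      simpa only [(chartAt F x).left_inv o1] using hm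
  · intro a ha hz B hB O' hO' hl
    obtain ⟨a1, a2, -⟩ := ha
    have an : AnAt M' (E (a.1, chartAt F x a.2)) := hM.1 _ ⟨a2, trivial⟩
    have key := h4 S (ℂ × ℂ) (Fin m → ℂ) k l M' (E.symm ⁻¹' ch F x B) (E.symm ⁻¹' ch F x O')
      (E (a.1, chartAt F x a.2)) (hz ▸ hF.big) an
      (pureS.box an univ_mem (by simpa using (b1 _ a2).countable))
      (by
        filter_upwards [continuousAt_fst.preimage_mem_nhds (isOpen_ball.mem_nhds a2)]
          with p hp' hm using hp ⟨hm, hp'⟩)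
      (AnAt.preimage' (by simpa using hB x a1) E.symm.differentiable)
      (E.symm.continuous.continuousAt.preimage_mem_nhds (by
        rw [E.symm_apply_apply]
        exact ch_mem_nhds x a1 hO'))
      (by
        filter_upwards [hl] with z hz' p hp' hpz hm
        obtain ⟨q, rfl⟩ := E.surjective p
        rw [mem_preimage, E.symm_apply_apply] at hp' ⊢
        have q1 : q ∈ ch F x (lift x E M') := by
          rw [ch_lift]
          exact ⟨hm, trivial, hp'.1⟩
        exact ⟨hp'.1, hz' _ hp'.2 hpz q1.2⟩)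
    have hs : (univ ×ˢ (chartAt F x).source : Set ((S × Q) × X)) ∈ 𝓝 a :=
      (isOpen_univ.prod (chartAt F x).open_source).mem_nhds ⟨trivial, a1⟩
    filter_upwards [((contOn x E).continuousAt hs).eventually key] with p hp' hm
    have h5 := hp' hm.2
    rw [mem_preimage, E.symm_apply_apply] at h5
    simpa only [(chartAt F x).left_inv hm.1] using h5.2

end Pool.Agent.Lib.MP_823829_an.LA
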