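import Mathlib
import Pool.Agent.Lib.MP_823829_an.LA.Stmt

/-! Local analytic geometry: the part of a monic system over a thin set is thin. -/

namespace Pool.Agent.Lib.MP_823829_an.LA

open Set Filter Topology Metric Module

namespace MonThin

/-- the statement for a fixed `k` -/
def P (k : ℕ) : Prop :=
  ∀ (T : Type) [NormedAddCommGroup T] [NormedSpace ℂ T] [FiniteDimensional ℂ T] (m : ℕ)
    (d : Fin m → ℕ) (a : ∀ j, T → Fin (d j) → ℂ) (N S : Set T), IsOpen N →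
    (∀ j, Mon (a j) N) → S ⊆ N → Thin k S → Thin k (ov (monSet a) S)

/-- the statement over an open subset of `ℂ^k` -/
def Q (k : ℕ) : Prop :=
  ∀ (m : ℕ) (d : Fin m → ℕ) (a : ∀ j, (Fin k → ℂ) → Fin (d j) → ℂ) (N : Set (Fin k → ℂ)),
    IsOpen N → (∀ j, Mon (a j) N) → Thin k (ov (monSet a) N)

theorem p_of_q (h1 : ThinS) {k : ℕ} (hQ : Q k) : P k := by
  intro T _ _ _ m d a N S hN ha hS hT
  obtain ⟨B, φ, hB, hφ, hcov⟩ := hT
  have hop : ∀ j, IsOpen (B j ∩ φ j ⁻¹' N) := fun j =>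
    (hφ j).continuousOn.isOpen_inter_preimage (hB j) hN
  have hth : ∀ j, Thin k ((fun q : (Fin k → ℂ) × (Fin m → ℂ) => (φ j q.1, q.2)) ''
      ov (monSet fun i u => a i (φ j u)) (B j ∩ φ j ⁻¹' N)) := by
    intro j
    have h0 : Thin k (ov (monSet fun i u => a i (φ j u)) (B j ∩ φ j ⁻¹' N)) := by
      refine hQ m d _ _ (hop j) fun i w => ?_
      exact (ha i w).comp ((hφ j).mono inter_subset_left) fun u hu => hu.2
    refine h1.image (V := B j ×ˢ univ) h0 ((hB j).prod isOpen_univ)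
      (fun q hq => ⟨hq.2.1, mem_univ _⟩) ?_
    refine DifferentiableOn.prodMk ?_ differentiableOn_snd
    exact (hφ j).comp differentiableOn_fst fun q hq => hq.1
  refine h1.mono (h1.iUnion hth) ?_
  rintro ⟨t, y⟩ ⟨hq, ht⟩
  obtain ⟨j, u, hu, hut⟩ : ∃ j u, u ∈ B j ∧ φ j u = t := by
    have := hcov ht
    simpa only [mem_iUnion, mem_image] using this
  subst hut
  exact mem_iUnion.2 ⟨j, (u, y), ⟨hq, hu, hS ht⟩, rfl⟩

theorem q_of (h1 : ThinS) (h3 : MonCovS) (h4 : CovS) {k : ℕ}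
    (hz : ∀ (m : ℕ) (d : Fin m → ℕ) (a : ∀ j, (Fin k → ℂ) → Fin (d j) → ℂ)
      (N : Set (Fin k → ℂ)) (δ : (Fin k → ℂ) → ℂ), IsOpen N → (∀ j, Mon (a j) N) →
      DifferentiableOn ℂ δ N → NZ δ N → Thin k (ov (monSet a) (N ∩ {t | δ t = 0}))) : Q k := by
  intro m d a N hN ha
  refine h1.loc fun p hp => ?_
  obtain ⟨ε, hε, hb⟩ := Metric.isOpen_iff.1 hN p.1 hp.2
  have ha' : ∀ j, Mon (a j) (ball p.1 ε) := fun j w => (ha j w).mono hb
  obtain ⟨δ, e, hδ, hnz, hcov⟩ := h3 _ m d a (ball p.1 ε) isOpen_ball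
    (convex_ball _ _).isPreconnected ha'
  refine ⟨ball p.1 ε ×ˢ univ, (isOpen_ball.prod isOpen_univ).mem_nhds
    ⟨mem_ball_self hε, mem_univ _⟩, ?_⟩
  have t1 : Thin k (ov (monSet a) (ball p.1 ε ∩ {t | δ t ≠ 0})) :=
    h4.thin (by simp) fun t ht => ⟨e, hcov t ht⟩
  have t2 := hz m d a (ball p.1 ε) δ isOpen_ball ha' hδ hnz
  refine h1.mono (h1.union t1 t2) ?_
  rintro q ⟨⟨hq, -⟩, hq', -⟩
  by_cases h0 : δ q.1 = 0
  · exact Or.inr ⟨hq, hq', h0⟩
  · exact Or.inl ⟨hq, hq', h0⟩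

theorem all (h1 : ThinS) (h2 : ZeroS) (h3 : MonCovS) (h4 : CovS) (k : ℕ) : P k := by
  induction k with
  | zero =>
    refine p_of_q h1 (q_of h1 h3 h4 fun m d a N δ _ _ _ hnz => ?_)
    refine h1.mono (h1.empty 0) ?_
    rintro q ⟨-, hq, h0⟩
    obtain ⟨y, hy⟩ := (hnz q.1 hq).exists
    exact hy (by rw [Subsingleton.elim y q.1]; exact h0)
  | succ k ih =>
    refine p_of_q h1 (q_of h1 h3 h4 fun m d a N δ hN ha hδ hnz => ?_)
    obtain ⟨B, φ, hB, -, hcov⟩ := h2 _ k δ N (by simp) hN hδ hnz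
    refine h1.le (ih _ m d a N _ hN ha inter_subset_left ?_) (Nat.le_succ k)
    exact ⟨B, φ, fun j => (hB j).op, fun j => (hB j).hol, hcov⟩

end MonThin

theorem monThinS (h1 : ThinS) (h2 : ZeroS) (h3 : MonCovS) (h4 : CovS) : MonThinS :=
  fun k => MonThin.all h1 h2 h3 h4 k

end Pool.Agent.Lib.MP_823829_an.LA
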