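import Pool.Agent.Lib.MP_823829_an.LA.All
import Pool.Agent.Lib.MP_823829_an.LA.Stmt2
import Pool.Agent.Lib.MP_823829_an.GM.Sep

/-! Structure of the graph of a meromorphic map. -/

namespace Pool.Agent.Lib.MP_823829_an.LA

open Set Filter Topology Metric MeasureTheory Module

universe u

namespace STaux

theorem exists_fun {T : Type} {X : Type u} {Γ : Set (T × X)} {V : Set T} (x₀ : X)
    (hV : ∀ z ∈ V, ∃! x, (z, x) ∈ Γ) : ∃ f : T → X, ∀ z ∈ V, ∀ x, ((z, x) ∈ Γ ↔ x = f z) := by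
  have : ∀ z, ∃ y : X, z ∈ V → ∀ x, ((z, x) ∈ Γ ↔ x = y) := fun z => by
    by_cases hz : z ∈ V
    · obtain ⟨y, hy, hu⟩ := hV z hz
      exact ⟨y, fun _ x => ⟨hu x, fun e => e ▸ hy⟩⟩
    · exact ⟨x₀, fun h => absurd h hz⟩
  choose f hf using this
  exact ⟨f, hf⟩

variable {T F : Type} {X : Type u} [NormedAddCommGroup T] [NormedSpace ℂ T]
  [NormedAddCommGroup F] [NormedSpace ℂ F] [TopologicalSpace X] [ChartedSpace F X]
  {Γ : Set (T × X)} {D : Set T}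

theorem anX_mono {V : Set T} (h : AnX F Γ D) (hV : V ⊆ D) : AnX F Γ V :=
  fun x₀ => (h x₀).mono (prod_mono hV Subset.rfl)

omit [NormedAddCommGroup T] [NormedSpace ℂ T] [NormedSpace ℂ F] in
theorem ch_mono {A B : Set (T × X)} (x₀ : X) (h : A ⊆ B) : ch F x₀ A ⊆ ch F x₀ B :=
  fun _ hq => ⟨hq.1, h hq.2⟩

theorem sub_regX (xb : XBS T F X) (hA : AnX F Γ D) {V : Set T} (hV : IsOpen V) (hVD : V ⊆ D)
    (h1 : ∀ z ∈ V, ∃! x, (z, x) ∈ Γ) : Γ ∩ V ×ˢ univ ⊆ RegX Γ := by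
  intro q hq
  obtain ⟨f, hf⟩ := exists_fun q.2 h1
  exact ⟨hq.1, V, univ, f, hV, isOpen_univ, hq.2.1, trivial, (xb.hol hV (anX_mono hA hVD) hf).1,
    mapsTo_univ _ _, fun t ht y _ => hf t ht y⟩

theorem sub_clos_reg (xb : XBS T F X) (hG : GMer F Γ D) : Γ ⊆ closure (RegX Γ) := by
  obtain ⟨V, hV, hVD, -, h1, hc⟩ := hG.ex
  exact hc.trans (closure_mono (sub_regX xb hG.an hV hVD h1))

variable [FiniteDimensional ℂ T] [FiniteDimensional ℂ F] [T2Space X] [CompactSpace X]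

theorem mem_int (xb : XBS T F X) (h5 : FinS.{u}) (hD : IsOpen D) (hG : GMer F Γ D) {z : T}
    (hz : z ∈ D) (hc : {x | (z, x) ∈ Γ}.Countable) : z ∈ interior (one Γ D) := by
  refine (h5 T F X Γ D z hD hG.an hz hc).2 (inter_subset_left.trans (sub_clos_reg xb hG)) ?_
  obtain ⟨V, hV, hVD, hDV, h1, -⟩ := hG.ex
  have hVo : V ⊆ one Γ D := fun w hw => ⟨hVD hw, h1 w hw⟩
  exact closure_mono (interior_maximal hVo hV) (hDV hz)

theorem op (xb : XBS T F X) (h5 : FinS.{u}) (hD : IsOpen D) (hG : GMer F Γ D) :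
    IsOpen (one Γ D) := by
  rw [← subset_interior_iff_isOpen]
  intro z hz
  obtain ⟨x, -, hu⟩ := hz.2
  exact mem_int xb h5 hD hG hz.1 ((countable_singleton x).mono fun y hy => hu y hy)

omit [CompactSpace X] in
/-- an isolated point of a fibre makes the fibre finite -/
theorem fin_of_isolated (xb : XBS T F X) (h1 : PureS) (hD : IsOpen D) (hG : GMer F Γ D)
    {q : T × X} (hq : q ∈ Γ) (hi : ∀ᶠ x in 𝓝[≠] q.2, (q.1, x) ∉ Γ) :
    {x | (q.1, x) ∈ Γ}.Finite := by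
  have : ProperSpace F := FiniteDimensional.proper ℂ F
  obtain ⟨z, x₀⟩ := q
  simp only at hi ⊢
  set c := chartAt F x₀ with hc
  have hx₀ : x₀ ∈ c.source := mem_chart_source F x₀
  have hy₀ : c x₀ ∈ c.target := c.map_source hx₀
  have hz : z ∈ D := (hG.sub hq).1
  set Y := ch F x₀ Γ with hY
  have hYa : AnAt Y (z, c x₀) := hG.an x₀ _ ⟨hz, hy₀⟩
  -- the box
  have hbox : Box Y (z, c x₀) := by
    have e1 : ∀ᶠ x in 𝓝 x₀, x ≠ x₀ → (z, x) ∉ Γ := eventually_nhdsWithin_iff.1 hi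
    have e2 : ∀ᶠ y in 𝓝 (c x₀), c.symm y ≠ x₀ → (z, c.symm y) ∉ Γ := by
      have t : Tendsto c.symm (𝓝 (c x₀)) (𝓝 x₀) := by
        have := c.continuousAt_symm hy₀
        rwa [ContinuousAt, c.left_inv hx₀] at this
      exact t.eventually e1
    refine h1.box (V := univ ×ˢ {y | c.symm y ≠ x₀ → (z, c.symm y) ∉ Γ}) hYa
      (prod_mem_nhds univ_mem e2) ((countable_singleton (c x₀)).mono fun y hy => ?_)
    have a1 : y ∈ c.target := hy.1.1
    have a2 : c.symm y = x₀ := by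
      by_contra hn
      exact hy.2.2 hn hy.1.2
    rw [mem_singleton_iff, ← a2, c.right_inv a1]
  obtain ⟨ε, ρ₁, ρ₂, hε, hρ₁, hρ, hsub, -, hsh, hbd⟩ := hbox.cut hYa
    (prod_mem_nhds (hD.mem_nhds hz) (c.open_target.mem_nhds hy₀))
  simp only at hsub hsh hbd
  obtain ⟨hfin, han, -⟩ := bc T F _ _ isOpen_ball hbd
  obtain ⟨V, hV, hVD, -, hone, hcl⟩ := hG.ex
  obtain ⟨f, hf⟩ := exists_fun x₀ hone
  have hfc : ContinuousOn f V := (xb.hol hV (anX_mono hG.an hVD) hf).1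
  have hO : IsOpen (c.source ∩ c ⁻¹' ball (c x₀) ρ₂) := c.isOpen_inter_preimage isOpen_ball
  -- the projection of the piece is the whole ball
  have hall : ball z ε ⊆ Prod.fst '' (Y ∩ univ ×ˢ ball (c x₀) ρ₂) := by
    obtain ⟨⟨z₁, x₁⟩, ⟨a1, a2⟩, a3, a4, -⟩ := mem_closure_iff.1 (hcl hq)
      (ball z ε ×ˢ (c.source ∩ c ⁻¹' ball (c x₀) ρ₂)) (isOpen_ball.prod hO)
      ⟨mem_ball_self hε, hx₀, mem_ball_self (hρ₁.trans hρ)⟩
    simp only at a1 a2 a4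
    refine han.subset_of_mem_nhds (convex_ball z ε).isPreconnected a1 ?_
    have b1 : x₁ = f z₁ := (hf z₁ a4 x₁).1 a3
    have b2 : ∀ᶠ w in 𝓝 z₁, f w ∈ c.source ∩ c ⁻¹' ball (c x₀) ρ₂ :=
      (hfc.continuousAt (hV.mem_nhds a4)).eventually (hO.mem_nhds (b1 ▸ a2))
    filter_upwards [b2, hV.mem_nhds a4] with w hw hwV
    refine ⟨(w, c (f w)), ⟨⟨c.map_source hw.1, ?_⟩, trivial, hw.2⟩, rfl⟩
    change (w, c.symm (c (f w))) ∈ Γ
    rw [c.left_inv hw.1]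
    exact (hf w hwV _).2 rfl
  have hKt : closedBall (c x₀) ρ₁ ⊆ c.target := fun y hy =>
    (hsub (⟨mem_closedBall_self hε.le, closedBall_subset_closedBall hρ.le hy⟩ :
      (z, y) ∈ closedBall z ε ×ˢ closedBall (c x₀) ρ₂)).2
  have hK : IsClosed (c.symm '' closedBall (c x₀) ρ₁) :=
    ((isCompact_closedBall _ _).image_of_continuousOn (c.continuousOn_symm.mono hKt)).isClosed
  have hin : ball z ε ×ˢ univ ∩ (Γ ∩ V ×ˢ univ) ⊆ univ ×ˢ (c.symm '' closedBall (c x₀) ρ₁) := by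
    rintro ⟨w, x⟩ ⟨⟨a1, -⟩, a2, a3, -⟩
    obtain ⟨⟨w', y⟩, ⟨b1, -, b2⟩, rfl⟩ := hall a1
    refine ⟨trivial, y, (hsh _ b1 (le_of_lt a1) (le_of_lt b2)).le, ?_⟩
    exact ((hf w' a3 _).1 b1.2).trans ((hf w' a3 x).1 a2).symm
  refine ((hfin z (mem_ball_self hε)).image c.symm).subset fun x hx => ?_
  have a1 : (z, x) ∈ closure (ball z ε ×ˢ univ ∩ (Γ ∩ V ×ˢ univ)) :=
    (isOpen_ball.prod isOpen_univ).inter_closure ⟨⟨mem_ball_self hε, trivial⟩, hcl hx⟩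
  obtain ⟨-, y, hy, rfl⟩ := closure_minimal hin (isClosed_univ.prod hK) a1
  exact ⟨y, ⟨⟨hKt hy, hx⟩, trivial, closedBall_subset_ball hρ hy⟩, rfl⟩

theorem acc (xb : XBS T F X) (h1 : PureS) (h5 : FinS.{u}) (hD : IsOpen D) (hG : GMer F Γ D)
    {q : T × X} (hq : q ∈ Γ) (hn : q.1 ∉ one Γ D) : ∃ᶠ x in 𝓝[≠] q.2, (q.1, x) ∈ Γ := by
  by_contra hc
  exact hn (interior_subset (mem_int xb h5 hD hG (hG.sub hq).1
    (fin_of_isolated xb h1 hD hG hq (not_frequently.1 hc)).countable))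

theorem ch_sig (xb : XBS T F X) (h1 : PureS) (h5 : FinS.{u}) (hD : IsOpen D) (hG : GMer F Γ D)
    (x₀ : X) : ch F x₀ (Γ ∩ (one Γ D)ᶜ ×ˢ univ) = NI (ch F x₀ Γ) := by
  set c := chartAt F x₀ with hc
  ext ⟨z, y⟩
  constructor
  · rintro ⟨a1, a2, a3, -⟩
    refine ⟨⟨a1, a2⟩, fun W hW hi => ?_⟩
    have hs : c.symm y ∈ c.source := c.map_target a1
    have t : Tendsto (fun x => (z, c x)) (𝓝 (c.symm y)) (𝓝 (z, y)) := by
      refine tendsto_const_nhds.prodMk_nhds ?_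
      have := c.continuousAt hs
      rwa [ContinuousAt, c.right_inv a1] at this
    have e : ∀ᶠ x in 𝓝[≠] (c.symm y), x ∈ c.source ∧ (z, c x) ∈ W :=
      ((c.open_source.eventually_mem hs).and (t.eventually hW)).filter_mono nhdsWithin_le_nhds
    obtain ⟨x, b1, ⟨b2, b3⟩, b4⟩ :=
      ((acc xb h1 h5 hD hG a2 a3).and_eventually (e.and self_mem_nhdsWithin)).exists
    have b5 : (z, c x) ∈ ch F x₀ Γ := by
      refine ⟨c.map_source b2, ?_⟩
      change (z, c.symm (c x)) ∈ Γ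
      rw [c.left_inv b2]
      exact b1
    have b6 := hi ⟨b5, b3⟩ ⟨⟨a1, a2⟩, mem_of_mem_nhds hW⟩ rfl
    refine b4 ?_
    rw [← (Prod.mk.inj b6).2, c.left_inv b2]
    rfl
  · rintro ⟨⟨a1, a2⟩, a3⟩
    refine ⟨a1, a2, fun hz => ?_, trivial⟩
    refine a3 (one Γ D ×ˢ univ) (prod_mem_nhds ((op xb h5 hD hG).mem_nhds hz) univ_mem) ?_
    rintro ⟨w, y₁⟩ ⟨⟨b1, b2⟩, b3, -⟩ ⟨w', y₂⟩ ⟨⟨b4, b5⟩, -⟩ e
    obtain rfl : w = w' := e
    exact Prod.ext rfl (c.symm.injOn b1 b4 (b3.2.unique b2 b5))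

end STaux

open STaux in
theorem stAll (h : XBall.{u}) (h1 : PureS) (h2 : NIS) (h3 : NDS) (h4 : ClosS.{u})
    (h5 : FinS.{u}) : STall.{u} := by
  intro T F X _ _ _ _ _ _ _ _ _ _ Γ D hD hG
  have xb := h T F X
  have hop := op xb h5 hD hG
  have hcl := xb.closed hG.an
  obtain ⟨V, hV, hVD, hDV, hone, hΓV⟩ := hG.ex
  have hVo : V ⊆ one Γ D := fun w hw => ⟨hVD hw, hone w hw⟩
  have hΓo : Γ ⊆ closure (Γ ∩ one Γ D ×ˢ univ) :=
    hΓV.trans (closure_mono (inter_subset_inter_right _ (prod_mono hVo Subset.rfl)))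
  have hunc : ∀ z ∈ D, z ∉ one Γ D → ¬ {x | (z, x) ∈ Γ}.Countable := fun z hz hn hc =>
    hn (interior_subset (mem_int xb h5 hD hG hz hc))
  have hthin : ThinX F (finrank ℂ T) Γ := fun x₀ =>
    thinS.mono ((h4 T F X Γ D V hD hG.an hV hVD hDV hone).2.2 x₀)
      (ch_mono x₀ fun q hq => ⟨hΓV hq, hG.sub hq⟩)
  have hsig : AnX F (Γ ∩ (one Γ D)ᶜ ×ˢ univ) D := fun x₀ p hp => by
    rw [ch_sig xb h1 h5 hD hG]
    exact h2 T F _ p (hG.an x₀ p hp)
  have hts : ∀ k, finrank ℂ T ≤ k + 1 → ThinX F k (Γ ∩ (one Γ D)ᶜ ×ˢ univ) := fun k hk x₀ => by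
    refine thinS.mono (h3 (T × F) k (ch F x₀ Γ) _ _ (hD.prod (chartAt F x₀).open_target)
      (hG.an x₀) (hsig x₀) (fun q hq => ch_mono x₀ inter_subset_left hq.1)
      (thinS.mono (thinS.le (hthin x₀) hk) inter_subset_left) fun q hq => ?_)
      fun q hq => ⟨hq, (hG.sub hq.2.1).1, hq.1⟩
    have a1 := ch_mono x₀ (inter_subset_left.trans hΓo) hq.1
    rw [xb.chClos] at a1
    refine closure_mono (fun r hr => ?_) a1.1
    exact ⟨⟨hr.1, hr.2.1⟩, fun hr' => hr'.2.2.1 hr.2.2.1⟩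
  have hti : ∀ k, finrank ℂ T ≤ k + 2 → Thin k (D \ one Γ D) := fun k hk =>
    thinS.mono (xb.unc (hts (k + 1) hk)) fun z hz hc =>
      hunc z hz.1 hz.2 (hc.mono fun x hx => by exact ⟨hx, hz.2, trivial⟩)
  have hlow : finrank ℂ T ≤ 1 → one Γ D = D := fun hk => by
    refine Subset.antisymm (fun z hz => hz.1) fun z hz => ?_
    by_contra hn
    refine hunc z hz hn (((xb.unc0 (hts 0 hk)).image Prod.snd).mono fun x hx => ?_)
    exact ⟨(z, x), ⟨hx, hn, trivial⟩, rfl⟩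
  refine ⟨hop, hDV.trans (closure_mono hVo), Subset.antisymm (fun q hq => ⟨hΓo hq, hG.sub hq⟩)
    fun q hq => hcl ⟨closure_mono inter_subset_left hq.1, hq.2⟩, fun z hz => ?_, fun f hf => ?_,
    fun q hq hn => acc xb h1 h5 hD hG hq hn, hunc, hthin, hsig, hts, hti, hlow,
    fun k hk x₀ => ?_, fun U hU hc hUD => ?_⟩
  · by_contra hn
    refine hunc z hz (fun hz' => hn hz'.2.exists) (countable_empty.mono fun x hx => hn ⟨x, hx⟩)
  · exact xb.hol hop (anX_mono hG.an fun z hz => hz.1) fun z hz x =>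
      ⟨fun hx => hz.2.unique hx (hf z hz), fun e => e ▸ hf z hz⟩
  · refine h1.ofReg hk fun q hq => ?_
    have a1 := ch_mono x₀ (sub_clos_reg xb hG) hq.1
    rw [xb.chClos] at a1
    refine closure_mono (fun r hr => ?_) a1.1
    have a2 : r ∈ ch F x₀ (RegX Γ) ∩ D ×ˢ univ := ⟨hr, (hG.sub hr.2.1).1, trivial⟩
    rw [xb.reg x₀ hD hG.an] at a2
    exact a2.1
  · by_cases hk : finrank ℂ T ≤ 1
    · rw [hlow hk, inter_eq_left.2 hUD]
      exact hc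
    · obtain ⟨k, hk'⟩ : ∃ k, finrank ℂ T = k + 2 := ⟨finrank ℂ T - 2, by omega⟩
      borelize T
      have e : U ∩ one Γ D = U \ (D \ one Γ D) := by
        ext z
        exact ⟨fun hz => ⟨hz.1, fun h' => h'.2 hz.2⟩,
          fun hz => ⟨hz.1, by_contra fun h' => hz.2 ⟨hUD hz.1, h'⟩⟩⟩
      rw [e]
      refine GM.isPreconnected_diff_of_isOpen (s := 2 * (k : ℝ) + 1) (by positivity) ?_
        (thinS.haus (hti k hk'.le) (by linarith)) hU hc (e ▸ hU.inter hop)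
      rw [finrank_real_of_complex, hk']
      push_cast
      linarith

end Pool.Agent.Lib.MP_823829_an.LA
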